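import Pool.Agent.Lib.MP_6947cd_al.C.TriL

/-!
Problem MP_6947cd_al (Chollet).  The sum of two entries of a triple; permutations of a triple.
-/

set_option autoImplicit false

namespace Pool.Agent.Lib.MP_6947cd_al
namespace C1

open B1

/-- the sum of two entries -/
theorem tri_add {g y z : ℝ} (h : Tri y z g) (hg0 : 0 ≤ g) (hy0 : 0 ≤ y) (hy1 : y ≤ 1) (hz0 : 0 ≤ z)
    (hz1 : z ≤ 1) {r : ℝ} (hr : 0 < r) : y + z ≤ 1 + r / 4 + g / r := by
  have h1 := triL h hy0 hy1 hz0 hz1 hg0 (p := 1) (q := 1) (r := r) (by norm_num) (by norm_num) hr.le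
  have h2 : 1 + r / 4 + g / r - (y + z)
      = (1 ^ 2 + 1 ^ 2 + r ^ 2 + 2 * 1 * r + 2 * 1 * r - 2 * 1 * 1 + 4 * 1 * 1 * g
        - (4 * 1 * r * y + 4 * 1 * r * z)) / (4 * r) := by
    field_simp
    ring
  rw [← sub_nonneg, h2]
  exact div_nonneg (by linarith) (by linarith)

theorem Tri.comm12 {x y z : ℝ} (h : Tri x y z) : Tri y x z := by
  unfold Tri at *
  linarith [mul_comm (Real.sqrt x) (Real.sqrt y)]

theorem Tri.comm23 {x y z : ℝ} (h : Tri x y z) : Tri x z y := by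
  unfold Tri at *
  have : Real.sqrt x * Real.sqrt z * Real.sqrt y = Real.sqrt x * Real.sqrt y * Real.sqrt z := by ring
  rw [this]
  linarith

end C1
end Pool.Agent.Lib.MP_6947cd_al
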