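import Pool.Agent.Lib.MP_6947cd_al.L.BoxLib
import Pool.Agent.Lib.MP_6947cd_al.L.LibUse

/-!
Problem MP_6947cd_al (Chollet).  The list of the library of pair functions.
-/

set_option autoImplicit false

namespace Pool.Agent.Lib.MP_6947cd_al
namespace CB

open CA

/-- THE LIBRARY: index `3 j + i`, `H0 = 100 + 10 j`, range of `s` up to `20 (i + 1)` -/
def LIB : List Box := [xL100_20, xL100_40, xL100_60, xL110_20, xL110_40, xL110_60,
  xL120_20, xL120_40, xL120_60, xL130_20, xL130_40, xL130_60,
  xL140_20, xL140_40, xL140_60, xL150_20, xL150_40, xL150_60,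
  xL160_20, xL160_40, xL160_60, xL170_20, xL170_40, xL170_60,
  xL180_20, xL180_40, xL180_60, xL190_20, xL190_40, xL190_60]

/-- all the pair inequalities -/
def LibII : Prop := ∀ x ∈ LIB, PropII x

/-- the knots of the library -/
def K20 : List ℕ := [50, 100, 150, 200, 250, 300, 350, 400, 450, 500, 550, 600, 650, 700, 750, 800, 850, 900, 950, 1000]

/-- the format of a class -/
def clF (c : Cl) : Bool := Nat.beq c.w 1000 && ((Nat.beq c.ty 1 || Nat.beq c.ty 3) && Nat.beq c.b.length 20)

/-- the format of a box -/
def boxF (x : Box) : Bool := x.k == K20 && x.cls.all clF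

theorem lib_format : LIB.all boxF = true := by decide +kernel

end CB
end Pool.Agent.Lib.MP_6947cd_al
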