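import Pool.Agent.Lib.MP_6947cd_al.Z.Defs
import Pool.Agent.Lib.MP_6947cd_al.Y.D

/-!
Problem MP_6947cd_al (Chollet).  CASE B, middle second entry: the class logic.
-/

set_option autoImplicit false
open scoped Matrix ComplexOrder

namespace Pool.Agent.Lib.MP_6947cd_al
namespace B2

open Ent Fr Fr.LL B1 B1.DM

namespace DM

variable {n : ℕ} {A : Matrix (Fin n) (Fin n) ℂ}

/-- the data of a vertex -/
noncomputable def q4 (A : Matrix (Fin n) (Fin n) ℂ) (i j k : Fin n) (u : Fin n → ℝ) (l : Fin n) : V4 :=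
  ⟨row A i l, row A j l, row A k l, u l⟩

lemma sum_c2 {κ : Type} [Fintype κ] [DecidableEq κ] (a b c : κ) (hac : a ≠ c) (hbc : b ≠ c)
    (f : κ → ℝ) : ∑ l ∈ ({a, b} : Finset κ)ᶜ, f l = f c + ∑ l ∈ C3 a b c, f l := by
  have h : ({a, b} : Finset κ)ᶜ = insert c (C3 a b c) := by
    ext l
    simp only [Finset.mem_insert, Finset.mem_compl, Finset.mem_singleton, not_or, mem_C3]
    constructor
    · rintro ⟨h1, h2⟩
      by_cases h3 : l = c
      · exact Or.inl h3
      · exact Or.inr ⟨h1, h2, h3⟩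
    · rintro (rfl | ⟨h1, h2, _⟩)
      · exact ⟨hac.symm, hbc.symm⟩
      · exact ⟨h1, h2⟩
  rw [h, Finset.sum_insert (by rw [mem_C3]; tauto)]

lemma GG_cases {κ : Type} [Fintype κ] [DecidableEq κ] (b : κ → ℝ) (i : κ) (hi : b i = 1) :
    GG.G κ b = F b ∨
      GG.G κ b ≤ min (∑ j ∈ Finset.univ.erase i, gtr (3 / 20) (9 / 20) (b j) - 6 / 125) (1 / 2) := by
  rcases le_or_gt (GG.G κ b) (F b) with h | h
  · exact Or.inl (le_antisymm h (F_le_GG b))
  · refine Or.inr ?_
    rcases le_total (min (∑ j ∈ Finset.univ.erase i, gtr (3 / 20) (9 / 20) (b j) - 6 / 125) (1 / 2))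
      (F b) with h2 | h2
    · have := GG_le b i hi (F b) le_rfl h2
      exact absurd h (not_lt.mpr this)
    · exact GG_le b i hi _ h2 le_rfl

/-- `rho` for the vertex `i` and the payer `j`, the third vertex `k` -/
lemma rho_le2 (i j k : Fin n) (hj : D What A j ≤ 0) :
    rho What A i j ≤ (if decide (0 < D What A k) = true ∧ 3 / 10 ≤ row A j k then row A i k else 0)
      + ∑ l ∈ C3 i j k, row A i l := by
  classical
  by_cases hk : decide (0 < D What A k) = true ∧ 3 / 10 ≤ row A j k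
  · rw [if_pos hk]
    have h := rho_le i j k hj
    rw [if_pos hk.1] at h
    exact h
  · rw [if_neg hk, zero_add]
    have h1 := rho_le_sum (W := What) (A := A) i j hj (C3 i j k) (fun l h1 h2 h3 h4 => by
      rw [mem_C3]
      refine ⟨h1, h2, fun h => hk ?_⟩
      rw [← h]
      exact ⟨by simpa using h3, h4⟩)
    refine h1.trans ?_
    exact Finset.sum_le_sum fun l _ => mul_le_of_le_one_left (row_nonneg A i l) (y_le_one l)

/-- THE CONFIGURATION of a counterexample to the local lemma. -/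
theorem cfg_of (hce : CEG GG A) (i j k : Fin n) (hij : i ≠ j) (hik : i ≠ k) (hjk : j ≠ k)
    (hD : 0 < D What A i) (hkj : row A i k ≤ row A i j) (T0 T1 : ℝ) (hT0 : 3 / 10 ≤ T0)
    (hk : T0 ≤ row A i k) (hk1 : row A i k ≤ T1)
    (hno : ¬ LLat What A i) (u : Fin n → ℝ)
    (hu : ∀ l, l ≠ i → l ≠ j → 0 ≤ u l ∧ u l ≤ 1 ∧
        ∃ c, PQ.Geo (row A i j) (row A i l) (row A j l) c (u l))
    (hn3 : 2 * Real.log (1 + row A i j) + GG.G (Fin n) (CEG.vrow i j u)
        < GG.G (Fin n) (row A i) + GG.G (Fin n) (row A j)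
          + ∑ l ∈ ({i, j} : Finset (Fin n))ᶜ, (lo2 (row A i l) (row A j l)
            - omg (min (u l) (max (row A i l) (row A j l)))))
    (m : ℝ) (w : V4) (T : Finset (Fin n)) (hTC : T ⊆ C3 i j k) (hm : 0 ≤ m ∧ m ≤ 3 / 10)
    (hx : 0 ≤ w.s ∧ w.s ≤ 3 / 10) (hy : 0 ≤ w.a ∧ w.a ≤ 1) (hz : 0 ≤ w.b ∧ w.b ≤ 1)
    (ty : Tri (row A i j) w.s w.a) (tz : Tri (row A i k) w.s w.b) (tv : Tri (row A j k) w.a w.b)
    (gv : ∃ c, PQ.Geo (row A i j) w.s w.a c w.u)
    (hTm : ∀ l ∈ T, row A i l ≤ m)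
    (hsum : ∀ φ : V4 → ℝ, φ ⟨0, 0, 0, 0⟩ = 0 → ∑ l ∈ C3 i j k, φ (q4 A i j k u l)
      = φ w + ∑ l ∈ T, φ (q4 A i j k u l))
    (hFM : ∀ (a b : ℝ) (φ : V4 → ℝ), φ ⟨0, 0, 0, 0⟩ = 0 →
      FM (1 ::ₘ a ::ₘ b ::ₘ (C3 i j k).val.map fun l => φ (q4 A i j k u l))
        = FM (1 ::ₘ a ::ₘ b ::ₘ φ w ::ₘ T.val.map fun l => φ (q4 A i j k u l)))
    (hFM2 : ∀ (a : ℝ) (φ : V4 → ℝ), φ ⟨0, 0, 0, 0⟩ = 0 →
      FM (1 ::ₘ a ::ₘ (C3 i j k).val.map fun l => φ (q4 A i j k u l))
        = FM (1 ::ₘ a ::ₘ φ w ::ₘ T.val.map fun l => φ (q4 A i j k u l))) :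
    ∃ (bj bk : Bool) (Gj Gk Gv : ℝ),
      Cfg bj bk T0 T1 m (row A i j) (row A i k) (row A j k) w.s w.a w.b (u k) w.u
        (T.val.map (q4 A i j k u)) Gj Gk Gv := by
  have hnn := fun a l => row_nonneg A a l
  have hle := fun a l => row_le_one A hce.psd hce.diag a l
  have hsym := fun a l => row_symm A hce.psd a l
  have hdg := fun a => row_diag A hce.diag a
  have hG := GG_eq_of_bad hce i hD
  have tri : ∀ a b c, Tri (row A a b) (row A a c) (row A b c) := by
    intro a b c
    have h := tri_row A hce.psd hce.diag a b c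
    unfold Tri
    linarith
  set Q : Multiset V4 := T.val.map (q4 A i j k u) with hQ
  have mS : Q.map V4.s = T.val.map fun l => V4.s (q4 A i j k u l) := by rw [hQ, Multiset.map_map]; rfl
  have mA : Q.map V4.a = T.val.map fun l => V4.a (q4 A i j k u l) := by rw [hQ, Multiset.map_map]; rfl
  have mB : Q.map V4.b = T.val.map fun l => V4.b (q4 A i j k u l) := by rw [hQ, Multiset.map_map]; rfl
  have mU : Q.map V4.u = T.val.map fun l => V4.u (q4 A i j k u l) := by rw [hQ, Multiset.map_map]; rfl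
  -- the rows
  have Fi : F (row A i) = FM (1 ::ₘ row A i j ::ₘ row A i k ::ₘ w.s ::ₘ Q.map V4.s) := by
    rw [mS, ← hFM _ _ V4.s rfl, F_eq_FM, map_row i j k hij hik hjk, hdg]
    rfl
  have Fj : F (row A j) = FM (1 ::ₘ row A i j ::ₘ row A j k ::ₘ w.a ::ₘ Q.map V4.a) := by
    rw [mA, ← hFM _ _ V4.a rfl, F_eq_FM, map_row j i k hij.symm hjk hik, hdg, C3_rot, hsym j i]
    rfl
  have Fk : F (row A k) = FM (1 ::ₘ row A i k ::ₘ row A j k ::ₘ w.b ::ₘ Q.map V4.b) := by
    rw [mB, ← hFM _ _ V4.b rfl, F_eq_FM, map_row k i j hik.symm hjk.symm hij, hdg, C3_rot2,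
      hsym k i, hsym k j]
    rfl
  have sS : (Q.map V4.s).sum = ∑ l ∈ T, V4.s (q4 A i j k u l) := by rw [mS]; rfl
  have sA : (Q.map V4.a).sum = ∑ l ∈ T, V4.a (q4 A i j k u l) := by rw [mA]; rfl
  have sB : (Q.map V4.b).sum = ∑ l ∈ T, V4.b (q4 A i j k u l) := by rw [mB]; rfl
  have si : ∑ l ∈ C3 i j k, row A i l = w.s + (Q.map V4.s).sum := by
    rw [sS]; exact hsum V4.s rfl
  have sj : ∑ l ∈ C3 i j k, row A j l = w.a + (Q.map V4.a).sum := by
    rw [sA]; exact hsum V4.a rfl
  have sk : ∑ l ∈ C3 i j k, row A k l = w.b + (Q.map V4.b).sum := by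
    rw [sB]; exact hsum V4.b rfl
  have hg0 : omg 0 = 0 := by unfold omg; norm_num
  have hl0 : lo2 0 0 = 0 := by
    unfold lo2 lv
    rw [max_self, min_self, if_neg (by norm_num), if_neg (by norm_num), if_neg (by norm_num),
      if_neg (by norm_num), if_neg (by norm_num), if_neg (by norm_num), if_neg (by norm_num), hg0]
    norm_num
  have hmapsum : ∀ φ : V4 → ℝ, (Q.map φ).sum = ∑ l ∈ T, φ (q4 A i j k u l) := by
    intro φ
    rw [hQ, Multiset.map_map]
    rfl
  have hOm : ∀ φ : V4 → ℝ, Om (Q.map φ) = ∑ l ∈ T, omg (φ (q4 A i j k u l)) := by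
    intro φ
    unfold Om
    rw [Multiset.map_map, hmapsum]
    rfl
  have ti : LL.tot A i = row A i j + row A i k + w.s + (Q.map V4.s).sum := by
    unfold LL.tot
    rw [sum_row i j k hij hik hjk, si]
    ring
  have tj : LL.tot A j = row A i j + row A j k + w.a + (Q.map V4.a).sum := by
    unfold LL.tot
    rw [sum_row j i k hij.symm hjk hik, C3_rot, sj, hsym j i]
    ring
  have tk : LL.tot A k = row A i k + row A j k + w.b + (Q.map V4.b).sum := by
    unfold LL.tot
    rw [sum_row k i j hik.symm hjk.symm hij, C3_rot2, sk, hsym k i, hsym k j]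
    ring
  have hDi : D What A i = FM (1 ::ₘ row A i j ::ₘ row A i k ::ₘ w.s ::ₘ Q.map V4.s)
      - What (row A i j + row A i k + w.s + (Q.map V4.s).sum) := by
    unfold D
    rw [hG, Fi, ti]
  have hS0 : 0 ≤ (Q.map V4.s).sum := by
    rw [sS]
    exact Finset.sum_nonneg fun l _ => hnn i l
  have hb1 : 3 / 10 ≤ row A i j := by linarith
  have hb2 : 3 / 10 ≤ row A i k := by linarith
  refine ⟨decide (0 < D What A j), decide (0 < D What A k), GG.G (Fin n) (row A j),
    GG.G (Fin n) (row A k), GG.G (Fin n) (CEG.vrow i j u), ?_⟩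
  have hGc : ∀ (a : Fin n) (V X Y Z : ℝ) (M : Multiset ℝ), F (row A a) = V →
      (∑ l ∈ Finset.univ.erase a, gtr (3 / 20) (9 / 20) (row A a l) = gtr (3 / 20) (9 / 20) X
        + gtr (3 / 20) (9 / 20) Y + gtr (3 / 20) (9 / 20) Z + (M.map (gtr (3 / 20) (9 / 20))).sum) →
      GG.G (Fin n) (row A a) ≤ max V (min (gtr (3 / 20) (9 / 20) X + gtr (3 / 20) (9 / 20) Y
        + gtr (3 / 20) (9 / 20) Z + (M.map (gtr (3 / 20) (9 / 20))).sum - 6 / 125) (1 / 2)) := by
    intro a V X Y Z M hV hs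
    rcases GG_cases (row A a) a (hdg a) with h | h
    · rw [h, hV]; exact le_max_left _ _
    · rw [hs] at h; exact h.trans (le_max_right _ _)
  have g0 : gtr (3 / 20) (9 / 20) 0 = 0 := gtr_zero _ _ (by norm_num)
  have hgm : ∀ φ : V4 → ℝ, ((Q.map φ).map (gtr (3 / 20) (9 / 20))).sum
      = ∑ l ∈ T, gtr (3 / 20) (9 / 20) (φ (q4 A i j k u l)) := by
    intro φ
    rw [hQ, Multiset.map_map, Multiset.map_map]
    rfl
  refine ⟨hkj, hle _ _, hk, hk1, ⟨hnn _ _, hle _ _⟩, hx, hy, hz, hm, tri i j k, ty, tz, tv,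
    (hu k hik.symm hjk.symm).2.2, gv, ?_, ?_, ?_, ?_, ?_, ?_, ?_, ?_, ?_, ?_, ?_, ?_, ?_, ?_, ?_, ?_⟩
  · -- the rests
    intro e he
    obtain ⟨l, hl, rfl⟩ := Multiset.mem_map.mp he
    obtain ⟨l1, l2, l3⟩ := mem_C3.mp (hTC hl)
    obtain ⟨u0, u1, uc⟩ := hu l l1 l2
    exact ⟨hnn _ _, hTm l hl, hnn _ _, hle _ _, hnn _ _, hle _ _, u0, u1, tri i j l, tri i k l, tri j k l, uc⟩
  · rw [← hDi]; exact hD
  · -- NR_ijk
    have h1 := hce.nr {i, j, k} (Finset.insert_nonempty i {j, k})
    have h2 := (S_three_ge A hce.psd hce.diag i j k hij hik hjk).1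
    have h3 : Real.log (2 * (row A i j + row A i k + row A j k)) ≤ Real.log (S A {i, j, k}) := by
      refine Real.log_le_log ?_ h2
      have := hnn j k
      linarith
    rw [Finset.sum_insert (by simp [hij, hik]), Finset.sum_insert (by simp [hjk]),
      Finset.sum_singleton] at h1
    change _ < GG.G (Fin n) (row A i) + ∑ l ∈ C3 i j k, omg (V4.s (q4 A i j k u l))
      + (GG.G (Fin n) (row A j) + ∑ l ∈ C3 i j k, omg (V4.a (q4 A i j k u l))
        + (GG.G (Fin n) (row A k) + ∑ l ∈ C3 i j k, omg (V4.b (q4 A i j k u l)))) at h1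
    rw [hsum (fun e => omg e.s) hg0, hsum (fun e => omg e.a) hg0, hsum (fun e => omg e.b) hg0, hG,
      Fi] at h1
    rw [hOm V4.s, hOm V4.a, hOm V4.b]
    linarith
  · -- NR_ij
    have h1 := hce.nr_pair2 i j hij
    rw [sum_c2 i j k hik hjk] at h1
    change _ < _ + (_ + ∑ l ∈ C3 i j k, lo2 (V4.s (q4 A i j k u l)) (V4.a (q4 A i j k u l))) at h1
    rw [hsum (fun e => lo2 e.s e.a) hl0, hG, Fi] at h1
    rw [hmapsum]
    linarith
  · -- NR_ik
    have h1 := hce.nr_pair2 i k hik
    rw [sum_c2 i k j hij hjk.symm] at h1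
    have e3 : C3 i k j = C3 i j k := by
      ext l; rw [mem_C3, mem_C3]; tauto
    rw [e3, hsym k j] at h1
    change _ < _ + (_ + ∑ l ∈ C3 i j k, lo2 (V4.s (q4 A i j k u l)) (V4.b (q4 A i j k u l))) at h1
    rw [hsum (fun e => lo2 e.s e.b) hl0, hG, Fi] at h1
    rw [hmapsum]
    linarith
  · -- NR_jk
    have h1 := hce.nr_pair2 j k hjk
    rw [sum_c2 j k i hij.symm hik.symm] at h1
    have e3 : C3 j k i = C3 i j k := by
      ext l; rw [mem_C3, mem_C3]; tauto
    rw [e3, hsym j i, hsym k i] at h1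
    change _ < _ + (_ + ∑ l ∈ C3 i j k, lo2 (V4.a (q4 A i j k u l)) (V4.b (q4 A i j k u l))) at h1
    rw [hsum (fun e => lo2 e.a e.b) hl0] at h1
    rw [hmapsum]
    linarith
  · -- N3
    have h1 := hn3
    rw [sum_c2 i j k hik hjk] at h1
    change _ < _ + (_ + ∑ l ∈ C3 i j k, (lo2 (V4.s (q4 A i j k u l)) (V4.a (q4 A i j k u l))
      - omg (min (V4.u (q4 A i j k u l)) (max (V4.s (q4 A i j k u l))
        (V4.a (q4 A i j k u l)))))) at h1
    rw [hsum (fun e => lo2 e.s e.a - omg (min e.u (max e.s e.a)))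
      (by simp only; rw [hl0, max_self, min_self, hg0]; norm_num), hG, Fi] at h1
    rw [hmapsum]
    linarith
  · -- the merged row, `F`
    refine le_trans (le_of_eq ?_) (F_le_GG (CEG.vrow i j u))
    rw [mU, ← hFM2 _ V4.u rfl, F_eq_FM, map_row i j k hij hik hjk]
    have v1 : CEG.vrow i j u i = 1 := by unfold CEG.vrow; rw [if_pos rfl]
    have v2 : CEG.vrow i j u j = 0 := by unfold CEG.vrow; rw [if_neg hij.symm, if_pos rfl]
    have v3 : CEG.vrow i j u k = u k := by
      unfold CEG.vrow; rw [if_neg hik.symm, if_neg hjk.symm]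
    have v4 : (C3 i j k).val.map (CEG.vrow i j u)
        = (C3 i j k).val.map fun l => V4.u (q4 A i j k u l) := by
      refine Multiset.map_congr rfl fun l hl => ?_
      obtain ⟨l1, l2, _⟩ := mem_C3.mp (show l ∈ C3 i j k from hl)
      unfold CEG.vrow
      rw [if_neg l1, if_neg l2]
      rfl
    rw [v1, v2, v3, v4, Multiset.cons_swap 1 0, FM_zero_cons]
  · -- the merged row, `gtr`
    have hv := GG_ge (CEG.vrow i j u) i (by unfold CEG.vrow; rw [if_pos rfl])
    refine le_trans (le_of_eq ?_) hv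
    congr 2
    rw [sum_row i j k hij hik hjk]
    have v2 : CEG.vrow i j u j = 0 := by unfold CEG.vrow; rw [if_neg hij.symm, if_pos rfl]
    have v3 : CEG.vrow i j u k = u k := by
      unfold CEG.vrow; rw [if_neg hik.symm, if_neg hjk.symm]
    have v4 : ∑ l ∈ C3 i j k, gtr (3 / 20) (9 / 20) (CEG.vrow i j u l)
        = ∑ l ∈ C3 i j k, gtr (3 / 20) (9 / 20) (V4.u (q4 A i j k u l)) := by
      refine Finset.sum_congr rfl fun l hl => ?_
      obtain ⟨l1, l2, _⟩ := mem_C3.mp hl
      unfold CEG.vrow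
      rw [if_neg l1, if_neg l2]
      rfl
    have g0 : gtr (3 / 20) (9 / 20) 0 = 0 := gtr_zero _ _ (by norm_num)
    rw [v2, v3, v4, g0, zero_add, hsum (fun e => gtr (3 / 20) (9 / 20) e.u) g0, hmapsum]
    ring
  · exact class_of hce j _ _ Fj tj
  · exact class_of hce k _ _ Fk tk
  · refine hGc j _ _ _ _ _ Fj ?_
    rw [sum_row j i k hij.symm hjk hik, C3_rot, hsym j i, hgm]
    have h1 := hsum (fun e => gtr (3 / 20) (9 / 20) e.a) g0
    change ∑ l ∈ C3 i j k, gtr (3 / 20) (9 / 20) (row A j l) = _ at h1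
    rw [h1]
    ring
  · refine hGc k _ _ _ _ _ Fk ?_
    rw [sum_row k i j hik.symm hjk.symm hij, C3_rot2, hsym k i, hsym k j, hgm]
    have h1 := hsum (fun e => gtr (3 / 20) (9 / 20) e.b) g0
    change ∑ l ∈ C3 i j k, gtr (3 / 20) (9 / 20) (row A k l) = _ at h1
    rw [h1]
    ring
  · intro hbj
    have hj : ¬ 0 < D What A j := by simpa using hbj
    by_contra hcon
    push Not at hcon
    refine hno ?_
    refine LLat_of_one hce.psd hce.diag i j hD hb1
      ((if decide (0 < D What A k) = true ∧ 3 / 10 ≤ row A j k then row A i k else 0) + w.s + (Q.map V4.s).sum)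
      (fun _ => ?_) ?_ ?_
    · have := rho_le2 i j k (not_lt.mp hj)
      rw [si] at this
      linarith
    · have : 0 ≤ (if decide (0 < D What A k) = true ∧ 3 / 10 ≤ row A j k then row A i k else 0) := by
        split_ifs
        · exact hnn _ _
        · exact le_rfl
      linarith [hx.1]
    · have e : LL.need What A i j
          ((if decide (0 < D What A k) = true ∧ 3 / 10 ≤ row A j k then row A i k else 0) + w.s + (Q.map V4.s).sum)
          = B1.need (D What A i) (row A i j)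
            ((if decide (0 < D What A k) = true ∧ 3 / 10 ≤ row A j k then row A i k else 0) + w.s
              + (Q.map V4.s).sum) := rfl
      rw [e, hDi]
      refine hcon.trans (le_of_eq ?_)
      unfold D
      rw [tj]
      ring
  · intro hbk
    have hk' : ¬ 0 < D What A k := by simpa using hbk
    by_contra hcon
    push Not at hcon
    refine hno ?_
    refine LLat_of_one hce.psd hce.diag i k hD hb2
      ((if decide (0 < D What A j) = true ∧ 3 / 10 ≤ row A j k then row A i j else 0) + w.s + (Q.map V4.s).sum)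
      (fun _ => ?_) ?_ ?_
    · have := rho_le2 i k j (not_lt.mp hk')
      have e : C3 i k j = C3 i j k := by
        ext l; rw [mem_C3, mem_C3]; tauto
      rw [e, si, hsym k j] at this
      linarith
    · have : 0 ≤ (if decide (0 < D What A j) = true ∧ 3 / 10 ≤ row A j k then row A i j else 0) := by
        split_ifs
        · exact hnn _ _
        · exact le_rfl
      linarith [hx.1]
    · have e : LL.need What A i k
          ((if decide (0 < D What A j) = true ∧ 3 / 10 ≤ row A j k then row A i j else 0) + w.s + (Q.map V4.s).sum)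
          = B1.need (D What A i) (row A i k)
            ((if decide (0 < D What A j) = true ∧ 3 / 10 ≤ row A j k then row A i j else 0) + w.s
              + (Q.map V4.s).sum) := rfl
      rw [e, hDi]
      refine hcon.trans (le_of_eq ?_)
      unfold D
      rw [tk]
      ring
  · intro hbj hbk
    have hj : ¬ 0 < D What A j := by simpa using hbj
    have hk' : ¬ 0 < D What A k := by simpa using hbk
    by_contra hcon
    push Not at hcon
    refine hno ?_
    have r1 := rho_le i j k (not_lt.mp hj)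
    have r2 := rho_le i k j (not_lt.mp hk')
    have e3 : C3 i k j = C3 i j k := by
      ext l; rw [mem_C3, mem_C3]; tauto
    rw [if_neg (by simpa using hk'), zero_add, si] at r1
    rw [if_neg (by simpa using hj), zero_add, e3, si] at r2
    refine LLat_of_two hce.psd hce.diag i j k hjk hD (not_lt.mp hj) (not_lt.mp hk') hb1 hb2
      (w.s + (Q.map V4.s).sum) (w.s + (Q.map V4.s).sum) r1 r2 ?_
    have e1 : LL.need What A i j (w.s + (Q.map V4.s).sum)
      = B1.need (D What A i) (row A i j) (w.s + (Q.map V4.s).sum) := rfl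
    have e2 : LL.need What A i k (w.s + (Q.map V4.s).sum)
      = B1.need (D What A i) (row A i k) (w.s + (Q.map V4.s).sum) := rfl
    rw [e1, e2, hDi]
    refine hcon.trans (le_of_eq ?_)
    unfold D
    rw [tj, tk, neg_sub, neg_sub]

end DM

open DM in
/-- THE CLASS LOGIC. -/
theorem specD : SpecD := by
  classical
  intro T0 T1 X hT0 hZ hV n A hce i j k hij hik hjk hD hkj hk hk1 hrest
  by_contra hno
  have hnn := fun a l => row_nonneg A a l
  have hle := fun a l => row_le_one A hce.psd hce.diag a l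
  have tri : ∀ a b c, Tri (row A a b) (row A a c) (row A b c) := by
    intro a b c
    have h := tri_row A hce.psd hce.diag a b c
    unfold Tri
    linarith
  obtain ⟨u, hu, hn3⟩ := hce.pairQ2 i j hij
  have hr : ∀ l ∈ C3 i j k, row A i l ≤ 3 / 10 := by
    intro l hl
    obtain ⟨h1, h2, h3⟩ := mem_C3.mp hl
    exact hrest l h1 h2 h3
  -- no special vertex, `m` a bound of the rests
  have hnosp : ∀ m : ℝ, 0 ≤ m → m ≤ 3 / 10 → m ≤ X → (∀ l ∈ C3 i j k, row A i l ≤ m) → False := by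
    intro m hm0 hm hmX hml
    obtain ⟨bj, bk, Gj, Gk, Gv, hC⟩ := cfg_of hce i j k hij hik hjk hD hkj T0 T1 hT0 hk hk1 hno u hu
      hn3 m ⟨0, 0, 0, 0⟩ (C3 i j k) (fun _ h => h) ⟨hm0, hm⟩ ⟨le_rfl, by norm_num⟩
      ⟨le_rfl, zero_le_one⟩ ⟨le_rfl, zero_le_one⟩
      (by unfold Tri; simp only; rw [Real.sqrt_zero]; linarith [hle i j])
      (by unfold Tri; simp only; rw [Real.sqrt_zero]; linarith [hle i k])
      (by unfold Tri; simp only; rw [Real.sqrt_zero]; linarith [hle j k])
      ⟨0, ⟨hnn _ _, hle _ _, le_rfl, le_rfl, zero_le_one, le_rfl, by norm_num, by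
        simp only; linarith [hle i j], by simp only; ring⟩⟩ hml
      (fun φ h => by rw [h, zero_add])
      (fun a b φ h => by
        rw [h, Multiset.cons_swap b 0, Multiset.cons_swap a 0, Multiset.cons_swap 1 0, FM_zero_cons])
      (fun a φ h => by
        rw [h, Multiset.cons_swap a 0, Multiset.cons_swap 1 0, FM_zero_cons])
    exact hZ bj bk m _ _ _ _ _ Gj Gk Gv hmX hC
  rcases Finset.eq_empty_or_nonempty (C3 i j k) with hem | hne
  · rcases le_total X 0 with hX | hX
    · -- `X ≤ 0`: special vertex with entry zero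
      obtain ⟨bj, bk, Gj, Gk, Gv, hC⟩ := cfg_of hce i j k hij hik hjk hD hkj T0 T1 hT0 hk hk1 hno u hu
        hn3 0 ⟨0, 0, 0, 0⟩ (C3 i j k) (fun _ h => h) ⟨le_rfl, by norm_num⟩ ⟨le_rfl, by norm_num⟩
        ⟨le_rfl, zero_le_one⟩ ⟨le_rfl, zero_le_one⟩
        (by unfold Tri; simp only; rw [Real.sqrt_zero]; linarith [hle i j])
        (by unfold Tri; simp only; rw [Real.sqrt_zero]; linarith [hle i k])
        (by unfold Tri; simp only; rw [Real.sqrt_zero]; linarith [hle j k])
        ⟨0, ⟨hnn _ _, hle _ _, le_rfl, le_rfl, zero_le_one, le_rfl, by norm_num, by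
          simp only; linarith [hle i j], by simp only; ring⟩⟩
        (fun l hl => by rw [hem] at hl; exact absurd hl (Finset.notMem_empty l))
        (fun φ h => by rw [h, zero_add])
        (fun a b φ h => by
          rw [h, Multiset.cons_swap b 0, Multiset.cons_swap a 0, Multiset.cons_swap 1 0,
            FM_zero_cons])
        (fun a φ h => by
          rw [h, Multiset.cons_swap a 0, Multiset.cons_swap 1 0, FM_zero_cons])
      exact hV bj bk _ _ _ 0 0 0 _ 0 _ Gj Gk Gv hX hC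
    · exact hnosp 0 le_rfl (by norm_num) hX (fun l hl => by
        rw [hem] at hl; exact absurd hl (Finset.notMem_empty l))
  obtain ⟨v, hv, hvm⟩ := Finset.exists_max_image (C3 i j k) (fun l => row A i l) hne
  rcases le_total (row A i v) X with hX | hX
  · exact hnosp (row A i v) (hnn _ _) (hr v hv) hX hvm
  · -- the special vertex
    obtain ⟨v1, v2, v3⟩ := mem_C3.mp hv
    obtain ⟨uv0, uv1, uvc⟩ := hu v v1 v2
    set T := (C3 i j k).erase v with hT
    have hins : C3 i j k = insert v T := (Finset.insert_erase hv).symm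
    have hvT : v ∉ T := Finset.notMem_erase _ _
    have hmp : ∀ f : Fin n → ℝ, (C3 i j k).val.map f = f v ::ₘ T.val.map f := by
      intro f
      rw [hins, Finset.insert_val_of_notMem hvT, Multiset.map_cons]
    obtain ⟨bj, bk, Gj, Gk, Gv, hC⟩ := cfg_of hce i j k hij hik hjk hD hkj T0 T1 hT0 hk hk1 hno u hu
      hn3 (row A i v) (q4 A i j k u v) T (Finset.erase_subset _ _) ⟨hnn _ _, hr v hv⟩
      ⟨hnn _ _, hr v hv⟩ ⟨hnn _ _, hle _ _⟩ ⟨hnn _ _, hle _ _⟩ (tri i j v) (tri i k v) (tri j k v) uvc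
      (fun l hl => hvm l (Finset.mem_of_mem_erase hl))
      (fun φ _ => by rw [hins, Finset.sum_insert hvT])
      (fun a b φ _ => by rw [hmp]) (fun a φ _ => by rw [hmp])
    exact hV bj bk _ _ _ _ _ _ _ _ _ Gj Gk Gv hX hC

end B2
end Pool.Agent.Lib.MP_6947cd_al
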