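import Pool.Agent.Lib.MP_6947cd_al.Z.LeafR
import Pool.Agent.Lib.MP_6947cd_al.L.N3Cell

/-!
Problem MP_6947cd_al (Chollet).  CASE B, middle second entry: the function of the main entries.
-/

set_option autoImplicit false
open Finset

namespace Pool.Agent.Lib.MP_6947cd_al
namespace B2

open Ent Fr Fr.WT CC B1

/-- tangent of `omg` at `m` -/
noncomputable def tau (m u : ℝ) : ℝ := omg m + (43 / 200 + 39 / 100 * m) * (u - m)

lemma tau_le (m u : ℝ) : tau m u ≤ omg u := by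
  unfold tau omg
  nlinarith [sq_nonneg (u - m)]

lemma tau_mono {m u v : ℝ} (hm : 0 ≤ m) (h : u ≤ v) : tau m u ≤ tau m v := by
  unfold tau
  nlinarith [mul_nonneg (show (0 : ℝ) ≤ 43 / 200 + 39 / 100 * m by positivity) (sub_nonneg.mpr h)]

lemma omg_convex (s : Set ℝ) (hs : Convex ℝ s) : ConvexOn ℝ s fun t => omg t := by
  refine ⟨hs, fun x _ y _ a b ha hb hab => ?_⟩
  simp only [smul_eq_mul]
  unfold omg
  have hb' : b = 1 - a := by linarith
  subst hb'
  nlinarith [mul_nonneg (mul_nonneg ha hb) (sq_nonneg (x - y))]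

/-- quadratic loss -/
noncomputable def qL (a b u : ℝ) : ℝ := a * u + b / 2 * u ^ 2

lemma qL_convex {a b : ℝ} (hb : 0 ≤ b) (s : Set ℝ) (hs : Convex ℝ s) : ConvexOn ℝ s fun t => qL a b t := by
  refine ⟨hs, fun x _ y _ p q hp hq hpq => ?_⟩
  simp only [smul_eq_mul]
  unfold qL
  have hq' : q = 1 - p := by linarith
  subst hq'
  nlinarith [mul_nonneg hb (mul_nonneg (mul_nonneg hp hq) (sq_nonneg (x - y)))]

lemma qL_mono {a b u v : ℝ} (ha : 0 ≤ a) (hb : 0 ≤ b) (hu : 0 ≤ u) (h : u ≤ v) : qL a b u ≤ qL a b v := by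
  unfold qL
  have h1 := mul_le_mul_of_nonneg_left h ha
  have h2 : u ^ 2 ≤ v ^ 2 := by nlinarith
  have h3 := mul_le_mul_of_nonneg_left h2 (show 0 ≤ b / 2 by positivity)
  linarith

/-- majorant of `gtr`: quadratic (`false`) or constant (`true`) -/
noncomputable def kL (f : Bool) (u : ℝ) : ℝ := bif f then 1017 / 8000 else 43 / 200 * u + 3 / 20 * u ^ 2

lemma gtr_le_kL (f : Bool) {u : ℝ} (hu : 0 ≤ u) : gtr (3 / 20) (9 / 20) u ≤ kL f u := by
  have h1 : 0 ≤ min u (9 / 20) := le_min hu (by norm_num)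
  cases f with
  | false =>
    simp only [kL, cond_false]
    unfold gtr
    have h2 : min u (9 / 20) ≤ u := min_le_left _ _
    nlinarith
  | true =>
    simp only [kL, cond_true]
    unfold gtr
    have h2 : min u (9 / 20) ≤ 9 / 20 := min_le_right _ _
    nlinarith

lemma kL_mono (f : Bool) {u v : ℝ} (hu : 0 ≤ u) (h : u ≤ v) : kL f u ≤ kL f v := by
  cases f with
  | false =>
    simp only [kL, cond_false]
    nlinarith
  | true => exact le_rfl

lemma kL_convex (f : Bool) (s : Set ℝ) (hs : Convex ℝ s) : ConvexOn ℝ s fun t => kL f t := by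
  cases f with
  | false =>
    have := qL_convex (a := 43 / 200) (b := 3 / 10) (by norm_num) s hs
    refine this.congr fun u _ => ?_
    simp only [kL, qL, cond_false]
    ring
  | true => exact convexOn_const _ hs

/-- the parameters of the function -/
structure SP where
  a3 : ℝ
  a1 : ℝ
  /-- two-entry loss -/
  A0 : ℝ
  B0 : ℝ
  /-- majorant of `gtr` -/
  kf : Bool
  /-- `false`: the smaller entry is bounded by `g`, `true`: by `t` -/
  mf : Bool
  um : ℝ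
  vm : ℝ
  pA : ℝ
  pB : ℝ
  pC : ℝ
  /-- linear terms -/
  c0 : ℝ
  lx : ℝ
  ly : ℝ
  lz : ℝ
  lg : ℝ

/-- the loss of the two entries -/
noncomputable def SP.LO (P : SP) (t g : ℝ) : ℝ :=
  max (max (qL P.A0 P.B0 t + omg g) (qL P.A0 P.B0 g + omg t)) (max (kL P.kf t + omg g) (kL P.kf g + omg t))

/-- the loss of the smaller entry -/
noncomputable def SP.LM (P : SP) (t g : ℝ) : ℝ :=
  bif P.mf then max (qL P.A0 P.B0 t) (kL P.kf t) else max (qL P.A0 P.B0 g) (kL P.kf g)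

/-- THE FUNCTION of the main entries -/
noncomputable def SP.S (P : SP) (U Uv : (Fin 6 → ℝ) → ℝ) (v : Fin 6 → ℝ) : ℝ :=
  P.a3 * (omg (v 3) + omg (v 4) + omg (v 5) - 2 * Real.log (2 * (v 0 + v 1 + v 2)))
    + P.a1 * (max (P.LO (v 1) (v 2) - tau P.um (U v)) (P.LM (v 1) (v 2)) - P.pA - P.pB * U v
      + (omg (v 3) + omg (v 4) - tau P.vm (Uv v) - P.pC * Uv v) - 2 * Real.log (1 + v 0))
    + (P.c0 + P.lx * v 3 + P.ly * v 4 + P.lz * v 5 + P.lg * v 2)

/-- the function is convex in every coordinate -/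
theorem SP.cc (P : SP) (h3 : 0 ≤ P.a3) (h1 : 0 ≤ P.a1) (hB : 0 ≤ P.B0) {lo hi : Fin 6 → ℝ} {U Uv : (Fin 6 → ℝ) → ℝ}
    (hU : Ma U) (hUv : Ma Uv) (h0 : 0 < lo 0) (h10 : 0 ≤ lo 1) (h2 : 0 ≤ lo 2) : Cc lo hi (P.S U Uv) := by
  have ho : ∀ j : Fin 6, Cc lo hi fun v => omg (v j) := fun j => cc_coord j (omg_convex _ (convex_Icc _ _))
  have hq : ∀ j : Fin 6, Cc lo hi fun v => qL P.A0 P.B0 (v j) := fun j =>
    cc_coord j (qL_convex hB _ (convex_Icc _ _))
  have hk : ∀ j : Fin 6, Cc lo hi fun v => kL P.kf (v j) := fun j => cc_coord j (kL_convex _ _ (convex_Icc _ _))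
  have hm : ∀ c d : ℝ, ∀ j : Fin 6, Ma fun v : Fin 6 → ℝ => c * v j + d := fun c d j =>
    ((Ma.coord j).smul c).add (Ma.const d)
  have l1 : Cc lo hi fun v : Fin 6 → ℝ => -Real.log (2 * (v 0 + v 1 + v 2)) := by
    have hma : Ma fun v : Fin 6 → ℝ => 2 * (v 0 + v 1 + v 2) :=
      (((Ma.coord 0).add (Ma.coord 1)).add (Ma.coord 2)).smul 2
    refine hma.neg_log fun v hv => ?_
    have b0 := (hv 0).1
    have b1 := (hv 1).1
    have b2 := (hv 2).1
    linarith
  have l2 : Cc lo hi fun v : Fin 6 → ℝ => -Real.log (1 + v 0) := by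
    have hma : Ma fun v : Fin 6 → ℝ => 1 + v 0 := (Ma.const 1).add (Ma.coord 0)
    refine hma.neg_log fun v hv => ?_
    have b0 := (hv 0).1
    linarith
  have htau : ∀ m : ℝ, ∀ V : (Fin 6 → ℝ) → ℝ, Ma V → Ma fun v => -tau m (V v) := by
    intro m V hV
    have := ((hV.smul (-(43 / 200 + 39 / 100 * m))).add
      (Ma.const (-(omg m - (43 / 200 + 39 / 100 * m) * m))))
    refine fun v i => ?_
    obtain ⟨p, q, h⟩ := this v i
    refine ⟨p, q, fun u => ?_⟩
    rw [← h u]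
    unfold tau
    ring
  have hLO : Cc lo hi fun v : Fin 6 → ℝ => P.LO (v 1) (v 2) :=
    (((hq 1).add (ho 2)).max ((hq 2).add (ho 1))).max (((hk 1).add (ho 2)).max ((hk 2).add (ho 1)))
  have hLM : Cc lo hi fun v : Fin 6 → ℝ => P.LM (v 1) (v 2) := by
    unfold SP.LM
    cases P.mf with
    | false => exact (hq 2).max (hk 2)
    | true => exact (hq 1).max (hk 1)
  have hcc : Cc lo hi fun v : Fin 6 → ℝ => max (P.LO (v 1) (v 2) + -tau P.um (U v)) (P.LM (v 1) (v 2)) :=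
    (hLO.add (htau P.um U hU).cc).max hLM
  have hcv : Cc lo hi fun v : Fin 6 → ℝ => omg (v 3) + omg (v 4) + (-tau P.vm (Uv v) + -P.pC * Uv v) :=
    ((ho 3).add (ho 4)).add ((htau P.vm Uv hUv).add (hUv.smul (-P.pC))).cc
  have s3 := ((((ho 3).add (ho 4)).add (ho 5)).add (l1.smul (show (0 : ℝ) ≤ 2 by norm_num))).smul h3
  have s1 := (((hcc.add ((hU.smul (-P.pB)).add (Ma.const (-P.pA))).cc).add hcv).add
    (l2.smul (show (0 : ℝ) ≤ 2 by norm_num))).smul h1
  have s0 : Ma fun v : Fin 6 → ℝ => P.c0 + P.lx * v 3 + P.ly * v 4 + P.lz * v 5 + P.lg * v 2 :=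
    ((((Ma.const P.c0).add ((Ma.coord 3).smul P.lx)).add ((Ma.coord 4).smul P.ly)).add
      ((Ma.coord 5).smul P.lz)).add ((Ma.coord 2).smul P.lg)
  refine ((s3.add s1).add s0.cc).congr fun v _ => ?_
  unfold SP.S
  ring_nf

/-- the loss of the two entries, majorants -/
lemma SP.LO_ge (P : SP) {t g : ℝ} (ht : 0 ≤ t) (hg : 0 ≤ g)
    (hlv : lv (max t g) (min t g) ≤ l1 P.A0 P.B0 (min t g)) : lo2 t g ≤ P.LO t g := by
  unfold lo2 SP.LO
  have hm : 0 ≤ min t g := le_min ht hg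
  have h1 := gtr_le_kL P.kf hm
  have h2 : lv (max t g) (min t g) ≤ max (qL P.A0 P.B0 (min t g)) (kL P.kf (min t g)) :=
    hlv.trans (max_le_max le_rfl h1)
  rcases le_total t g with h | h
  · rw [min_eq_left h, max_eq_right h] at h2 ⊢
    rcases max_cases (qL P.A0 P.B0 t) (kL P.kf t) with ⟨e, -⟩ | ⟨e, -⟩
    · rw [e] at h2
      exact le_trans (by linarith) ((le_max_left _ _).trans (le_max_left _ _))
    · rw [e] at h2
      exact le_trans (by linarith) ((le_max_left _ _).trans (le_max_right _ _))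
  · rw [min_eq_right h, max_eq_left h] at h2 ⊢
    rcases max_cases (qL P.A0 P.B0 g) (kL P.kf g) with ⟨e, -⟩ | ⟨e, -⟩
    · rw [e] at h2
      exact le_trans (by linarith) ((le_max_right _ _).trans (le_max_left _ _))
    · rw [e] at h2
      exact le_trans (by linarith) ((le_max_right _ _).trans (le_max_right _ _))

lemma SP.LM_ge (P : SP) {t g : ℝ} (hA : 0 ≤ P.A0) (hB : 0 ≤ P.B0) (ht : 0 ≤ t) (hg : 0 ≤ g)
    (hlv : lv (max t g) (min t g) ≤ l1 P.A0 P.B0 (min t g)) :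
    lo2 t g - omg (max t g) ≤ P.LM t g := by
  unfold lo2 SP.LM
  have hm : 0 ≤ min t g := le_min ht hg
  have h1 := gtr_le_kL P.kf hm
  have h2 : lv (max t g) (min t g) ≤ max (qL P.A0 P.B0 (min t g)) (kL P.kf (min t g)) :=
    hlv.trans (max_le_max le_rfl h1)
  have h3 : ∀ w, min t g ≤ w → max (qL P.A0 P.B0 (min t g)) (kL P.kf (min t g))
      ≤ max (qL P.A0 P.B0 w) (kL P.kf w) := fun w hw =>
    max_le_max (qL_mono hA hB hm hw) (kL_mono _ hm hw)
  cases P.mf with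
  | false =>
    have := h3 g (min_le_right _ _)
    simp only [cond_false]
    linarith
  | true =>
    have := h3 t (min_le_left _ _)
    simp only [cond_true]
    linarith

/-- monotonicity in an entry -/
lemma FM_mono_cons (s : Multiset ℝ) (h1 : 1 ∈ s) (hs : ∀ z ∈ s, 0 ≤ z) {x x' : ℝ} (hx : 0 ≤ x)
    (hxx : x ≤ x') : FM (x ::ₘ s) ≤ FM (x' ::ₘ s) := by
  obtain ⟨n, b, hb⟩ := exists_row s
  rw [← hb, FM_cons_eq, FM_cons_eq]
  have hmem : ∀ j, b j ∈ s := fun j => by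
    rw [← hb]
    exact Multiset.mem_map_of_mem b (Finset.mem_univ_val j)
  obtain ⟨j, -, hj⟩ := Multiset.mem_map.mp (hb ▸ h1)
  refine F_mono _ _ (fun k => ?_) (fun k => ?_) ⟨some j, ?_⟩
  · cases k with
    | none => exact hx
    | some k => exact hs _ (hmem k)
  · cases k with
    | none => exact hxx
    | some k => exact le_rfl
  · show b j ≠ 0
    rw [hj]
    exact one_ne_zero

/-- monotonicity in the set of the entries -/
lemma FM_le_add (S R : Multiset ℝ) (h1 : 1 ∈ S) (hS : ∀ z ∈ S, 0 ≤ z) (hR : ∀ z ∈ R, 0 ≤ z) :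
    FM S ≤ FM (S + R) := by
  induction R using Multiset.induction_on with
  | empty => rw [add_zero]
  | cons e R ih =>
    have h2 := ih fun z hz => hR z (Multiset.mem_cons_of_mem hz)
    refine h2.trans ?_
    rw [Multiset.add_cons, ← FM_zero_cons]
    refine FM_mono_cons _ (Multiset.mem_add.mpr (Or.inl h1)) ?_ le_rfl (hR e (Multiset.mem_cons_self _ _))
    intro z hz
    rcases Multiset.mem_add.mp hz with hz | hz
    · exact hS z hz
    · exact hR z (Multiset.mem_cons_of_mem hz)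

/-- lower bound of the row of the merged vertex -/
theorem FM_two_ge {u v : ℝ} {U V : ℝ} {R : Multiset ℝ} (hU : 0 ≤ U) (hUu : U ≤ u) (hV : 0 ≤ V)
    (hVv : V ≤ v) (hR : ∀ e ∈ R, 0 ≤ e) :
    FM (1 ::ₘ U ::ₘ V ::ₘ 0) ≤ FM (1 ::ₘ u ::ₘ v ::ₘ R) := by
  have e1 : (1 : ℝ) ::ₘ U ::ₘ V ::ₘ 0 = U ::ₘ (1 ::ₘ V ::ₘ 0) := Multiset.cons_swap _ _ _
  have e2 : (1 : ℝ) ::ₘ u ::ₘ v ::ₘ R = (1 ::ₘ u ::ₘ v ::ₘ 0) + R := by
    simp only [Multiset.cons_add, zero_add]
  have e3 : u ::ₘ (1 : ℝ) ::ₘ V ::ₘ 0 = V ::ₘ (1 ::ₘ u ::ₘ 0) := by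
    rw [Multiset.cons_swap 1 V, Multiset.cons_swap u V, Multiset.cons_swap u 1]
  have e4 : (1 : ℝ) ::ₘ u ::ₘ v ::ₘ 0 = v ::ₘ (1 ::ₘ u ::ₘ 0) := by
    rw [Multiset.cons_swap u v, Multiset.cons_swap 1 v]
  rw [e1, e2]
  have s1 := FM_mono_cons (1 ::ₘ V ::ₘ 0) (Multiset.mem_cons_self _ _) (by
    intro z hz
    simp only [Multiset.mem_cons, Multiset.notMem_zero, or_false] at hz
    rcases hz with rfl | rfl
    · exact zero_le_one
    · exact hV) hU hUu
  have s2 := FM_mono_cons (1 ::ₘ u ::ₘ 0) (Multiset.mem_cons_self _ _) (by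
    intro z hz
    simp only [Multiset.mem_cons, Multiset.notMem_zero, or_false] at hz
    rcases hz with rfl | rfl
    · exact zero_le_one
    · exact hU.trans hUu) hV hVv
  rw [e3] at s1
  rw [← e4] at s2
  refine (s1.trans s2).trans (FM_le_add _ R (Multiset.mem_cons_self _ _) ?_ hR)
  intro z hz
  simp only [Multiset.mem_cons, Multiset.notMem_zero, or_false] at hz
  rcases hz with rfl | rfl | rfl
  · exact zero_le_one
  · exact hU.trans hUu
  · exact hV.trans hVv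

/-- THE BOUND OF THE FUNCTION -/
theorem SP.bound (P : SP) {bj bk : Bool} {T0 T1 m' h t g x y z uk uv : ℝ} {Q : Multiset V4} {Gj Gk Gv : ℝ}
    (c : Cfg bj bk T0 T1 m' h t g x y z uk uv Q Gj Gk Gv) (h1 : 0 ≤ P.a1) (hA : 0 ≤ P.A0)
    (hB : 0 ≤ P.B0) (hum : 0 ≤ P.um) (hvm : 0 ≤ P.vm)
    (hlv : P.a1 ≠ 0 → lv (max t g) (min t g) ≤ l1 P.A0 P.B0 (min t g)) {U Uv : ℝ}
    (hU : P.a1 ≠ 0 → 0 ≤ U ∧ U ≤ uk ∧ 0 ≤ Uv ∧ Uv ≤ uv ∧ Uv ≤ y ∧
      P.pA + P.pB * U + P.pC * Uv ≤ FM (1 ::ₘ U ::ₘ Uv ::ₘ 0)) (ht : 0 ≤ t) :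
    P.a3 * (omg x + omg y + omg z - 2 * Real.log (2 * (h + t + g)))
      + P.a1 * ((lo2 t g - omg (min uk (max t g))) + (lo2 x y - omg (min uv (max x y))) - Gv
        - 2 * Real.log (1 + h))
    ≤ P.a3 * (omg x + omg y + omg z - 2 * Real.log (2 * (h + t + g)))
      + P.a1 * (max (P.LO t g - tau P.um U) (P.LM t g) - P.pA - P.pB * U
        + (omg x + omg y - tau P.vm Uv - P.pC * Uv) - 2 * Real.log (1 + h)) := by
  rcases h1.eq_or_lt with h10 | h10
  · rw [← h10]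
    simp
  have hne : P.a1 ≠ 0 := h10.ne'
  obtain ⟨u0, u1, v0, v1, v2, hψ⟩ := hU hne
  have hlv := hlv hne
  have hg0 := c.g01.1
  have hx0 := c.x01.1
  have hx1 : x ≤ 1 := by have := c.x01.2; linarith
  have hy0 := c.y01.1
  have hR : ∀ e ∈ Q.map V4.u, 0 ≤ e := by
    intro e he
    obtain ⟨e', he', rfl⟩ := Multiset.mem_map.mp he
    exact (c.q e' he').2.2.2.2.2.2.1
  have hG := (hψ.trans (FM_two_ge u0 u1 v0 v1 hR)).trans c.gv1
  have k1 : lo2 t g - omg (min uk (max t g)) ≤ max (P.LO t g - tau P.um U) (P.LM t g) := by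
    rcases le_total uk (max t g) with h | h
    · rw [min_eq_left h]
      refine le_trans ?_ (le_max_left _ _)
      have e1 := P.LO_ge ht hg0 hlv
      have e2 := (tau_mono hum u1).trans (tau_le P.um uk)
      linarith
    · rw [min_eq_right h]
      exact (P.LM_ge hA hB ht hg0 hlv).trans (le_max_right _ _)
  have k2 : lo2 x y - omg (min uv (max x y)) ≤ omg x + omg y - tau P.vm Uv := by
    have e1 := lo2_le_omg hx0 hx1 hy0
    have e2 : Uv ≤ min uv (max x y) := le_min v1 (v2.trans (le_max_right _ _))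
    have e3 := (tau_mono hvm e2).trans (tau_le P.vm _)
    linarith
  have := mul_le_mul_of_nonneg_left (show (lo2 t g - omg (min uk (max t g))) + (lo2 x y - omg (min uv (max x y))) - Gv
        - 2 * Real.log (1 + h) ≤ max (P.LO t g - tau P.um U) (P.LM t g) - P.pA - P.pB * U
        + (omg x + omg y - tau P.vm Uv - P.pC * Uv) - 2 * Real.log (1 + h) by linarith) h1
  linarith

end B2
end Pool.Agent.Lib.MP_6947cd_al
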