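import Pool.Agent.Lib.MP_6947cd_al.Z.RealA
import Pool.Agent.Lib.MP_6947cd_al.Y.S5

/-!
Problem MP_6947cd_al (Chollet).  CASE B, middle second entry: the row functional on the cells of reduced multisets
(lines at the corners), and on boxes.
-/

set_option autoImplicit false
open Finset

namespace Pool.Agent.Lib.MP_6947cd_al
namespace B2

open Ent Ent.Pk Fr Fr.WT CC B1

lemma wdc (c p q : ℝ) : ConvexOn ℝ (Set.Icc p q) fun t => -WD.Wd (t + c) := by
  refine ⟨convex_Icc p q, fun x _ y _ a b ha hb hab => ?_⟩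
  have h := WD.Wd_concave.2 (Set.mem_univ (x + c)) (Set.mem_univ (y + c)) ha hb hab
  simp only [smul_eq_mul] at h ⊢
  have e : a * (x + c) + b * (y + c) = a * x + b * y + c := by
    have : a * (x + c) + b * (y + c) = a * x + b * y + (a + b) * c := by ring
    rw [this, hab, one_mul]
  rw [e] at h
  linarith

/-- the row functional; the alternative contains a linear term in the rests -/
noncomputable def VJ (A β : ℝ) (c : Af) (γ φ : ℝ → ℝ) (b g y : ℝ) (M : Multiset ℝ) : ℝ :=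
  (A + β) * max (FM (1 ::ₘ b ::ₘ g ::ₘ y ::ₘ M)) (c.val b g y + (M.map γ).sum)
    - β * WD.Wd (b + g + y + M.sum) + (M.map φ).sum

/-- the alternative at a multiset -/
noncomputable def Af.at (c : Af) (γ : ℝ → ℝ) (M : Multiset ℝ) : Af :=
  ⟨c.p + (M.map γ).sum, c.pb, c.pg, c.py⟩

lemma Af.at_val (c : Af) (γ : ℝ → ℝ) (M : Multiset ℝ) (b g y : ℝ) :
    (c.at γ M).val b g y = c.val b g y + (M.map γ).sum := by
  unfold Af.at Af.val
  ring

lemma VJ_eq (A β : ℝ) (c : Af) (γ φ : ℝ → ℝ) (b g y : ℝ) (M : Multiset ℝ) :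
    VJ A β c γ φ b g y M = UJ A β (c.at γ M) φ b g y M := by
  unfold VJ UJ
  rw [Af.at_val]

lemma convV (A β : ℝ) (c : Af) (γ φ : ℝ → ℝ) (b g y : ℝ) (hA : 0 ≤ A) (hβ : 0 ≤ β)
    (hb : 0 ≤ b ∧ b ≤ 1) (hg : 0 ≤ g ∧ g ≤ 1) (hy : 0 ≤ y ∧ y ≤ 1) (ks : List ℝ) :
    ∀ a : ℝ, 0 ≤ a → Inc a ks → Aff γ a ks → Aff φ a ks → ConvP (fun M => VJ A β c γ φ b g y M) a ks := by
  induction ks with
  | nil => intro a _ _ _ _; exact trivial
  | cons k ks ih =>
    intro a ha hinc hγ hφ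
    refine ⟨fun N hN => ?_, ih k (ha.trans hinc.1.le) hinc.2 hγ.2 hφ.2⟩
    have hN' : ∀ z ∈ y ::ₘ N, 0 ≤ z ∧ z ≤ 1 := by
      intro z hz
      rcases Multiset.mem_cons.mp hz with rfl | hz
      · exact hy
      · exact hN z hz
    have h1 := R1M.fmc (1 ::ₘ b ::ₘ g ::ₘ (y ::ₘ N)) (R1M.mem1 _ _ _) (R1M.memS hb hg hN') a k ha
      hinc.2.le_one
    have h2 := R1M.adc (S5M.affc hγ.1 1) (R1M.ctc (c.val b g y + (N.map γ).sum) a k)
    have h3 := R1M.smc (h1.sup h2) (A + β) (add_nonneg hA hβ)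
    have h4 := R1M.smc (wdc (b + g + y + N.sum) a k) β hβ
    have h5 := R1M.adc (S5M.affc hφ.1 1) (R1M.ctc ((N.map φ).sum) a k)
    refine (R1M.adc (R1M.adc h3 h4) h5).congr fun u _ => ?_
    have e : (1 : ℝ) ::ₘ b ::ₘ g ::ₘ y ::ₘ u ::ₘ N = u ::ₘ 1 ::ₘ b ::ₘ g ::ₘ (y ::ₘ N) := by
      rw [Multiset.cons_swap y u, Multiset.cons_swap g u, Multiset.cons_swap b u, Multiset.cons_swap 1 u]
    show (A + β) * max (FM (u ::ₘ 1 ::ₘ b ::ₘ g ::ₘ (y ::ₘ N))) (1 * γ u + (c.val b g y + (N.map γ).sum))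
      + β * (-WD.Wd (u + (b + g + y + N.sum))) + (1 * φ u + (N.map φ).sum) = VJ A β c γ φ b g y (u ::ₘ N)
    unfold VJ
    rw [e, Multiset.sum_cons, Multiset.map_cons, Multiset.map_cons, Multiset.sum_cons, Multiset.sum_cons,
      show b + g + y + (u + N.sum) = u + (b + g + y + N.sum) by ring,
      show c.val b g y + (γ u + (N.map γ).sum) = 1 * γ u + (c.val b g y + (N.map γ).sum) by ring]
    ring

/-- LINES at the corners of the cell bound the row functional. -/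
theorem cellV {A β : ℝ} (hA : 0 ≤ A) (hβ : 0 ≤ β) (c : Af) (γ φ : ℝ → ℝ) {b g y C : ℝ}
    (hb : 0 ≤ b ∧ b ≤ 1) (hg : 0 ≤ g ∧ g ≤ 1) (hy : 0 ≤ y ∧ y ≤ 1) {ks : List ℝ} {ns : List ℕ}
    {fs : List Bool} {M' : Multiset ℝ} (hinc : Inc 0 ks) (hγ : Aff γ 0 ks) (hφ : Aff φ 0 ks)
    (hred : Red 0 ks ns fs M')
    (H : ∀ t ∈ cors ns fs, VJ A β c γ φ b g y (Multiset.replicate t.1 0 + mk t.2 ks) ≤ C) :
    VJ A β c γ φ b g y M' ≤ C := by
  have h := corner_le (fun M => VJ A β c γ φ b g y M) C ks 0 ns fs 0 M' le_rfl hinc hred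
    (convV A β c γ φ b g y hA hβ hb hg hy ks 0 le_rfl hinc hγ hφ)
    (fun z hz => absurd hz (Multiset.notMem_zero z)) (by
      intro t ht
      rw [zero_add]
      exact H t ht)
  simpa only [zero_add] using h

/-- the corners of the box of the row bound the row functional -/
theorem boxU {A β : ℝ} (hA : 0 ≤ A) (hβ : 0 ≤ β) (c : Af) (φ : ℝ → ℝ) {b0 b1 g0 g1 y0 y1 b g y C : ℝ}
    (hb0 : 0 ≤ b0) (hb1 : b1 ≤ 1) (hg0 : 0 ≤ g0) (hg1 : g1 ≤ 1) (hy0 : 0 ≤ y0) (hy1 : y1 ≤ 1)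
    (b2 : b0 ≤ b) (b3 : b ≤ b1) (g2 : g0 ≤ g) (g3 : g ≤ g1) (y2 : y0 ≤ y) (y3 : y ≤ y1)
    {M : Multiset ℝ} (hM : ∀ e ∈ M, 0 ≤ e ∧ e ≤ 1)
    (H : ∀ bb bg by' : Bool, UJ A β c φ (bif bb then b1 else b0) (bif bg then g1 else g0)
      (bif by' then y1 else y0) M ≤ C) : UJ A β c φ b g y M ≤ C := by
  have h := (cc_UJ (lo := ![b0, 0, g0, 0, y0, 0]) (hi := ![b1, 1, g1, 1, y1, 1])
    (by
      intro i
      fin_cases i <;> simp [hb0, hg0, hy0])
    (by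
      intro i
      fin_cases i <;> simp [hb1, hg1, hy1])
    hA hβ c φ 0 2 4 (by decide) (by decide) (by decide) M hM).le_of_corners (C := C)
    (fun e => H (e 0) (e 2) (e 4)) (v := ![b, 0, g, 0, y, 0]) (by
      intro i
      fin_cases i <;> simp [b2, b3, g2, g3, y2, y3])
  exact h

/-- richness is a row functional -/
lemma VJ_rich (c : Af) (γ : ℝ → ℝ) (b g y : ℝ) (M : Multiset ℝ) :
    VJ 0 1 c γ (fun _ => 0) b g y M
      = max (FM (1 ::ₘ b ::ₘ g ::ₘ y ::ₘ M)) (c.val b g y + (M.map γ).sum) - WD.Wd (b + g + y + M.sum) := by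
  unfold VJ
  simp

lemma aff_zero (ks : List ℝ) : ∀ a, Aff (fun _ => 0) a ks := by
  induction ks with
  | nil => intro a; exact trivial
  | cons k ks ih => intro a; exact ⟨⟨0, 0, fun x _ _ => by ring⟩, ih k⟩

/-- RICHNESS at the corners of the cell and of the box gives richness. -/
theorem richV (c : Af) (γ : ℝ → ℝ) {d b0 b1 g0 g1 y0 y1 b g y : ℝ}
    (hb0 : 0 ≤ b0) (hb1 : b1 ≤ 1) (hg0 : 0 ≤ g0) (hg1 : g1 ≤ 1) (hy0 : 0 ≤ y0) (hy1 : y1 ≤ 1)
    (b2 : b0 ≤ b) (b3 : b ≤ b1) (g2 : g0 ≤ g) (g3 : g ≤ g1) (y2 : y0 ≤ y) (y3 : y ≤ y1)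
    {ks : List ℝ} {ns : List ℕ} {fs : List Bool} {M' : Multiset ℝ} (hinc : Inc 0 ks) (hγ : Aff γ 0 ks)
    (hred : Red 0 ks ns fs M') (hM : ∀ e ∈ M', 0 ≤ e ∧ e ≤ 1)
    (H : ∀ bb bg by' : Bool, ∀ t ∈ cors ns fs,
      max (FM (1 ::ₘ (bif bb then b1 else b0) ::ₘ (bif bg then g1 else g0) ::ₘ (bif by' then y1 else y0)
        ::ₘ (Multiset.replicate t.1 0 + mk t.2 ks)))
        (c.val (bif bb then b1 else b0) (bif bg then g1 else g0) (bif by' then y1 else y0)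
          + ((Multiset.replicate t.1 0 + mk t.2 ks).map γ).sum) + d
      ≤ WD.Wd ((bif bb then b1 else b0) + (bif bg then g1 else g0) + (bif by' then y1 else y0)
        + (Multiset.replicate t.1 0 + mk t.2 ks).sum)) :
    max (FM (1 ::ₘ b ::ₘ g ::ₘ y ::ₘ M')) (c.val b g y + (M'.map γ).sum) + d ≤ WD.Wd (b + g + y + M'.sum) := by
  have mB : ∀ q : Bool, 0 ≤ (bif q then b1 else b0) ∧ (bif q then b1 else b0) ≤ 1 := by
    intro q
    cases q <;> simp only [cond_true, cond_false] <;> constructor <;> linarith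
  have mG : ∀ q : Bool, 0 ≤ (bif q then g1 else g0) ∧ (bif q then g1 else g0) ≤ 1 := by
    intro q
    cases q <;> simp only [cond_true, cond_false] <;> constructor <;> linarith
  have mY : ∀ q : Bool, 0 ≤ (bif q then y1 else y0) ∧ (bif q then y1 else y0) ≤ 1 := by
    intro q
    cases q <;> simp only [cond_true, cond_false] <;> constructor <;> linarith
  have h := boxU (A := 0) (β := 1) (C := -d) le_rfl zero_le_one (c.at γ M') (fun _ => 0) hb0 hb1 hg0 hg1 hy0 hy1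
    b2 b3 g2 g3 y2 y3 hM (by
      intro bb bg by'
      rw [← VJ_eq]
      refine cellV le_rfl zero_le_one c γ (fun _ => 0) (mB bb) (mG bg) (mY by') hinc hγ (aff_zero ks 0) hred ?_
      intro t ht
      rw [VJ_rich]
      have := H bb bg by' t ht
      linarith)
  rw [← VJ_eq, VJ_rich] at h
  linarith

end B2
end Pool.Agent.Lib.MP_6947cd_al
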