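import Pool.Agent.Lib.MP_6947cd_al.L.N3Cell
import Pool.Agent.Lib.MP_6947cd_al.C.Ip

/-!
Problem MP_6947cd_al (Chollet).  THE MERGED ENTRY IN A CELL, general unit `1 / D` of the borders (`D * K = 10^6`):
exact check that the multi-affine interpolation of eight numbers (unit `10^-6`) lies below
`(2 (t + g) + r (g - t) - (1 - h)) / (2 (1 + h))`, `r = √(1 - h)`.
-/

set_option autoImplicit false
open Finset

namespace Pool.Agent.Lib.MP_6947cd_al
namespace UC

open Fr CC

/-- coefficients of the quartic (times `10^6 (H1 - H0)`) -/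
def k0 (D K H0 H1 T G : ℕ) (v0 v1 : ℤ) : ℤ :=
  2 * K * ((H1 : ℤ) - H0) * ((T : ℤ) + G) - 4 * (v0 * ((H1 : ℤ) - H0) + (v1 - v0) * (D - H0))
def k1 (K H0 H1 T G : ℕ) : ℤ := K * ((H1 : ℤ) - H0) * ((G : ℤ) - T)
def k2 (D H0 H1 : ℕ) (v0 v1 : ℤ) : ℤ :=
  -(1000000 * ((H1 : ℤ) - H0)) + 4 * D * (v1 - v0)
    + 2 * (v0 * ((H1 : ℤ) - H0) + (v1 - v0) * (D - H0))
def k4 (D : ℕ) (v0 v1 : ℤ) : ℤ := -(2 * D * (v1 - v0))

/-- the check at one corner of `(t, g)` -/
def chk1 (D K H0 H1 T G ra rb : ℕ) (v0 v1 : ℤ) : Bool :=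
  N3C.bchk (k0 D K H0 H1 T G v0 v1) (k1 K H0 H1 T G) (k2 D H0 H1 v0 v1) (k4 D v0 v1) ra rb

/-- the radii `ra ≤ 10^4 √(1 - h) ≤ rb` -/
def rchk (D K H0 H1 ra rb : ℕ) : Bool :=
  Nat.ble (D * ra ^ 2) (100000000 * (D - H1)) && (Nat.ble (100000000 * (D - H0)) (D * rb ^ 2) &&
    (Nat.blt H0 H1 && (Nat.ble H1 D && Nat.beq (D * K) 1000000)))

lemma rchk_elim {D K H0 H1 ra rb : ℕ} (hc : rchk D K H0 H1 ra rb = true) :
    (D : ℝ) * (ra : ℝ) ^ 2 ≤ 100000000 * ((D : ℝ) - H1) ∧ 100000000 * ((D : ℝ) - H0) ≤ D * (rb : ℝ) ^ 2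
      ∧ (H0 : ℝ) < H1 ∧ (H1 : ℝ) ≤ D ∧ (D : ℝ) * K = 1000000 := by
  unfold rchk at hc
  rw [Bool.and_eq_true, Bool.and_eq_true, Bool.and_eq_true, Bool.and_eq_true, Nat.ble_eq, Nat.ble_eq,
    Nat.blt_eq, Nat.ble_eq, Nat.beq_eq] at hc
  obtain ⟨c1, c2, c3, c4, c5⟩ := hc
  have d1 : ((D * ra ^ 2 : ℕ) : ℝ) ≤ ((100000000 * (D - H1) : ℕ) : ℝ) := by exact_mod_cast c1
  have d2 : ((100000000 * (D - H0) : ℕ) : ℝ) ≤ ((D * rb ^ 2 : ℕ) : ℝ) := by exact_mod_cast c2
  have e1 : ((D - H1 : ℕ) : ℝ) = D - (H1 : ℝ) := Nat.cast_sub c4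
  have e2 : ((D - H0 : ℕ) : ℝ) = D - (H0 : ℝ) := Nat.cast_sub (c3.le.trans c4)
  rw [Nat.cast_mul, Nat.cast_mul, e1] at d1
  rw [Nat.cast_mul, Nat.cast_mul, e2] at d2
  push_cast at d1 d2
  exact ⟨d1, d2, by exact_mod_cast c3, by exact_mod_cast c4, by exact_mod_cast c5⟩

/-- one corner: comparison with the affine function through `v0`, `v1` -/
theorem chk1_sound {D K H0 H1 T G ra rb : ℕ} {v0 v1 : ℤ} (hr : rchk D K H0 H1 ra rb = true)
    (hc : chk1 D K H0 H1 T G ra rb v0 v1 = true) {l h : ℝ} (hl0 : 0 ≤ l) (hl1 : l ≤ 1)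
    (hh : h = (1 - l) * ((H0 : ℝ) / D) + l * ((H1 : ℝ) / D)) :
    2 * (1 + h) * ((1 - l) * ((v0 : ℝ) / 1000000) + l * ((v1 : ℝ) / 1000000))
      ≤ 2 * ((T : ℝ) / D + (G : ℝ) / D) + Real.sqrt (1 - h) * ((G : ℝ) / D - (T : ℝ) / D) - (1 - h) := by
  obtain ⟨d1, d2, hd', hH1, hDK⟩ := rchk_elim hr
  have hd : 0 < (H1 : ℝ) - H0 := by linarith
  have hH00 : (0 : ℝ) ≤ H0 := Nat.cast_nonneg _
  have hD0 : (0 : ℝ) < D := by linarith
  -- bounds of `h` times `D`
  have hDh : (D : ℝ) * h = (1 - l) * H0 + l * H1 := by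
    rw [hh]
    field_simp
  have h0 : (H0 : ℝ) ≤ D * h := by
    rw [hDh]
    nlinarith [mul_nonneg hl0 hd.le]
  have h1 : (D : ℝ) * h ≤ H1 := by
    rw [hDh]
    nlinarith [mul_nonneg (sub_nonneg.mpr hl1) hd.le]
  have hle1 : h ≤ 1 := by
    have : (D : ℝ) * h ≤ D * 1 := by linarith
    exact le_of_mul_le_mul_left this hD0
  have hsq : Real.sqrt (1 - h) ^ 2 = 1 - h := Real.sq_sqrt (by linarith)
  have ra0 : (ra : ℝ) / 10000 ≤ Real.sqrt (1 - h) := by
    apply Real.le_sqrt_of_sq_le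
    rw [div_pow, div_le_iff₀ (by norm_num)]
    have : (D : ℝ) * (ra : ℝ) ^ 2 ≤ D * ((1 - h) * 10000 ^ 2) := by nlinarith
    exact le_of_mul_le_mul_left this hD0
  have rb0 : Real.sqrt (1 - h) ≤ (rb : ℝ) / 10000 := by
    rw [Real.sqrt_le_left (by positivity), div_pow, le_div_iff₀ (by norm_num)]
    have : (D : ℝ) * ((1 - h) * 10000 ^ 2) ≤ D * (rb : ℝ) ^ 2 := by nlinarith
    exact le_of_mul_le_mul_left this hD0
  set r := Real.sqrt (1 - h) with hrdef
  unfold chk1 at hc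
  have key := N3C.bchk_sound hc (r := r) (by rw [Int.cast_natCast]; exact ra0)
    (by rw [Int.cast_natCast]; exact rb0)
  unfold k0 k1 k2 k4 at key
  push_cast at key
  -- substitute `r² = 1 - h`
  have e4 : r ^ 4 = (1 - h) ^ 2 := by rw [← hsq]; ring
  rw [e4, hsq] at key
  -- the affine function
  have el : (1 - l) * ((v0 : ℝ) / 1000000) + l * ((v1 : ℝ) / 1000000)
      = ((v0 : ℝ) * (H1 - H0) + (v1 - v0) * (D * h - H0)) / (1000000 * (H1 - H0)) := by
    rw [eq_div_iff (by positivity), hDh]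
    ring
  have eK : (K : ℝ) = 1000000 / D := by
    rw [eq_div_iff hD0.ne']
    linarith
  rw [el, ← sub_nonneg]
  have e5 : 2 * ((T : ℝ) / D + (G : ℝ) / D) + r * ((G : ℝ) / D - (T : ℝ) / D) - (1 - h)
      - 2 * (1 + h) * (((v0 : ℝ) * (H1 - H0) + (v1 - v0) * (D * h - H0))
        / (1000000 * (H1 - H0)))
      = (2 * (K : ℝ) * ((H1 : ℝ) - H0) * (T + G) - 4 * (v0 * ((H1 : ℝ) - H0) + (v1 - v0) * (D - H0))
        + K * ((H1 : ℝ) - H0) * (G - T) * r
        + (-(1000000 * ((H1 : ℝ) - H0)) + 4 * D * (v1 - v0)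
          + 2 * (v0 * ((H1 : ℝ) - H0) + (v1 - v0) * (D - H0))) * (1 - h)
        + -(2 * D * ((v1 : ℝ) - v0)) * (1 - h) ^ 2) / (1000000 * (H1 - H0)) := by
    rw [eq_div_iff (by positivity), sub_mul, mul_assoc (2 * (1 + h)),
      div_mul_cancel₀ _ (show (1000000 * ((H1 : ℝ) - H0)) ≠ 0 by positivity), eK]
    field_simp
    ring
  rw [e5]
  exact div_nonneg key (by positivity)

/-- the eight values as a function of the corner -/
noncomputable def fn (V : N3C.V8) : Bool → Bool → Bool → ℝ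
  | false, false, false => (V.v000 : ℝ) / 1000000
  | false, false, true => (V.v001 : ℝ) / 1000000
  | false, true, false => (V.v010 : ℝ) / 1000000
  | false, true, true => (V.v011 : ℝ) / 1000000
  | true, false, false => (V.v100 : ℝ) / 1000000
  | true, false, true => (V.v101 : ℝ) / 1000000
  | true, true, false => (V.v110 : ℝ) / 1000000
  | true, true, true => (V.v111 : ℝ) / 1000000

/-- THE CHECK OF A CELL -/
def chkU (D K H0 H1 T0 T1 G0 G1 ra rb : ℕ) (V : N3C.V8) : Bool :=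
  rchk D K H0 H1 ra rb && (chk1 D K H0 H1 T0 G0 ra rb V.v000 V.v100 &&
    (chk1 D K H0 H1 T0 G1 ra rb V.v001 V.v101 && (chk1 D K H0 H1 T1 G0 ra rb V.v010 V.v110 &&
    chk1 D K H0 H1 T1 G1 ra rb V.v011 V.v111)))

variable {ι : Type} [DecidableEq ι] [Fintype ι]

/-- the interpolation on an edge -/
lemma Ip_edge {lo hi : ι → ℝ} (hlh : ∀ i, lo i < hi i) (f : (ι → Bool) → ℝ) (c : ι → Bool) (i : ι) (l : ℝ) :
    Ip lo hi f (Function.update (corner lo hi c) i ((1 - l) * lo i + l * hi i))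
      = (1 - l) * f (Function.update c i false) + l * f (Function.update c i true) := by
  obtain ⟨p, q, h⟩ := Ip_ma lo hi f (corner lo hi c) i
  have h0 := h (lo i)
  have h1 := h (hi i)
  have e0 := corner_update (lo := lo) (hi := hi) c i false
  have e1 := corner_update (lo := lo) (hi := hi) c i true
  simp only [cond_false, cond_true] at e0 e1
  rw [← e0, Ip_corner hlh] at h0
  rw [← e1, Ip_corner hlh] at h1
  rw [h, h0, h1]
  ring

/-- THE MERGED ENTRY IN A CELL -/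
theorem chkU_sound {D K H0 H1 T0 T1 G0 G1 ra rb : ℕ} {V : N3C.V8}
    (hc : chkU D K H0 H1 T0 T1 G0 G1 ra rb V = true) {lo hi : ι → ℝ} (hlh : ∀ i, lo i < hi i) {i j k : ι}
    (hij : i ≠ j) (hik : i ≠ k)
    (hi0 : lo i = (H0 : ℝ) / D) (hi1 : hi i = (H1 : ℝ) / D) (hj0 : lo j = (T0 : ℝ) / D)
    (hj1 : hi j = (T1 : ℝ) / D) (hk0 : lo k = (G0 : ℝ) / D) (hk1 : hi k = (G1 : ℝ) / D)
    {v : ι → ℝ} (hv : Box lo hi v) :
    2 * (1 + v i) * Ip lo hi (fun e => fn V (e i) (e j) (e k)) v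
      ≤ (2 - Real.sqrt (1 - v i)) * v j + (2 + Real.sqrt (1 - v i)) * v k - (1 - v i) := by
  unfold chkU at hc
  rw [Bool.and_eq_true, Bool.and_eq_true, Bool.and_eq_true, Bool.and_eq_true] at hc
  obtain ⟨hr, c00, c01, c10, c11⟩ := hc
  obtain ⟨l, l0, l1, el⟩ := PQ.exists_weight (hv i).1 (hv i).2
  set h := v i with hh
  set F : (ι → ℝ) → ℝ := fun w => 2 * (1 + h) * Ip lo hi (fun e => fn V (e i) (e j) (e k)) w
    + (-((2 - Real.sqrt (1 - h)) * w j) + -((2 + Real.sqrt (1 - h)) * w k)) with hF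
  have hma : Ma F := by
    rw [hF]
    exact ((Ip_ma lo hi _).smul _).add (((Ma.coord j).smul _).neg.add ((Ma.coord k).smul _).neg)
  have hcc := hma.cc (lo := Function.update lo i h) (hi := Function.update hi i h)
  have hB : Box (Function.update lo i h) (Function.update hi i h) v := by
    intro m
    by_cases hm : m = i
    · subst hm
      rw [Function.update_self, Function.update_self]
      exact ⟨le_rfl, le_rfl⟩
    · rw [Function.update_of_ne hm, Function.update_of_ne hm]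
      exact hv m
  have key := hcc.le_of_corners (C := -(1 - h)) (fun c => ?_) hB
  · rw [hF] at key
    beta_reduce at key
    linarith
  · -- the corner of the degenerate box
    have e : corner (Function.update lo i h) (Function.update hi i h) c
        = Function.update (corner lo hi c) i ((1 - l) * lo i + l * hi i) := by
      funext m
      by_cases hm : m = i
      · subst hm
        unfold corner
        rw [Function.update_self, Function.update_self, Function.update_self, ← el]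
        cases c m <;> rfl
      · unfold corner
        rw [Function.update_of_ne hm, Function.update_of_ne hm, Function.update_of_ne hm]
    rw [e, hF]
    beta_reduce
    rw [Ip_edge hlh]
    rw [Function.update_of_ne hij.symm, Function.update_of_ne hik.symm]
    have e1 : h = (1 - l) * ((H0 : ℝ) / D) + l * ((H1 : ℝ) / D) := by rw [el, hi0, hi1]
    rw [Function.update_self, Function.update_self, Function.update_of_ne hij.symm,
      Function.update_of_ne hik.symm, Function.update_of_ne hij.symm, Function.update_of_ne hik.symm]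
    unfold corner
    cases c j <;> cases c k <;> simp only [cond_true, cond_false, fn]
    · have := chk1_sound hr c00 l0 l1 e1
      rw [hj0, hk0]; linarith
    · have := chk1_sound hr c01 l0 l1 e1
      rw [hj0, hk1]; linarith
    · have := chk1_sound hr c10 l0 l1 e1
      rw [hj1, hk0]; linarith
    · have := chk1_sound hr c11 l0 l1 e1
      rw [hj1, hk1]; linarith

end UC
end Pool.Agent.Lib.MP_6947cd_al
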