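import Pool.Agent.Lib.MP_6947cd_al.Z.Pk4
import Pool.Agent.Lib.MP_6947cd_al.Z.Cell2
import Pool.Agent.Lib.MP_6947cd_al.Y.SideL
import Pool.Agent.Lib.MP_6947cd_al.Y.S6

/-!
Problem MP_6947cd_al (Chollet).  CASE B, middle second entry: the check of a row, real form.
-/

set_option autoImplicit false
open Finset

namespace Pool.Agent.Lib.MP_6947cd_al
namespace B2

open Ent Ent.Pk Fr Fr.WT PkA B1

/-- piecewise affine function, values `Vs / c` at the knots -/
noncomputable def nF (c : ℝ) (ks Vs : List ℕ) : ℝ → ℝ := ipl 0 0 (kR ks) (Vs.map fun v : ℕ => (v : ℝ) / c)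

lemma nF_facts (hS7 : SpecR7) (c : ℝ) (ks Vs : List ℕ) (h : KnOK ks) (hl : Vs.length = ks.length) :
    Aff (nF c ks Vs) 0 (kR ks) ∧ nF c ks Vs 0 = 0 ∧
    (kR ks).map (nF c ks Vs) = Vs.map fun v : ℕ => (v : ℝ) / c := by
  obtain ⟨h1, h2, h3⟩ := hS7 (kR ks) (Vs.map fun v : ℕ => (v : ℝ) / c) 0 0 h (by simp [kR, hl])
  refine ⟨h1, h2, ?_⟩
  apply List.ext_getElem
  · simp [kR, hl]
  · intro n hn1 hn2
    rw [List.getElem_map]
    have hn : n < (kR ks).length := by simpa using hn1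
    have h4 : nF c ks Vs (kR ks)[n] = (Vs.map fun v : ℕ => (v : ℝ) / c).getD n 0 := h3 n hn
    rw [h4, List.getD_eq_getElem _ _ hn2]

lemma nF_mk (hS3 : SpecS3) (hS7 : SpecR7) (c : ℝ) (ks Vs ns : List ℕ) (c1 : ℕ) (h : KnOK ks)
    (hl : Vs.length = ks.length) (hn : ns.length = ks.length) :
    ((Multiset.replicate c1 (0 : ℝ) + mk ns (kR ks)).map (nF c ks Vs)).sum = (Pk.dotN ns Vs : ℝ) / c := by
  obtain ⟨h1, h2, h3⟩ := nF_facts hS7 c ks Vs h hl
  have s1 := (hS3 (nF c ks Vs) (kR ks) ns (by rw [kR_length]; exact hn)).1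
  rw [h3] at s1
  rw [Multiset.map_add, Multiset.sum_add, s1, Multiset.map_replicate, Multiset.sum_replicate, h2, dotR_nat]
  simp

lemma Aff.sub {φ ψ : ℝ → ℝ} (ks : List ℝ) : ∀ a, Aff φ a ks → Aff ψ a ks → Aff (fun u => φ u - ψ u) a ks := by
  induction ks with
  | nil => intro a _ _; exact trivial
  | cons k ks ih =>
    intro a h1 h2
    obtain ⟨⟨p, q, hp⟩, h1⟩ := h1
    obtain ⟨⟨p', q', hp'⟩, h2⟩ := h2
    exact ⟨⟨p - p', q - q', fun x hx hx' => by beta_reduce; rw [hp x hx hx', hp' x hx hx']; ring⟩, ih k h1 h2⟩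

/-- the function of the rests of a row -/
noncomputable def phF (ks Os Rs : List ℕ) : ℝ → ℝ := fun u => nF 40000000 ks Os u - nF 40000000 ks Rs u

lemma phF_facts (hS7 : SpecR7) (ks Os Rs : List ℕ) (h : KnOK ks) (hl : Os.length = ks.length)
    (hl2 : Rs.length = ks.length) : Aff (phF ks Os Rs) 0 (kR ks) ∧ phF ks Os Rs 0 = 0 := by
  obtain ⟨h1, h2, -⟩ := nF_facts hS7 40000000 ks Os h hl
  obtain ⟨h3, h4, -⟩ := nF_facts hS7 40000000 ks Rs h hl2
  refine ⟨Aff.sub _ _ h1 h3, ?_⟩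
  unfold phF
  rw [h2, h4, sub_zero]

lemma phF_mk (hS3 : SpecS3) (hS7 : SpecR7) (ks Os Rs ns : List ℕ) (c1 : ℕ) (h : KnOK ks)
    (hl : Os.length = ks.length) (hl2 : Rs.length = ks.length) (hn : ns.length = ks.length) :
    ((Multiset.replicate c1 (0 : ℝ) + mk ns (kR ks)).map (phF ks Os Rs)).sum
      = ((Pk.dotN ns Os : ℝ) - Pk.dotN ns Rs) / 40000000 := by
  have h1 := nF_mk hS3 hS7 40000000 ks Os ns c1 h hl hn
  have h2 := nF_mk hS3 hS7 40000000 ks Rs ns c1 h hl2 hn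
  unfold phF
  rw [Multiset.sum_map_sub, h1, h2, sub_div]

/-- the constant alternative -/
def cAf (v : ℝ) : Af := ⟨v, 0, 0, 0⟩

lemma cAf_val (v b g y : ℝ) : (cAf v).val b g y = v := by
  unfold cAf Af.val
  ring

/-- the alternatives of a payer: constant, or `lam` with the linear function `gam` of the rests -/
noncomputable def altA (vh : ℕ) (lam : Af) (al : Bool) : Af := bif al then lam else cAf ((vh : ℝ) / 10 ^ 7)

/-- the linear function of the rests -/
noncomputable def altG (ks Gs : List ℕ) (al : Bool) : ℝ → ℝ := bif al then nF 10000000 ks Gs else fun _ => 0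

lemma alt_val (hS3 : SpecS3) (hS7 : SpecR7) (ks Gs : List ℕ) (hk : KnOK ks) (hlG : Gs.length = ks.length)
    (vh : ℕ) (lam : Af) (al : Bool) (ls : List ℕ) (bb bg by' : Bool) (b g y : ℝ)
    (hlam : lam.val b g y ≤ (ls.getD (ix bb bg by') 0 : ℝ) / 10 ^ 7) (ns : List ℕ) (c1 : ℕ)
    (hln : ns.length = ks.length) :
    (altA vh lam al).val b g y + ((Multiset.replicate c1 (0 : ℝ) + mk ns (kR ks)).map (altG ks Gs al)).sum
      ≤ ((bif al then ls.getD (ix bb bg by') 0 + Pk.dotN ns Gs else vh : ℕ) : ℝ) / 10 ^ 7 := by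
  cases al with
  | false =>
    simp only [altA, altG, cond_false, cAf_val]
    rw [Multiset.map_const', Multiset.sum_replicate, smul_zero, add_zero]
  | true =>
    simp only [altA, altG, cond_true]
    rw [nF_mk hS3 hS7 10000000 ks Gs ns c1 hk hlG hln]
    push_cast
    rw [add_div]
    norm_num at hlam ⊢
    linarith

end B2
end Pool.Agent.Lib.MP_6947cd_al
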