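import Mathlib

/-!
Problem MP_6947cd_al (Chollet).  Functions on a box which are convex in every single coordinate: they are bounded
by the values at the corners; closure properties.
-/

set_option autoImplicit false
open Finset

namespace Pool.Agent.Lib.MP_6947cd_al
namespace CC

variable {ι : Type} [DecidableEq ι]

/-- the box -/
def Box (lo hi v : ι → ℝ) : Prop := ∀ i, lo i ≤ v i ∧ v i ≤ hi i

/-- convex in every coordinate, on the box -/
def Cc (lo hi : ι → ℝ) (f : (ι → ℝ) → ℝ) : Prop :=
  ∀ v, Box lo hi v → ∀ i, ConvexOn ℝ (Set.Icc (lo i) (hi i)) fun u => f (Function.update v i u)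

/-- concave in every coordinate, on the box -/
def Cv (lo hi : ι → ℝ) (f : (ι → ℝ) → ℝ) : Prop :=
  ∀ v, Box lo hi v → ∀ i, ConcaveOn ℝ (Set.Icc (lo i) (hi i)) fun u => f (Function.update v i u)

/-- the corner -/
noncomputable def corner (lo hi : ι → ℝ) (c : ι → Bool) : ι → ℝ := fun i => bif c i then hi i else lo i

lemma Box.update {lo hi v : ι → ℝ} (h : Box lo hi v) {i : ι} {u : ℝ} (h0 : lo i ≤ u) (h1 : u ≤ hi i) :
    Box lo hi (Function.update v i u) := by
  intro j
  by_cases hj : j = i
  · subst hj; rw [Function.update_self]; exact ⟨h0, h1⟩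
  · rw [Function.update_of_ne hj]; exact h j

lemma ends {a b C x : ℝ} {f : ℝ → ℝ} (hf : ConvexOn ℝ (Set.Icc a b) f) (h0 : a ≤ x) (h1 : x ≤ b)
    (ha : f a ≤ C) (hb : f b ≤ C) : f x ≤ C := by
  have hab : a ≤ b := h0.trans h1
  have := hf.le_max_of_mem_Icc (Set.left_mem_Icc.mpr hab) (Set.right_mem_Icc.mpr hab)
    (show x ∈ Set.Icc a b from ⟨h0, h1⟩)
  exact this.trans (max_le ha hb)

/-- THE CORNERS BOUND THE FUNCTION. -/
theorem Cc.le_of_corners [Fintype ι] {lo hi : ι → ℝ} {f : (ι → ℝ) → ℝ} (hf : Cc lo hi f) {C : ℝ}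
    (hc : ∀ c : ι → Bool, f (corner lo hi c) ≤ C) {v : ι → ℝ} (hv : Box lo hi v) : f v ≤ C := by
  suffices H : ∀ s : Finset ι, ∀ w, Box lo hi w → (∀ i, i ∉ s → w i = lo i ∨ w i = hi i) → f w ≤ C from
    H Finset.univ v hv fun i hi => absurd (Finset.mem_univ i) hi
  intro s
  induction s using Finset.induction_on with
  | empty =>
    intro w _ h
    have : w = corner lo hi fun i => decide (w i = hi i) := by
      funext i
      unfold corner
      rcases h i (Finset.notMem_empty i) with h1 | h1
      · by_cases h2 : w i = hi i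
        · simp [h2]
        · show w i = bif decide (w i = hi i) then hi i else lo i
          rw [decide_eq_false h2, cond_false]
          exact h1
      · simp [h1]
    rw [this]
    exact hc _
  | insert i s hi' ih =>
    intro w hw h
    have hlh := (hw i).1.trans (hw i).2
    have key := ends (hf w hw i) (hw i).1 (hw i).2 (C := C)
      (ih _ (hw.update le_rfl hlh) (fun j hj => ?_)) (ih _ (hw.update hlh le_rfl) (fun j hj => ?_))
    · rwa [Function.update_eq_self] at key
    all_goals
      by_cases hji : j = i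
      · subst hji
        simp
      · rw [Function.update_of_ne hji]
        exact h j (fun hm => (Finset.mem_insert.mp hm).elim hji hj)

section closure

variable {lo hi : ι → ℝ} {f g : (ι → ℝ) → ℝ}

lemma Cc.add (hf : Cc lo hi f) (hg : Cc lo hi g) : Cc lo hi fun v => f v + g v :=
  fun v hv i => (hf v hv i).add (hg v hv i)

lemma Cc.smul {a : ℝ} (ha : 0 ≤ a) (hf : Cc lo hi f) : Cc lo hi fun v => a * f v := by
  intro v hv i
  exact (hf v hv i).smul ha

lemma Cc.const (a : ℝ) : Cc lo hi fun _ => a := fun _ _ _ => convexOn_const a (convex_Icc _ _)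

lemma Cc.max (hf : Cc lo hi f) (hg : Cc lo hi g) : Cc lo hi fun v => Max.max (f v) (g v) :=
  fun v hv i => (hf v hv i).sup (hg v hv i)

lemma Cc.max_const (hf : Cc lo hi f) (a : ℝ) : Cc lo hi fun v => Max.max (f v) a :=
  hf.max (Cc.const a)

lemma Cv.neg (hf : Cv lo hi f) : Cc lo hi fun v => -f v := fun v hv i => (hf v hv i).neg

lemma Cc.congr (hf : Cc lo hi f) (h : ∀ v, Box lo hi v → f v = g v) : Cc lo hi g := by
  intro v hv i
  refine (hf v hv i).congr ?_
  intro u hu
  exact h _ (hv.update hu.1 hu.2)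

/-- a function which does not depend on some coordinates: the others are checked only -/
lemma Cc.of_dep (h : ∀ v, Box lo hi v → ∀ i, (∀ u w, f (Function.update v i u) = f (Function.update v i w)) ∨
    ConvexOn ℝ (Set.Icc (lo i) (hi i)) fun u => f (Function.update v i u)) : Cc lo hi f := by
  intro v hv i
  rcases h v hv i with h1 | h1
  · have : (fun u => f (Function.update v i u)) = fun _ => f (Function.update v i 0) := by
      funext u
      exact h1 u 0
    rw [this]
    exact convexOn_const _ (convex_Icc _ _)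
  · exact h1

end closure

/-- affine in every coordinate -/
def Ma (f : (ι → ℝ) → ℝ) : Prop := ∀ v i, ∃ p q : ℝ, ∀ u, f (Function.update v i u) = p + q * u

section multi

variable {lo hi : ι → ℝ} {f g : (ι → ℝ) → ℝ}

lemma Ma.const (a : ℝ) : Ma (ι := ι) fun _ => a := fun _ _ => ⟨a, 0, fun _ => by ring⟩

lemma Ma.coord (j : ι) : Ma fun v : ι → ℝ => v j := by
  intro v i
  by_cases h : j = i
  · subst h; exact ⟨0, 1, fun u => by simp⟩
  · exact ⟨v j, 0, fun u => by simp only [Function.update_of_ne h]; ring⟩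

lemma Ma.add (hf : Ma f) (hg : Ma g) : Ma fun v => f v + g v := by
  intro v i
  obtain ⟨p, q, h⟩ := hf v i
  obtain ⟨p', q', h'⟩ := hg v i
  exact ⟨p + p', q + q', fun u => by simp only [h, h']; ring⟩

lemma Ma.smul (a : ℝ) (hf : Ma f) : Ma fun v => a * f v := by
  intro v i
  obtain ⟨p, q, h⟩ := hf v i
  exact ⟨a * p, a * q, fun u => by simp only [h]; ring⟩

lemma Ma.neg (hf : Ma f) : Ma fun v => -f v := by
  intro v i
  obtain ⟨p, q, h⟩ := hf v i
  exact ⟨-p, -q, fun u => by simp only [h]; ring⟩

lemma Ma.sub (hf : Ma f) (hg : Ma g) : Ma fun v => f v - g v := by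
  intro v i
  obtain ⟨p, q, h⟩ := hf v i
  obtain ⟨p', q', h'⟩ := hg v i
  exact ⟨p - p', q - q', fun u => by simp only [h, h']; ring⟩

/-- a coordinate times a function which does not depend on it -/
lemma Ma.mul_coord (j : ι) {b c : ℝ} (hf : Ma f) (hd : ∀ v u, f (Function.update v j u) = f v) :
    Ma fun v => (b + c * v j) * f v := by
  intro v i
  by_cases h : j = i
  · subst h
    exact ⟨b * f v, c * f v, fun u => by simp only [hd, Function.update_self]; ring⟩
  · obtain ⟨p, q, h1⟩ := hf v i
    exact ⟨(b + c * v j) * p, (b + c * v j) * q, fun u => by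
      simp only [h1, Function.update_of_ne h]; ring⟩

/-- composition of a convex function with a coordinatewise affine one -/
lemma Ma.comp_convex (hf : Ma f) {φ : ℝ → ℝ} {S : Set ℝ} (hφ : ConvexOn ℝ S φ)
    (hS : ∀ v, Box lo hi v → f v ∈ S) : Cc lo hi fun v => φ (f v) := by
  intro v hv i
  obtain ⟨p, q, h⟩ := hf v i
  refine ⟨convex_Icc _ _, ?_⟩
  intro x hx y hy a b ha hb hab
  have hx' := hS _ (hv.update hx.1 hx.2)
  have hy' := hS _ (hv.update hy.1 hy.2)
  have e : f (Function.update v i (a • x + b • y))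
      = a • f (Function.update v i x) + b • f (Function.update v i y) := by
    rw [h, h, h]
    simp only [smul_eq_mul]
    calc p + q * (a * x + b * y) = (a + b) * p + q * (a * x + b * y) := by rw [hab, one_mul]
      _ = _ := by ring
  show φ (f (Function.update v i (a • x + b • y))) ≤ _
  rw [e]
  exact hφ.2 hx' hy' ha hb hab

lemma Ma.cc (hf : Ma f) : Cc lo hi f := by
  have := hf.comp_convex (lo := lo) (hi := hi) (convexOn_id (convex_univ (𝕜 := ℝ) (E := ℝ)))
    (fun _ _ => Set.mem_univ _)
  exact this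

lemma Ma.neg_log (hf : Ma f) (hp : ∀ v, Box lo hi v → 0 < f v) : Cc lo hi fun v => -Real.log (f v) :=
  hf.comp_convex strictConcaveOn_log_Ioi.concaveOn.neg hp

lemma Ma.sq (hf : Ma f) : Cc lo hi fun v => f v ^ 2 :=
  hf.comp_convex (S := Set.univ) (Even.convexOn_pow (by decide)) (fun _ _ => Set.mem_univ _)

end multi

end CC
end Pool.Agent.Lib.MP_6947cd_al
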