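import Pool.Agent.Lib.MP_6947cd_al.Z.D

/-!
Problem MP_6947cd_al (Chollet).  CASE B, middle second entry: the class logic, the border between the two
types depends on `h`, `t`.
-/

set_option autoImplicit false
open scoped Matrix ComplexOrder

namespace Pool.Agent.Lib.MP_6947cd_al
namespace B2

open Ent Fr Fr.LL B1 B1.DM

/-- no configuration without special vertex, `m` = largest rest of the row `i`, `m ≤ X h t` -/
def NoZX (T0 T1 : ℝ) (X : ℝ → ℝ → ℝ) : Prop := ∀ (bj bk : Bool) (m h t g uk : ℝ) (Q : Multiset V4)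
  (Gj Gk Gv : ℝ), m ≤ X h t → ¬ Cfg bj bk T0 T1 m h t g 0 0 0 uk 0 Q Gj Gk Gv

/-- no configuration with a special vertex, `x` = third entry of the row `i`, `X h t ≤ x` -/
def NoVX (T0 T1 : ℝ) (X : ℝ → ℝ → ℝ) : Prop := ∀ (bj bk : Bool) (h t g x y z uk uv : ℝ)
  (Q : Multiset V4) (Gj Gk Gv : ℝ), X h t ≤ x → ¬ Cfg bj bk T0 T1 x h t g x y z uk uv Q Gj Gk Gv

open DM in
/-- THE CLASS LOGIC. -/
theorem specDX (T0 T1 : ℝ) (X' : ℝ → ℝ → ℝ) (hT0 : 3 / 10 ≤ T0) (hZ' : NoZX T0 T1 X')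
    (hV' : NoVX T0 T1 X') : LL.SpecBI What T0 T1 := by
  classical
  intro n A hce i j k hij hik hjk hD hkj hk hk1 hrest
  by_contra hno
  have hnn := fun a l => row_nonneg A a l
  have hle := fun a l => row_le_one A hce.psd hce.diag a l
  have tri : ∀ a b c, Tri (row A a b) (row A a c) (row A b c) := by
    intro a b c
    have h := tri_row A hce.psd hce.diag a b c
    unfold Tri
    linarith
  obtain ⟨X, hXd⟩ : ∃ X : ℝ, X = X' (row A i j) (row A i k) := ⟨_, rfl⟩
  have hZ : ∀ (bj bk : Bool) (m g uk : ℝ) (Q : Multiset V4) (Gj Gk Gv : ℝ), m ≤ X →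
      ¬ Cfg bj bk T0 T1 m (row A i j) (row A i k) g 0 0 0 uk 0 Q Gj Gk Gv := by
    intro bj bk m g uk Q Gj Gk Gv h
    exact hZ' bj bk m _ _ g uk Q Gj Gk Gv (hXd ▸ h)
  have hV : ∀ (bj bk : Bool) (g x y z uk uv : ℝ) (Q : Multiset V4) (Gj Gk Gv : ℝ), X ≤ x →
      ¬ Cfg bj bk T0 T1 x (row A i j) (row A i k) g x y z uk uv Q Gj Gk Gv := by
    intro bj bk g x y z uk uv Q Gj Gk Gv h
    exact hV' bj bk _ _ g x y z uk uv Q Gj Gk Gv (hXd ▸ h)
  obtain ⟨u, hu, hn3⟩ := hce.pairQ2 i j hij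
  have hr : ∀ l ∈ C3 i j k, row A i l ≤ 3 / 10 := by
    intro l hl
    obtain ⟨h1, h2, h3⟩ := mem_C3.mp hl
    exact hrest l h1 h2 h3
  -- no special vertex, `m` a bound of the rests
  have hnosp : ∀ m : ℝ, 0 ≤ m → m ≤ 3 / 10 → m ≤ X → (∀ l ∈ C3 i j k, row A i l ≤ m) → False := by
    intro m hm0 hm hmX hml
    obtain ⟨bj, bk, Gj, Gk, Gv, hC⟩ := cfg_of hce i j k hij hik hjk hD hkj T0 T1 hT0 hk hk1 hno u hu
      hn3 m ⟨0, 0, 0, 0⟩ (C3 i j k) (fun _ h => h) ⟨hm0, hm⟩ ⟨le_rfl, by norm_num⟩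
      ⟨le_rfl, zero_le_one⟩ ⟨le_rfl, zero_le_one⟩
      (by unfold Tri; simp only; rw [Real.sqrt_zero]; linarith [hle i j])
      (by unfold Tri; simp only; rw [Real.sqrt_zero]; linarith [hle i k])
      (by unfold Tri; simp only; rw [Real.sqrt_zero]; linarith [hle j k])
      ⟨0, ⟨hnn _ _, hle _ _, le_rfl, le_rfl, zero_le_one, le_rfl, by norm_num, by
        simp only; linarith [hle i j], by simp only; ring⟩⟩ hml
      (fun φ h => by rw [h, zero_add])
      (fun a b φ h => by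
        rw [h, Multiset.cons_swap b 0, Multiset.cons_swap a 0, Multiset.cons_swap 1 0, FM_zero_cons])
      (fun a φ h => by
        rw [h, Multiset.cons_swap a 0, Multiset.cons_swap 1 0, FM_zero_cons])
    exact hZ bj bk m _ _ _ Gj Gk Gv hmX hC
  rcases Finset.eq_empty_or_nonempty (C3 i j k) with hem | hne
  · rcases le_total X 0 with hX | hX
    · -- `X ≤ 0`: special vertex with entry zero
      obtain ⟨bj, bk, Gj, Gk, Gv, hC⟩ := cfg_of hce i j k hij hik hjk hD hkj T0 T1 hT0 hk hk1 hno u hu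
        hn3 0 ⟨0, 0, 0, 0⟩ (C3 i j k) (fun _ h => h) ⟨le_rfl, by norm_num⟩ ⟨le_rfl, by norm_num⟩
        ⟨le_rfl, zero_le_one⟩ ⟨le_rfl, zero_le_one⟩
        (by unfold Tri; simp only; rw [Real.sqrt_zero]; linarith [hle i j])
        (by unfold Tri; simp only; rw [Real.sqrt_zero]; linarith [hle i k])
        (by unfold Tri; simp only; rw [Real.sqrt_zero]; linarith [hle j k])
        ⟨0, ⟨hnn _ _, hle _ _, le_rfl, le_rfl, zero_le_one, le_rfl, by norm_num, by
          simp only; linarith [hle i j], by simp only; ring⟩⟩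
        (fun l hl => by rw [hem] at hl; exact absurd hl (Finset.notMem_empty l))
        (fun φ h => by rw [h, zero_add])
        (fun a b φ h => by
          rw [h, Multiset.cons_swap b 0, Multiset.cons_swap a 0, Multiset.cons_swap 1 0,
            FM_zero_cons])
        (fun a φ h => by
          rw [h, Multiset.cons_swap a 0, Multiset.cons_swap 1 0, FM_zero_cons])
      exact hV bj bk _ 0 0 0 _ 0 _ Gj Gk Gv hX hC
    · exact hnosp 0 le_rfl (by norm_num) hX (fun l hl => by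
        rw [hem] at hl; exact absurd hl (Finset.notMem_empty l))
  obtain ⟨v, hv, hvm⟩ := Finset.exists_max_image (C3 i j k) (fun l => row A i l) hne
  rcases le_total (row A i v) X with hX | hX
  · exact hnosp (row A i v) (hnn _ _) (hr v hv) hX hvm
  · -- the special vertex
    obtain ⟨v1, v2, v3⟩ := mem_C3.mp hv
    obtain ⟨uv0, uv1, uvc⟩ := hu v v1 v2
    set T := (C3 i j k).erase v with hT
    have hins : C3 i j k = insert v T := (Finset.insert_erase hv).symm
    have hvT : v ∉ T := Finset.notMem_erase _ _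
    have hmp : ∀ f : Fin n → ℝ, (C3 i j k).val.map f = f v ::ₘ T.val.map f := by
      intro f
      rw [hins, Finset.insert_val_of_notMem hvT, Multiset.map_cons]
    obtain ⟨bj, bk, Gj, Gk, Gv, hC⟩ := cfg_of hce i j k hij hik hjk hD hkj T0 T1 hT0 hk hk1 hno u hu
      hn3 (row A i v) (q4 A i j k u v) T (Finset.erase_subset _ _) ⟨hnn _ _, hr v hv⟩
      ⟨hnn _ _, hr v hv⟩ ⟨hnn _ _, hle _ _⟩ ⟨hnn _ _, hle _ _⟩ (tri i j v) (tri i k v) (tri j k v) uvc
      (fun l hl => hvm l (Finset.mem_of_mem_erase hl))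
      (fun φ _ => by rw [hins, Finset.sum_insert hvT])
      (fun a b φ _ => by rw [hmp]) (fun a φ _ => by rw [hmp])
    exact hV bj bk _ _ _ _ _ _ _ Gj Gk Gv hX hC

end B2
end Pool.Agent.Lib.MP_6947cd_al
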