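import Pool.Agent.Lib.MP_6947cd_al.Y.Defs
import Pool.Agent.Lib.MP_6947cd_al.L.Pair2

/-!
Problem MP_6947cd_al (Chollet).  CASE B, middle second entry (`T0 ≤ t ≤ T1`): the abstract configuration, with the
merging inequality for the pair `i`, `j`.

`h = b i j ≥ t = b i k`, `g = b j k`; a special vertex `v` with `x = b i v`, `y = b j v`, `z = b k v` (or no special
vertex: `x = y = z = 0`); `Q` = the remaining vertices `l`: quadruples `(b i l, b j l, b k l, u l)`; `uk`, `uv`,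
`u l` = entries of the merged row.  `bj = true`: the vertex `j` is bad, `bj = false`: it can pay (same for `k`).
-/

set_option autoImplicit false
open Finset

namespace Pool.Agent.Lib.MP_6947cd_al
namespace B2

open Ent Fr B1

/-- the data of a remaining vertex: entries in the rows `i`, `j`, `k` and in the merged row -/
structure V4 where
  s : ℝ
  a : ℝ
  b : ℝ
  u : ℝ

/-- the configuration -/
structure Cfg (bj bk : Bool) (T0 T1 m h t g x y z uk uv : ℝ) (Q : Multiset V4) (Gj Gk Gv : ℝ) :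
    Prop where
  th : t ≤ h
  h1 : h ≤ 1
  t0 : T0 ≤ t
  t1 : t ≤ T1
  g01 : 0 ≤ g ∧ g ≤ 1
  x01 : 0 ≤ x ∧ x ≤ 3 / 10
  y01 : 0 ≤ y ∧ y ≤ 1
  z01 : 0 ≤ z ∧ z ≤ 1
  m0 : 0 ≤ m ∧ m ≤ 3 / 10
  trig : Tri h t g
  triy : Tri h x y
  triz : Tri t x z
  triv : Tri g y z
  geok : ∃ c, PQ.Geo h t g c uk
  geov : ∃ c, PQ.Geo h x y c uv
  q : ∀ e ∈ Q, 0 ≤ e.s ∧ e.s ≤ m ∧ 0 ≤ e.a ∧ e.a ≤ 1 ∧ 0 ≤ e.b ∧ e.b ≤ 1 ∧ 0 ≤ e.u ∧ e.u ≤ 1 ∧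
    Tri h e.s e.a ∧ Tri t e.s e.b ∧ Tri g e.a e.b ∧ ∃ c, PQ.Geo h e.s e.a c e.u
  di : 0 < FM (1 ::ₘ h ::ₘ t ::ₘ x ::ₘ Q.map V4.s) - What (h + t + x + (Q.map V4.s).sum)
  nr : 2 * Real.log (2 * (h + t + g)) < FM (1 ::ₘ h ::ₘ t ::ₘ x ::ₘ Q.map V4.s)
    + (omg x + Om (Q.map V4.s)) + (Gj + (omg y + Om (Q.map V4.a))) + (Gk + (omg z + Om (Q.map V4.b)))
  nrij : 2 * Real.log (1 + h) < FM (1 ::ₘ h ::ₘ t ::ₘ x ::ₘ Q.map V4.s) + Gj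
    + (lo2 t g + lo2 x y + (Q.map fun e => lo2 e.s e.a).sum)
  nrik : 2 * Real.log (1 + t) < FM (1 ::ₘ h ::ₘ t ::ₘ x ::ₘ Q.map V4.s) + Gk
    + (lo2 h g + lo2 x z + (Q.map fun e => lo2 e.s e.b).sum)
  nrjk : 2 * Real.log (1 + g) < Gj + Gk
    + (lo2 h t + lo2 y z + (Q.map fun e => lo2 e.a e.b).sum)
  n3 : 2 * Real.log (1 + h) + Gv < FM (1 ::ₘ h ::ₘ t ::ₘ x ::ₘ Q.map V4.s) + Gj
    + ((lo2 t g - omg (min uk (max t g))) + (lo2 x y - omg (min uv (max x y)))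
      + (Q.map fun e => lo2 e.s e.a - omg (min e.u (max e.s e.a))).sum)
  gv1 : FM (1 ::ₘ uk ::ₘ uv ::ₘ Q.map V4.u) ≤ Gv
  gv2 : min (gtr (3 / 20) (9 / 20) uk + gtr (3 / 20) (9 / 20) uv
    + (Q.map fun e => gtr (3 / 20) (9 / 20) e.u).sum - 6 / 125) (1 / 2) ≤ Gv
  cj : if bj = true then 0 < Gj - What (h + g + y + (Q.map V4.a).sum) ∧
      Gj ≤ FM (1 ::ₘ h ::ₘ g ::ₘ y ::ₘ Q.map V4.a)
    else Gj - What (h + g + y + (Q.map V4.a).sum) ≤ 0 ∧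
      Gj ≤ max (FM (1 ::ₘ h ::ₘ g ::ₘ y ::ₘ Q.map V4.a)) (1 / 2)
  ck : if bk = true then 0 < Gk - What (t + g + z + (Q.map V4.b).sum) ∧
      Gk ≤ FM (1 ::ₘ t ::ₘ g ::ₘ z ::ₘ Q.map V4.b)
    else Gk - What (t + g + z + (Q.map V4.b).sum) ≤ 0 ∧
      Gk ≤ max (FM (1 ::ₘ t ::ₘ g ::ₘ z ::ₘ Q.map V4.b)) (1 / 2)
  gj : Gj ≤ max (FM (1 ::ₘ h ::ₘ g ::ₘ y ::ₘ Q.map V4.a))
    (min (gtr (3 / 20) (9 / 20) h + gtr (3 / 20) (9 / 20) g + gtr (3 / 20) (9 / 20) y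
      + ((Q.map V4.a).map (gtr (3 / 20) (9 / 20))).sum - 6 / 125) (1 / 2))
  gk : Gk ≤ max (FM (1 ::ₘ t ::ₘ g ::ₘ z ::ₘ Q.map V4.b))
    (min (gtr (3 / 20) (9 / 20) t + gtr (3 / 20) (9 / 20) g + gtr (3 / 20) (9 / 20) z
      + ((Q.map V4.b).map (gtr (3 / 20) (9 / 20))).sum - 6 / 125) (1 / 2))
  payj : bj = false → 3 * h ^ 2 * (What (h + g + y + (Q.map V4.a).sum) - Gj)
    < need (FM (1 ::ₘ h ::ₘ t ::ₘ x ::ₘ Q.map V4.s) - What (h + t + x + (Q.map V4.s).sum)) h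
      ((if bk = true ∧ 3 / 10 ≤ g then t else 0) + x + (Q.map V4.s).sum)
  payk : bk = false → 3 * t ^ 2 * (What (t + g + z + (Q.map V4.b).sum) - Gk)
    < need (FM (1 ::ₘ h ::ₘ t ::ₘ x ::ₘ Q.map V4.s) - What (h + t + x + (Q.map V4.s).sum)) t
      ((if bj = true ∧ 3 / 10 ≤ g then h else 0) + x + (Q.map V4.s).sum)
  pay2 : bj = false → bk = false →
    3 * h ^ 2 * (What (h + g + y + (Q.map V4.a).sum) - Gj)
        / need (FM (1 ::ₘ h ::ₘ t ::ₘ x ::ₘ Q.map V4.s)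
          - What (h + t + x + (Q.map V4.s).sum)) h (x + (Q.map V4.s).sum)
      + 3 * t ^ 2 * (What (t + g + z + (Q.map V4.b).sum) - Gk)
        / need (FM (1 ::ₘ h ::ₘ t ::ₘ x ::ₘ Q.map V4.s)
          - What (h + t + x + (Q.map V4.s).sum)) t (x + (Q.map V4.s).sum) < 1

/-- no configuration without special vertex, `m` = largest rest of the row `i`, `m ≤ X` -/
def NoZ (T0 T1 X : ℝ) : Prop := ∀ (bj bk : Bool) (m h t g uk : ℝ) (Q : Multiset V4) (Gj Gk Gv : ℝ),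
  m ≤ X → ¬ Cfg bj bk T0 T1 m h t g 0 0 0 uk 0 Q Gj Gk Gv

/-- no configuration with a special vertex, `x` = third entry of the row `i`, `X ≤ x` -/
def NoV (T0 T1 X : ℝ) : Prop := ∀ (bj bk : Bool) (h t g x y z uk uv : ℝ) (Q : Multiset V4)
  (Gj Gk Gv : ℝ), X ≤ x → ¬ Cfg bj bk T0 T1 x h t g x y z uk uv Q Gj Gk Gv

/-- the class logic -/
def SpecD : Prop := ∀ T0 T1 X : ℝ, 3 / 10 ≤ T0 → NoZ T0 T1 X → NoV T0 T1 X → LL.SpecBI What T0 T1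

end B2
end Pool.Agent.Lib.MP_6947cd_al
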