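import Pool.Agent.Lib.MP_6947cd_al.Z.LnF

/-!
Problem MP_6947cd_al (Chollet).  CASE B, middle second entry: the checks of the function of the main entries.
-/

set_option autoImplicit false
open Finset

namespace Pool.Agent.Lib.MP_6947cd_al
namespace B2

open Ent Ent.Pk Fr Fr.WT CC B1 PkA

/-- a condition at the eight corners -/
def all8 (f : Bool → Bool → Bool → Bool) : Bool :=
  ((f false false false && f true false false) && (f false true false && f true true false)) &&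
  ((f false false true && f true false true) && (f false true true && f true true true))

lemma all8_sound {f : Bool → Bool → Bool → Bool} (h : all8 f = true) (a b c : Bool) : f a b c = true := by
  unfold all8 at h
  simp only [Bool.and_eq_true] at h
  obtain ⟨⟨⟨h1, h2⟩, h3, h4⟩, ⟨h5, h6⟩, h7, h8⟩ := h
  cases a <;> cases b <;> cases c <;> assumption

/-- the line below `gtr` -/
def glC (K0 K1 : ℕ) (VF : Bool → Bool → Bool → ℕ) : Bool :=
  Nat.ble (Nat.mul (nat_lit 50) (Nat.add (Nat.mul (Nat.sub K1 (nat_lit 215)) (Nat.sub K1 (nat_lit 215)))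
    (Nat.mul (Nat.sub (nat_lit 215) K1) (Nat.sub (nat_lit 215) K1)))) (Nat.mul (nat_lit 3) K0) &&
  all8 fun a b c => Nat.ble (Nat.mul K1 (VF a b c)) (Nat.add (Nat.add (nat_lit 127125000) (Nat.mul (nat_lit 100) K0))
    (Nat.mul (nat_lit 1000000) K1))

lemma glC_sound {K0 K1 : ℕ} {VF : Bool → Bool → Bool → ℕ} (h : glC K0 K1 VF = true) :
    50 * ((K1 : ℝ) - 215) ^ 2 ≤ 3 * K0 ∧ ∀ a b c, K1 * VF a b c ≤ 127125000 + 100 * K0 + 1000000 * K1 := by
  unfold glC at h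
  rw [Bool.and_eq_true] at h
  obtain ⟨h1, h2⟩ := h
  have h1 : 50 * ((K1 - 215) * (K1 - 215) + (215 - K1) * (215 - K1)) ≤ 3 * K0 := Nat.le_of_ble_eq_true h1
  refine ⟨?_, fun a b c => Nat.le_of_ble_eq_true (all8_sound h2 a b c)⟩
  rcases Nat.le_total K1 215 with h3 | h3
  · obtain ⟨d, hd⟩ := Nat.exists_eq_add_of_le h3
    have e1 : K1 - 215 = 0 := by omega
    have e2 : 215 - K1 = d := by omega
    rw [e1, e2] at h1
    have h4 : ((50 * (0 * 0 + d * d) : ℕ) : ℝ) ≤ ((3 * K0 : ℕ) : ℝ) := by exact_mod_cast h1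
    have e3 : (K1 : ℝ) - 215 = -d := by
      have : ((215 : ℕ) : ℝ) = K1 + d := by exact_mod_cast hd
      norm_num at this
      linarith
    rw [e3]
    push_cast at h4
    linarith
  · obtain ⟨d, hd⟩ := Nat.exists_eq_add_of_le h3
    have e1 : K1 - 215 = d := by omega
    have e2 : 215 - K1 = 0 := by omega
    rw [e1, e2] at h1
    have h4 : ((50 * (d * d + 0 * 0) : ℕ) : ℝ) ≤ ((3 * K0 : ℕ) : ℝ) := by exact_mod_cast h1
    have e3 : (K1 : ℝ) - 215 = d := by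
      rw [hd]
      push_cast
      ring
    rw [e3]
    push_cast at h4
    linarith

/-- the numbers of the function of the main entries -/
structure FD where
  ra : ℕ
  rb : ℕ
  VU : N3C.V8
  VV : N3C.V8

/-- the checks common to both types; `VG` = the values of the special vertex -/
noncomputable def chk0 (b : LB) (P : NP) (gm : ℕ) (VF VG : Bool → Bool → Bool → ℕ) : Bool :=
  Nat.ble P.L (nat_lit 10) && (Nat.ble P.zv (Nat.add P.wP P.wA) && (Nat.ble P.zg P.wA &&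
  ((Nat.beq (Nat.add P.wP P.wA) (nat_lit 0) || (Nat.ble P.L (nat_lit 3) || (Nat.ble (Nat.mul (nat_lit 40) P.L) b.T0 ||
    Nat.ble (Nat.mul (nat_lit 40) P.L) b.G0))) &&
  ((Nat.beq P.wP (nat_lit 0) || ((Nat.beq P.X2 (nat_lit 0) || all8 fun a b c => Nat.ble (nat_lit 1000123) (VF a b c)) &&
      ((Nat.beq P.X3 (nat_lit 0) || all8 fun a b c => Nat.ble (nat_lit 1000123) (VG a b c)) &&
      ((Nat.beq gm (nat_lit 2) && (Nat.beq P.V7 (nat_lit 5000000) && (Nat.beq P.X2 (nat_lit 0) &&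
        Nat.beq P.X3 (nat_lit 0)))) || C1.psC P.X1 P.X2 P.X3 P.V7)))) &&
  ((Nat.beq P.wA (nat_lit 0) || (Nat.beq gm (nat_lit 1) && glC P.K0 P.K1 VF)) &&
   (Nat.beq P.zg (nat_lit 0) || glC P.G0 P.G1 VG))))))

/-- the common part of the conditions -/
lemma chk0_sound {b : LB} {P : NP} {gm : ℕ} {VF VG : Bool → Bool → Bool → ℕ} (h : chk0 b P gm VF VG = true)
    {h' t g x y uk uv Gv : ℝ} {U Uv : (Fin 6 → ℝ) → ℝ} (maU : Ma U) (maV : Ma Uv)
    (ptU : P.wP + P.wA ≠ 0 → ∀ v : Fin 6 → ℝ, v 0 = h' → v 1 = t → v 2 = g → U v ≤ uk)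
    (ptV : P.wP + P.wA ≠ 0 → ∀ v : Fin 6 → ℝ, v 0 = h' → v 3 = x → v 4 = y → Uv v ≤ uv ∧ Uv v ≤ y)
    (cU : ∀ e, U (corner b.lo b.hi e) = (((VF (e 0) (e 1) (e 2) : ℕ) : ℝ) - 1000000) / 1000000)
    (cV : ∀ e, Uv (corner b.lo b.hi e) = (((VG (e 0) (e 3) (e 4) : ℕ) : ℝ) - 1000000) / 1000000)
    (gm1 : gm = 1 → Gv < 1 / 2) (gm2 : gm = 2 → 1 / 2 ≤ Gv) :
    FOK b P h' t g x y uk uv Gv U Uv VF VG := by
  unfold chk0 at h
  simp only [Bool.and_eq_true, Bool.or_eq_true, Nat.ble_eq, Nat.beq_eq, Nat.add_eq, Nat.mul_eq] at h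
  obtain ⟨h1, h2, h3, h4, h5, h6, h7⟩ := h
  refine ⟨h1, fun hne => ?_, h2, h3, maU, maV, ptU, ptV, cU, cV, ?_, ?_, ?_, ?_, ?_, ?_⟩
  · rcases h4 with h4 | h4
    · exact absurd h4 hne
    · exact h4
  · intro hne a b c
    rcases h5 with h5 | ⟨h5, -⟩
    · exact absurd (by rw [h5, Nat.zero_mul]) hne
    · rcases h5 with h5 | h5
      · exact absurd (by rw [h5, Nat.mul_zero]) hne
      · exact Nat.le_of_ble_eq_true (all8_sound h5 a b c)
  · intro hne a b c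
    rcases h5 with h5 | ⟨-, h5, -⟩
    · exact absurd (by rw [h5, Nat.zero_mul]) hne
    · rcases h5 with h5 | h5
      · exact absurd (by rw [h5, Nat.mul_zero]) hne
      · exact Nat.le_of_ble_eq_true (all8_sound h5 a b c)
  · intro hne
    rcases h5 with h5 | ⟨-, -, h5⟩
    · exact absurd h5 hne
    · rcases h5 with ⟨a1, a2, a3, a4⟩ | h5
      · exact Or.inr ⟨a2, a3, a4, gm2 a1⟩
      · exact Or.inl (C1.psC_sound h5)
  · intro hne
    rcases h6 with h6 | ⟨h6, -⟩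
    · exact absurd h6 hne
    · exact gm1 h6
  · intro hne
    rcases h6 with h6 | ⟨-, h6⟩
    · exact absurd h6 hne
    · exact glC_sound h6
  · intro hne
    rcases h7 with h7 | h7
    · exact absurd h7 hne
    · exact glC_sound h7

/-- type `N` (no special vertex) -/
noncomputable def chkFN (b : LB) (P : NP) (F : FD) (gm : ℕ) : Bool :=
  (Nat.blt b.H0 b.H1 && (Nat.blt b.T0 b.T1 && Nat.blt b.G0 b.G1)) && (vOK F.VU &&
  ((Nat.beq (Nat.add P.wP P.wA) (nat_lit 0) || UC.chkU 400 2500 b.H0 b.H1 b.T0 b.T1 b.G0 b.G1 F.ra F.rb F.VU) &&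
  chk0 b P gm (fnN F.VU) (fun _ _ _ => nat_lit 1000000)))

lemma blt_lt {a b : ℕ} (h : Nat.blt a b = true) : a < b := Nat.le_of_ble_eq_true h

theorem chkFN_sound {b : LB} {P : NP} {F : FD} {gm : ℕ} (hc : chkFN b P F gm = true)
    {h t g x y z uk uv Gv : ℝ} (hb : Box b.lo b.hi (vec h t g x y z)) {c : ℝ} (hk : PQ.Geo h t g c uk)
    (huv : 0 ≤ uv) (hy : 0 ≤ y) (gm1 : gm = 1 → Gv < 1 / 2) (gm2 : gm = 2 → 1 / 2 ≤ Gv) :
    FOK b P h t g x y uk uv Gv (UF b.H0 b.H1 b.T0 b.T1 b.G0 b.G1 F.VU 0 1 2) (fun _ => 0) (fnN F.VU)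
      (fun _ _ _ => 1000000) := by
  unfold chkFN at hc
  simp only [Bool.and_eq_true, Bool.or_eq_true] at hc
  obtain ⟨⟨h1, h2, h3⟩, h4, h5, h6⟩ := hc
  have h1 := blt_lt h1
  have h2 := blt_lt h2
  have h3 := blt_lt h3
  refine chk0_sound h6 (UF_ma _ _ _ _ _ _ _ (by decide) (by decide) (by decide)) (Ma.const 0) ?_ ?_ ?_ ?_ gm1 gm2
  · intro hne v v0 v1 v2
    rcases h5 with h5 | h5
    · exact absurd (by simpa using h5) hne
    · have b0 : (b.H0 : ℝ) / 400 ≤ h ∧ h ≤ (b.H1 : ℝ) / 400 := hb 0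
      have b1 : (b.T0 : ℝ) / 400 ≤ t ∧ t ≤ (b.T1 : ℝ) / 400 := hb 1
      have b2 : (b.G0 : ℝ) / 400 ≤ g ∧ g ≤ (b.G1 : ℝ) / 400 := hb 2
      exact UF_le h1 h2 h3 h5 (by rw [v0]; exact b0) (by rw [v1]; exact b1) (by rw [v2]; exact b2)
        (by rw [v0, v1, v2]; exact hk)
  · intro _ v _ _ _
    exact ⟨huv, hy⟩
  · intro e
    rw [UF_corner h1 h2 h3 F.VU (b.cor e 0) (b.cor e 1) (b.cor e 2), fnN_eq h4]
  · intro e
    norm_num

/-- type `V` (special vertex) -/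
noncomputable def chkFV (b : LB) (P : NP) (F : FD) (gm : ℕ) : Bool :=
  (Nat.blt b.H0 b.H1 && (Nat.blt b.T0 b.T1 && (Nat.blt b.G0 b.G1 && (Nat.blt b.X0 b.X1 && Nat.blt b.Y0 b.Y1)))) &&
  (vOK F.VU && (vOK F.VV &&
  ((Nat.beq (Nat.add P.wP P.wA) (nat_lit 0) || (UC.chkU 400 2500 b.H0 b.H1 b.T0 b.T1 b.G0 b.G1 F.ra F.rb F.VU &&
    (UC.chkU 400 2500 b.H0 b.H1 b.X0 b.X1 b.Y0 b.Y1 F.ra F.rb F.VV && all8 fun a b' c =>
      Nat.ble (fnN F.VV a b' c) (Nat.add (nat_lit 1000000) (Nat.mul (nat_lit 2500) (C1.cv b.Y0 b.Y1 c)))))) &&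
  chk0 b P gm (fnN F.VU) (fnN F.VV))))

theorem chkFV_sound {b : LB} {P : NP} {F : FD} {gm : ℕ} (hc : chkFV b P F gm = true)
    {h t g x y z uk uv Gv : ℝ} (hb : Box b.lo b.hi (vec h t g x y z)) {c c' : ℝ} (hk : PQ.Geo h t g c uk)
    (hv : PQ.Geo h x y c' uv) (gm1 : gm = 1 → Gv < 1 / 2) (gm2 : gm = 2 → 1 / 2 ≤ Gv) :
    FOK b P h t g x y uk uv Gv (UF b.H0 b.H1 b.T0 b.T1 b.G0 b.G1 F.VU 0 1 2)
      (UF b.H0 b.H1 b.X0 b.X1 b.Y0 b.Y1 F.VV 0 3 4) (fnN F.VU) (fnN F.VV) := by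
  unfold chkFV at hc
  simp only [Bool.and_eq_true, Bool.or_eq_true] at hc
  obtain ⟨⟨h1, h2, h3, h4, h5⟩, h6, h7, h8, h9⟩ := hc
  have h1 := blt_lt h1
  have h2 := blt_lt h2
  have h3 := blt_lt h3
  have h4 := blt_lt h4
  have h5 := blt_lt h5
  have b0 : (b.H0 : ℝ) / 400 ≤ h ∧ h ≤ (b.H1 : ℝ) / 400 := hb 0
  have b1 : (b.T0 : ℝ) / 400 ≤ t ∧ t ≤ (b.T1 : ℝ) / 400 := hb 1
  have b2 : (b.G0 : ℝ) / 400 ≤ g ∧ g ≤ (b.G1 : ℝ) / 400 := hb 2
  have b3 : (b.X0 : ℝ) / 400 ≤ x ∧ x ≤ (b.X1 : ℝ) / 400 := hb 3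
  have b4 : (b.Y0 : ℝ) / 400 ≤ y ∧ y ≤ (b.Y1 : ℝ) / 400 := hb 4
  have cV : ∀ e, UF b.H0 b.H1 b.X0 b.X1 b.Y0 b.Y1 F.VV 0 3 4 (corner b.lo b.hi e)
      = (((fnN F.VV (e 0) (e 3) (e 4) : ℕ) : ℝ) - 1000000) / 1000000 := by
    intro e
    rw [UF_corner h1 h4 h5 F.VV (b.cor e 0) (b.cor e 3) (b.cor e 4), fnN_eq h7]
  refine chk0_sound h9 (UF_ma _ _ _ _ _ _ _ (by decide) (by decide) (by decide))
    (UF_ma _ _ _ _ _ _ _ (by decide) (by decide) (by decide)) ?_ ?_ ?_ cV gm1 gm2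
  · intro hne v v0 v1 v2
    rcases h8 with h8 | ⟨h8, -⟩
    · exact absurd (by simpa using h8) hne
    · exact UF_le h1 h2 h3 h8 (by rw [v0]; exact b0) (by rw [v1]; exact b1) (by rw [v2]; exact b2)
        (by rw [v0, v1, v2]; exact hk)
  · intro hne v v0 v3 v4
    rcases h8 with h8 | ⟨-, h8, h10⟩
    · exact absurd (by simpa using h8) hne
    · refine ⟨UF_le h1 h4 h5 h8 (by rw [v0]; exact b0) (by rw [v3]; exact b3) (by rw [v4]; exact b4)
        (by rw [v0, v3, v4]; exact hv), ?_⟩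
      -- the value is at most `y` at the corners of the small box
      have hma : Ma fun v : Fin 6 → ℝ => UF b.H0 b.H1 b.X0 b.X1 b.Y0 b.Y1 F.VV 0 3 4 v + -(v 4) :=
        (UF_ma _ _ _ _ _ _ _ (by decide) (by decide) (by decide)).add (Ma.coord 4).neg
      have key := (hma.cc (lo := b.lo) (hi := b.hi)).le_of_corners (C := 0) (fun e => by
        beta_reduce
        rw [cV e, b.cor e 4]
        have h11 := Nat.le_of_ble_eq_true (all8_sound h10 (e 0) (e 3) (e 4))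
        have h12 : ((fnN F.VV (e 0) (e 3) (e 4) : ℕ) : ℝ) ≤ 1000000 + 2500 * (C1.cv b.Y0 b.Y1 (e 4) : ℕ) := by
          have := (Nat.cast_le (α := ℝ)).mpr h11
          simpa using this
        have e4 : C1.cv (b.L 4) (b.R 4) (e 4) = C1.cv b.Y0 b.Y1 (e 4) := rfl
        rw [e4]
        linarith) hb
      beta_reduce at key
      have e1 : UF b.H0 b.H1 b.X0 b.X1 b.Y0 b.Y1 F.VV 0 3 4 v
          = UF b.H0 b.H1 b.X0 b.X1 b.Y0 b.Y1 F.VV 0 3 4 (vec h t g x y z) := by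
        unfold UF
        rw [v0, v3, v4]
        rfl
      rw [e1]
      have w4 : vec h t g x y z 4 = y := rfl
      rw [w4] at key
      linarith
  · intro e
    rw [UF_corner h1 h2 h3 F.VU (b.cor e 0) (b.cor e 1) (b.cor e 2), fnN_eq h6]

end B2
end Pool.Agent.Lib.MP_6947cd_al
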