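import Pool.Agent.Lib.MP_6947cd_al.Z.Defs
import Pool.Agent.Lib.MP_6947cd_al.Z.TriA

/-!
Problem MP_6947cd_al (Chollet).  CASE B, middle second entry: boxes of configurations and the tree of boxes.
All the borders are multiples of `1 / 400`.
-/

set_option autoImplicit false
open Finset

namespace Pool.Agent.Lib.MP_6947cd_al
namespace B2

open Ent Fr B1 C1

/-- A BOX.  `V`: there is a special vertex; `bj`, `bk`: `0` = bad, `1` = payer, `2` = unknown; `gm`: `1` means `Gv < 1/2`, `2` means `1/2 ≤ Gv`; `m` = bound of the rests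
of the row `i`; `s` = their sum; `rj`, `rk` = the sum of the rests and of the special entry in the rows `j`, `k`
(upper border `0`: no bound). -/
structure St where
  V : Bool
  bj : ℕ
  bk : ℕ
  gm : ℕ
  m : ℕ
  h0 : ℕ
  h1 : ℕ
  t0 : ℕ
  t1 : ℕ
  g0 : ℕ
  g1 : ℕ
  x0 : ℕ
  x1 : ℕ
  y0 : ℕ
  y1 : ℕ
  z0 : ℕ
  z1 : ℕ
  s0 : ℕ
  s1 : ℕ
  rj0 : ℕ
  rj1 : ℕ
  rk0 : ℕ
  rk1 : ℕ

/-- between two borders -/
def Bt (a b : ℕ) (x : ℝ) : Prop := (a : ℝ) / 400 ≤ x ∧ x ≤ (b : ℝ) / 400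

/-- between two borders, `b = 0`: no upper bound -/
def Bt0 (a b : ℕ) (x : ℝ) : Prop := (a : ℝ) / 400 ≤ x ∧ (b ≠ 0 → x ≤ (b : ℝ) / 400)

/-- the configuration lies in the box -/
structure In (σ : St) (m h t g x y z uv : ℝ) (Q : Multiset V4) (Gv : ℝ) : Prop where
  ih : Bt σ.h0 σ.h1 h
  it : Bt σ.t0 σ.t1 t
  ig : Bt σ.g0 σ.g1 g
  ix : Bt σ.x0 σ.x1 x
  iy : Bt σ.y0 σ.y1 y
  iz : Bt σ.z0 σ.z1 z
  is : Bt σ.s0 σ.s1 (Q.map V4.s).sum
  irj : Bt0 σ.rj0 σ.rj1 (y + (Q.map V4.a).sum)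
  irk : Bt0 σ.rk0 σ.rk1 (z + (Q.map V4.b).sum)
  im : m ≤ (σ.m : ℝ) / 400
  gm1 : σ.gm = 1 → Gv < 1 / 2
  gm2 : σ.gm = 2 → 1 / 2 ≤ Gv
  nv : σ.V = false → x = 0 ∧ y = 0 ∧ z = 0 ∧ uv = 0
  v : σ.V = true → m = x

/-- the status is as the code says: `0` = bad, `1` = payer -/
def Mt (c : ℕ) (b : Bool) : Prop := (c = 0 → b = true) ∧ (c = 1 → b = false)

/-- NO CONFIGURATION in the box -/
def Dead (σ : St) : Prop := ∀ (bj bk : Bool) (T0 T1 m h t g x y z uk uv : ℝ) (Q : Multiset V4) (Gj Gk Gv : ℝ),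
  Mt σ.bj bj → Mt σ.bk bk → 3 / 10 ≤ T0 → Cfg bj bk T0 T1 m h t g x y z uk uv Q Gj Gk Gv →
    In σ m h t g x y z uv Q Gv → False

/-! ### borders -/

/-- the coordinates: `0 1 2 3 4 5` = `h t g x y z`, `6` = `s`, `7 8` = `rj rk` -/
def St.lo (σ : St) : ℕ → ℕ
  | 0 => σ.h0
  | 1 => σ.t0
  | 2 => σ.g0
  | 3 => σ.x0
  | 4 => σ.y0
  | 5 => σ.z0
  | 6 => σ.s0
  | 7 => σ.rj0
  | _ => σ.rk0

def St.hi (σ : St) : ℕ → ℕ
  | 0 => σ.h1
  | 1 => σ.t1
  | 2 => σ.g1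
  | 3 => σ.x1
  | 4 => σ.y1
  | 5 => σ.z1
  | 6 => σ.s1
  | 7 => σ.rj1
  | _ => σ.rk1

def St.setLo (σ : St) : ℕ → ℕ → St
  | 0, b => { σ with h0 := b }
  | 1, b => { σ with t0 := b }
  | 2, b => { σ with g0 := b }
  | 3, b => { σ with x0 := b }
  | 4, b => { σ with y0 := b }
  | 5, b => { σ with z0 := b }
  | 6, b => { σ with s0 := b }
  | 7, b => { σ with rj0 := b }
  | _, b => { σ with rk0 := b }

def St.setHi (σ : St) : ℕ → ℕ → St
  | 0, b => { σ with h1 := b }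
  | 1, b => { σ with t1 := b }
  | 2, b => { σ with g1 := b }
  | 3, b => { σ with x1 := b }
  | 4, b => { σ with y1 := b }
  | 5, b => { σ with z1 := b }
  | 6, b => { σ with s1 := b }
  | 7, b => { σ with rj1 := b }
  | _, b => { σ with rk1 := b }

/-- the value of a coordinate -/
noncomputable def cv (h t g x y z : ℝ) (Q : Multiset V4) : ℕ → ℝ
  | 0 => h
  | 1 => t
  | 2 => g
  | 3 => x
  | 4 => y
  | 5 => z
  | 6 => (Q.map V4.s).sum
  | 7 => y + (Q.map V4.a).sum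
  | _ => z + (Q.map V4.b).sum

section

variable {σ : St} {m h t g x y z uv : ℝ} {Q : Multiset V4} {Gv : ℝ}

lemma St.bj_setLo (σ : St) (c b : ℕ) : (σ.setLo c b).bj = σ.bj := by
  unfold St.setLo; split <;> rfl
lemma St.bk_setLo (σ : St) (c b : ℕ) : (σ.setLo c b).bk = σ.bk := by
  unfold St.setLo; split <;> rfl
lemma St.bj_setHi (σ : St) (c b : ℕ) : (σ.setHi c b).bj = σ.bj := by
  unfold St.setHi; split <;> rfl
lemma St.bk_setHi (σ : St) (c b : ℕ) : (σ.setHi c b).bk = σ.bk := by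
  unfold St.setHi; split <;> rfl

/-- new lower border -/
lemma In.setLo (i : In σ m h t g x y z uv Q Gv) (c b : ℕ) (hb : (b : ℝ) / 400 ≤ cv h t g x y z Q c) :
    In (σ.setLo c b) m h t g x y z uv Q Gv := by
  rcases lt_or_ge c 8 with hc | hc
  · interval_cases c
    · exact { i with ih := ⟨hb, i.ih.2⟩ }
    · exact { i with it := ⟨hb, i.it.2⟩ }
    · exact { i with ig := ⟨hb, i.ig.2⟩ }
    · exact { i with ix := ⟨hb, i.ix.2⟩ }
    · exact { i with iy := ⟨hb, i.iy.2⟩ }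
    · exact { i with iz := ⟨hb, i.iz.2⟩ }
    · exact { i with is := ⟨hb, i.is.2⟩ }
    · exact { i with irj := ⟨hb, i.irj.2⟩ }
  · obtain ⟨k, rfl⟩ := Nat.exists_eq_add_of_le' hc
    exact { i with irk := ⟨hb, i.irk.2⟩ }

/-- new upper border -/
lemma In.setHi (i : In σ m h t g x y z uv Q Gv) (c b : ℕ) (hb : cv h t g x y z Q c ≤ (b : ℝ) / 400) :
    In (σ.setHi c b) m h t g x y z uv Q Gv := by
  rcases lt_or_ge c 8 with hc | hc
  · interval_cases c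
    · exact { i with ih := ⟨i.ih.1, hb⟩ }
    · exact { i with it := ⟨i.it.1, hb⟩ }
    · exact { i with ig := ⟨i.ig.1, hb⟩ }
    · exact { i with ix := ⟨i.ix.1, hb⟩ }
    · exact { i with iy := ⟨i.iy.1, hb⟩ }
    · exact { i with iz := ⟨i.iz.1, hb⟩ }
    · exact { i with is := ⟨i.is.1, hb⟩ }
    · exact { i with irj := ⟨i.irj.1, fun _ => hb⟩ }
  · obtain ⟨k, rfl⟩ := Nat.exists_eq_add_of_le' hc
    exact { i with irk := ⟨i.irk.1, fun _ => hb⟩ }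

end

/-! ### the triples -/

/-- the coordinates `X`, `Y`, `Z` of a triple (`Z` opposite), by the code -/
def trc : ℕ → ℕ × ℕ × ℕ
  | 0 => (0, 1, 2)
  | 1 => (0, 2, 1)
  | 2 => (1, 2, 0)
  | 3 => (0, 3, 4)
  | 4 => (0, 4, 3)
  | 5 => (3, 4, 0)
  | 6 => (1, 3, 5)
  | 7 => (1, 5, 3)
  | 8 => (3, 5, 1)
  | 9 => (2, 4, 5)
  | 10 => (2, 5, 4)
  | 11 => (4, 5, 2)
  | 12 => (1, 0, 2)
  | 13 => (2, 0, 1)
  | 14 => (2, 1, 0)
  | 15 => (3, 0, 4)
  | 16 => (4, 0, 3)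
  | 17 => (4, 3, 0)
  | 18 => (3, 1, 5)
  | 19 => (5, 1, 3)
  | 20 => (5, 3, 1)
  | 21 => (4, 2, 5)
  | 22 => (5, 2, 4)
  | _ => (5, 4, 2)

/-- all the six entries are in `[0, 1]` and the four triples are admissible -/
theorem tri_code {bj bk : Bool} {T0 T1 m h t g x y z uk uv : ℝ} {Q : Multiset V4} {Gj Gk Gv : ℝ}
    (hT : 3 / 10 ≤ T0) (c : Cfg bj bk T0 T1 m h t g x y z uk uv Q Gj Gk Gv) (n : ℕ) :
    (0 ≤ cv h t g x y z Q (trc n).1 ∧ cv h t g x y z Q (trc n).1 ≤ 1) ∧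
    (0 ≤ cv h t g x y z Q (trc n).2.1 ∧ cv h t g x y z Q (trc n).2.1 ≤ 1) ∧
    (0 ≤ cv h t g x y z Q (trc n).2.2 ∧ cv h t g x y z Q (trc n).2.2 ≤ 1) ∧
    Tri (cv h t g x y z Q (trc n).1) (cv h t g x y z Q (trc n).2.1) (cv h t g x y z Q (trc n).2.2) := by
  have h0 : 0 ≤ h ∧ h ≤ 1 := ⟨by linarith [c.t0, c.th], c.h1⟩
  have t0 : 0 ≤ t ∧ t ≤ 1 := ⟨by linarith [c.t0], c.th.trans c.h1⟩
  have x0 : 0 ≤ x ∧ x ≤ 1 := ⟨c.x01.1, by linarith [c.x01.2]⟩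
  have a := c.trig
  have b := c.triy
  have d := c.triz
  have e := c.triv
  unfold trc
  split
  · exact ⟨h0, t0, c.g01, a⟩
  · exact ⟨h0, c.g01, t0, C1.Tri.comm23 a⟩
  · exact ⟨t0, c.g01, h0, C1.Tri.comm23 (C1.Tri.comm12 a)⟩
  · exact ⟨h0, x0, c.y01, b⟩
  · exact ⟨h0, c.y01, x0, C1.Tri.comm23 b⟩
  · exact ⟨x0, c.y01, h0, C1.Tri.comm23 (C1.Tri.comm12 b)⟩
  · exact ⟨t0, x0, c.z01, d⟩
  · exact ⟨t0, c.z01, x0, C1.Tri.comm23 d⟩
  · exact ⟨x0, c.z01, t0, C1.Tri.comm23 (C1.Tri.comm12 d)⟩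
  · exact ⟨c.g01, c.y01, c.z01, e⟩
  · exact ⟨c.g01, c.z01, c.y01, C1.Tri.comm23 e⟩
  · exact ⟨c.y01, c.z01, c.g01, C1.Tri.comm23 (C1.Tri.comm12 e)⟩
  · exact ⟨t0, h0, c.g01, C1.Tri.comm12 a⟩
  · exact ⟨c.g01, h0, t0, C1.Tri.comm12 (C1.Tri.comm23 a)⟩
  · exact ⟨c.g01, t0, h0, C1.Tri.comm12 (C1.Tri.comm23 (C1.Tri.comm12 a))⟩
  · exact ⟨x0, h0, c.y01, C1.Tri.comm12 b⟩
  · exact ⟨c.y01, h0, x0, C1.Tri.comm12 (C1.Tri.comm23 b)⟩
  · exact ⟨c.y01, x0, h0, C1.Tri.comm12 (C1.Tri.comm23 (C1.Tri.comm12 b))⟩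
  · exact ⟨x0, t0, c.z01, C1.Tri.comm12 d⟩
  · exact ⟨c.z01, t0, x0, C1.Tri.comm12 (C1.Tri.comm23 d)⟩
  · exact ⟨c.z01, x0, t0, C1.Tri.comm12 (C1.Tri.comm23 (C1.Tri.comm12 d))⟩
  · exact ⟨c.y01, c.g01, c.z01, C1.Tri.comm12 e⟩
  · exact ⟨c.z01, c.g01, c.y01, C1.Tri.comm12 (C1.Tri.comm23 e)⟩
  · exact ⟨c.z01, c.y01, c.g01, C1.Tri.comm12 (C1.Tri.comm23 (C1.Tri.comm12 e))⟩

/-- THE LINE of a triple, integers (`400` times) -/
theorem line_code {bj bk : Bool} {T0 T1 m h t g x y z uk uv : ℝ} {Q : Multiset V4} {Gj Gk Gv : ℝ}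
    (hT : 3 / 10 ≤ T0) (c : Cfg bj bk T0 T1 m h t g x y z uk uv Q Gj Gk Gv) (n p q r : ℕ) :
    4 * (p : ℝ) * r * cv h t g x y z Q (trc n).1 + 4 * (q : ℝ) * r * cv h t g x y z Q (trc n).2.1
      ≤ (p : ℝ) ^ 2 + (q : ℝ) ^ 2 + (r : ℝ) ^ 2 + 2 * p * r + 2 * q * r - 2 * p * q
        + 4 * p * q * cv h t g x y z Q (trc n).2.2 := by
  obtain ⟨a, b, d, e⟩ := tri_code hT c n
  exact triL e a.1 a.2 b.1 b.2 d.1 (Nat.cast_nonneg _) (Nat.cast_nonneg _) (Nat.cast_nonneg _)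

/-- value of the line at the borders: `400 (p² + q² + r² + 2pr + 2qr) + 4pqZ` against `4prX + 4qrY + 800pq` -/
def lnU (p q r Z : ℕ) : ℕ := 400 * (p * p + q * q + r * r + 2 * (p * r) + 2 * (q * r)) + 4 * (p * q) * Z
def lnL (p q r X Y : ℕ) : ℕ := 4 * (p * r) * X + 4 * (q * r) * Y + 800 * (p * q)

/-! ### the tree -/

/-- a tree of boxes with the leaves `α` -/
inductive Tr (α : Type) : Type
  | leaf : α → Tr α
  /-- split of the coordinate `c` at `b` -/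
  | spl : ℕ → ℕ → Tr α → Tr α → Tr α
  /-- the split of `Gv` -/
  | gv : Tr α → Tr α → Tr α
  /-- the split of a status (`0`: `j`, else: `k`): bad, payer -/
  | st : ℕ → Tr α → Tr α → Tr α
  /-- borders by `t ≤ h` -/
  | ord : Tr α → Tr α
  /-- new upper border of `X` by a line (`n p q r`), or new lower border of `Z` -/
  | trX : ℕ → ℕ → ℕ → ℕ → ℕ → Tr α → Tr α
  | trZ : ℕ → ℕ → ℕ → ℕ → ℕ → Tr α → Tr α
  /-- the box is empty: order -/
  | emO : Tr α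
  /-- the box is empty: line -/
  | emL : ℕ → ℕ → ℕ → ℕ → Tr α
  /-- the box is empty: borders -/
  | emB : ℕ → Tr α
  /-- the box is contained in an earlier one -/
  | ref : ℕ → Tr α

/-- inclusion of intervals, `0` = no upper bound -/
def sub0 (a b a' b' : ℕ) : Bool := Nat.ble a' a && (Nat.beq b' 0 || (Nat.ble b b' && !Nat.beq b 0))

/-- inclusion of boxes -/
def St.sub (σ τ : St) : Bool :=
  (σ.V == τ.V) && ((Nat.beq τ.bj 2 || Nat.beq σ.bj τ.bj) && ((Nat.beq τ.bk 2 || Nat.beq σ.bk τ.bk) && ((Nat.beq τ.gm 0 || Nat.beq σ.gm τ.gm) &&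
  (Nat.ble σ.m τ.m && (Nat.ble τ.h0 σ.h0 && (Nat.ble σ.h1 τ.h1 && (Nat.ble τ.t0 σ.t0 && (Nat.ble σ.t1 τ.t1 &&
  (Nat.ble τ.g0 σ.g0 && (Nat.ble σ.g1 τ.g1 && (Nat.ble τ.x0 σ.x0 && (Nat.ble σ.x1 τ.x1 &&
  (Nat.ble τ.y0 σ.y0 && (Nat.ble σ.y1 τ.y1 && (Nat.ble τ.z0 σ.z0 && (Nat.ble σ.z1 τ.z1 &&
  (Nat.ble τ.s0 σ.s0 && (Nat.ble σ.s1 τ.s1 && (sub0 σ.rj0 σ.rj1 τ.rj0 τ.rj1 &&
  sub0 σ.rk0 σ.rk1 τ.rk0 τ.rk1)))))))))))))))))))

lemma Bt.mono {a b a' b' : ℕ} {x : ℝ} (h : Bt a b x) (h1 : a' ≤ a) (h2 : b ≤ b') : Bt a' b' x := by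
  have e1 : (a' : ℝ) ≤ a := by exact_mod_cast h1
  have e2 : (b : ℝ) ≤ b' := by exact_mod_cast h2
  exact ⟨le_trans (by linarith) h.1, h.2.trans (by linarith)⟩

lemma Bt0.mono {a b a' b' : ℕ} {x : ℝ} (h : Bt0 a b x) (h1 : sub0 a b a' b' = true) : Bt0 a' b' x := by
  unfold sub0 at h1
  simp only [Bool.and_eq_true, Bool.or_eq_true, Nat.ble_eq, Nat.beq_eq, Bool.not_eq_true',
    ← Bool.not_eq_true] at h1
  obtain ⟨h1, h2⟩ := h1
  have e1 : (a' : ℝ) ≤ a := by exact_mod_cast h1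
  refine ⟨le_trans (by linarith) h.1, fun hb => ?_⟩
  rcases h2 with h2 | ⟨h2, h3⟩
  · exact absurd h2 hb
  · have e2 : (b : ℝ) ≤ b' := by exact_mod_cast h2
    exact (h.2 h3).trans (by linarith)

lemma Dead.mono {σ τ : St} (hs : σ.sub τ = true) (h : Dead τ) : Dead σ := by
  unfold St.sub at hs
  simp only [Bool.and_eq_true, Bool.or_eq_true, Nat.ble_eq, Nat.beq_eq, beq_iff_eq] at hs
  obtain ⟨e1, e2, e3, e4, e5, a1, a2, b1, b2, c1, c2, d1, d2, f1, f2, g1, g2, i1, i2, j, k⟩ := hs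
  intro bj bk T0 T1 m h' t g x y z uk uv Q Gj Gk Gv mj mk hT c i
  have mm : ∀ {a b : ℕ} {q : Bool}, b = 2 ∨ a = b → Mt a q → Mt b q := by
    intro a b q h1 h2
    rcases h1 with h1 | h1
    · rw [h1]
      exact ⟨fun h => absurd h (by norm_num), fun h => absurd h (by norm_num)⟩
    · rw [← h1]; exact h2
  refine h bj bk T0 T1 m h' t g x y z uk uv Q Gj Gk Gv (mm e2 mj) (mm e3 mk) hT c ⟨i.ih.mono a1 a2, i.it.mono b1 b2, i.ig.mono c1 c2,
    i.ix.mono d1 d2, i.iy.mono f1 f2, i.iz.mono g1 g2, i.is.mono i1 i2, i.irj.mono j, i.irk.mono k, ?_, ?_, ?_, ?_, ?_⟩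
  · have : (σ.m : ℝ) ≤ τ.m := by exact_mod_cast e5
    exact i.im.trans (by linarith)
  · intro h1
    rcases e4 with e4 | e4
    · rw [e4] at h1; exact absurd h1 (by norm_num)
    · exact i.gm1 (e4.trans h1)
  · intro h1
    rcases e4 with e4 | e4
    · rw [e4] at h1; exact absurd h1 (by norm_num)
    · exact i.gm2 (e4.trans h1)
  · rw [← e1]; exact i.nv
  · rw [← e1]; exact i.v

section

variable {α : Type}

/-- THE CHECK of a tree -/
def Tr.chk (lf : α → St → Bool) (refs : List St) : Tr α → St → Bool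
  | .leaf a, σ => lf a σ
  | .spl c b L R, σ => L.chk lf refs (σ.setHi c b) && R.chk lf refs (σ.setLo c b)
  | .gv L R, σ => L.chk lf refs { σ with gm := 1 } && R.chk lf refs { σ with gm := 2 }
  | .st v L R, σ => (match v with
    | 0 => L.chk lf refs { σ with bj := 0 } && R.chk lf refs { σ with bj := 1 }
    | _ => L.chk lf refs { σ with bk := 0 } && R.chk lf refs { σ with bk := 1 })
  | .ord L, σ => L.chk lf refs { σ with t1 := Nat.min σ.t1 σ.h1, h0 := Nat.max σ.h0 σ.t0 }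
  | .trX n p q r b L, σ => (Nat.ble (lnU p q r (σ.hi (trc n).2.2)) (lnL p q r b (σ.lo (trc n).2.1)) &&
      (Nat.blt 0 p && (Nat.blt 0 r && Nat.blt n 24))) && L.chk lf refs (σ.setHi (trc n).1 b)
  | .trZ n p q r b L, σ => (Nat.ble (lnU p q r b) (lnL p q r (σ.lo (trc n).1) (σ.lo (trc n).2.1)) &&
      (Nat.blt 0 p && (Nat.blt 0 q && Nat.blt n 24))) && L.chk lf refs (σ.setLo (trc n).2.2 b)
  | .emO, σ => Nat.blt σ.h1 σ.t0
  | .emL n p q r, σ => Nat.blt (lnU p q r (σ.hi (trc n).2.2)) (lnL p q r (σ.lo (trc n).1) (σ.lo (trc n).2.1)) &&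
      Nat.blt n 24
  | .emB c, σ => Nat.blt (σ.hi c) (σ.lo c) && Nat.blt c 7
  | .ref k, σ => match refs[k]? with
    | some τ => σ.sub τ
    | none => false

/-- the borders of the coordinates of the triples -/
lemma In.bt {σ : St} {m h t g x y z uv : ℝ} {Q : Multiset V4} {Gv : ℝ} (i : In σ m h t g x y z uv Q Gv) (c : ℕ)
    (hc : c < 7) : Bt (σ.lo c) (σ.hi c) (cv h t g x y z Q c) := by
  interval_cases c
  · exact i.ih
  · exact i.it
  · exact i.ig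
  · exact i.ix
  · exact i.iy
  · exact i.iz
  · exact i.is

lemma trc_lt (n : ℕ) : (trc n).1 < 7 ∧ (trc n).2.1 < 7 ∧ (trc n).2.2 < 7 := by
  unfold trc
  split <;> simp

lemma lnU_cast (p q r Z : ℕ) : (lnU p q r Z : ℝ)
    = 400 * ((p : ℝ) ^ 2 + q ^ 2 + r ^ 2 + 2 * (p * r) + 2 * (q * r)) + 4 * (p * q) * Z := by
  unfold lnU; push_cast; ring
lemma lnL_cast (p q r X Y : ℕ) : (lnL p q r X Y : ℝ) = 4 * (p * r) * X + 4 * (q * r) * Y + 800 * (p * q) := by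
  unfold lnL; push_cast; ring

/-- SOUNDNESS of the tree -/
theorem Tr.sound {lf : α → St → Bool} (hlf : ∀ a σ, lf a σ = true → Dead σ) {refs : List St}
    (hr : ∀ τ ∈ refs, Dead τ) (T : Tr α) : ∀ σ, T.chk lf refs σ = true → Dead σ := by
  induction T with
  | leaf a => intro σ h; exact hlf a σ h
  | spl c b L R ihL ihR =>
    intro σ h
    unfold Tr.chk at h
    rw [Bool.and_eq_true] at h
    intro bj bk T0 T1 m h' t g x y z uk uv Q Gj Gk Gv mj mk hT cf i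
    rcases le_total (cv h' t g x y z Q c) ((b : ℝ) / 400) with hb | hb
    · refine ihL _ h.1 bj bk T0 T1 m h' t g x y z uk uv Q Gj Gk Gv (by rw [St.bj_setHi]; exact mj)
        (by rw [St.bk_setHi]; exact mk) hT cf (i.setHi c b hb)
    · refine ihR _ h.2 bj bk T0 T1 m h' t g x y z uk uv Q Gj Gk Gv (by rw [St.bj_setLo]; exact mj)
        (by rw [St.bk_setLo]; exact mk) hT cf (i.setLo c b hb)
  | gv L R ihL ihR =>
    intro σ h
    unfold Tr.chk at h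
    rw [Bool.and_eq_true] at h
    intro bj bk T0 T1 m h' t g x y z uk uv Q Gj Gk Gv mj mk hT cf i
    rcases lt_or_ge Gv (1 / 2) with hb | hb
    · exact ihL _ h.1 bj bk T0 T1 m h' t g x y z uk uv Q Gj Gk Gv mj mk hT cf
        ⟨i.ih, i.it, i.ig, i.ix, i.iy, i.iz, i.is, i.irj, i.irk, i.im, fun _ => hb, fun e => absurd e (by norm_num), i.nv, i.v⟩
    · exact ihR _ h.2 bj bk T0 T1 m h' t g x y z uk uv Q Gj Gk Gv mj mk hT cf
        ⟨i.ih, i.it, i.ig, i.ix, i.iy, i.iz, i.is, i.irj, i.irk, i.im, fun e => absurd e (by norm_num), fun _ => hb, i.nv, i.v⟩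
  | st v L R ihL ihR =>
    intro σ h
    intro bj bk T0 T1 m h' t g x y z uk uv Q Gj Gk Gv mj mk hT cf i
    have i0 : ∀ c : ℕ, In { σ with bj := c } m h' t g x y z uv Q Gv := fun c =>
      ⟨i.ih, i.it, i.ig, i.ix, i.iy, i.iz, i.is, i.irj, i.irk, i.im, i.gm1, i.gm2, i.nv, i.v⟩
    have i1 : ∀ c : ℕ, In { σ with bk := c } m h' t g x y z uv Q Gv := fun c =>
      ⟨i.ih, i.it, i.ig, i.ix, i.iy, i.iz, i.is, i.irj, i.irk, i.im, i.gm1, i.gm2, i.nv, i.v⟩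
    cases v with
    | zero =>
      have h : (L.chk lf refs { σ with bj := 0 } && R.chk lf refs { σ with bj := 1 }) = true := h
      rw [Bool.and_eq_true] at h
      cases bj with
      | true =>
        exact ihL _ h.1 true bk T0 T1 m h' t g x y z uk uv Q Gj Gk Gv
          ⟨fun _ => rfl, fun e => absurd e (by norm_num)⟩ mk hT cf (i0 0)
      | false =>
        exact ihR _ h.2 false bk T0 T1 m h' t g x y z uk uv Q Gj Gk Gv
          ⟨fun e => absurd e (by norm_num), fun _ => rfl⟩ mk hT cf (i0 1)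
    | succ v =>
      have h : (L.chk lf refs { σ with bk := 0 } && R.chk lf refs { σ with bk := 1 }) = true := h
      rw [Bool.and_eq_true] at h
      cases bk with
      | true =>
        exact ihL _ h.1 bj true T0 T1 m h' t g x y z uk uv Q Gj Gk Gv mj
          ⟨fun _ => rfl, fun e => absurd e (by norm_num)⟩ hT cf (i1 0)
      | false =>
        exact ihR _ h.2 bj false T0 T1 m h' t g x y z uk uv Q Gj Gk Gv mj
          ⟨fun e => absurd e (by norm_num), fun _ => rfl⟩ hT cf (i1 1)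
  | ord L ih =>
    intro σ h
    unfold Tr.chk at h
    intro bj bk T0 T1 m h' t g x y z uk uv Q Gj Gk Gv mj mk hT cf i
    have hth := cf.th
    refine ih _ h bj bk T0 T1 m h' t g x y z uk uv Q Gj Gk Gv mj mk hT cf
      ⟨⟨?_, i.ih.2⟩, ⟨i.it.1, ?_⟩, i.ig, i.ix, i.iy, i.iz, i.is, i.irj, i.irk, i.im, i.gm1, i.gm2, i.nv, i.v⟩
    · show ((Nat.max σ.h0 σ.t0 : ℕ) : ℝ) / 400 ≤ h'
      rcases le_total σ.h0 σ.t0 with e | e
      · rw [show Nat.max σ.h0 σ.t0 = σ.t0 from Nat.max_eq_right e]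
        exact i.it.1.trans hth
      · rw [show Nat.max σ.h0 σ.t0 = σ.h0 from Nat.max_eq_left e]
        exact i.ih.1
    · show t ≤ ((Nat.min σ.t1 σ.h1 : ℕ) : ℝ) / 400
      rcases le_total σ.t1 σ.h1 with e | e
      · rw [show Nat.min σ.t1 σ.h1 = σ.t1 from Nat.min_eq_left e]
        exact i.it.2
      · rw [show Nat.min σ.t1 σ.h1 = σ.h1 from Nat.min_eq_right e]
        exact hth.trans i.ih.2
  | trX n p q r b L ih =>
    intro σ h
    unfold Tr.chk at h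
    rw [Bool.and_eq_true, Bool.and_eq_true, Bool.and_eq_true, Bool.and_eq_true, Nat.ble_eq, Nat.blt_eq,
      Nat.blt_eq, Nat.blt_eq] at h
    obtain ⟨⟨h1, hp, hr', -⟩, h2⟩ := h
    intro bj bk T0 T1 m h' t g x y z uk uv Q Gj Gk Gv mj mk hT cf i
    have key := line_code hT cf n p q r
    obtain ⟨l1, l2, l3⟩ := trc_lt n
    have bY := (i.bt _ l2).1
    have bZ := (i.bt _ l3).2
    have e1 : ((lnU p q r (σ.hi (trc n).2.2) : ℕ) : ℝ) ≤ (lnL p q r b (σ.lo (trc n).2.1) : ℕ) := by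
      exact_mod_cast h1
    rw [lnU_cast, lnL_cast] at e1
    have hp' : (0 : ℝ) < p := by exact_mod_cast hp
    have hr'' : (0 : ℝ) < r := by exact_mod_cast hr'
    have hq' : (0 : ℝ) ≤ q := Nat.cast_nonneg _
    have hX : cv h' t g x y z Q (trc n).1 ≤ (b : ℝ) / 400 := by
      obtain ⟨X, hX⟩ : ∃ X, X = cv h' t g x y z Q (trc n).1 := ⟨_, rfl⟩
      obtain ⟨Y, hY⟩ : ∃ Y, Y = cv h' t g x y z Q (trc n).2.1 := ⟨_, rfl⟩
      obtain ⟨Z, hZ⟩ : ∃ Z, Z = cv h' t g x y z Q (trc n).2.2 := ⟨_, rfl⟩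
      rw [← hX, ← hY, ← hZ] at key
      rw [← hY] at bY
      rw [← hZ] at bZ
      rw [← hX]
      have f1 : 4 * ((p : ℝ) * q) * (400 * Z) ≤ 4 * (p * q) * (σ.hi (trc n).2.2 : ℝ) :=
        mul_le_mul_of_nonneg_left (by linarith) (by positivity)
      have f2 : 4 * ((q : ℝ) * r) * (σ.lo (trc n).2.1 : ℝ) ≤ 4 * (q * r) * (400 * Y) :=
        mul_le_mul_of_nonneg_left (by linarith) (by positivity)
      have f3 : 4 * ((p : ℝ) * r) * (400 * X) ≤ 4 * (p * r) * b := by nlinarith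
      have f4 := le_of_mul_le_mul_left f3 (by positivity)
      linarith
    refine ih _ h2 bj bk T0 T1 m h' t g x y z uk uv Q Gj Gk Gv (by rw [St.bj_setHi]; exact mj)
        (by rw [St.bk_setHi]; exact mk) hT cf (i.setHi _ b hX)
  | trZ n p q r b L ih =>
    intro σ h
    unfold Tr.chk at h
    rw [Bool.and_eq_true, Bool.and_eq_true, Bool.and_eq_true, Bool.and_eq_true, Nat.ble_eq, Nat.blt_eq,
      Nat.blt_eq, Nat.blt_eq] at h
    obtain ⟨⟨h1, hp, hq, -⟩, h2⟩ := h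
    intro bj bk T0 T1 m h' t g x y z uk uv Q Gj Gk Gv mj mk hT cf i
    have key := line_code hT cf n p q r
    obtain ⟨l1, l2, l3⟩ := trc_lt n
    have bX := (i.bt _ l1).1
    have bY := (i.bt _ l2).1
    have e1 : ((lnU p q r b : ℕ) : ℝ) ≤ (lnL p q r (σ.lo (trc n).1) (σ.lo (trc n).2.1) : ℕ) := by
      exact_mod_cast h1
    rw [lnU_cast, lnL_cast] at e1
    have hp' : (0 : ℝ) < p := by exact_mod_cast hp
    have hq' : (0 : ℝ) < q := by exact_mod_cast hq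
    have hr'' : (0 : ℝ) ≤ r := Nat.cast_nonneg _
    have hZ : (b : ℝ) / 400 ≤ cv h' t g x y z Q (trc n).2.2 := by
      obtain ⟨X, hX⟩ : ∃ X, X = cv h' t g x y z Q (trc n).1 := ⟨_, rfl⟩
      obtain ⟨Y, hY⟩ : ∃ Y, Y = cv h' t g x y z Q (trc n).2.1 := ⟨_, rfl⟩
      obtain ⟨Z, hZ⟩ : ∃ Z, Z = cv h' t g x y z Q (trc n).2.2 := ⟨_, rfl⟩
      rw [← hX, ← hY, ← hZ] at key
      rw [← hX] at bX
      rw [← hY] at bY
      rw [← hZ]
      have f1 : 4 * ((p : ℝ) * r) * (σ.lo (trc n).1 : ℝ) ≤ 4 * (p * r) * (400 * X) :=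
        mul_le_mul_of_nonneg_left (by linarith) (by positivity)
      have f2 : 4 * ((q : ℝ) * r) * (σ.lo (trc n).2.1 : ℝ) ≤ 4 * (q * r) * (400 * Y) :=
        mul_le_mul_of_nonneg_left (by linarith) (by positivity)
      have f3 : 4 * ((p : ℝ) * q) * b ≤ 4 * (p * q) * (400 * Z) := by nlinarith
      have f4 := le_of_mul_le_mul_left f3 (by positivity)
      linarith
    refine ih _ h2 bj bk T0 T1 m h' t g x y z uk uv Q Gj Gk Gv (by rw [St.bj_setLo]; exact mj)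
        (by rw [St.bk_setLo]; exact mk) hT cf (i.setLo _ b hZ)
  | emO =>
    intro σ h bj bk T0 T1 m h' t g x y z uk uv Q Gj Gk Gv mj mk hT cf i
    unfold Tr.chk at h
    rw [Nat.blt_eq] at h
    have e : (σ.h1 : ℝ) < σ.t0 := by exact_mod_cast h
    have a := i.ih.2
    have b := i.it.1
    have d := cf.th
    linarith
  | emL n p q r =>
    intro σ h bj bk T0 T1 m h' t g x y z uk uv Q Gj Gk Gv mj mk hT cf i
    unfold Tr.chk at h
    rw [Bool.and_eq_true, Nat.blt_eq] at h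
    have key := line_code hT cf n p q r
    obtain ⟨l1, l2, l3⟩ := trc_lt n
    have bX := (i.bt _ l1).1
    have bY := (i.bt _ l2).1
    have bZ := (i.bt _ l3).2
    have e1 : ((lnU p q r (σ.hi (trc n).2.2) : ℕ) : ℝ) < (lnL p q r (σ.lo (trc n).1) (σ.lo (trc n).2.1) : ℕ) := by
      exact_mod_cast h.1
    rw [lnU_cast, lnL_cast] at e1
    obtain ⟨X, hX⟩ : ∃ X, X = cv h' t g x y z Q (trc n).1 := ⟨_, rfl⟩
    obtain ⟨Y, hY⟩ : ∃ Y, Y = cv h' t g x y z Q (trc n).2.1 := ⟨_, rfl⟩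
    obtain ⟨Z, hZ⟩ : ∃ Z, Z = cv h' t g x y z Q (trc n).2.2 := ⟨_, rfl⟩
    rw [← hX, ← hY, ← hZ] at key
    rw [← hX] at bX
    rw [← hY] at bY
    rw [← hZ] at bZ
    have hp' : (0 : ℝ) ≤ p := Nat.cast_nonneg _
    have hq' : (0 : ℝ) ≤ q := Nat.cast_nonneg _
    have hr'' : (0 : ℝ) ≤ r := Nat.cast_nonneg _
    have f1 : 4 * ((p : ℝ) * r) * (σ.lo (trc n).1 : ℝ) ≤ 4 * (p * r) * (400 * X) :=
      mul_le_mul_of_nonneg_left (by linarith) (by positivity)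
    have f2 : 4 * ((q : ℝ) * r) * (σ.lo (trc n).2.1 : ℝ) ≤ 4 * (q * r) * (400 * Y) :=
      mul_le_mul_of_nonneg_left (by linarith) (by positivity)
    have f3 : 4 * ((p : ℝ) * q) * (400 * Z) ≤ 4 * (p * q) * (σ.hi (trc n).2.2 : ℝ) :=
      mul_le_mul_of_nonneg_left (by linarith) (by positivity)
    nlinarith
  | emB c =>
    intro σ h bj bk T0 T1 m h' t g x y z uk uv Q Gj Gk Gv mj mk hT cf i
    unfold Tr.chk at h
    rw [Bool.and_eq_true, Nat.blt_eq, Nat.blt_eq] at h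
    have e : (σ.hi c : ℝ) < σ.lo c := by exact_mod_cast h.1
    have a := i.bt c h.2
    have b := a.1.trans a.2
    linarith
  | ref k =>
    intro σ h
    unfold Tr.chk at h
    cases e : refs[k]? with
    | none => rw [e] at h; exact absurd h (by simp)
    | some τ =>
      rw [e] at h
      exact (hr τ (List.mem_of_getElem? e)).mono h

end

end B2
end Pool.Agent.Lib.MP_6947cd_al
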