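import Pool.Agent.Lib.MP_6947cd_al.Z.RowI3
import Pool.Agent.Lib.MP_6947cd_al.C.RowN
import Pool.Agent.Lib.MP_6947cd_al.Z.St

/-!
Problem MP_6947cd_al (Chollet).  CASE B, middle second entry: the leaf from the corner values (integers).
-/

set_option autoImplicit false
open Finset

namespace Pool.Agent.Lib.MP_6947cd_al
namespace B2

open Ent Ent.Pk Fr Fr.WT CC B1 PkA

/-! ### projections -/

lemma Ma.pr3 {F : (Fin 3 → ℝ) → ℝ} (hF : Ma F) {a b c : Fin 6} (hab : a ≠ b) (hac : a ≠ c) (hbc : b ≠ c) :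
    Ma fun v : Fin 6 → ℝ => F ![v a, v b, v c] := by
  intro v i
  by_cases ha : a = i
  · subst ha
    obtain ⟨p, q, h⟩ := hF ![v a, v b, v c] 0
    refine ⟨p, q, fun u => ?_⟩
    rw [← h u]
    beta_reduce
    congr 1
    rw [Function.update_self, Function.update_of_ne hab.symm, Function.update_of_ne hac.symm]
    funext j
    fin_cases j <;> rfl
  by_cases hb : b = i
  · subst hb
    obtain ⟨p, q, h⟩ := hF ![v a, v b, v c] 1
    refine ⟨p, q, fun u => ?_⟩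
    rw [← h u]
    beta_reduce
    congr 1
    rw [Function.update_self, Function.update_of_ne hab, Function.update_of_ne hbc.symm]
    funext j
    fin_cases j <;> rfl
  by_cases hc : c = i
  · subst hc
    obtain ⟨p, q, h⟩ := hF ![v a, v b, v c] 2
    refine ⟨p, q, fun u => ?_⟩
    rw [← h u]
    beta_reduce
    congr 1
    rw [Function.update_self, Function.update_of_ne hac, Function.update_of_ne hbc]
    funext j
    fin_cases j <;> rfl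
  · refine ⟨F ![v a, v b, v c], 0, fun u => ?_⟩
    beta_reduce
    rw [Function.update_of_ne ha, Function.update_of_ne hb, Function.update_of_ne hc, zero_mul, add_zero]

/-! ### borders -/

/-- borders of the six entries, unit `1 / 400` -/
structure LB where
  H0 : ℕ
  H1 : ℕ
  T0 : ℕ
  T1 : ℕ
  G0 : ℕ
  G1 : ℕ
  X0 : ℕ
  X1 : ℕ
  Y0 : ℕ
  Y1 : ℕ
  Z0 : ℕ
  Z1 : ℕ

def LB.L (b : LB) : Fin 6 → ℕ := ![b.H0, b.T0, b.G0, b.X0, b.Y0, b.Z0]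
def LB.R (b : LB) : Fin 6 → ℕ := ![b.H1, b.T1, b.G1, b.X1, b.Y1, b.Z1]
noncomputable def LB.lo (b : LB) (i : Fin 6) : ℝ := (b.L i : ℝ) / 400
noncomputable def LB.hi (b : LB) (i : Fin 6) : ℝ := (b.R i : ℝ) / 400

lemma cv_mul (x y : ℕ) (c : Bool) : (bif c then (y : ℝ) / 400 else (x : ℝ) / 400) = ((C1.cv x y c : ℕ) : ℝ) / 400 := by
  cases c <;> rfl

lemma LB.cor (b : LB) (e : Fin 6 → Bool) (i : Fin 6) :
    corner b.lo b.hi e i = ((C1.cv (b.L i) (b.R i) (e i) : ℕ) : ℝ) / 400 := by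
  unfold corner
  rw [← cv_mul]
  rfl

lemma LB.lo0 (b : LB) (i : Fin 6) : 0 ≤ b.lo i := by unfold LB.lo; positivity

/-! ### the merged entries -/

/-- integer value plus `10 ^ 6` -/
def vN (v : ℤ) : ℕ := Int.toNat (Int.add v 1000000)

/-- the eight values (plus `10 ^ 6`) as a function of the corner -/
def fnN (V : N3C.V8) : Bool → Bool → Bool → ℕ
  | false, false, false => vN V.v000
  | false, false, true => vN V.v001
  | false, true, false => vN V.v010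
  | false, true, true => vN V.v011
  | true, false, false => vN V.v100
  | true, false, true => vN V.v101
  | true, true, false => vN V.v110
  | true, true, true => vN V.v111

/-- all the values are at least `-10 ^ 6` -/
def vOK (V : N3C.V8) : Bool :=
  decide (-1000000 ≤ V.v000) && (decide (-1000000 ≤ V.v001) && (decide (-1000000 ≤ V.v010) &&
    (decide (-1000000 ≤ V.v011) && (decide (-1000000 ≤ V.v100) && (decide (-1000000 ≤ V.v101) &&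
    (decide (-1000000 ≤ V.v110) && decide (-1000000 ≤ V.v111)))))))

lemma vN_cast {v : ℤ} (h : -1000000 ≤ v) : ((vN v : ℕ) : ℝ) = v + 1000000 := by
  have h1 : ((vN v : ℕ) : ℤ) = v + 1000000 := Int.toNat_of_nonneg (by
    show 0 ≤ v + 1000000
    omega)
  have h2 : (((vN v : ℕ) : ℤ) : ℝ) = ((v + 1000000 : ℤ) : ℝ) := by rw [h1]
  push_cast at h2
  exact h2

lemma fnN_eq {V : N3C.V8} (h : vOK V = true) (a b c : Bool) :
    UC.fn V a b c = (((fnN V a b c : ℕ) : ℝ) - 1000000) / 1000000 := by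
  unfold vOK at h
  simp only [Bool.and_eq_true, decide_eq_true_eq] at h
  obtain ⟨h1, h2, h3, h4, h5, h6, h7, h8⟩ := h
  cases a <;> cases b <;> cases c <;> unfold UC.fn fnN <;> simp only [vN_cast, h1, h2, h3, h4, h5, h6, h7, h8] <;> ring

/-- lower bound of the merged entry as a function of the point -/
noncomputable def UF (H0 H1 T0 T1 G0 G1 : ℕ) (V : N3C.V8) (a b c : Fin 6) : (Fin 6 → ℝ) → ℝ := fun v =>
  Ip ![(H0 : ℝ) / 400, (T0 : ℝ) / 400, (G0 : ℝ) / 400] ![(H1 : ℝ) / 400, (T1 : ℝ) / 400, (G1 : ℝ) / 400]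
    (fun e => UC.fn V (e 0) (e 1) (e 2)) ![v a, v b, v c]

lemma UF_ma (H0 H1 T0 T1 G0 G1 : ℕ) (V : N3C.V8) {a b c : Fin 6} (hab : a ≠ b) (hac : a ≠ c) (hbc : b ≠ c) :
    Ma (UF H0 H1 T0 T1 G0 G1 V a b c) :=
  Ma.pr3 (Ip_ma _ _ _) hab hac hbc

lemma lh3 {H0 H1 T0 T1 G0 G1 : ℕ} (h0 : H0 < H1) (h1 : T0 < T1) (h2 : G0 < G1) :
    ∀ i, (![(H0 : ℝ) / 400, (T0 : ℝ) / 400, (G0 : ℝ) / 400] : Fin 3 → ℝ) i
      < (![(H1 : ℝ) / 400, (T1 : ℝ) / 400, (G1 : ℝ) / 400] : Fin 3 → ℝ) i := by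
  have k : ∀ {a b : ℕ}, a < b → (a : ℝ) / 400 < (b : ℝ) / 400 := fun h =>
    div_lt_div_of_pos_right (by exact_mod_cast h) (by norm_num)
  intro i
  fin_cases i
  · exact k h0
  · exact k h1
  · exact k h2

lemma UF_corner {H0 H1 T0 T1 G0 G1 : ℕ} (h0 : H0 < H1) (h1 : T0 < T1) (h2 : G0 < G1) (V : N3C.V8)
    {a b c : Fin 6} {v : Fin 6 → ℝ} {ea eb ec : Bool} (ha : v a = ((C1.cv H0 H1 ea : ℕ) : ℝ) / 400)
    (hb : v b = ((C1.cv T0 T1 eb : ℕ) : ℝ) / 400) (hc : v c = ((C1.cv G0 G1 ec : ℕ) : ℝ) / 400) :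
    UF H0 H1 T0 T1 G0 G1 V a b c v = UC.fn V ea eb ec := by
  unfold UF
  have e : (![v a, v b, v c] : Fin 3 → ℝ) = corner ![(H0 : ℝ) / 400, (T0 : ℝ) / 400, (G0 : ℝ) / 400]
      ![(H1 : ℝ) / 400, (T1 : ℝ) / 400, (G1 : ℝ) / 400] ![ea, eb, ec] := by
    funext i
    unfold corner
    fin_cases i
    · show v a = bif ea then (H1 : ℝ) / 400 else (H0 : ℝ) / 400
      rw [ha, cv_mul]
    · show v b = bif eb then (T1 : ℝ) / 400 else (T0 : ℝ) / 400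
      rw [hb, cv_mul]
    · show v c = bif ec then (G1 : ℝ) / 400 else (G0 : ℝ) / 400
      rw [hc, cv_mul]
  rw [e, Ip_corner (lh3 h0 h1 h2)]
  rfl

/-- the merged entry is at least the interpolation -/
lemma UF_le {H0 H1 T0 T1 G0 G1 ra rb : ℕ} (h0 : H0 < H1) (h1 : T0 < T1) (h2 : G0 < G1) {V : N3C.V8}
    (hc : UC.chkU 400 2500 H0 H1 T0 T1 G0 G1 ra rb V = true) {a b c : Fin 6} {v : Fin 6 → ℝ}
    (ha : (H0 : ℝ) / 400 ≤ v a ∧ v a ≤ (H1 : ℝ) / 400) (hb : (T0 : ℝ) / 400 ≤ v b ∧ v b ≤ (T1 : ℝ) / 400)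
    (hg : (G0 : ℝ) / 400 ≤ v c ∧ v c ≤ (G1 : ℝ) / 400) {e u : ℝ} (q : PQ.Geo (v a) (v b) (v c) e u) :
    UF H0 H1 T0 T1 G0 G1 V a b c v ≤ u := by
  have hv : Box ![(H0 : ℝ) / 400, (T0 : ℝ) / 400, (G0 : ℝ) / 400] ![(H1 : ℝ) / 400, (T1 : ℝ) / 400, (G1 : ℝ) / 400]
      ![v a, v b, v c] := by
    intro i
    fin_cases i
    · exact ha
    · exact hb
    · exact hg
  have := UC.chkU_sound hc (lh3 h0 h1 h2) (i := (0 : Fin 3)) (j := 1) (k := 2) (by decide) (by decide)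
    (by show (H0 : ℝ) / 400 = (H0 : ℝ) / ((400 : ℕ) : ℝ); norm_num) (by show (H1 : ℝ) / 400 = (H1 : ℝ) / ((400 : ℕ) : ℝ); norm_num)
    (by show (T0 : ℝ) / 400 = (T0 : ℝ) / ((400 : ℕ) : ℝ); norm_num) (by show (T1 : ℝ) / 400 = (T1 : ℝ) / ((400 : ℕ) : ℝ); norm_num)
    (by show (G0 : ℝ) / 400 = (G0 : ℝ) / ((400 : ℕ) : ℝ); norm_num) (by show (G1 : ℝ) / 400 = (G1 : ℝ) / ((400 : ℕ) : ℝ); norm_num) hv
  change 2 * (1 + v a) * UF H0 H1 T0 T1 G0 G1 V a b c v ≤ (2 - Real.sqrt (1 - v a)) * v b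
    + (2 + Real.sqrt (1 - v a)) * v c - (1 - v a) at this
  have h3 := q.ue
  have h4 := q.fe
  have h5 : 0 < 2 * (1 + v a) := by have := q.h0; linarith
  have h6 : 2 * (1 + v a) * UF H0 H1 T0 T1 G0 G1 V a b c v ≤ 2 * (1 + v a) * u := by
    rw [h3]
    refine this.trans ?_
    linarith
  exact le_of_mul_le_mul_left h6 h5

/-! ### the linear part -/

noncomputable def cutF (l : LC) (lp ln : ℕ) (v : Fin 6 → ℝ) : ℝ :=
  ((lp : ℝ) - ln + ((l.hp : ℝ) - l.hn) * (400 * v 0) + ((l.tp : ℝ) - l.tn) * (400 * v 1)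
    + ((l.gp : ℝ) - l.gn) * (400 * v 2) + ((l.xp : ℝ) - l.xn) * (400 * v 3) + ((l.yp : ℝ) - l.yn) * (400 * v 4)
    + ((l.zp : ℝ) - l.zn) * (400 * v 5)) / 8000000000000000

lemma cutF_ma (l : LC) (lp ln : ℕ) : Ma (cutF l lp ln) := by
  have h := ((((((((Ma.coord (ι := Fin 6) 0).smul (400 * ((l.hp : ℝ) - l.hn)))).add
    ((Ma.coord (ι := Fin 6) 1).smul (400 * ((l.tp : ℝ) - l.tn)))).add
    ((Ma.coord (ι := Fin 6) 2).smul (400 * ((l.gp : ℝ) - l.gn)))).add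
    ((Ma.coord (ι := Fin 6) 3).smul (400 * ((l.xp : ℝ) - l.xn)))).add
    ((Ma.coord (ι := Fin 6) 4).smul (400 * ((l.yp : ℝ) - l.yn)))).add
    ((Ma.coord (ι := Fin 6) 5).smul (400 * ((l.zp : ℝ) - l.zn)))).add (Ma.const ((lp : ℝ) - ln))
  have h2 := h.smul (1 / 8000000000000000)
  intro v i
  obtain ⟨p, q, h3⟩ := h2 v i
  refine ⟨p, q, fun u => ?_⟩
  rw [← h3 u]
  unfold cutF
  ring

/-! ### the leaf -/

/-- the weights of a leaf (the weights of the inequalities are in `NP`) -/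
structure LW where
  K : ℕ
  KJ : ℕ
  KK : ℕ
  lI : ℕ
  bJ : ℕ
  bK : ℕ
  MJ : ℕ
  TJ : ℕ
  UJ : ℕ
  MK : ℕ
  TK : ℕ
  UK : ℕ
  ct : ℕ
  Sl : ℕ
  G5 : ℕ

/-- the weights of the row `i` -/
def LW.wr (W : LW) (P : NP) : WR where
  w := P.w3 + P.wP + P.wA
  kap := W.K + W.KJ + W.KK + W.lI
  w3 := P.w3
  G5 := W.G5
  Sl := W.Sl
  M := W.MJ + W.MK + W.ct

/-- the conditions of the function of the main entries -/
structure FOK (b : LB) (P : NP) (h t g x y uk uv Gv : ℝ) (U Uv : (Fin 6 → ℝ) → ℝ)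
    (VF VG : Bool → Bool → Bool → ℕ) : Prop where
  L : P.L ≤ 10
  lv : P.wP + P.wA ≠ 0 → P.L ≤ 3 ∨ 40 * P.L ≤ b.T0 ∨ 40 * P.L ≤ b.G0
  zv : P.zv ≤ P.wP + P.wA
  zg : P.zg ≤ P.wA
  maU : Ma U
  maV : Ma Uv
  ptU : P.wP + P.wA ≠ 0 → ∀ v : Fin 6 → ℝ, v 0 = h → v 1 = t → v 2 = g → U v ≤ uk
  ptV : P.wP + P.wA ≠ 0 → ∀ v : Fin 6 → ℝ, v 0 = h → v 3 = x → v 4 = y → Uv v ≤ uv ∧ Uv v ≤ y
  cU : ∀ e, U (corner b.lo b.hi e) = (((VF (e 0) (e 1) (e 2) : ℕ) : ℝ) - 1000000) / 1000000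
  cV : ∀ e, Uv (corner b.lo b.hi e) = (((VG (e 0) (e 3) (e 4) : ℕ) : ℝ) - 1000000) / 1000000
  pU : P.wP * P.X2 ≠ 0 → ∀ a b c, 1000123 ≤ VF a b c
  pV : P.wP * P.X3 ≠ 0 → ∀ a b c, 1000123 ≤ VG a b c
  psi : P.wP ≠ 0 → C1.PsiOk ((P.V7 : ℝ) / 10 ^ 7) ((P.X2 : ℝ) / ((P.X1 + P.X2 + P.X3 : ℕ) : ℝ))
    ((P.X3 : ℝ) / ((P.X1 + P.X2 + P.X3 : ℕ) : ℝ)) ∨ (P.V7 = 5000000 ∧ P.X2 = 0 ∧ P.X3 = 0 ∧ 1 / 2 ≤ Gv)
  gv : P.wA ≠ 0 → Gv < 1 / 2
  gk : P.wA ≠ 0 → 50 * ((P.K1 : ℝ) - 215) ^ 2 ≤ 3 * P.K0 ∧ ∀ a b c, P.K1 * VF a b c ≤ 127125000 + 100 * P.K0 + 1000000 * P.K1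
  gg : P.zg ≠ 0 → 50 * ((P.G1 : ℝ) - 215) ^ 2 ≤ 3 * P.G0 ∧ ∀ a b c, P.G1 * VG a b c ≤ 127125000 + 100 * P.G0 + 1000000 * P.G1

/-- the parameters of the real leaf -/
noncomputable def LW.pm (W : LW) (P : NP) (rj0 rj1 rk0 rk1 x0 s0 : ℕ) : Pm where
  a3 := (P.w3 : ℝ) / 1000
  a1 := (P.wP : ℝ) / 1000 + (P.wA : ℝ) / 1000
  K := (W.K : ℝ) / 1000
  KJ := (W.KJ : ℝ) / 1000
  KK := (W.KK : ℝ) / 1000
  lI := (W.lI : ℝ) / 1000
  βj := (W.bJ : ℝ) / 1000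
  βk := (W.bK : ℝ) / 1000
  Γ := (W.G5 : ℝ) / 100000
  ct := (W.ct : ℝ) / 1000
  tl := ((x0 : ℝ) + s0) / 400
  ρj := ((W.TJ : ℝ) - W.UJ) / 1000
  ρk := ((W.TK : ℝ) - W.UK) / 1000
  cj := ((W.TJ : ℝ) * rj0 - W.UJ * rj1) / 400000
  ck := ((W.TK : ℝ) * rk0 - W.UK * rk1) / 400000
  wj := (W.MJ : ℝ) / 1000 + (W.Sl : ℝ) / 1000000
  wk := (W.MK : ℝ) / 1000

/-- the sum of the rests and the special entry -/
lemma rho_le {T U r0 r1 : ℕ} {a : ℝ} (h : Bt0 r0 r1 a) (hU : U = 0 ∨ r1 ≠ 0) :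
    ((T : ℝ) * r0 - U * r1) / 400000 ≤ ((T : ℝ) - U) / 1000 * a := by
  have h1 := mul_le_mul_of_nonneg_left h.1 (Nat.cast_nonneg (α := ℝ) T)
  have h2 : (U : ℝ) * a ≤ U * ((r1 : ℝ) / 400) := by
    rcases hU with h2 | h2
    · rw [h2]; simp
    · exact mul_le_mul_of_nonneg_left (h.2 h2) (Nat.cast_nonneg _)
  linarith

/-- a line below `gtr`, integers -/
lemma gline {K0 K1 : ℕ} {u : ℝ} {VF : Bool → Bool → Bool → ℕ} (h1 : 50 * ((K1 : ℝ) - 215) ^ 2 ≤ 3 * K0)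
    (h2 : ∀ a b c, K1 * VF a b c ≤ 127125000 + 100 * K0 + 1000000 * K1) {U : ℝ} (hU : U ≤ u) (hu : 0 ≤ u)
    (hm : ∃ a b c, U ≤ ((VF a b c : ℝ) - 1000000) / 1000000) :
    -((K0 : ℝ) / 10000000) + (K1 : ℝ) / 1000 * U ≤ gtr (3 / 20) (9 / 20) u := by
  obtain ⟨a, b, c, hm⟩ := hm
  have h3 := h2 a b c
  have h3' : (K1 : ℝ) * VF a b c ≤ 127125000 + 100 * K0 + 1000000 * K1 := by exact_mod_cast h3
  refine line_gtr (Um := ((VF a b c : ℝ) - 1000000) / 1000000) (by positivity) ?_ hm ?_ hU hu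
  · have e : ((K1 : ℝ) / 1000 - 43 / 200) ^ 2 = ((K1 : ℝ) - 215) ^ 2 / 1000000 := by ring
    rw [e]
    linarith
  · have e : (K1 : ℝ) / 1000 * (((VF a b c : ℝ) - 1000000) / 1000000)
      = ((K1 : ℝ) * VF a b c - 1000000 * K1) / 1000000000 := by ring
    rw [e]
    linarith

/-- the largest corner value -/
lemma exists_max8 {lo hi : Fin 6 → ℝ} {F : (Fin 6 → ℝ) → ℝ} (hF : Ma F) {v : Fin 6 → ℝ} (hv : Box lo hi v) :
    ∃ e, F v ≤ F (corner lo hi e) := by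
  classical
  by_contra hcon
  simp only [not_exists, not_le] at hcon
  obtain ⟨e0, he0⟩ := Finite.exists_max fun e : Fin 6 → Bool => F (corner lo hi e)
  have h1 := (hF.cc (lo := lo) (hi := hi)).le_of_corners (C := F (corner lo hi e0)) (fun e => he0 e) hv
  linarith [hcon e0]

lemma mc3 {x c : ℝ} (h : c ≠ 0) : x = c * (x / c) := by
  field_simp

set_option maxHeartbeats 4000000 in
/-- THE LEAF, from the integers -/
theorem leafF (hR : SpR2) {bj bk : Bool} {T0 T1 m' h t g x y z uk uv : ℝ} {Q : Multiset V4} {Gj Gk Gv : ℝ}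
    (c : Cfg bj bk T0 T1 m' h t g x y z uk uv Q Gj Gk Gv) (b : LB) (hb : Box b.lo b.hi (vec h t g x y z))
    (hb1 : ∀ i, b.R i ≤ 400) (h120 : 120 < b.H0) (t120 : 120 < b.T0) (hth : b.T0 ≤ b.H0) (P : NP) (W : LW)
    (hpos : 0 < P.w3 + P.wP + P.wA)
    -- the rows
    {ksj ksk : List ℝ} {φj φk : ℝ → ℝ} {rj rk : Bool → Bool → Bool → ℕ} {Oj Ok : ℕ}
    (r1 : C1.RowD ksj φj ((P.w3 : ℝ) / 1000 + ((P.wP : ℝ) / 1000 + (P.wA : ℝ) / 1000)) ((W.bJ : ℝ) / 1000) h g y Gj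
      (Q.map fun e => (e.s, e.a)) ((b.H0 : ℝ) / 400) ((b.H1 : ℝ) / 400) ((b.G0 : ℝ) / 400) ((b.G1 : ℝ) / 400)
      ((b.Y0 : ℝ) / 400) ((b.Y1 : ℝ) / 400) fun a b c => ((rj a b c : ℝ) - Oj) / 40000000000)
    (r2 : C1.RowD ksk φk ((P.w3 : ℝ) / 1000) ((W.bK : ℝ) / 1000) t g z Gk
      (Q.map fun e => (e.s, e.b)) ((b.T0 : ℝ) / 400) ((b.T1 : ℝ) / 400) ((b.G0 : ℝ) / 400) ((b.G1 : ℝ) / 400)
      ((b.Z0 : ℝ) / 400) ((b.Z1 : ℝ) / 400) fun a b c => ((rk a b c : ℝ) - Ok) / 40000000000)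
    (f1 : ∀ e ∈ Q, (P.w3 : ℝ) / 1000 * omg e.a + ((P.wP : ℝ) / 1000 + (P.wA : ℝ) / 1000)
      * (lo2 e.s e.a - omg (min e.u (max e.s e.a))) - (P.wA : ℝ) / 1000 * gtr (3 / 20) (9 / 20) e.u
      + ((W.TJ : ℝ) - W.UJ) / 1000 * e.a ≤ φj e.a + ((W.MJ : ℝ) / 1000 + (W.Sl : ℝ) / 1000000) * e.s)
    (f2 : ∀ e ∈ Q, (P.w3 : ℝ) / 1000 * omg e.b + ((W.TK : ℝ) - W.UK) / 1000 * e.b
      ≤ φk e.b + (W.MK : ℝ) / 1000 * e.s)
    {rj0 rj1 rk0 rk1 : ℕ} (ij : Bt0 rj0 rj1 (y + (Q.map V4.a).sum)) (ik : Bt0 rk0 rk1 (z + (Q.map V4.b).sum))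
    (uj : W.UJ = 0 ∨ rj1 ≠ 0) (uk' : W.UK = 0 ∨ rk1 ≠ 0)
    {x0 s0 s1 : ℕ} (hx0 : (x0 : ℝ) / 400 ≤ x) (hs : Bt s0 s1 (Q.map V4.s).sum)
    (toti : b.H1 + b.T1 + b.X1 + s1 ≤ 2960)
    -- the row `i`
    {m : ℝ} {q : ℕ} {sa sb : ℝ} (sg : Seg m q sa sb (Q.map V4.s)) {Li : Bool → Bool → Bool → ℕ} {Dh : ℕ}
    (hI : ∀ bh bt bx br : Bool, UI (((W.wr P).w : ℝ) / 1000) (((W.wr P).kap : ℝ) / 1000) (((W.wr P).G5 : ℝ) / 100000)
        (((C1.cv b.H0 b.H1 bh : ℕ) : ℝ) / 400) (((C1.cv b.T0 b.T1 bt : ℕ) : ℝ) / 400)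
        (((C1.cv b.X0 b.X1 bx : ℕ) : ℝ) / 400) ((bif br then sb - q * m else sa - q * m) ::ₘ Multiset.replicate q m)
      + (((W.wr P).w3 : ℝ) / 1000 * (43 / 200 * ((bif br then sb - q * m else sa - q * m) + q * m)
        + 39 / 200 * ((bif br then sb - q * m else sa - q * m) ^ 2 + q * m ^ 2))
      + (((W.wr P).Sl : ℝ) / 1000000 + ((W.wr P).M : ℝ) / 1000) * ((bif br then sb - q * m else sa - q * m) + q * m))
      ≤ ((Li bh bt bx : ℝ) - OFF) / 8000000000000000 ∧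
      FM (1 ::ₘ (((C1.cv b.H0 b.H1 bh : ℕ) : ℝ) / 400) ::ₘ (((C1.cv b.T0 b.T1 bt : ℕ) : ℝ) / 400)
        ::ₘ (((C1.cv b.X0 b.X1 bx : ℕ) : ℝ) / 400) ::ₘ (bif br then sb - q * m else sa - q * m)
        ::ₘ Multiset.replicate q m)
      - Wc ((((C1.cv b.H0 b.H1 bh : ℕ) : ℝ) / 400) + (((C1.cv b.T0 b.T1 bt : ℕ) : ℝ) / 400)
        + (((C1.cv b.X0 b.X1 bx : ℕ) : ℝ) / 400)
        + ((bif br then sb - q * m else sa - q * m) ::ₘ Multiset.replicate q m).sum) ≤ (Dh : ℝ) / 80000000)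
    -- the payments
    (k1 : bj = true → W.K = 0 ∧ W.KJ = 0) (k2 : bk = true → W.K = 0 ∧ W.KK = 0)
    (k3 : bj = false → W.bJ * (1600 - b.H0) ≤ 3 * b.H0 * (W.K + W.KJ))
    (k4 : bk = false → W.bK * (1600 - b.T0) ≤ 3 * b.T0 * (W.K + W.KK))
    {tb hb' : ℕ} (htb : bk = true → 3 / 10 ≤ g → b.T1 ≤ tb) (hhb : bj = true → 3 / 10 ≤ g → b.H1 ≤ hb')
    (k5 : 160000 * ((W.K : ℝ) * (b.X1 + s1) + W.KK * (hb' + b.X1 + s1)) / (b.T0 * (1600 - b.T0))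
      + 160000 * (W.KJ * (tb + b.X1 + s1)) / (b.H0 * (1600 - b.H0)) ≤ W.G5)
    -- the function
    {U Uv : (Fin 6 → ℝ) → ℝ} {VF VG : Bool → Bool → Bool → ℕ} (fok : FOK b P h t g x y uk uv Gv U Uv VF VG)
    {l : LC} {lp ln : ℕ} (hcut : ((W.TJ : ℝ) - W.UJ) / 1000 * y + ((W.TK : ℝ) - W.UK) / 1000 * z + (W.ct : ℝ) / 1000 * x
      ≤ cutF l lp ln (vec h t g x y z))
    (hfin : ∀ e0 e1 e2 e3 e4 e5 : Bool, Li e0 e1 e3 + 200000 * (rj e0 e2 e4 + rk e1 e2 e5)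
      + E1 P.w3 P.wP (P.wP + P.wA) P.cU (C1.cAn P.L) (C1.cBn P.L) (C1.tc0 P.um) (C1.tc1 P.um) P.kf
        P.mf P.X2 P.sX l (VF e0 e1 e2) (C1.cv b.H0 b.H1 e0) (C1.cv b.T0 b.T1 e1) (C1.cv b.G0 b.G1 e2)
      + E2 (P.w3 + P.wP + P.wA) P.wP P.cV P.X3 P.sX l (VG e0 e3 e4) (C1.cv b.X0 b.X1 e3) (C1.cv b.Y0 b.Y1 e4)
      + E3 P.w3 l (C1.cv b.Z0 b.Z1 e5) + P.cp + lp + 20000000000 * (W.UJ * rj1 + W.UK * rk1)
      ≤ 4 * OFF + P.cn + ln + 200000 * (Oj + Ok) + 20000000000 * (W.TJ * rj0 + W.TK * rk0 + W.ct * (x0 + s0))) :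
    False := by
  -- the point and the borders
  have b0 : (b.H0 : ℝ) / 400 ≤ h ∧ h ≤ (b.H1 : ℝ) / 400 := hb 0
  have b1 : (b.T0 : ℝ) / 400 ≤ t ∧ t ≤ (b.T1 : ℝ) / 400 := hb 1
  have b2 : (b.G0 : ℝ) / 400 ≤ g ∧ g ≤ (b.G1 : ℝ) / 400 := hb 2
  have b3 : (b.X0 : ℝ) / 400 ≤ x ∧ x ≤ (b.X1 : ℝ) / 400 := hb 3
  have hle1 : ∀ i, b.hi i ≤ 1 := by
    intro i
    unfold LB.hi
    have : (b.R i : ℝ) ≤ 400 := by exact_mod_cast hb1 i
    linarith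
  have H120 : (120 : ℝ) < b.H0 := by exact_mod_cast h120
  have T120 : (120 : ℝ) < b.T0 := by exact_mod_cast t120
  have HT : (b.T0 : ℝ) ≤ b.H0 := by exact_mod_cast hth
  have H1' : (b.H1 : ℝ) ≤ 400 := by exact_mod_cast hb1 0
  have T1' : (b.T1 : ℝ) ≤ 400 := by exact_mod_cast hb1 1
  have toti' : (b.H1 : ℝ) + b.T1 + b.X1 + s1 ≤ 2960 := by exact_mod_cast toti
  have esj : C1.sn (Q.map fun e => (e.s, e.a)) = Q.map V4.a := by
    unfold C1.sn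
    rw [Multiset.map_map]
    rfl
  have esk : C1.sn (Q.map fun e => (e.s, e.b)) = Q.map V4.b := by
    unfold C1.sn
    rw [Multiset.map_map]
    rfl
  obtain ⟨afj, zj, totj, nj, fj, Mj, rdj, hMj, cfj, gj, uJ⟩ := r1
  obtain ⟨afk, zk, totk, nk, fk, Mk, rdk, hMk, cfk, gk, uK⟩ := r2
  rw [esj] at totj rdj
  rw [esk] at totk rdk
  have rdj : Rd ksj (1 ::ₘ h ::ₘ g ::ₘ y ::ₘ 0) (Q.map V4.a) nj fj Mj := ⟨rdj.red, rdj.f, rdj.s, rdj.F⟩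
  have rdk : Rd ksk (1 ::ₘ t ::ₘ g ::ₘ z ::ₘ 0) (Q.map V4.b) nk fk Mk := ⟨rdk.red, rdk.f, rdk.s, rdk.F⟩
  obtain ⟨ck, qk⟩ := c.geok
  obtain ⟨cv', qv⟩ := c.geov
  -- the defect
  obtain ⟨D, hD⟩ : ∃ D : ℝ, D = (Dh : ℝ) / 80000000 := ⟨_, rfl⟩
  have hD0 : 0 ≤ D := by rw [hD]; positivity
  have hM0 : 0 ≤ max D (1 / 1000) := le_max_of_le_left hD0
  have hx1' : (0 : ℝ) ≤ b.X1 := Nat.cast_nonneg _
  have a3 : (0 : ℝ) ≤ P.w3 := Nat.cast_nonneg _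
  have aP : (0 : ℝ) ≤ P.wP := Nat.cast_nonneg _
  have aA : (0 : ℝ) ≤ P.wA := Nat.cast_nonneg _
  have posB : ∀ F : (Fin 6 → ℝ) → ℝ, Ma F → ∀ VV : Bool → Bool → Bool → ℕ, (∀ a b c, 1000123 ≤ VV a b c) →
      ∀ (i j k : Fin 6), (∀ e, F (corner b.lo b.hi e) = (((VV (e i) (e j) (e k) : ℕ) : ℝ) - 1000000) / 1000000) →
      ∀ v, Box b.lo b.hi v → 0 < F v := by
    intro F hF VV hVV i j k hc v hv
    have h1 := (hF.neg.cc (lo := b.lo) (hi := b.hi)).le_of_corners (C := -(1 / 10000)) (fun e => by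
      beta_reduce
      rw [hc e]
      have : (1000123 : ℝ) ≤ (VV (e i) (e j) (e k) : ℕ) := by exact_mod_cast hVV _ _ _
      linarith) hv
    beta_reduce at h1
    linarith
  have nz : ∀ {w X : ℕ}, (w : ℝ) / 1000 * ((X : ℝ) / ((P.X1 + P.X2 + P.X3 : ℕ) : ℝ)) ≠ 0 → w * X ≠ 0 := by
    intro w X h h0
    rcases Nat.mul_eq_zero.mp h0 with h1 | h1
    · rw [h1] at h; simp at h
    · rw [h1] at h; simp at h
  have hcor := b.cor
  refine leaf_real hR c rdj rdk hMj hMk sg (lo := b.lo) (hi := b.hi) (Dh := D) b.lo0 hle1 hb ?_ ?_ ?_ ?_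
    (P := W.pm P rj0 rj1 rk0 rk1 x0 s0) ?_ ?_ ?_ ?_ (s1 := (s1 : ℝ) / 400)
    (dj := (D * (4 * b.lo 0 - b.lo 0 ^ 2) + 4 * (((tb : ℕ) : ℝ) / 400 + b.hi 3 + (s1 : ℝ) / 400) * max D (1 / 1000))
      / (3 * b.lo 0 ^ 2))
    (dk := (D * (4 * b.lo 1 - b.lo 1 ^ 2) + 4 * (((hb' : ℕ) : ℝ) / 400 + b.hi 3 + (s1 : ℝ) / 400) * max D (1 / 1000))
      / (3 * b.lo 1 ^ 2)) hs.2 afj afk zj zk ((P.wA : ℝ) / 1000) f1 f2 (rho_le ij uj) (rho_le ik uk') ?_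
    (S := P.sf.S U Uv (cutF l lp ln)) ?_ ?_ ?_ ?_ ?_ ?_ (tb := ((tb : ℕ) : ℝ) / 400) (hb := ((hb' : ℕ) : ℝ) / 400)
    ?_ ?_ ?_ ?_ ?_ ?_ ?_ (Li := fun a b c => ((Li a b c : ℝ) - OFF) / 8000000000000000)
    (Rj := fun a b c => ((rj a b c : ℝ) - Oj) / 40000000000) (Rk := fun a b c => ((rk a b c : ℝ) - Ok) / 40000000000)
    ?_ (Or.inl ⟨cfj, gj, ?_⟩) (Or.inl ⟨cfk, gk, ?_⟩) ?_
  · show (3 : ℝ) / 10 < (b.H0 : ℝ) / 400
    linarith
  · show (3 : ℝ) / 10 < (b.T0 : ℝ) / 400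
    linarith
  · show (b.T0 : ℝ) / 400 ≤ (b.H0 : ℝ) / 400
    linarith
  · have := hs.2
    linarith [b0.2, b1.2, b3.2]
  · by_cases h0 : (W.bJ : ℝ) / 1000 = 0
    · exact Or.inl h0
    · exact Or.inr (totj h0)
  · by_cases h0 : (W.bK : ℝ) / 1000 = 0
    · exact Or.inl h0
    · exact Or.inr (totk h0)
  · intro bh bt bx br
    have := (hI bh bt bx br).2
    rw [← cv_mul, ← cv_mul, ← cv_mul, ← hD] at this
    exact this
  · have k : ∀ n : ℕ, (0 : ℝ) ≤ (n : ℝ) / 1000 := fun n => by positivity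
    refine ⟨k _, add_nonneg (k _) (k _), ?_, k _, k _, k _, k _, k _, k _, ?_, k _⟩
    · show (0 : ℝ) < (P.w3 : ℝ) / 1000 + ((P.wP : ℝ) / 1000 + (P.wA : ℝ) / 1000)
      have : (0 : ℝ) < (P.w3 : ℝ) + P.wP + P.wA := by exact_mod_cast hpos
      linarith
    · show (0 : ℝ) ≤ (W.G5 : ℝ) / 100000
      positivity
  · show ((x0 : ℝ) + s0) / 400 ≤ x + (Q.map V4.s).sum
    have := hs.1
    linarith
  · exact SF.cc P.sf (by show (0 : ℝ) ≤ (P.w3 : ℝ) / 1000; positivity) (by show (0 : ℝ) ≤ (P.wP : ℝ) / 1000; positivity)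
      (by show (0 : ℝ) ≤ (P.wA : ℝ) / 1000; positivity) rfl fok.maU fok.maV (cutF_ma l lp ln)
      (by show (0 : ℝ) < (b.H0 : ℝ) / 400; linarith) (b.lo0 1) (b.lo0 2)
      (by show (0 : ℝ) ≤ (P.X2 : ℝ) / ((P.X1 + P.X2 + P.X3 : ℕ) : ℝ); positivity)
      (by show (0 : ℝ) ≤ (P.X3 : ℝ) / ((P.X1 + P.X2 + P.X3 : ℕ) : ℝ); positivity)
      (fun hne => posB U fok.maU VF (fok.pU (nz hne)) 0 1 2 fok.cU)
      (fun hne => posB Uv fok.maV VG (fok.pV (nz hne)) 0 3 4 fok.cV)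
  · -- the value of the function at the point
    have eaP : P.sf.aP = (P.wP : ℝ) / 1000 := rfl
    have eaA : P.sf.aA = (P.wA : ℝ) / 1000 := rfl
    have hne' : P.sf.aP + P.sf.aA ≠ 0 → P.wP + P.wA ≠ 0 := by
      intro h0 h1
      have h2 : P.wP = 0 := by omega
      have h3 : P.wA = 0 := by omega
      rw [eaP, eaA, h2, h3] at h0
      simp at h0
    have hneP : P.sf.aP ≠ 0 → P.wP ≠ 0 := by
      intro h0 h1
      rw [eaP, h1] at h0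
      simp at h0
    have hneA : P.sf.aA ≠ 0 → P.wA ≠ 0 := by
      intro h0 h1
      rw [eaA, h1] at h0
      simp at h0
    have hmx : ∀ F : (Fin 6 → ℝ) → ℝ, Ma F → ∀ VV : Bool → Bool → Bool → ℕ, ∀ (i j k : Fin 6),
        (∀ e, F (corner b.lo b.hi e) = (((VV (e i) (e j) (e k) : ℕ) : ℝ) - 1000000) / 1000000) →
        ∃ a b' c', F (vec h t g x y z) ≤ ((VV a b' c' : ℝ) - 1000000) / 1000000 := by
      intro F hF VV i j k hc
      obtain ⟨e, he⟩ := exists_max8 hF hb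
      exact ⟨e i, e j, e k, by rw [← hc e]; exact he⟩
    have hbd := SF.bound P.sf c (U := U (vec h t g x y z)) (Uv := Uv (vec h t g x y z))
      (by rw [eaP]; positivity) (by rw [eaA]; positivity) fok.L rfl
      (by show (0 : ℝ) ≤ (P.um : ℝ) / 400; positivity) (by show (0 : ℝ) ≤ (P.vm : ℝ) / 400; positivity)
      (by show (0 : ℝ) ≤ (P.zv : ℝ) / 1000; positivity)
      (by
        show (P.zv : ℝ) / 1000 ≤ (P.wP : ℝ) / 1000 + (P.wA : ℝ) / 1000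
        have : (P.zv : ℝ) ≤ P.wP + P.wA := by exact_mod_cast fok.zv
        linarith)
      (by show (0 : ℝ) ≤ (P.zg : ℝ) / 1000; positivity)
      (by
        show (P.zg : ℝ) / 1000 ≤ (P.wA : ℝ) / 1000
        have : (P.zg : ℝ) ≤ P.wA := by exact_mod_cast fok.zg
        linarith)
      (fun h0 => by
        rcases fok.lv (hne' h0) with h1 | h1 | h1
        · exact Or.inl h1
        · right
          show (P.L : ℝ) / 10 ≤ max t g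
          have : (40 : ℝ) * P.L ≤ b.T0 := by exact_mod_cast h1
          exact le_max_of_le_left (by linarith [b1.1])
        · right
          show (P.L : ℝ) / 10 ≤ max t g
          have : (40 : ℝ) * P.L ≤ b.G0 := by exact_mod_cast h1
          exact le_max_of_le_right (by linarith [b2.1]))
      (fun h0 => fok.ptU (hne' h0) _ rfl rfl rfl) (fun h0 => fok.ptV (hne' h0) _ rfl rfl rfl)
      (fun h0 => by
        have hw := hneP h0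
        have hw2 : P.wP + P.wA ≠ 0 := by omega
        rcases fok.psi hw with hp | ⟨p1, p2, p3, p4⟩
        · have hU1 := fok.ptU hw2 (vec h t g x y z) rfl rfl rfl
          have hV1 := (fok.ptV hw2 (vec h t g x y z) rfl rfl rfl).1
          have nzX : ∀ {X : ℕ}, (X : ℝ) / ((P.X1 + P.X2 + P.X3 : ℕ) : ℝ) ≠ 0 → P.wP * X ≠ 0 := by
            intro X hx0 h1
            rcases Nat.mul_eq_zero.mp h1 with h2 | h2
            · exact hw h2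
            · rw [h2] at hx0; simp at hx0
          have pk : (P.X2 : ℝ) / ((P.X1 + P.X2 + P.X3 : ℕ) : ℝ) ≠ 0 → 0 < U (vec h t g x y z) := fun hα =>
            posB U fok.maU VF (fok.pU (nzX hα)) 0 1 2 fok.cU _ hb
          have pl : (P.X3 : ℝ) / ((P.X1 + P.X2 + P.X3 : ℕ) : ℝ) ≠ 0 → 0 < Uv (vec h t g x y z) := fun hα =>
            posB Uv fok.maV VG (fok.pV (nzX hα)) 0 3 4 fok.cV _ hb
          have h2 := hp (max (U (vec h t g x y z)) 0) (max (Uv (vec h t g x y z)) 0) (le_max_right _ _)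
            (le_max_right _ _) (fun hα => lt_max_of_lt_left (pk hα)) (fun hα => lt_max_of_lt_left (pl hα))
          have h3 : FM (1 ::ₘ max (U (vec h t g x y z)) 0 ::ₘ max (Uv (vec h t g x y z)) 0 ::ₘ 0) ≤ Gv := by
            refine le_trans (FM_two_ge (le_max_right _ _) (max_le hU1 qk.u0) (le_max_right _ _)
              (max_le hV1 qv.u0) ?_) c.gv1
            intro e he
            obtain ⟨e', he', rfl⟩ := Multiset.mem_map.mp he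
            exact (c.q e' he').2.2.2.2.2.2.1
          refine le_trans (le_of_eq ?_) (h2.trans h3)
          show (P.V7 : ℝ) / 10 ^ 7 + (P.X2 : ℝ) / ((P.X1 + P.X2 + P.X3 : ℕ) : ℝ) * Real.log (U (vec h t g x y z))
            + (P.X3 : ℝ) / ((P.X1 + P.X2 + P.X3 : ℕ) : ℝ) * Real.log (Uv (vec h t g x y z)) = _
          have a1 : (P.X2 : ℝ) / ((P.X1 + P.X2 + P.X3 : ℕ) : ℝ) * Real.log (U (vec h t g x y z))
              = (P.X2 : ℝ) / ((P.X1 + P.X2 + P.X3 : ℕ) : ℝ) * Real.log (max (U (vec h t g x y z)) 0) := by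
            by_cases hα : (P.X2 : ℝ) / ((P.X1 + P.X2 + P.X3 : ℕ) : ℝ) = 0
            · rw [hα, zero_mul, zero_mul]
            · rw [max_eq_left (pk hα).le]
          have a2 : (P.X3 : ℝ) / ((P.X1 + P.X2 + P.X3 : ℕ) : ℝ) * Real.log (Uv (vec h t g x y z))
              = (P.X3 : ℝ) / ((P.X1 + P.X2 + P.X3 : ℕ) : ℝ) * Real.log (max (Uv (vec h t g x y z)) 0) := by
            by_cases hα : (P.X3 : ℝ) / ((P.X1 + P.X2 + P.X3 : ℕ) : ℝ) = 0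
            · rw [hα, zero_mul, zero_mul]
            · rw [max_eq_left (pl hα).le]
          rw [a1, a2]
        · show (P.V7 : ℝ) / 10 ^ 7 + (P.X2 : ℝ) / ((P.X1 + P.X2 + P.X3 : ℕ) : ℝ) * Real.log (U (vec h t g x y z))
            + (P.X3 : ℝ) / ((P.X1 + P.X2 + P.X3 : ℕ) : ℝ) * Real.log (Uv (vec h t g x y z)) ≤ Gv
          rw [p1, p2, p3]
          refine le_trans (le_of_eq ?_) p4
          rw [Nat.cast_zero, zero_div, zero_mul, zero_mul, add_zero, add_zero]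
          norm_num)
      (fun h0 => by
        have hw := hneA h0
        have hw2 : P.wP + P.wA ≠ 0 := by omega
        obtain ⟨g1, g2⟩ := fok.gk hw
        exact ⟨fok.gv hw, gline g1 g2 (fok.ptU hw2 (vec h t g x y z) rfl rfl rfl) qk.u0 (hmx U fok.maU VF 0 1 2 fok.cU)⟩)
      (fun h0 => by
        have hz : P.zg ≠ 0 := by
          intro h1
          apply h0
          show (P.zg : ℝ) / 1000 = 0
          rw [h1]
          simp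
        have hw2 : P.wP + P.wA ≠ 0 := by have := fok.zg; omega
        obtain ⟨g1, g2⟩ := fok.gg hz
        exact gline g1 g2 (fok.ptV hw2 (vec h t g x y z) rfl rfl rfl).1 qv.u0 (hmx Uv fok.maV VG 0 3 4 fok.cV))
      (by linarith [b1.1])
    change (P.w3 : ℝ) / 1000 * (omg x + omg y + omg z - 2 * Real.log (2 * (h + t + g)))
      + ((P.wP : ℝ) / 1000 + (P.wA : ℝ) / 1000) * ((lo2 t g - omg (min uk (max t g)))
        + (lo2 x y - omg (min uv (max x y))) - Gv - 2 * Real.log (1 + h))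
      + (P.wA : ℝ) / 1000 * (Q.map fun e => gtr (3 / 20) (9 / 20) e.u).sum + ((W.TJ : ℝ) - W.UJ) / 1000 * y
      + ((W.TK : ℝ) - W.UK) / 1000 * z + (W.ct : ℝ) / 1000 * x
      ≤ P.sf.a3 * (omg x + omg y + omg z - 2 * Real.log (2 * (h + t + g)))
      + (P.sf.aP + P.sf.aA) * (P.sf.k.X (U (vec h t g x y z)) t g + (omg x + omg y) - 2 * Real.log (1 + h))
      - P.sf.aP * (P.sf.ψ + P.sf.αk * Real.log (U (vec h t g x y z)) + P.sf.αl * Real.log (Uv (vec h t g x y z)))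
      + P.sf.aA * (6 / 125 - P.sf.k0 - P.sf.k1 * U (vec h t g x y z))
      - P.sf.zv * C1.tau P.sf.vm (Uv (vec h t g x y z)) - P.sf.zg * (P.sf.g0 + P.sf.g1 * Uv (vec h t g x y z))
      + cutF l lp ln (vec h t g x y z)
    have e3 : P.sf.a3 = (P.w3 : ℝ) / 1000 := rfl
    rw [eaP, eaA, e3] at hbd ⊢
    linarith [hbd, hcut]
  · exact fun hb => by
      obtain ⟨h1, h2⟩ := k1 hb
      exact ⟨by show (W.K : ℝ) / 1000 = 0; rw [h1]; simp, by show (W.KJ : ℝ) / 1000 = 0; rw [h2]; simp⟩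
  · exact fun hb => by
      obtain ⟨h1, h2⟩ := k2 hb
      exact ⟨by show (W.K : ℝ) / 1000 = 0; rw [h1]; simp, by show (W.KK : ℝ) / 1000 = 0; rw [h2]; simp⟩
  · intro hb
    have h1 := k3 hb
    have h2 : b.H0 ≤ 1600 := by
      have := hb1 0
      have h3 : (b.H0 : ℝ) / 400 ≤ (b.H1 : ℝ) / 400 := b0.1.trans b0.2
      have h4 : (b.H0 : ℝ) ≤ 400 := by linarith
      have h5 : b.H0 ≤ 400 := by exact_mod_cast h4
      omega
    have h3 : ((W.bJ * (1600 - b.H0) : ℕ) : ℝ) ≤ ((3 * b.H0 * (W.K + W.KJ) : ℕ) : ℝ) := by exact_mod_cast h1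
    rw [Nat.cast_mul, Nat.cast_sub h2] at h3
    push_cast at h3
    show (W.bJ : ℝ) / 1000 * (4 - (b.H0 : ℝ) / 400) ≤ 3 * ((b.H0 : ℝ) / 400) * ((W.K : ℝ) / 1000 + (W.KJ : ℝ) / 1000)
    have e1 : (W.bJ : ℝ) / 1000 * (4 - (b.H0 : ℝ) / 400) = (W.bJ : ℝ) * (1600 - b.H0) / 400000 := by ring
    have e2 : 3 * ((b.H0 : ℝ) / 400) * ((W.K : ℝ) / 1000 + (W.KJ : ℝ) / 1000)
      = 3 * (b.H0 : ℝ) * ((W.K : ℝ) + W.KJ) / 400000 := by ring
    rw [e1, e2]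
    exact div_le_div_of_nonneg_right h3 (by norm_num)
  · intro hb
    have h1 := k4 hb
    have h2 : b.T0 ≤ 1600 := by
      have h3 : (b.T0 : ℝ) / 400 ≤ (b.T1 : ℝ) / 400 := b1.1.trans b1.2
      have h4 : (b.T0 : ℝ) ≤ 400 := by linarith
      have h5 : b.T0 ≤ 400 := by exact_mod_cast h4
      omega
    have h3 : ((W.bK * (1600 - b.T0) : ℕ) : ℝ) ≤ ((3 * b.T0 * (W.K + W.KK) : ℕ) : ℝ) := by exact_mod_cast h1
    rw [Nat.cast_mul, Nat.cast_sub h2] at h3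
    push_cast at h3
    show (W.bK : ℝ) / 1000 * (4 - (b.T0 : ℝ) / 400) ≤ 3 * ((b.T0 : ℝ) / 400) * ((W.K : ℝ) / 1000 + (W.KK : ℝ) / 1000)
    have e1 : (W.bK : ℝ) / 1000 * (4 - (b.T0 : ℝ) / 400) = (W.bK : ℝ) * (1600 - b.T0) / 400000 := by ring
    have e2 : 3 * ((b.T0 : ℝ) / 400) * ((W.K : ℝ) / 1000 + (W.KK : ℝ) / 1000)
      = 3 * (b.T0 : ℝ) * ((W.K : ℝ) + W.KK) / 400000 := by ring
    rw [e1, e2]
    exact div_le_div_of_nonneg_right h3 (by norm_num)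
  · split_ifs with hq
    · have h1 : (b.T1 : ℝ) ≤ tb := by exact_mod_cast htb hq.1 hq.2
      linarith [b1.2]
    · positivity
  · split_ifs with hq
    · have h1 : (b.H1 : ℝ) ≤ hb' := by exact_mod_cast hhb hq.1 hq.2
      linarith [b0.2]
    · positivity
  · show (W.K : ℝ) / 1000 * ((b.X1 : ℝ) / 400 + (s1 : ℝ) / 400) * (4 / (4 * ((b.T0 : ℝ) / 400) - ((b.T0 : ℝ) / 400) ^ 2))
      + (W.KJ : ℝ) / 1000 * ((tb : ℝ) / 400 + (b.X1 : ℝ) / 400 + (s1 : ℝ) / 400)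
        * (4 / (4 * ((b.H0 : ℝ) / 400) - ((b.H0 : ℝ) / 400) ^ 2))
      + (W.KK : ℝ) / 1000 * ((hb' : ℝ) / 400 + (b.X1 : ℝ) / 400 + (s1 : ℝ) / 400)
        * (4 / (4 * ((b.T0 : ℝ) / 400) - ((b.T0 : ℝ) / 400) ^ 2)) ≤ (W.G5 : ℝ) / 100000
    have p1 : (b.T0 : ℝ) * (1600 - b.T0) ≠ 0 := by
      have : (b.T0 : ℝ) ≤ 400 := by linarith [b1.1, b1.2]
      exact (mul_pos (by linarith) (by linarith)).ne'
    have p2 : (b.H0 : ℝ) * (1600 - b.H0) ≠ 0 := by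
      have : (b.H0 : ℝ) ≤ 400 := by linarith [b0.1, b0.2]
      exact (mul_pos (by linarith) (by linarith)).ne'
    have e1 : 4 / (4 * ((b.T0 : ℝ) / 400) - ((b.T0 : ℝ) / 400) ^ 2) = 640000 / ((b.T0 : ℝ) * (1600 - b.T0)) := by
      rw [show 4 * ((b.T0 : ℝ) / 400) - ((b.T0 : ℝ) / 400) ^ 2 = (b.T0 : ℝ) * (1600 - b.T0) / 160000 by ring]
      rw [div_div_eq_mul_div]
      norm_num
    have e2 : 4 / (4 * ((b.H0 : ℝ) / 400) - ((b.H0 : ℝ) / 400) ^ 2) = 640000 / ((b.H0 : ℝ) * (1600 - b.H0)) := by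
      rw [show 4 * ((b.H0 : ℝ) / 400) - ((b.H0 : ℝ) / 400) ^ 2 = (b.H0 : ℝ) * (1600 - b.H0) / 160000 by ring]
      rw [div_div_eq_mul_div]
      norm_num
    rw [e1, e2]
    refine le_trans (le_of_eq ?_) (div_le_div_of_nonneg_right k5 (by norm_num : (0 : ℝ) ≤ 100000))
    ring
  · intro _
    have p : (0 : ℝ) < 3 * b.lo 0 ^ 2 := by
      have : (0 : ℝ) < b.lo 0 := by show (0 : ℝ) < (b.H0 : ℝ) / 400; linarith
      positivity
    exact le_of_eq (mc3 p.ne')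
  · have h1 : (0 : ℝ) ≤ b.hi 3 := by show (0 : ℝ) ≤ (b.X1 : ℝ) / 400; positivity
    have h2 : 0 ≤ b.lo 0 := b.lo0 0
    have h3 : b.lo 0 ≤ 1 := by
      show (b.H0 : ℝ) / 400 ≤ 1
      linarith [b0.1, b0.2]
    have h4 : 0 ≤ 4 * b.lo 0 - b.lo 0 ^ 2 := by
      have := mul_nonneg h2 (show 0 ≤ 4 - b.lo 0 by linarith)
      linarith
    exact div_nonneg (add_nonneg (mul_nonneg hD0 h4) (mul_nonneg (mul_nonneg (by norm_num) (by positivity)) hM0))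
      (by positivity)
  · intro _
    have p : (0 : ℝ) < 3 * b.lo 1 ^ 2 := by
      have : (0 : ℝ) < b.lo 1 := by show (0 : ℝ) < (b.T0 : ℝ) / 400; linarith
      positivity
    exact le_of_eq (mc3 p.ne')
  · have h1 : (0 : ℝ) ≤ b.hi 3 := by show (0 : ℝ) ≤ (b.X1 : ℝ) / 400; positivity
    have h2 : 0 ≤ b.lo 1 := b.lo0 1
    have h3 : b.lo 1 ≤ 1 := by
      show (b.T0 : ℝ) / 400 ≤ 1
      linarith [b1.1, b1.2]
    have h4 : 0 ≤ 4 * b.lo 1 - b.lo 1 ^ 2 := by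
      have := mul_nonneg h2 (show 0 ≤ 4 - b.lo 1 by linarith)
      linarith
    exact div_nonneg (add_nonneg (mul_nonneg hD0 h4) (mul_nonneg (mul_nonneg (by norm_num) (by positivity)) hM0))
      (by positivity)
  · intro bh bt bx br
    have := (hI bh bt bx br).1
    rw [← cv_mul, ← cv_mul, ← cv_mul] at this
    have e1 : (((W.wr P).w : ℕ) : ℝ) / 1000 = (W.pm P rj0 rj1 rk0 rk1 x0 s0).a3 + (W.pm P rj0 rj1 rk0 rk1 x0 s0).a1 := by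
      unfold LW.wr LW.pm
      push_cast
      ring
    have e2 : (((W.wr P).kap : ℕ) : ℝ) / 1000 = (W.pm P rj0 rj1 rk0 rk1 x0 s0).K + (W.pm P rj0 rj1 rk0 rk1 x0 s0).KJ
        + (W.pm P rj0 rj1 rk0 rk1 x0 s0).KK + (W.pm P rj0 rj1 rk0 rk1 x0 s0).lI := by
      unfold LW.wr LW.pm
      push_cast
      ring
    have e3 : (((W.wr P).Sl : ℕ) : ℝ) / 1000000 + (((W.wr P).M : ℕ) : ℝ) / 1000
        = (W.pm P rj0 rj1 rk0 rk1 x0 s0).wj + (W.pm P rj0 rj1 rk0 rk1 x0 s0).wk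
          + (W.pm P rj0 rj1 rk0 rk1 x0 s0).ct := by
      unfold LW.wr LW.pm
      push_cast
      ring
    rw [e1, e2, e3] at this
    exact this
  · exact uJ
  · exact uK
  · intro e
    beta_reduce
    have hTG : 0 < C1.cv b.H0 b.H1 (e 0) + C1.cv b.T0 b.T1 (e 1) + C1.cv b.G0 b.G1 (e 2) := by
      have h1 : b.H0 ≤ b.H1 := by
        have : (b.H0 : ℝ) ≤ b.H1 := by linarith [b0.1, b0.2]
        exact_mod_cast this
      have : 0 < C1.cv b.H0 b.H1 (e 0) := by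
        cases e 0
        · exact lt_of_lt_of_le (by norm_num) h120.le
        · exact lt_of_lt_of_le (by norm_num) (h120.le.trans h1)
      omega
    have k := NP.S_le P l (U := U) (Uv := Uv) (cut := cutF l lp ln) (v := corner b.lo b.hi e) (hcor e 0) (hcor e 1)
      (hcor e 2) (hcor e 3) (hcor e 4) (hcor e 5) (fok.cU e) (fok.cV e) hTG (fun h => fok.pU h _ _ _)
      (fun h => fok.pV h _ _ _) (lp := lp) (ln := ln) (by
        unfold cutF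
        rw [hcor e 0, hcor e 1, hcor e 2, hcor e 3, hcor e 4, hcor e 5]
        ring)
    have hf := hfin (e 0) (e 1) (e 2) (e 3) (e 4) (e 5)
    have hf' := (Nat.cast_le (α := ℝ)).mpr hf
    change _ + P.sf.S U Uv (cutF l lp ln) (corner b.lo b.hi e) ≤ ((W.TJ : ℝ) * rj0 - W.UJ * rj1) / 400000
      + ((W.TK : ℝ) * rk0 - W.UK * rk1) / 400000 + (W.ct : ℝ) / 1000 * (((x0 : ℝ) + s0) / 400)
    change P.sf.S U Uv (cutF l lp ln) (corner b.lo b.hi e) ≤ ((E1 P.w3 P.wP (P.wP + P.wA) P.cU (C1.cAn P.L)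
      (C1.cBn P.L) (C1.tc0 P.um) (C1.tc1 P.um) P.kf P.mf P.X2 P.sX l (VF (e 0) (e 1) (e 2)) (C1.cv b.H0 b.H1 (e 0))
      (C1.cv b.T0 b.T1 (e 1)) (C1.cv b.G0 b.G1 (e 2)) : ℝ)
      + E2 (P.w3 + P.wP + P.wA) P.wP P.cV P.X3 P.sX l (VG (e 0) (e 3) (e 4)) (C1.cv b.X0 b.X1 (e 3))
        (C1.cv b.Y0 b.Y1 (e 4)) + E3 P.w3 l (C1.cv b.Z0 b.Z1 (e 5)) + P.cp + lp
      - (3 * OFF + P.cn + ln : ℕ)) / 8000000000000000 at k
    generalize P.sf.S U Uv (cutF l lp ln) (corner b.lo b.hi e) = SS at k ⊢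
    generalize E1 P.w3 P.wP (P.wP + P.wA) P.cU (C1.cAn P.L) (C1.cBn P.L) (C1.tc0 P.um) (C1.tc1 P.um) P.kf
      P.mf P.X2 P.sX l (VF (e 0) (e 1) (e 2)) (C1.cv b.H0 b.H1 (e 0)) (C1.cv b.T0 b.T1 (e 1))
      (C1.cv b.G0 b.G1 (e 2)) = n1 at k hf'
    generalize E2 (P.w3 + P.wP + P.wA) P.wP P.cV P.X3 P.sX l (VG (e 0) (e 3) (e 4)) (C1.cv b.X0 b.X1 (e 3))
      (C1.cv b.Y0 b.Y1 (e 4)) = n2 at k hf'
    generalize E3 P.w3 l (C1.cv b.Z0 b.Z1 (e 5)) = n3 at k hf'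
    generalize Li (e 0) (e 1) (e 3) = n4 at hf' ⊢
    generalize rj (e 0) (e 2) (e 4) = n5 at hf' ⊢
    generalize rk (e 1) (e 2) (e 5) = n6 at hf' ⊢
    generalize P.cp = n7 at k hf'
    generalize P.cn = n8 at k hf'
    clear hf
    generalize OFF = n9 at k hf' ⊢
    push_cast at k hf'
    linarith

end B2
end Pool.Agent.Lib.MP_6947cd_al
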