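import Pool.Agent.Lib.MP_6947cd_al.Y.R4

/-!
Problem MP_6947cd_al (Chollet).  The class constraints (R5), with general bounds of the bad vertices.
-/

set_option autoImplicit false
open Finset

namespace Pool.Agent.Lib.MP_6947cd_al
namespace B1

open Ent Fr Fr.WT

open R4M in
/-- **R5**, general bounds `rj`, `rk` of the bad vertices -/
theorem r5g (bj bk : Bool) {h t x S D dj dk K KJ KK βj βk Γ R2 Rj Rk h0 t0 rj rk : ℝ}
    (hh0 : 0 < h0) (ht0 : 0 < t0) (hh : h0 ≤ h) (ht : t0 ≤ t) (h1 : h ≤ 1) (t1 : t ≤ 1) (hth : t0 ≤ h0)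
    (hx : 0 ≤ x) (hS : 0 ≤ S) (hD : 0 < D) (hrj : 0 ≤ rj) (hrk : 0 ≤ rk)
    (hK : 0 ≤ K) (hKJ : 0 ≤ KJ) (hKK : 0 ≤ KK) (hβj : 0 ≤ βj) (hβk : 0 ≤ βk) (hΓ : 0 ≤ Γ)
    (hR2 : x + S ≤ R2) (hRj : rj + x + S ≤ Rj) (hRk : rk + x + S ≤ Rk)
    (cj : bj = true → K = 0 ∧ KJ = 0) (ck : bk = true → K = 0 ∧ KK = 0)
    (pj : bj = false → βj * (4 - h0) ≤ 3 * h0 * (K + KJ)) (pk : bk = false → βk * (4 - t0) ≤ 3 * t0 * (K + KK))
    (hG : K * R2 * (4 / (4 * t0 - t0 ^ 2)) + KJ * Rj * (4 / (4 * h0 - h0 ^ 2))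
      + KK * Rk * (4 / (4 * t0 - t0 ^ 2)) ≤ Γ)
    (sj : if bj = true then 0 < dj else dj ≤ 0) (sk : if bk = true then 0 < dk else dk ≤ 0)
    (yj : bj = false → 3 * h ^ 2 * (-dj) < need D h (rj + x + S))
    (yk : bk = false → 3 * t ^ 2 * (-dk) < need D t (rk + x + S))
    (y2 : bj = false → bk = false → 3 * h ^ 2 * (-dj) / need D h (x + S) + 3 * t ^ 2 * (-dk) / need D t (x + S) < 1) :
    0 ≤ (K + KJ + KK) * D + Γ * max D (1 / 1000) + βj * dj + βk * dk := by
  obtain ⟨M, hM⟩ : ∃ M, M = max D (1 / 1000) := ⟨_, rfl⟩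
  have hM0 : 0 ≤ M := by rw [hM]; exact le_trans (by norm_num) (le_max_right _ _)
  rw [← hM]
  have hqh : 0 < 4 * h0 - h0 ^ 2 := by nlinarith
  have hqt : 0 < 4 * t0 - t0 ^ 2 := by nlinarith
  obtain ⟨qh, eqh⟩ : ∃ qh, qh = 4 / (4 * h0 - h0 ^ 2) := ⟨_, rfl⟩
  obtain ⟨qt, eqt⟩ : ∃ qt, qt = 4 / (4 * t0 - t0 ^ 2) := ⟨_, rfl⟩
  have qh0 : 0 < qh := by rw [eqh]; positivity
  have qt0 : 0 < qt := by rw [eqt]; positivity
  have qht : qh ≤ qt := by
    rw [eqh, eqt]
    exact div_le_div_of_nonneg_left (by norm_num) hqt (by nlinarith)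
  rw [← eqh, ← eqt] at hG
  have hhp : 0 < h := hh0.trans_le hh
  have htp : 0 < t := ht0.trans_le ht
  have hxS : 0 ≤ x + S := by linarith
  cases bj with
  | true =>
    obtain ⟨rfl, rfl⟩ := cj rfl
    have sj : 0 < dj := by simpa using sj
    cases bk with
    | true =>
      obtain ⟨-, rfl⟩ := ck rfl
      have sk : 0 < dk := by simpa using sk
      have g1 := mul_nonneg hΓ hM0
      have g2 := mul_nonneg hβj sj.le
      have g3 := mul_nonneg hβk sk.le
      linarith
    | false =>
      have yk := yk rfl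
      have pk := pk rfl
      rw [zero_add] at pk
      have hR : 0 ≤ rk + x + S := by linarith
      unfold need at yk
      rw [← hM] at yk
      have g1 := pay1 ht0 ht t1 hβk hKK hD hM0 hR pk yk
      rw [← eqt] at g1
      have g2 := mul_nonneg hβj sj.le
      have g3 : KK * ((rk + x + S) * M * qt) ≤ Γ * M := by
        have a1 : KK * (rk + x + S) * qt ≤ Γ := by
          have b1 : KK * (rk + x + S) * qt ≤ KK * Rk * qt :=
            mul_le_mul_of_nonneg_right (mul_le_mul_of_nonneg_left hRk hKK) qt0.le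
          linarith
        have := mul_le_mul_of_nonneg_right a1 hM0
        linarith
      linarith
  | false =>
    have pj := pj rfl
    have yj := yj rfl
    cases bk with
    | true =>
      obtain ⟨rfl, rfl⟩ := ck rfl
      have sk : 0 < dk := by simpa using sk
      rw [zero_add] at pj
      have hR : 0 ≤ rj + x + S := by linarith
      unfold need at yj
      rw [← hM] at yj
      have g1 := pay1 hh0 hh h1 hβj hKJ hD hM0 hR pj yj
      rw [← eqh] at g1
      have g2 := mul_nonneg hβk sk.le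
      have g3 : KJ * ((rj + x + S) * M * qh) ≤ Γ * M := by
        have a1 : KJ * (rj + x + S) * qh ≤ Γ := by
          have b1 : KJ * (rj + x + S) * qh ≤ KJ * Rj * qh :=
            mul_le_mul_of_nonneg_right (mul_le_mul_of_nonneg_left hRj hKJ) qh0.le
          linarith
        have := mul_le_mul_of_nonneg_right a1 hM0
        linarith
      linarith
    | false =>
      have pk := pk rfl
      have y2 := y2 rfl rfl
      have sj : dj ≤ 0 := by simpa using sj
      have sk : dk ≤ 0 := by simpa using sk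
      have hRj : x + S ≤ Rj := by linarith
      have hRk : x + S ≤ Rk := by linarith
      unfold need at y2
      rw [← hM] at y2
      have hNh : 0 < D * (4 * h - h ^ 2) + 4 * (x + S) * M := by
        have b1 : 0 < D * (4 * h - h ^ 2) := mul_pos hD (by nlinarith)
        have b2 : 0 ≤ 4 * (x + S) * M := by positivity
        linarith
      have hNt : 0 < D * (4 * t - t ^ 2) + 4 * (x + S) * M := by
        have b1 : 0 < D * (4 * t - t ^ 2) := mul_pos hD (by nlinarith)
        have b2 : 0 ≤ 4 * (x + S) * M := by positivity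
        linarith
      obtain ⟨A, hA⟩ : ∃ A, A = 3 * h ^ 2 * (-dj) / (D * (4 * h - h ^ 2) + 4 * (x + S) * M) := ⟨_, rfl⟩
      obtain ⟨B, hB⟩ : ∃ B, B = 3 * t ^ 2 * (-dk) / (D * (4 * t - t ^ 2) + 4 * (x + S) * M) := ⟨_, rfl⟩
      have hA0 : 0 ≤ A := by
        rw [hA]
        exact div_nonneg (mul_nonneg (by positivity) (by linarith)) hNh.le
      have hB0 : 0 ≤ B := by
        rw [hB]
        exact div_nonneg (mul_nonneg (by positivity) (by linarith)) hNt.le
      rw [← hA, ← hB] at y2
      have eA : 3 * h ^ 2 * (-dj) = A * (D * (4 * h - h ^ 2) + 4 * (x + S) * M) := by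
        rw [hA, div_mul_cancel₀ _ hNh.ne']
      have eB : 3 * t ^ 2 * (-dk) = B * (D * (4 * t - t ^ 2) + 4 * (x + S) * M) := by
        rw [hB, div_mul_cancel₀ _ hNt.ne']
      have g1 := payA hh0 hh h1 hβj (add_nonneg hK hKJ) hD hM0 hxS pj hA0 eA
      have g2 := payA ht0 ht t1 hβk (add_nonneg hK hKK) hD hM0 hxS pk hB0 eB
      rw [← eqh] at g1
      rw [← eqt] at g2
      obtain ⟨U, hU⟩ : ∃ U, U = (x + S) * M := ⟨_, rfl⟩
      have hU0 : 0 ≤ U := by rw [hU]; exact mul_nonneg hxS hM0
      rw [← hU] at g1 g2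
      have k1 : A * ((K + KJ) * (D + U * qh)) ≤ A * (K * (D + U * qt)) + KJ * (D + U * qh) := by
        have b1 : K * (D + U * qh) ≤ K * (D + U * qt) :=
          mul_le_mul_of_nonneg_left (by have := mul_le_mul_of_nonneg_left qht hU0; linarith) hK
        have b2 : 0 ≤ KJ * (D + U * qh) := mul_nonneg hKJ (by positivity)
        have b3 : A * (KJ * (D + U * qh)) ≤ 1 * (KJ * (D + U * qh)) :=
          mul_le_mul_of_nonneg_right (by linarith) b2
        have b4 := mul_le_mul_of_nonneg_left b1 hA0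
        have e : A * ((K + KJ) * (D + U * qh)) = A * (K * (D + U * qh)) + A * (KJ * (D + U * qh)) := by ring
        rw [e]
        linarith
      have k2 : B * ((K + KK) * (D + U * qt)) ≤ B * (K * (D + U * qt)) + KK * (D + U * qt) := by
        have b2 : 0 ≤ KK * (D + U * qt) := mul_nonneg hKK (by positivity)
        have b3 : B * (KK * (D + U * qt)) ≤ 1 * (KK * (D + U * qt)) :=
          mul_le_mul_of_nonneg_right (by linarith) b2
        have e : B * ((K + KK) * (D + U * qt)) = B * (K * (D + U * qt)) + B * (KK * (D + U * qt)) := by ring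
        rw [e]
        linarith
      have k3 : A * (K * (D + U * qt)) + B * (K * (D + U * qt)) ≤ K * (D + U * qt) := by
        have b1 : 0 ≤ K * (D + U * qt) := mul_nonneg hK (by positivity)
        have b2 := mul_le_mul_of_nonneg_right y2.le b1
        linarith
      have k4 : K * (U * qt) + KJ * (U * qh) + KK * (U * qt) ≤ Γ * M := by
        have b0 : K * (x + S) * qt + KJ * (x + S) * qh + KK * (x + S) * qt ≤ Γ := by
          have b1 : K * (x + S) * qt ≤ K * R2 * qt :=
            mul_le_mul_of_nonneg_right (mul_le_mul_of_nonneg_left hR2 hK) qt0.le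
          have b2 : KJ * (x + S) * qh ≤ KJ * Rj * qh :=
            mul_le_mul_of_nonneg_right (mul_le_mul_of_nonneg_left hRj hKJ) qh0.le
          have b3 : KK * (x + S) * qt ≤ KK * Rk * qt :=
            mul_le_mul_of_nonneg_right (mul_le_mul_of_nonneg_left hRk hKK) qt0.le
          linarith
        have := mul_le_mul_of_nonneg_right b0 hM0
        rw [hU]
        linarith
      linarith


end B1
end Pool.Agent.Lib.MP_6947cd_al
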