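import Pool.Agent.Lib.MP_6947cd_al.Z.RealA
import Pool.Agent.Lib.MP_6947cd_al.Z.Defs
import Pool.Agent.Lib.MP_6947cd_al.L.CellN
import Pool.Agent.Lib.MP_6947cd_al.Z.R5g

/-!
Problem MP_6947cd_al (Chollet).  CASE B, middle second entry: the leaf, real form.
-/

set_option autoImplicit false
open Finset

namespace Pool.Agent.Lib.MP_6947cd_al
namespace B2

open Ent Fr Fr.WT CC B1

/-- reduced rests of a row: `S` = the special entries of the row (with the diagonal) -/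
structure Rd (ks : List ℝ) (S M : Multiset ℝ) (ns : List ℕ) (fs : List Bool) (M' : Multiset ℝ) : Prop where
  red : Red 0 ks ns fs M'
  f : ∀ φ : ℝ → ℝ, Aff φ 0 ks → φ 0 = 0 → (M.map φ).sum = (M'.map φ).sum
  s : M.sum = M'.sum
  F : FM (S + M) ≤ FM (S + M')

/-- REDUCTION of the rests of a row -/
theorem rd_of (ks : List ℝ) (hinc : Inc 0 ks) (S M : Multiset ℝ) (h1 : 1 ∈ S)
    (hS : ∀ z ∈ S, 0 ≤ z ∧ z ≤ 1) (hM : ∀ z ∈ M, 0 ≤ z ∧ z ≤ top 0 ks) :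
    ∃ ns fs M', Rd ks S M ns fs M' := by
  obtain ⟨m, ns, fs, M', r1, r2, r3, r4⟩ := reduce ks 0 le_rfl hinc S M h1 hS hM
  refine ⟨ns, fs, M', r1, fun φ hφ h0 => ?_, ?_, ?_⟩
  · rw [r3 φ hφ, h0, mul_zero, zero_add]
  · rw [r4, mul_zero, zero_add]
  · refine r2.trans (le_of_eq ?_)
    have e : S + (Multiset.replicate m 0 + M') = Multiset.replicate m 0 + (S + M') := by
      rw [← add_assoc, add_comm S, add_assoc]
    rw [e]
    clear e r2 r3 r4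
    induction m with
    | zero => simp
    | succ m ih =>
      rw [Multiset.replicate_succ, Multiset.cons_add, ← ih]
      exact FM_zero_cons _

/-- the row `i` is convex in the free entry `r` -/
theorem freeR {α κ Γ a3 v r0 r1 C h t x r m : ℝ} {q : ℕ} (hα : 0 ≤ α) (hκ : 0 ≤ κ) (hΓ : 0 ≤ Γ) (ha : 0 ≤ a3)
    (h0 : 0 ≤ h) (t0 : 0 ≤ t) (x0 : 0 ≤ x) (hr0 : 0 ≤ r0) (m0 : 0 ≤ m) (h1 : h ≤ 1) (t1 : t ≤ 1) (x1 : x ≤ 1)
    (hr1 : r1 ≤ 1) (m1 : m ≤ 1) (a1 : r0 ≤ r) (a2 : r ≤ r1)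
    (hc : ∀ br : Bool, UI α κ Γ h t x ((bif br then r1 else r0) ::ₘ Multiset.replicate q m)
      + (a3 * (43 / 200 * ((bif br then r1 else r0) + q * m)
        + 39 / 200 * ((bif br then r1 else r0) ^ 2 + q * m ^ 2)) + v * ((bif br then r1 else r0) + q * m)) ≤ C) :
    UI α κ Γ h t x (r ::ₘ Multiset.replicate q m)
      + (a3 * (43 / 200 * (r + q * m) + 39 / 200 * (r ^ 2 + q * m ^ 2)) + v * (r + q * m)) ≤ C := by
  -- one coordinate
  set lo : Fin 1 → ℝ := fun _ => r0 with hlo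
  set hi : Fin 1 → ℝ := fun _ => r1 with hhi
  have hl : ∀ i, 0 ≤ lo i := fun _ => hr0
  have hh : ∀ i, hi i ≤ 1 := fun _ => hr1
  have e : ∀ r : ℝ, (1 : ℝ) ::ₘ h ::ₘ t ::ₘ x ::ₘ r ::ₘ Multiset.replicate q m
      = 1 ::ₘ (((([0] : List (Fin 1)).map (fun _ => r) : List ℝ) : Multiset ℝ)
        + (h ::ₘ t ::ₘ x ::ₘ Multiset.replicate q m)) := by
    intro r
    simp only [List.map_cons, List.map_nil]
    rw [← Multiset.cons_coe, Multiset.coe_nil, Multiset.cons_add, zero_add,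
      Multiset.cons_swap x r, Multiset.cons_swap t r, Multiset.cons_swap h r]
  have hF : Cc lo hi fun w : Fin 1 → ℝ => FM (1 ::ₘ h ::ₘ t ::ₘ x ::ₘ w 0 ::ₘ Multiset.replicate q m) := by
    have := cc_FM (lo := lo) (hi := hi) hl hh [0] (by simp) (h ::ₘ t ::ₘ x ::ₘ Multiset.replicate q m) (by
      intro z hz
      simp only [Multiset.mem_cons] at hz
      rcases hz with rfl | rfl | rfl | hz
      · exact ⟨h0, h1⟩
      · exact ⟨t0, t1⟩
      · exact ⟨x0, x1⟩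
      · rw [Multiset.eq_of_mem_replicate hz]
        exact ⟨m0, m1⟩)
    refine this.congr fun w _ => ?_
    rw [e]
    rfl
  have hma : ∀ c d : ℝ, Ma fun w : Fin 1 → ℝ => c * w 0 + d := fun c d => ((Ma.coord 0).smul c).add (Ma.const d)
  have hD : Cc lo hi fun w : Fin 1 → ℝ => FM (1 ::ₘ h ::ₘ t ::ₘ x ::ₘ w 0 ::ₘ Multiset.replicate q m)
      - Wc (h + t + x + (w 0 ::ₘ Multiset.replicate q m).sum) := by
    have := hF.add (cc_negWc (lo := lo) (hi := hi) (hma 1 (h + t + x + (Multiset.replicate q m).sum)))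
    refine this.congr fun w _ => ?_
    rw [Multiset.sum_cons]
    rw [show h + t + x + (w 0 + (Multiset.replicate q m).sum)
      = 1 * w 0 + (h + t + x + (Multiset.replicate q m).sum) by ring]
    ring
  have hU : Cc lo hi fun w : Fin 1 → ℝ => UI α κ Γ h t x (w 0 ::ₘ Multiset.replicate q m) :=
    ((hF.smul hα).add (hD.smul hκ)).add ((hD.max_const _).smul hΓ)
  have hsq : Cc lo hi fun w : Fin 1 → ℝ => a3 * (39 / 200 * w 0 ^ 2) := by
    have := ((Ma.coord (0 : Fin 1)).sq (lo := lo) (hi := hi)).smul (show 0 ≤ a3 * (39 / 200) by positivity)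
    exact this.congr fun w _ => by ring
  have hall : Cc lo hi fun w : Fin 1 → ℝ => UI α κ Γ h t x (w 0 ::ₘ Multiset.replicate q m)
      + (a3 * (43 / 200 * (w 0 + q * m) + 39 / 200 * (w 0 ^ 2 + q * m ^ 2)) + v * (w 0 + q * m)) := by
    have := (hU.add hsq).add ((hma (a3 * (43 / 200) + v)
      (a3 * (43 / 200 * (q * m) + 39 / 200 * (q * m ^ 2)) + v * (q * m))).cc (lo := lo) (hi := hi))
    exact this.congr fun w _ => by ring
  have := hall.le_of_corners (C := C) (fun c => hc (c 0)) (v := fun _ => r) (fun _ => ⟨a1, a2⟩)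
  exact this

/-- the real analysis of case B1 which is used -/
structure SpR2 : Prop where
  r2 : SpecR2
  r4 : SpecR4
  r5 : SpecR5

lemma wd_le {T : ℝ} (h0 : 3 / 10 < T) (h1 : T ≤ 16) : WD.Wd T ≤ What T := WD.Wd_le_What T h0 h1

/-- a payer with a large reserve does not need anybody -/
lemma payer_contra {h0 h D Dh R R' d Wv Gv : ℝ} (hh0 : 0 < h0) (a1 : h0 ≤ h) (a2 : h ≤ 1) (hD0 : 0 < D)
    (hDD : D ≤ Dh) (hR0 : 0 ≤ R) (hRR : R ≤ R')
    (hd : Dh * (4 * h0 - h0 ^ 2) + 4 * R' * max Dh (1 / 1000) ≤ 3 * h0 ^ 2 * d) (hG : Gv + d ≤ Wv)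
    (hpay : 3 * h ^ 2 * (Wv - Gv) < need D h R) : False := by
  unfold need at hpay
  have h1 : max D (1 / 1000) ≤ max Dh (1 / 1000) := max_le_max hDD le_rfl
  have h2 : (0 : ℝ) < max Dh (1 / 1000) := lt_of_lt_of_le (by norm_num) (le_max_right _ _)
  set E := max Dh (1 / 1000) with hE
  have h3 : R * max D (1 / 1000) ≤ R' * E := mul_le_mul hRR h1 (le_trans (by norm_num) (le_max_right _ _)) (hR0.trans hRR)
  have h4 : D * (4 * h - h ^ 2) ≤ Dh * (4 * h - h ^ 2) := mul_le_mul_of_nonneg_right hDD (by nlinarith)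
  have h5 : 3 * h ^ 2 * d < Dh * (4 * h - h ^ 2) + 4 * (R' * E) := by
    have : d ≤ Wv - Gv := by linarith
    have := mul_le_mul_of_nonneg_left this (show (0 : ℝ) ≤ 3 * h ^ 2 by positivity)
    linarith
  -- multiply by h0 ^ 2 and compare
  have hDh : 0 ≤ Dh := (hD0.trans_le hDD).le
  have hRE : 0 ≤ R' * E := mul_nonneg (hR0.trans hRR) h2.le
  have hh : 0 < h := lt_of_lt_of_le hh0 a1
  have k1 : h0 ^ 2 * (Dh * (4 * h - h ^ 2)) ≤ h ^ 2 * (Dh * (4 * h0 - h0 ^ 2)) := by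
    have : h ^ 2 * (Dh * (4 * h0 - h0 ^ 2)) - h0 ^ 2 * (Dh * (4 * h - h ^ 2)) = 4 * Dh * h * h0 * (h - h0) := by ring
    have h6 : 0 ≤ 4 * Dh * h * h0 * (h - h0) := by
      have : 0 ≤ h - h0 := by linarith
      positivity
    linarith
  have k2 : h0 ^ 2 * (4 * (R' * E)) ≤ h ^ 2 * (4 * (R' * E)) :=
    mul_le_mul_of_nonneg_right (by nlinarith) (by linarith)
  have k3 : h0 ^ 2 * (3 * h ^ 2 * d) < h0 ^ 2 * (Dh * (4 * h - h ^ 2) + 4 * (R' * E)) :=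
    mul_lt_mul_of_pos_left h5 (by positivity)
  have k4 : h ^ 2 * (Dh * (4 * h0 - h0 ^ 2) + 4 * R' * E) ≤ h ^ 2 * (3 * h0 ^ 2 * d) :=
    mul_le_mul_of_nonneg_left hd (by positivity)
  nlinarith [k1, k2, k3, k4]

/-- the corner point -/
noncomputable def vec (h t g x y z : ℝ) : Fin 6 → ℝ := ![h, t, g, x, y, z]

section

variable {bj bk : Bool} {T0 T1 m' h t g x y z uk uv : ℝ} {Q : Multiset V4} {Gj Gk Gv : ℝ}

/-- the position of the rests of the row `i` -/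
structure Seg (m : ℝ) (q : ℕ) (sa sb : ℝ) (M : Multiset ℝ) : Prop where
  m0 : 0 < m
  m1 : m ≤ 1
  qa : (q : ℝ) * m ≤ sa
  bq : sb ≤ ((q : ℝ) + 1) * m
  aS : sa ≤ M.sum
  Sb : M.sum ≤ sb
  e : ∀ e ∈ M, 0 ≤ e ∧ e ≤ m

/-- the defect of the row `i` is bounded by the corners -/
theorem defect_le (hR : SpR2) {m : ℝ} {Mi : Multiset ℝ} {q : ℕ} {sa sb : ℝ} (sg : Seg m q sa sb Mi)
    {h0 h1 t0 t1 x0 x1 Dh : ℝ} (hh0 : 0 ≤ h0) (ht0 : 0 ≤ t0) (hx0 : 0 ≤ x0)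
    (hh1 : h1 ≤ 1) (ht1 : t1 ≤ 1) (hx1 : x1 ≤ 1) (a1 : h0 ≤ h) (a2 : h ≤ h1) (a3 : t0 ≤ t) (a4 : t ≤ t1)
    (a5 : x0 ≤ x) (a6 : x ≤ x1) (s0 : 3 / 10 ≤ h) (s1 : 3 / 10 ≤ t) (htot : h + t + x + Mi.sum ≤ 37 / 5)
    (hD : ∀ bh bt bx br : Bool,
      FM (1 ::ₘ (bif bh then h1 else h0) ::ₘ (bif bt then t1 else t0) ::ₘ (bif bx then x1 else x0)
        ::ₘ (bif br then sb - q * m else sa - q * m) ::ₘ Multiset.replicate q m)
      - Wc ((bif bh then h1 else h0) + (bif bt then t1 else t0) + (bif bx then x1 else x0)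
        + ((bif br then sb - q * m else sa - q * m) ::ₘ Multiset.replicate q m).sum) ≤ Dh) :
    FM (1 ::ₘ h ::ₘ t ::ₘ x ::ₘ Mi) ≤ FM (1 ::ₘ h ::ₘ t ::ₘ x ::ₘ (Mi.sum - q * m) ::ₘ Multiset.replicate q m) ∧
    Om Mi ≤ 43 / 200 * Mi.sum + 39 / 200 * ((Mi.sum - q * m) ^ 2 + q * m ^ 2) ∧
    ((Mi.sum - q * m) ::ₘ Multiset.replicate q m).sum = Mi.sum ∧
    FM (1 ::ₘ h ::ₘ t ::ₘ x ::ₘ Mi) - What (h + t + x + Mi.sum)
      ≤ FM (1 ::ₘ h ::ₘ t ::ₘ x ::ₘ (Mi.sum - q * m) ::ₘ Multiset.replicate q m) - Wc (h + t + x + Mi.sum) ∧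
    FM (1 ::ₘ h ::ₘ t ::ₘ x ::ₘ (Mi.sum - q * m) ::ₘ Multiset.replicate q m) - Wc (h + t + x + Mi.sum) ≤ Dh := by
  have hS0 : 0 ≤ Mi.sum := Multiset.sum_nonneg fun e he => (sg.e e he).1
  have e0 : ∀ M : Multiset ℝ, (1 : ℝ) ::ₘ h ::ₘ t ::ₘ x ::ₘ M = (1 ::ₘ h ::ₘ t ::ₘ x ::ₘ 0) + M := by
    intro M
    simp only [Multiset.cons_add, zero_add]
  obtain ⟨f1, f2⟩ := hR.r4 (1 ::ₘ h ::ₘ t ::ₘ x ::ₘ 0) Mi m q (by simp) (by
      intro e he
      simp only [Multiset.mem_cons, Multiset.notMem_zero, or_false] at he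
      rcases he with rfl | rfl | rfl | rfl
      · exact ⟨zero_le_one, le_rfl⟩
      · exact ⟨by linarith, by linarith⟩
      · exact ⟨by linarith, by linarith⟩
      · exact ⟨by linarith, by linarith⟩) sg.m0 sg.m1 sg.e (sg.qa.trans sg.aS) (sg.Sb.trans sg.bq)
  rw [← e0, ← e0] at f1
  have hsum : ((Mi.sum - q * m) ::ₘ Multiset.replicate q m).sum = Mi.sum := by
    rw [Multiset.sum_cons, Multiset.sum_replicate, nsmul_eq_mul]
    ring
  have hW := Wc_le_What (h + t + x + Mi.sum) (by linarith) htot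
  have hm0 := sg.m0
  have hm1 := sg.m1
  refine ⟨f1, f2, hsum, by linarith, ?_⟩
  have := hR.r2 h0 h1 t0 t1 x0 x1 (sa - q * m) (sb - q * m) Dh h t x
    (Mi.sum - q * m) m q hh0 ht0 hx0 (by linarith [sg.qa]) hm0.le hh1 ht1 hx1
    (by linarith [sg.bq]) hm1 a1 a2 a3 a4 a5 a6 (by linarith [sg.aS]) (by linarith [sg.Sb]) hD
  rw [hsum] at this
  exact this

lemma sum_le_of {φ ψ : V4 → ℝ} (h : ∀ e ∈ Q, φ e ≤ ψ e) : (Q.map φ).sum ≤ (Q.map ψ).sum :=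
  Multiset.sum_map_le_sum_map _ _ h

/-- the parameters of a leaf -/
structure Pm where
  a3 : ℝ
  a1 : ℝ
  K : ℝ
  KJ : ℝ
  KK : ℝ
  lI : ℝ
  βj : ℝ
  βk : ℝ
  Γ : ℝ
  ct : ℝ
  tl : ℝ
  ρj : ℝ
  ρk : ℝ
  cj : ℝ
  ck : ℝ
  wj : ℝ
  wk : ℝ

/-- signs -/
structure Pm.Ok (P : Pm) : Prop where
  a3 : 0 ≤ P.a3
  a1 : 0 ≤ P.a1
  pos : 0 < P.a3 + P.a1
  K : 0 ≤ P.K
  KJ : 0 ≤ P.KJ
  KK : 0 ≤ P.KK
  lI : 0 ≤ P.lI
  βj : 0 ≤ P.βj
  βk : 0 ≤ P.βk
  Γ : 0 ≤ P.Γ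
  ct : 0 ≤ P.ct

/-- THE LEAF, real form. -/
theorem leaf_real (hR : SpR2) (c : Cfg bj bk T0 T1 m' h t g x y z uk uv Q Gj Gk Gv)
    {ksj ksk : List ℝ} {nj nk : List ℕ} {fj fk : List Bool} {Mj Mk : Multiset ℝ}
    (rj : Rd ksj (1 ::ₘ h ::ₘ g ::ₘ y ::ₘ 0) (Q.map V4.a) nj fj Mj)
    (rk : Rd ksk (1 ::ₘ t ::ₘ g ::ₘ z ::ₘ 0) (Q.map V4.b) nk fk Mk)
    (hMj : ∀ e ∈ Mj, 0 ≤ e ∧ e ≤ 1) (hMk : ∀ e ∈ Mk, 0 ≤ e ∧ e ≤ 1)
    {m : ℝ} {q : ℕ} {sa sb : ℝ} (sg : Seg m q sa sb (Q.map V4.s)) {lo hi : Fin 6 → ℝ} {Dh : ℝ}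
    (hl0 : ∀ i, 0 ≤ lo i) (hh1 : ∀ i, hi i ≤ 1) (hv : Box lo hi (vec h t g x y z))
    (hh0 : 3 / 10 < lo 0) (ht0 : 3 / 10 < lo 1) (hth : lo 1 ≤ lo 0)
    (toti : h + t + x + (Q.map V4.s).sum ≤ 37 / 5)
    {P : Pm} (totj : P.βj = 0 ∨ h + g + y + (Q.map V4.a).sum ≤ 16)
    (totk : P.βk = 0 ∨ t + g + z + (Q.map V4.b).sum ≤ 16)
    (hD : ∀ bh bt bx br : Bool,
      FM (1 ::ₘ (bif bh then hi 0 else lo 0) ::ₘ (bif bt then hi 1 else lo 1) ::ₘ (bif bx then hi 3 else lo 3)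
        ::ₘ (bif br then sb - q * m else sa - q * m) ::ₘ Multiset.replicate q m)
      - Wc ((bif bh then hi 0 else lo 0) + (bif bt then hi 1 else lo 1) + (bif bx then hi 3 else lo 3)
        + ((bif br then sb - q * m else sa - q * m) ::ₘ Multiset.replicate q m).sum) ≤ Dh)
    (hP : P.Ok) {s1 dj dk : ℝ} (hs1 : (Q.map V4.s).sum ≤ s1)
    {φj φk : ℝ → ℝ} (afj : Aff φj 0 ksj) (afk : Aff φk 0 ksk) (zj : φj 0 = 0) (zk : φk 0 = 0)
    (ζ : ℝ) (hφj : ∀ e ∈ Q, P.a3 * omg e.a + P.a1 * (lo2 e.s e.a - omg (min e.u (max e.s e.a)))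
      - ζ * gtr (3 / 20) (9 / 20) e.u + P.ρj * e.a ≤ φj e.a + P.wj * e.s)
    (hφk : ∀ e ∈ Q, P.a3 * omg e.b + P.ρk * e.b ≤ φk e.b + P.wk * e.s)
    (hcj : P.cj ≤ P.ρj * (y + (Q.map V4.a).sum)) (hck : P.ck ≤ P.ρk * (z + (Q.map V4.b).sum))
    (htl : P.tl ≤ x + (Q.map V4.s).sum)
    {S : (Fin 6 → ℝ) → ℝ} (hS : Cc lo hi S)
    (hSv : P.a3 * (omg x + omg y + omg z - 2 * Real.log (2 * (h + t + g)))
      + P.a1 * ((lo2 t g - omg (min uk (max t g))) + (lo2 x y - omg (min uv (max x y))) - Gv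
        - 2 * Real.log (1 + h)) + ζ * (Q.map fun e => gtr (3 / 20) (9 / 20) e.u).sum
        + P.ρj * y + P.ρk * z + P.ct * x ≤ S (vec h t g x y z))
    (k1 : bj = true → P.K = 0 ∧ P.KJ = 0) (k2 : bk = true → P.K = 0 ∧ P.KK = 0)
    (k3 : bj = false → P.βj * (4 - lo 0) ≤ 3 * lo 0 * (P.K + P.KJ))
    (k4 : bk = false → P.βk * (4 - lo 1) ≤ 3 * lo 1 * (P.K + P.KK))
    {tb hb : ℝ} (htb : (if bk = true ∧ 3 / 10 ≤ g then t else 0) ≤ tb)
    (hhb : (if bj = true ∧ 3 / 10 ≤ g then h else 0) ≤ hb)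
    (k5 : P.K * (hi 3 + s1) * (4 / (4 * lo 1 - lo 1 ^ 2))
      + P.KJ * (tb + hi 3 + s1) * (4 / (4 * lo 0 - lo 0 ^ 2))
      + P.KK * (hb + hi 3 + s1) * (4 / (4 * lo 1 - lo 1 ^ 2)) ≤ P.Γ)
    (dj1 : bj = false → Dh * (4 * lo 0 - lo 0 ^ 2)
      + 4 * (tb + hi 3 + s1) * max Dh (1 / 1000) ≤ 3 * lo 0 ^ 2 * dj)
    (dj0 : 0 ≤ dj)
    (dk1 : bk = false → Dh * (4 * lo 1 - lo 1 ^ 2)
      + 4 * (hb + hi 3 + s1) * max Dh (1 / 1000) ≤ 3 * lo 1 ^ 2 * dk)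
    (dk0 : 0 ≤ dk) {Li Rj Rk : Bool → Bool → Bool → ℝ}
    (hI : ∀ bh bt bx br : Bool, UI (P.a3 + P.a1) (P.K + P.KJ + P.KK + P.lI) P.Γ (bif bh then hi 0 else lo 0)
        (bif bt then hi 1 else lo 1) (bif bx then hi 3 else lo 3)
        ((bif br then sb - q * m else sa - q * m) ::ₘ Multiset.replicate q m)
      + (P.a3 * (43 / 200 * ((bif br then sb - q * m else sa - q * m) + q * m)
        + 39 / 200 * ((bif br then sb - q * m else sa - q * m) ^ 2 + q * m ^ 2))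
      + (P.wj + P.wk + P.ct) * ((bif br then sb - q * m else sa - q * m) + q * m)) ≤ Li bh bt bx)
    (hJ : (∃ cj : Af, Gj ≤ max (FM (1 ::ₘ h ::ₘ g ::ₘ y ::ₘ Mj)) (cj.val h g y) ∧
      ∀ bb bg by' : Bool, UJ (P.a3 + P.a1) P.βj cj φj (bif bb then hi 0 else lo 0)
        (bif bg then hi 2 else lo 2) (bif by' then hi 4 else lo 4) Mj ≤ Rj bb bg by') ∨
      Gj + dj ≤ What (h + g + y + (Q.map V4.a).sum))
    (hKs : (∃ ck : Af, Gk ≤ max (FM (1 ::ₘ t ::ₘ g ::ₘ z ::ₘ Mk)) (ck.val t g z) ∧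
      ∀ bb bg by' : Bool, UJ P.a3 P.βk ck φk (bif bb then hi 1 else lo 1)
        (bif bg then hi 2 else lo 2) (bif by' then hi 5 else lo 5) Mk ≤ Rk bb bg by') ∨
      Gk + dk ≤ What (t + g + z + (Q.map V4.b).sum))
    (hL : ∀ e : Fin 6 → Bool, Li (e 0) (e 1) (e 3) + Rj (e 0) (e 2) (e 4) + Rk (e 1) (e 2) (e 5)
      + S (corner lo hi e) ≤ P.cj + P.ck + P.ct * P.tl) : False := by
  have b0 := hv 0
  have b1 := hv 1
  have b2 := hv 2
  have b3 := hv 3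
  have b4 := hv 4
  have b5 := hv 5
  simp only [vec, Matrix.cons_val_zero, Matrix.cons_val_one, Matrix.cons_val] at b0 b1 b2 b3 b4 b5
  obtain ⟨f1, f2, f3, f4, f5⟩ := defect_le hR sg (hl0 0) (hl0 1) (hl0 3) (hh1 0) (hh1 1) (hh1 3) b0.1 b0.2
    b1.1 b1.2 b3.1 b3.2 (by linarith) (by linarith) toti hD
  have hm0 := sg.m0
  have hm1 := sg.m1
  obtain ⟨Ss, hSs⟩ : ∃ Ss, Ss = (Q.map V4.s).sum := ⟨_, rfl⟩
  have hS0 : 0 ≤ Ss := by
    rw [hSs]
    exact Multiset.sum_nonneg fun e he => (sg.e e he).1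
  have hx := c.x01.1
  have hdi := c.di
  obtain ⟨D, hDdef⟩ : ∃ D, D = FM (1 ::ₘ h ::ₘ t ::ₘ x ::ₘ Q.map V4.s) - What (h + t + x + (Q.map V4.s).sum) :=
    ⟨_, rfl⟩
  have hpj := c.payj
  have hpk := c.payk
  have hp2 := c.pay2
  rw [← hDdef] at hdi f4 hpj hpk hp2
  obtain ⟨Wj, hWj⟩ : ∃ Wj, Wj = What (h + g + y + (Q.map V4.a).sum) := ⟨_, rfl⟩
  obtain ⟨Wk, hWk⟩ : ∃ Wk, Wk = What (t + g + z + (Q.map V4.b).sum) := ⟨_, rfl⟩
  have hcj' := c.cj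
  have hck' := c.ck
  rw [← hWj] at hJ hcj' hpj hp2
  rw [← hWk] at hKs hck' hpk hp2
  rw [← hSs] at hpj hpk hp2 hs1 htl toti f1 f2 f3 f4 f5
  have rj0 : 0 ≤ (if bk = true ∧ 3 / 10 ≤ g then t else 0) := by
    split_ifs
    · linarith
    · exact le_rfl
  have rk0 : 0 ≤ (if bj = true ∧ 3 / 10 ≤ g then h else 0) := by
    split_ifs
    · linarith
    · exact le_rfl
  obtain ⟨rj', hrj'⟩ : ∃ rj', rj' = (if bk = true ∧ 3 / 10 ≤ g then t else 0) := ⟨_, rfl⟩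
  obtain ⟨rk', hrk'⟩ : ∃ rk', rk' = (if bj = true ∧ 3 / 10 ≤ g then h else 0) := ⟨_, rfl⟩
  rw [← hrj'] at htb rj0 hpj
  rw [← hrk'] at hhb rk0 hpk
  -- the side j
  rcases hJ with ⟨cj, gj, hJ⟩ | hJ
  swap
  · cases bj with
    | true =>
      have h7 : 0 < Gj - Wj := by simpa using hcj'.1
      linarith
    | false =>
      exact payer_contra (by linarith) b0.1 (b0.2.trans (hh1 0)) hdi (f4.trans f5) (by linarith) (by linarith)
        (dj1 rfl) hJ (hpj rfl)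
  rcases hKs with ⟨ck, gk, hKs⟩ | hKs
  swap
  · cases bk with
    | true =>
      have h7 : 0 < Gk - Wk := by simpa using hck'.1
      linarith
    | false =>
      exact payer_contra (by linarith) b1.1 (b1.2.trans (hh1 1)) hdi (f4.trans f5) (by linarith) (by linarith)
        (dk1 rfl) hKs (hpk rfl)
  -- the payments
  have hR5 := r5g bj bk (dj := Gj - Wj) (dk := Gk - Wk) (R2 := hi 3 + s1) (Rj := tb + hi 3 + s1)
    (Rk := hb + hi 3 + s1) (h0 := lo 0) (t0 := lo 1)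
    (by linarith) (by linarith) b0.1 b1.1 (b0.2.trans (hh1 0)) (b1.2.trans (hh1 1)) hth hx hS0 hdi rj0 rk0
    hP.K hP.KJ hP.KK hP.βj hP.βk hP.Γ (by linarith) (by linarith) (by linarith) k1 k2 k3 k4 k5
    (by
      cases bj with
      | true => simpa using hcj'.1
      | false => simpa using hcj'.1)
    (by
      cases bk with
      | true => simpa using hck'.1
      | false => simpa using hck'.1)
    (fun hb => by have := hpj hb; rwa [neg_sub]) (fun hb => by have := hpk hb; rwa [neg_sub])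
    (fun h1 h2 => by have := hp2 h1 h2; rwa [neg_sub, neg_sub])
  -- the total function
  obtain ⟨r, hr⟩ : ∃ r, r = Ss - q * m := ⟨_, rfl⟩
  rw [← hr] at f1 f2 f3 f4 f5
  have hqa := sg.qa
  have hbq := sg.bq
  have haS := sg.aS
  have hSb := sg.Sb
  rw [← hSs] at haS hSb
  have hr0 : 0 ≤ r := by rw [hr]; linarith
  have hr1 : r ≤ 1 := by rw [hr]; linarith
  have hNv : ∀ e ∈ r ::ₘ Multiset.replicate q m, 0 ≤ e ∧ e ≤ 1 := by
    intro e he
    rcases Multiset.mem_cons.mp he with rfl | he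
    · exact ⟨hr0, hr1⟩
    · rw [Multiset.eq_of_mem_replicate he]
      exact ⟨hm0.le, hm1⟩
  have hA := add_nonneg hP.a3 hP.a1
  have hκ : 0 ≤ P.K + P.KJ + P.KK + P.lI := by
    have := hP.K; have := hP.KJ; have := hP.KK; have := hP.lI
    positivity
  obtain ⟨E, hE⟩ : ∃ E, E = P.a3 * (43 / 200 * (r + q * m) + 39 / 200 * (r ^ 2 + q * m ^ 2))
    + (P.wj + P.wk + P.ct) * (r + q * m) := ⟨_, rfl⟩
  have hT := total_le hl0 hh1 hA hκ hP.Γ hA hP.βj hP.a3 hP.βk cj ck φj φk S hS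
    (r ::ₘ Multiset.replicate q m) Mj Mk hNv hMj hMk (P.cj + P.ck + P.ct * P.tl - E) (by
      intro e
      have e1 := hJ (e 0) (e 2) (e 4)
      have e2 := hKs (e 1) (e 2) (e 5)
      have e3 := hL e
      have c0 : 0 ≤ corner lo hi e 0 ∧ corner lo hi e 0 ≤ 1 := by
        unfold corner
        cases e 0 <;> simp only [cond_true, cond_false] <;> constructor <;>
          linarith [hl0 0, hh1 0, b0.1, b0.2]
      have c1 : 0 ≤ corner lo hi e 1 ∧ corner lo hi e 1 ≤ 1 := by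
        unfold corner
        cases e 1 <;> simp only [cond_true, cond_false] <;> constructor <;>
          linarith [hl0 1, hh1 1, b1.1, b1.2]
      have c3 : 0 ≤ corner lo hi e 3 ∧ corner lo hi e 3 ≤ 1 := by
        unfold corner
        cases e 3 <;> simp only [cond_true, cond_false] <;> constructor <;>
          linarith [hl0 3, hh1 3, b3.1, b3.2]
      have e4 := freeR (α := P.a3 + P.a1) (κ := P.K + P.KJ + P.KK + P.lI) (Γ := P.Γ) (a3 := P.a3)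
        (v := P.wj + P.wk + P.ct) (r0 := sa - q * m) (r1 := sb - q * m) (C := Li (e 0) (e 1) (e 3))
        (h := corner lo hi e 0) (t := corner lo hi e 1) (x := corner lo hi e 3) (r := r) (m := m) (q := q)
        hA hκ hP.Γ hP.a3 c0.1 c1.1 c3.1 (by linarith) hm0.le c0.2 c1.2 c3.2 (by linarith) hm1
        (by linarith) (by linarith) (fun br => hI (e 0) (e 1) (e 3) br)
      rw [← hE] at e4
      have e1' : UJ (P.a3 + P.a1) P.βj cj φj (corner lo hi e 0) (corner lo hi e 2) (corner lo hi e 4) Mj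
        ≤ Rj (e 0) (e 2) (e 4) := e1
      have e2' : UJ P.a3 P.βk ck φk (corner lo hi e 1) (corner lo hi e 2) (corner lo hi e 5) Mk
        ≤ Rk (e 1) (e 2) (e 5) := e2
      linarith) hv
  simp only [vec, Matrix.cons_val_zero, Matrix.cons_val_one, Matrix.cons_val] at hT
  change _ + S (vec h t g x y z) ≤ _ at hT
  -- the sums
  have sj := rj.s
  have sk := rk.s
  have q1 : P.a3 * Om (Q.map V4.a) + P.a1 * (Q.map fun e => lo2 e.s e.a - omg (min e.u (max e.s e.a))).sum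
      - ζ * (Q.map fun e => gtr (3 / 20) (9 / 20) e.u).sum
      + P.ρj * (Q.map V4.a).sum ≤ (Mj.map φj).sum + P.wj * Ss := by
    have h1 := sum_le_of hφj
    have e1 : (Q.map fun e => P.a3 * omg e.a + P.a1 * (lo2 e.s e.a - omg (min e.u (max e.s e.a)))
        - ζ * gtr (3 / 20) (9 / 20) e.u + P.ρj * e.a).sum = P.a3 * Om (Q.map V4.a)
        + P.a1 * (Q.map fun e => lo2 e.s e.a - omg (min e.u (max e.s e.a))).sum
        - ζ * (Q.map fun e => gtr (3 / 20) (9 / 20) e.u).sum + P.ρj * (Q.map V4.a).sum := by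
      unfold Om
      rw [Multiset.map_map, Multiset.sum_map_add, Multiset.sum_map_sub, Multiset.sum_map_add,
        Multiset.sum_map_mul_left, Multiset.sum_map_mul_left, Multiset.sum_map_mul_left,
        Multiset.sum_map_mul_left]
      rfl
    have e2 : (Q.map fun e => φj e.a + P.wj * e.s).sum = (Mj.map φj).sum + P.wj * Ss := by
      rw [Multiset.sum_map_add, Multiset.sum_map_mul_left, hSs, ← rj.f φj afj zj, Multiset.map_map]
      rfl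
    rw [e1, e2] at h1
    exact h1
  have q2 : P.a3 * Om (Q.map V4.b) + P.ρk * (Q.map V4.b).sum ≤ (Mk.map φk).sum + P.wk * Ss := by
    have h1 := sum_le_of hφk
    have e1 : (Q.map fun e => P.a3 * omg e.b + P.ρk * e.b).sum = P.a3 * Om (Q.map V4.b)
        + P.ρk * (Q.map V4.b).sum := by
      unfold Om
      rw [Multiset.map_map, Multiset.sum_map_add, Multiset.sum_map_mul_left,
        Multiset.sum_map_mul_left]
      rfl
    have e2 : (Q.map fun e => φk e.b + P.wk * e.s).sum = (Mk.map φk).sum + P.wk * Ss := by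
      rw [Multiset.sum_map_add, Multiset.sum_map_mul_left, hSs, ← rk.f φk afk zk, Multiset.map_map]
      rfl
    rw [e1, e2] at h1
    exact h1
  -- the contradiction
  have hnr := c.nr
  have hn3 := c.n3
  obtain ⟨w1, w2⟩ : P.βj * WD.Wd (h + g + y + Mj.sum) ≤ P.βj * Wj
      ∧ P.βk * WD.Wd (t + g + z + Mk.sum) ≤ P.βk * Wk := by
    have hsa : 0 ≤ (Q.map V4.a).sum := Multiset.sum_nonneg fun e he => by
      obtain ⟨e', he', rfl⟩ := Multiset.mem_map.mp he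
      exact (c.q e' he').2.2.1
    have hsb : 0 ≤ (Q.map V4.b).sum := Multiset.sum_nonneg fun e he => by
      obtain ⟨e', he', rfl⟩ := Multiset.mem_map.mp he
      exact (c.q e' he').2.2.2.2.1
    have hg := c.g01.1
    have hy := c.y01.1
    have hz := c.z01.1
    rw [← sj, ← sk, hWj, hWk]
    constructor
    · rcases totj with h | h
      · rw [h, zero_mul, zero_mul]
      · exact mul_le_mul_of_nonneg_left (wd_le (by linarith) h) hP.βj
    · rcases totk with h | h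
      · rw [h, zero_mul, zero_mul]
      · exact mul_le_mul_of_nonneg_left (wd_le (by linarith) h) hP.βk
  unfold UI UJ at hT
  rw [f3] at hT
  obtain ⟨F1, hF1⟩ : ∃ F1, F1 = FM (1 ::ₘ h ::ₘ t ::ₘ x ::ₘ r ::ₘ Multiset.replicate q m) := ⟨_, rfl⟩
  obtain ⟨F2, hF2⟩ : ∃ F2, F2 = max (FM (1 ::ₘ h ::ₘ g ::ₘ y ::ₘ Mj)) (cj.val h g y) := ⟨_, rfl⟩
  obtain ⟨F3, hF3⟩ : ∃ F3, F3 = max (FM (1 ::ₘ t ::ₘ g ::ₘ z ::ₘ Mk)) (ck.val t g z) := ⟨_, rfl⟩
  obtain ⟨F0, hF0⟩ : ∃ F0, F0 = FM (1 ::ₘ h ::ₘ t ::ₘ x ::ₘ Q.map V4.s) := ⟨_, rfl⟩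
  rw [← hF1] at f1 f4 f5 hT
  rw [← hF2] at gj hT
  rw [← hF3] at gk hT
  rw [← hF0] at f1 hnr hn3
  obtain ⟨G1, hG1⟩ : ∃ G1, G1 = F1 - Wc (h + t + x + Ss) := ⟨_, rfl⟩
  rw [← hG1] at f4 f5 hT
  obtain ⟨E1, hE1⟩ : ∃ E1, E1 = max G1 (1 / 1000) := ⟨_, rfl⟩
  have hE1' : max D (1 / 1000) ≤ E1 := by rw [hE1]; exact max_le_max f4 le_rfl
  rw [← hE1] at hT
  have hsum : r + q * m = Ss := by rw [hr]; ring
  rw [hsum] at hE
  have u1 := mul_le_mul_of_nonneg_left hE1' hP.Γ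
  have u2 := mul_le_mul_of_nonneg_left f4 hκ
  have u3 := mul_nonneg hP.lI hdi.le
  have u4 := mul_le_mul_of_nonneg_left gj (show 0 ≤ P.a3 + P.a1 + P.βj from add_nonneg hA hP.βj)
  have u5 := mul_le_mul_of_nonneg_left gk (show 0 ≤ P.a3 + P.βk from add_nonneg hP.a3 hP.βk)
  have u6 := w1
  have u7 := w2
  have v3 := mul_le_mul_of_nonneg_left htl hP.ct
  have v4 := mul_le_mul_of_nonneg_left f1 hA
  have v5 := mul_le_mul_of_nonneg_left f2 hP.a3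
  have v6 : 0 < P.a3 * (F0 + (omg x + Om (Q.map V4.s)) + (Gj + (omg y + Om (Q.map V4.a)))
      + (Gk + (omg z + Om (Q.map V4.b))) - 2 * Real.log (2 * (h + t + g)))
      + P.a1 * (F0 + Gj + ((lo2 t g - omg (min uk (max t g))) + (lo2 x y - omg (min uv (max x y)))
        + (Q.map fun e => lo2 e.s e.a - omg (min e.u (max e.s e.a))).sum) - (2 * Real.log (1 + h) + Gv)) := by
    have p1 := sub_pos.mpr hnr
    have p2 := sub_pos.mpr hn3
    rcases hP.a3.eq_or_lt with h0 | h0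
    · have h1 : 0 < P.a1 := by have := hP.pos; rw [← h0] at this; linarith
      rw [← h0, zero_mul, zero_add]
      exact mul_pos h1 p2
    · exact add_pos_of_pos_of_nonneg (mul_pos h0 p1) (mul_nonneg hP.a1 p2.le)
  obtain ⟨X1, hX1⟩ : ∃ X1, X1 = (Q.map fun e => lo2 e.s e.a - omg (min e.u (max e.s e.a))).sum := ⟨_, rfl⟩
  obtain ⟨X2, hX2⟩ : ∃ X2, X2 = lo2 t g - omg (min uk (max t g)) := ⟨_, rfl⟩
  obtain ⟨X3, hX3⟩ : ∃ X3, X3 = lo2 x y - omg (min uv (max x y)) := ⟨_, rfl⟩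
  rw [← hX1] at v6 q1
  rw [← hX2, ← hX3] at v6 hSv
  rw [sj] at hcj q1
  rw [sk] at hck q2
  linarith [u1, u2, u3, u4, u5, u6, u7, v3, v4, v5, v6, hT, hR5, q1, q2, hcj, hck, hSv, hE]

end

end B2
end Pool.Agent.Lib.MP_6947cd_al
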