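import Pool.Agent.Lib.MP_6947cd_al.Z.RowI2

/-!
Problem MP_6947cd_al (Chollet).  CASE B, middle second entry: the check of the row `i`, third part (soundness).
-/

set_option autoImplicit false
open Finset

namespace Pool.Agent.Lib.MP_6947cd_al
namespace B2

open Ent Ent.Pk Fr Fr.WT CC B1 PkA

/-- THE CHECK of the row `i`: `cs` = the list of the corners `(table, sum of the special entries)` -/
noncomputable def rowI (W : WR) (s mh Q s0 s1 : ℕ) (cs : List (ℕ × ℕ)) (k : List ℕ → ℕ → Bool) : Bool :=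
  cond (Nat.ble (Nat.add (Nat.div s1 mh) (nat_lit 2)) (Nat.mul (nat_lit 2) Q))
    (frc (Nat.mul (nat_lit 2) mh) fun m =>
    frc (Nat.mul (nat_lit 100000) (Nat.add W.w W.kap)) fun wk => frc (Nat.mul (nat_lit 100000) W.kap) fun ka =>
    frc (Nat.mul (nat_lit 1000) W.G5) fun g3 =>
      mkN (cS W m) (nds s0 s1 m) fun nd => crI wk ka g3 s mh nd cs k (nat_lit 0)) false

/-- a corner of the row `i` -/
structure CI (mh Q s : ℕ) (c : ℕ × ℕ) (h t x : ℝ) : Prop where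
  T : TI (2 * mh) Q s (h ::ₘ t ::ₘ x ::ₘ 0) c.1
  sum : h + t + x = (c.2 : ℝ) / 400
  b : 120 ≤ c.2
  h01 : 0 ≤ h ∧ h ≤ 1
  t01 : 0 ≤ t ∧ t ≤ 1
  x01 : 0 ≤ x ∧ x ≤ 1

/-- SOUNDNESS -/
theorem rowI_sound {W : WR} {s mh Q s0 s1 : ℕ} {cs : List (ℕ × ℕ)} {k : List ℕ → ℕ → Bool}
    (hc : rowI W s mh Q s0 s1 cs k = true) (hs : 0 < s) (hmh : 0 < mh) (hm1 : 2 * mh ≤ 400) (h01 : s0 ≤ s1)
    {hf tf xf : ℕ → ℝ} (hC : ∀ i < cs.length, CI mh Q s (cs.getD i (0, 0)) (hf i) (tf i) (xf i)) :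
    ∃ Ls Dh, k Ls Dh = true ∧ Ls.length = cs.length ∧ ∀ M : Multiset ℝ,
      (∀ e ∈ M, 0 ≤ e ∧ e ≤ ((2 * mh : ℕ) : ℝ) / 400) → (s0 : ℝ) / 400 ≤ M.sum → M.sum ≤ (s1 : ℝ) / 400 →
      ∃ (q : ℕ) (sa sb : ℝ), Seg (((2 * mh : ℕ) : ℝ) / 400) q sa sb M ∧ ∀ i < cs.length, ∀ br : Bool,
        UI ((W.w : ℝ) / 1000) ((W.kap : ℝ) / 1000) ((W.G5 : ℝ) / 100000) (hf i) (tf i) (xf i)
          ((bif br then sb - q * (((2 * mh : ℕ) : ℝ) / 400) else sa - q * (((2 * mh : ℕ) : ℝ) / 400)) ::ₘ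
            Multiset.replicate q (((2 * mh : ℕ) : ℝ) / 400))
          + ((W.w3 : ℝ) / 1000 * (43 / 200 * ((bif br then sb - q * (((2 * mh : ℕ) : ℝ) / 400)
              else sa - q * (((2 * mh : ℕ) : ℝ) / 400)) + q * (((2 * mh : ℕ) : ℝ) / 400))
            + 39 / 200 * ((bif br then sb - q * (((2 * mh : ℕ) : ℝ) / 400)
              else sa - q * (((2 * mh : ℕ) : ℝ) / 400)) ^ 2 + q * (((2 * mh : ℕ) : ℝ) / 400) ^ 2))
            + ((W.Sl : ℝ) / 1000000 + (W.M : ℝ) / 1000) * ((bif br then sb - q * (((2 * mh : ℕ) : ℝ) / 400)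
              else sa - q * (((2 * mh : ℕ) : ℝ) / 400)) + q * (((2 * mh : ℕ) : ℝ) / 400)))
          ≤ ((Ls.getD i 0 : ℝ) - OFF) / 8000000000000000 ∧
        FM (1 ::ₘ hf i ::ₘ tf i ::ₘ xf i ::ₘ (bif br then sb - q * (((2 * mh : ℕ) : ℝ) / 400)
          else sa - q * (((2 * mh : ℕ) : ℝ) / 400)) ::ₘ Multiset.replicate q (((2 * mh : ℕ) : ℝ) / 400))
          - Wc (hf i + tf i + xf i + ((bif br then sb - q * (((2 * mh : ℕ) : ℝ) / 400)
            else sa - q * (((2 * mh : ℕ) : ℝ) / 400)) ::ₘ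
              Multiset.replicate q (((2 * mh : ℕ) : ℝ) / 400)).sum) ≤ (Dh : ℝ) / 80000000 := by
  unfold rowI at hc
  obtain ⟨hQ, hc⟩ := cond_eq_true hc
  have hQ : s1 / mh + 2 ≤ 2 * Q := Nat.le_of_ble_eq_true hQ
  simp only [frc_eq, mkN_eq] at hc
  obtain ⟨Ls, Dh, h1, -, h2, h3⟩ := crI_sound _ _ _ _ _ _ _ _ _ hc
  refine ⟨Ls, Dh, h1, h2, fun M hM hM0 hM1 => ?_⟩
  obtain ⟨mr, hmr⟩ : ∃ mr : ℝ, mr = ((2 * mh : ℕ) : ℝ) / 400 := ⟨_, rfl⟩
  have hm0 : 0 < 2 * mh := by omega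
  have hmr0 : 0 < mr := by
    rw [hmr]
    have : (0 : ℝ) < ((2 * mh : ℕ) : ℝ) := by exact_mod_cast hm0
    positivity
  have hmr1 : mr ≤ 1 := by
    rw [hmr]
    have : ((2 * mh : ℕ) : ℝ) ≤ 400 := by exact_mod_cast hm1
    linarith
  obtain ⟨a, ha, b, hb, q, hq0, hq1, hx0, hx1⟩ := nds_find hm0 hM0 hM1
  have hal := nds_le (m := 2 * mh) h01 a ha
  have hbl := nds_le (m := 2 * mh) h01 b hb
  have hab : (a : ℝ) ≤ b := by
    have := hx0.trans hx1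
    linarith
  have hab' : a ≤ b := by exact_mod_cast hab
  -- the value at a node
  have key : ∀ S ∈ nds s0 s1 (2 * mh), q * (2 * mh) ≤ S → S ≤ (q + 1) * (2 * mh) → ∀ i < cs.length,
      UI ((W.w : ℝ) / 1000) ((W.kap : ℝ) / 1000) ((W.G5 : ℝ) / 100000) (hf i) (tf i) (xf i)
        (((S : ℝ) / 400 - q * mr) ::ₘ Multiset.replicate q mr)
        + ((W.w3 : ℝ) / 1000 * (43 / 200 * (((S : ℝ) / 400 - q * mr) + q * mr)
          + 39 / 200 * (((S : ℝ) / 400 - q * mr) ^ 2 + q * mr ^ 2))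
          + ((W.Sl : ℝ) / 1000000 + (W.M : ℝ) / 1000) * (((S : ℝ) / 400 - q * mr) + q * mr))
        ≤ ((Ls.getD i 0 : ℝ) - OFF) / 8000000000000000 ∧
      FM (1 ::ₘ hf i ::ₘ tf i ::ₘ xf i ::ₘ ((S : ℝ) / 400 - q * mr) ::ₘ Multiset.replicate q mr)
        - Wc (hf i + tf i + xf i + (((S : ℝ) / 400 - q * mr) ::ₘ Multiset.replicate q mr).sum)
        ≤ (Dh : ℝ) / 80000000 := by
    intro S hS hS0 hS1 i hi
    have c := hC i hi
    have hSl : S ≤ s1 := nds_le (m := 2 * mh) h01 S hS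
    obtain ⟨v1, v2⟩ := h3 i hi (S, cS W (Nat.mul 2 mh) S) (List.mem_map.mpr ⟨S, hS, rfl⟩)
    have f1 := f8_le c.T hs hmh hm1 (by
      intro z hz
      simp only [Multiset.mem_cons, Multiset.notMem_zero, or_false] at hz
      rcases hz with rfl | rfl | rfl
      · exact c.h01
      · exact c.t01
      · exact c.x01) S q hS0 hS1 (by
      have : S / mh ≤ s1 / mh := Nat.div_le_div_right hSl
      omega)
    rw [← hmr] at f1
    have e0 : (1 : ℝ) ::ₘ (hf i ::ₘ tf i ::ₘ xf i ::ₘ 0 + (((S : ℝ) / 400 - q * mr) ::ₘ Multiset.replicate q mr))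
        = 1 ::ₘ hf i ::ₘ tf i ::ₘ xf i ::ₘ ((S : ℝ) / 400 - q * mr) ::ₘ Multiset.replicate q mr := by
      simp only [Multiset.cons_add, zero_add]
    rw [e0] at f1
    have w1 := C1.w8_le ((cs.getD i (0, 0)).2 + S) (by have := c.b; omega)
    have e1 : (((cs.getD i (0, 0)).2 + S : ℕ) : ℝ) / 400
        = hf i + tf i + xf i + (((S : ℝ) / 400 - q * mr) ::ₘ Multiset.replicate q mr).sum := by
      rw [Multiset.sum_cons, Multiset.sum_replicate, nsmul_eq_mul, c.sum]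
      push_cast
      ring
    rw [e1] at w1
    obtain ⟨n1, n2⟩ := nodeI W (m := 2 * mh) (q := q) (S := S) hm0 f1 w1 hmr rfl hS0 hS1
    constructor
    · refine n1.trans ?_
      refine div_le_div_of_nonneg_right ?_ (by norm_num)
      have : (vI (100000 * (W.w + W.kap)) (100000 * W.kap) (1000 * W.G5) (f8 (cs.getD i (0, 0)).1 s mh S)
          (C1.w8 ((cs.getD i (0, 0)).2 + S)) (cS W (2 * mh) S) : ℝ) ≤ (Ls.getD i 0 : ℝ) := by
        exact_mod_cast v1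
      linarith
    · refine n2.trans ?_
      refine div_le_div_of_nonneg_right ?_ (by norm_num)
      exact_mod_cast v2
  rw [← hmr] at hM ⊢
  refine ⟨q, (a : ℝ) / 400, (b : ℝ) / 400, ⟨hmr0, hmr1, ?_, ?_, hx0, hx1, hM⟩, fun i hi br => ?_⟩
  · rw [hmr]
    have : ((q * (2 * mh) : ℕ) : ℝ) ≤ a := by exact_mod_cast hq0
    push_cast at this ⊢
    linarith
  · rw [hmr]
    have : (b : ℝ) ≤ (((q + 1) * (2 * mh) : ℕ) : ℝ) := by exact_mod_cast hq1
    push_cast at this ⊢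
    linarith
  · cases br with
    | false => exact key a ha hq0 (hab'.trans hq1) i hi
    | true => exact key b hb (hq0.trans hab') hq1 i hi

end B2
end Pool.Agent.Lib.MP_6947cd_al
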