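import Pool.Agent.Lib.MP_6947cd_al.Z.Lf2
import Pool.Agent.Lib.MP_6947cd_al.Z.RowI3
import Pool.Agent.Lib.MP_6947cd_al.C.TabF
import Pool.Agent.Lib.MP_6947cd_al.C.Cel

/-!
Problem MP_6947cd_al (Chollet).  CASE B, middle second entry: the corners of the row `i` from the tables (every corner
by the chords of its own grid cell).
-/

set_option autoImplicit false
open Finset

namespace Pool.Agent.Lib.MP_6947cd_al
namespace B2

open Ent Ent.Pk Fr Fr.WT CC B1 PkA B3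

/-- the grid cell of `u`, step `c`: lower node, upper node (the same if `u` is a node), weight of the lower one -/
noncomputable def nod (c u : ℕ) (K : ℕ → ℕ → ℕ → Bool) : Bool :=
  cond (Nat.ble (nat_lit 1) c) (frc (Nat.mul c (Nat.div u c)) fun a => cond (Nat.beq a u) (K a a c)
    (frc (Nat.add a c) fun b => cond (Nat.ble b (nat_lit 400)) (frc (Nat.sub b u) fun l => K a b l) false)) false

/-- what is known about the nodes -/
structure NodOK (c u a b l : ℕ) : Prop where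
  c0 : 0 < c
  lc : l ≤ c
  a4 : a ≤ 400
  b4 : b ≤ 400
  au : a ≤ u
  ab : a ≤ b
  e : (c : ℝ) * ((u : ℝ) / 400) = l * ((a : ℝ) / 400) + ((c : ℝ) - l) * ((b : ℝ) / 400)

lemma nod_sound {c u : ℕ} {K : ℕ → ℕ → ℕ → Bool} (h : nod c u K = true) (hu : u ≤ 400) :
    ∃ a b l, NodOK c u a b l ∧ K a b l = true := by
  unfold nod at h
  obtain ⟨h1, h⟩ := cond_eq_true h
  have h1 : 1 ≤ c := Nat.le_of_ble_eq_true h1
  rw [frc_eq] at h
  obtain ⟨a, ha⟩ : ∃ a, a = Nat.mul c (Nat.div u c) := ⟨_, rfl⟩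
  rw [← ha] at h
  have ha' : a = c * (u / c) := ha
  have hau : a ≤ u := by rw [ha']; exact Nat.mul_div_le u c
  cases hq : Nat.beq a u with
  | true =>
    rw [hq, cond_true] at h
    have e : a = u := Nat.eq_of_beq_eq_true hq
    refine ⟨a, a, c, ⟨h1, le_rfl, by omega, by omega, hau, le_rfl, ?_⟩, h⟩
    rw [e]
    ring
  | false =>
    rw [hq, cond_false, frc_eq] at h
    obtain ⟨h2, h⟩ := cond_eq_true h
    have h2 : a + c ≤ 400 := Nat.le_of_ble_eq_true h2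
    rw [frc_eq] at h
    have h3 : u < a + c := by
      have := Nat.lt_mul_div_succ u h1
      rw [ha']
      calc u < c * (u / c + 1) := this
        _ = c * (u / c) + c := by ring
    have e1 : Nat.sub (Nat.add a c) u = a + c - u := rfl
    refine ⟨a, Nat.add a c, Nat.sub (Nat.add a c) u, ⟨h1, ?_, by omega, h2, hau, ?_, ?_⟩, h⟩
    · rw [e1]; omega
    · show a ≤ a + c
      omega
    · rw [e1, Nat.cast_sub h3.le]
      show (c : ℝ) * ((u : ℝ) / 400) = ((a + c : ℕ) - (u : ℝ)) * ((a : ℝ) / 400)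
        + ((c : ℝ) - ((a + c : ℕ) - (u : ℝ))) * (((a + c : ℕ) : ℝ) / 400)
      push_cast
      ring

/-- the table at a node -/
noncomputable def tN (rd : List ℕ) (T : TF.TT) (a y z : ℕ) : ℕ := tTr rd (TF.lk3 T a y z)

/-- the table at a point (three chords) -/
noncomputable def tP (rd : List ℕ) (T : TF.TT) (ca a0 a1 la cy y0 y1 ly cz z0 z1 lz : ℕ) : ℕ :=
  chl cz lz
    (chl cy ly (chl ca la (tN rd T a0 y0 z0) (tN rd T a1 y0 z0)) (chl ca la (tN rd T a0 y1 z0) (tN rd T a1 y1 z0)))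
    (chl cy ly (chl ca la (tN rd T a0 y0 z1) (tN rd T a1 y0 z1)) (chl ca la (tN rd T a0 y1 z1) (tN rd T a1 y1 z1)))

/-- the row values at a point (used only in the proof) -/
noncomputable def wP (rd : List ℕ) (T : TF.TT) (ca a0 a1 la cy y0 y1 ly cz z0 z1 lz : ℕ) : ℕ :=
  chd cz lz
    (chd cy ly (chd ca la (wTr rd (TF.lk3 T a0 y0 z0)) (wTr rd (TF.lk3 T a1 y0 z0)))
      (chd ca la (wTr rd (TF.lk3 T a0 y1 z0)) (wTr rd (TF.lk3 T a1 y1 z0))))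
    (chd cy ly (chd ca la (wTr rd (TF.lk3 T a0 y0 z1)) (wTr rd (TF.lk3 T a1 y0 z1)))
      (chd ca la (wTr rd (TF.lk3 T a0 y1 z1)) (wTr rd (TF.lk3 T a1 y1 z1))))

lemma Sp_perm1 (a y z : ℝ) : Sp a y z = y ::ₘ (a ::ₘ z ::ₘ 0) := by
  unfold Sp
  rw [Multiset.cons_swap]

lemma Sp_perm2 (a y z : ℝ) : Sp a y z = z ::ₘ (a ::ₘ y ::ₘ 0) := by
  unfold Sp
  rw [Multiset.cons_swap y z, Multiset.cons_swap a z]

lemma c400 {n : ℕ} (h : n ≤ 400) : 0 ≤ (n : ℝ) / 400 ∧ (n : ℝ) / 400 ≤ 1 := by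
  have : (n : ℝ) ≤ 400 := by exact_mod_cast h
  exact ⟨by positivity, by linarith⟩

/-- THE TABLE AT A POINT -/
theorem tP_ok {rd ks : List ℕ} {T : TF.TT} (hT : TF.TOK rd ks T) (hk : ∀ k ∈ ks, k ≤ 200)
    (hs : sNr rd ≤ 4294967295) {a y z ca a0 a1 la cy y0 y1 ly cz z0 z1 lz : ℕ} (A : NodOK ca a a0 a1 la)
    (Y : NodOK cy y y0 y1 ly) (Z : NodOK cz z z0 z1 lz) (h30 : 120 ≤ a0 + y0 + z0)
    (hb : cz * (cy * (ca * 2 ^ 32)) < 2 ^ 64) :
    ∃ W, Tb rd ks (cz * (cy * (ca * 1))) (cz * (cy * (ca * 2 ^ 32))) (Sp ((a : ℝ) / 400) ((y : ℝ) / 400) ((z : ℝ) / 400))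
      (tP rd T ca a0 a1 la cy y0 y1 ly cz z0 z1 lz) W := by
  have ba := c400 A.a4
  have ba1 := c400 A.b4
  have by0 := c400 Y.a4
  have by1 := c400 Y.b4
  have bz := c400 Z.a4
  have bz1 := c400 Z.b4
  have bca : ca * 2 ^ 32 < 2 ^ 64 := by
    have h1 : ca * 2 ^ 32 ≤ cy * (ca * 2 ^ 32) := Nat.le_mul_of_pos_left _ Y.c0
    have h2 : cy * (ca * 2 ^ 32) ≤ cz * (cy * (ca * 2 ^ 32)) := Nat.le_mul_of_pos_left _ Z.c0
    omega
  have bcy : cy * (ca * 2 ^ 32) < 2 ^ 64 := by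
    have h2 : cy * (ca * 2 ^ 32) ≤ cz * (cy * (ca * 2 ^ 32)) := Nat.le_mul_of_pos_left _ Z.c0
    omega
  have node : ∀ {p q r : ℕ}, a0 ≤ p → y0 ≤ q → z0 ≤ r → p ≤ 400 → q ≤ 400 → r ≤ 400 →
      Tb rd ks 1 (2 ^ 32) (Sp ((p : ℝ) / 400) ((q : ℝ) / 400) ((r : ℝ) / 400)) (tN rd T p q r) (wTr rd (TF.lk3 T p q r)) := by
    intro p q r h1 h2 h3 h4 h5 h6
    have h7 := TF.lk3_ok hT h4 h5 h6
    refine Tb_of ⟨h7.hF, h7.hw⟩ (c400 h4) (c400 h5) (c400 h6) hk ?_ hs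
    have h8 : 120 ≤ p + q + r := by omega
    have : (120 : ℝ) ≤ p + q + r := by exact_mod_cast h8
    linarith
  have chA : ∀ {q r : ℕ}, y0 ≤ q → z0 ≤ r → q ≤ 400 → r ≤ 400 →
      Tb rd ks (ca * 1) (ca * 2 ^ 32) (Sp ((a : ℝ) / 400) ((q : ℝ) / 400) ((r : ℝ) / 400))
        (chl ca la (tN rd T a0 q r) (tN rd T a1 q r))
        (chd ca la (wTr rd (TF.lk3 T a0 q r)) (wTr rd (TF.lk3 T a1 q r))) := by
    intro q r h1 h2 h3 h4
    rw [chl_eq]
    refine Tb.chord (u0 := (a0 : ℝ) / 400) (u1 := (a1 : ℝ) / 400) (node le_rfl h1 h2 A.a4 h3 h4)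
      (node A.ab h1 h2 A.b4 h3 h4) one_pos A.lc A.c0 A.e ba ba1 ?_ hk bca
    intro x hx
    simp only [Multiset.mem_cons, Multiset.notMem_zero, or_false] at hx
    rcases hx with rfl | rfl
    · exact c400 h3
    · exact c400 h4
  have hA400 : 0 ≤ (a : ℝ) / 400 ∧ (a : ℝ) / 400 ≤ 1 := by
    have e := A.e
    have hc : (0 : ℝ) < ca := by exact_mod_cast A.c0
    have hl : (la : ℝ) ≤ ca := by exact_mod_cast A.lc
    refine ⟨by positivity, ?_⟩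
    have h1 : (la : ℝ) * ((a0 : ℝ) / 400) ≤ la * 1 := mul_le_mul_of_nonneg_left ba.2 (Nat.cast_nonneg _)
    have h2 : ((ca : ℝ) - la) * ((a1 : ℝ) / 400) ≤ (ca - la) * 1 := mul_le_mul_of_nonneg_left ba1.2 (by linarith)
    have h3 : (ca : ℝ) * ((a : ℝ) / 400) ≤ ca * 1 := by linarith
    exact le_of_mul_le_mul_left h3 hc
  have hY400 : 0 ≤ (y : ℝ) / 400 ∧ (y : ℝ) / 400 ≤ 1 := by
    have e := Y.e
    have hc : (0 : ℝ) < cy := by exact_mod_cast Y.c0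
    have hl : (ly : ℝ) ≤ cy := by exact_mod_cast Y.lc
    refine ⟨by positivity, ?_⟩
    have h1 : (ly : ℝ) * ((y0 : ℝ) / 400) ≤ ly * 1 := mul_le_mul_of_nonneg_left by0.2 (Nat.cast_nonneg _)
    have h2 : ((cy : ℝ) - ly) * ((y1 : ℝ) / 400) ≤ (cy - ly) * 1 := mul_le_mul_of_nonneg_left by1.2 (by linarith)
    have h3 : (cy : ℝ) * ((y : ℝ) / 400) ≤ cy * 1 := by linarith
    exact le_of_mul_le_mul_left h3 hc
  have chY : ∀ {r : ℕ}, z0 ≤ r → r ≤ 400 →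
      Tb rd ks (cy * (ca * 1)) (cy * (ca * 2 ^ 32)) (Sp ((a : ℝ) / 400) ((y : ℝ) / 400) ((r : ℝ) / 400))
        (chl cy ly (chl ca la (tN rd T a0 y0 r) (tN rd T a1 y0 r)) (chl ca la (tN rd T a0 y1 r) (tN rd T a1 y1 r)))
        (chd cy ly (chd ca la (wTr rd (TF.lk3 T a0 y0 r)) (wTr rd (TF.lk3 T a1 y0 r)))
          (chd ca la (wTr rd (TF.lk3 T a0 y1 r)) (wTr rd (TF.lk3 T a1 y1 r)))) := by
    intro r h1 h2
    rw [chl_eq cy]
    have t0 := chA (q := y0) le_rfl h1 Y.a4 h2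
    have t1 := chA (q := y1) Y.ab h1 Y.b4 h2
    rw [Sp_perm1] at t0 t1 ⊢
    refine Tb.chord (u0 := (y0 : ℝ) / 400) (u1 := (y1 : ℝ) / 400) t0 t1 (by have := A.c0; omega) Y.lc Y.c0 Y.e by0 by1 ?_
      hk bcy
    intro x hx
    simp only [Multiset.mem_cons, Multiset.notMem_zero, or_false] at hx
    rcases hx with rfl | rfl
    · exact hA400
    · exact c400 h2
  refine ⟨wP rd T ca a0 a1 la cy y0 y1 ly cz z0 z1 lz, ?_⟩
  unfold tP wP
  rw [chl_eq cz]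
  have t0 := chY (r := z0) le_rfl Z.a4
  have t1 := chY (r := z1) Z.ab Z.b4
  rw [Sp_perm2] at t0 t1 ⊢
  refine Tb.chord (u0 := (z0 : ℝ) / 400) (u1 := (z1 : ℝ) / 400) t0 t1
    (Nat.mul_pos Y.c0 (Nat.mul_pos A.c0 one_pos)) Z.lc Z.c0 Z.e bz bz1 ?_ hk hb
  intro x hx
  simp only [Multiset.mem_cons, Multiset.notMem_zero, or_false] at hx
  rcases hx with rfl | rfl
  · exact hA400
  · exact hY400

/-- the table at a point and its check -/
noncomputable def crn (rd : List ℕ) (T : TF.TT) (ca cy cz a y z : ℕ) (K : ℕ → Bool) : Bool :=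
  nod ca a fun a0 a1 la => nod cy y fun y0 y1 ly => nod cz z fun z0 z1 lz =>
    cond (Nat.ble (nat_lit 120) (Nat.add (Nat.add a0 y0) z0)) (K (tP rd T ca a0 a1 la cy y0 y1 ly cz z0 z1 lz)) false

/-- `F` has the knots `k`, `2 k` and the radices `2`, `Q` -/
noncomputable def fm2 (F : TF.Fam) (k : ℕ) (K : ℕ → Bool) : Bool :=
  match F.rd, F.ks with
  | [r0, Q], [k0, k1] => cond (Nat.beq r0 (nat_lit 2)) (cond (Nat.beq k0 k) (cond (Nat.beq k1 (Nat.mul (nat_lit 2) k))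
      (K Q) false) false) false
  | _, _ => false

lemma fm2_sound {F : TF.Fam} {k : ℕ} {K : ℕ → Bool} (h : fm2 F k K = true) :
    ∃ Q, F.rd = [2, Q] ∧ F.ks = [k, 2 * k] ∧ K Q = true := by
  unfold fm2 at h
  split at h
  · rename_i r0 Q k0 k1 e1 e2
    obtain ⟨h1, h⟩ := cond_eq_true h
    obtain ⟨h2, h⟩ := cond_eq_true h
    obtain ⟨h3, h⟩ := cond_eq_true h
    have h1 : r0 = 2 := Nat.eq_of_beq_eq_true h1
    have h2 : k0 = k := Nat.eq_of_beq_eq_true h2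
    have h3 : k1 = 2 * k := Nat.eq_of_beq_eq_true h3
    exact ⟨Q, by rw [e1, h1], by rw [e2, h2, h3], h⟩
  · exact absurd h (by simp)

/-- a corner of the row `i` -/
lemma crn_sound {F : TF.Fam} (hF : F.OK) {k Q : ℕ} (hr : F.rd = [2, Q]) (hks : F.ks = [k, 2 * k])
    (hs : sNr F.rd ≤ 4294967295) {ca cy cz a y z : ℕ} {K : ℕ → Bool} (h : crn F.rd F.T ca cy cz a y z K = true)
    (hb : cz * (cy * (ca * 2 ^ 32)) < 2 ^ 64) (ha : a ≤ 400) (hy : y ≤ 400) (hz : z ≤ 400) :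
    0 < cz * (cy * (ca * 1)) ∧ 120 ≤ a + y + z ∧ ∃ T, K T = true ∧ TI (4 * k) Q (cz * (cy * (ca * 1)))
      (((a : ℝ) / 400) ::ₘ ((y : ℝ) / 400) ::ₘ ((z : ℝ) / 400) ::ₘ 0) T := by
  unfold crn at h
  obtain ⟨a0, a1, la, A, h⟩ := nod_sound h ha
  obtain ⟨y0, y1, ly, Y, h⟩ := nod_sound h hy
  obtain ⟨z0, z1, lz, Z, h⟩ := nod_sound h hz
  obtain ⟨h1, h⟩ := cond_eq_true h
  have h1 : 120 ≤ a0 + y0 + z0 := Nat.le_of_ble_eq_true h1
  have q1 := A.au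
  have q2 := Y.au
  have q3 := Z.au
  refine ⟨Nat.mul_pos Z.c0 (Nat.mul_pos Y.c0 (Nat.mul_pos A.c0 one_pos)), by omega, _, h, ?_⟩
  obtain ⟨W, hW⟩ := tP_ok hF.tab hF.k2 hs A Y Z h1 hb
  rw [hks] at hW
  have e : F.rd = [2, Q] := hr
  have hW' : Tb [2, Q] [k, 2 * k] (cz * (cy * (ca * 1))) (cz * (cy * (ca * 2 ^ 32)))
      (Sp ((a : ℝ) / 400) ((y : ℝ) / 400) ((z : ℝ) / 400)) (tP F.rd F.T ca a0 a1 la cy y0 y1 ly cz z0 z1 lz) W := by
    rw [← e]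
    exact hW
  exact TI.of_tb hW'

/-- the corners of the row `i`: `(table, sum of the special entries)` -/
noncomputable def c8 (V : Bool) (f : ℕ → ℕ → ℕ → (ℕ → Bool) → Bool) (h0 h1 t0 t1 x0 x1 : ℕ)
    (K : List (ℕ × ℕ) → Bool) : Bool :=
  f h0 t0 x0 fun T0 => f h1 t0 x0 fun T1 => f h0 t1 x0 fun T2 => f h1 t1 x0 fun T3 =>
  frc (Nat.add (Nat.add h0 t0) x0) fun s0 => frc (Nat.add (Nat.add h1 t0) x0) fun s1 =>
  frc (Nat.add (Nat.add h0 t1) x0) fun s2 => frc (Nat.add (Nat.add h1 t1) x0) fun s3 =>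
  cond V (f h0 t0 x1 fun T4 => f h1 t0 x1 fun T5 => f h0 t1 x1 fun T6 => f h1 t1 x1 fun T7 =>
    frc (Nat.add (Nat.add h0 t0) x1) fun s4 => frc (Nat.add (Nat.add h1 t0) x1) fun s5 =>
    frc (Nat.add (Nat.add h0 t1) x1) fun s6 => frc (Nat.add (Nat.add h1 t1) x1) fun s7 =>
    K [(T0, s0), (T1, s1), (T2, s2), (T3, s3), (T4, s4), (T5, s5), (T6, s6), (T7, s7)])
    (K [(T0, s0), (T1, s1), (T2, s2), (T3, s3)])

/-- THE CORNERS OF THE ROW `i`; data: family, steps of `h`, `t`, `x` -/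
noncomputable def corT (l : List TF.Fam) : CorFn := fun d V k h0 h1 t0 t1 x0 x1 K =>
  match d with
  | [f, ca, cy, cz] => TF.famN (fun F => fm2 F k fun Q =>
      cond (Nat.ble (sNr F.rd) (nat_lit 4294967295)) (frc (Nat.mul cz (Nat.mul cy ca)) fun s =>
        cond (Nat.ble s (nat_lit 1073741824))
          (c8 V (crn F.rd F.T ca cy cz) h0 h1 t0 t1 x0 x1 fun cs => K s Q cs) false) false) l f
  | _ => false

/-- the corners with their facts -/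
lemma c8_sound {V : Bool} {f : ℕ → ℕ → ℕ → (ℕ → Bool) → Bool} {h0 h1 t0 t1 x0 x1 : ℕ} {K : List (ℕ × ℕ) → Bool}
    {P : ℕ → ℕ → ℕ → ℕ → Prop} (hf : ∀ h t x K', f h t x K' = true → h ≤ 400 → t ≤ 400 → x ≤ 400 → ∃ T, K' T = true ∧ P h t x T)
    (h : c8 V f h0 h1 t0 t1 x0 x1 K = true) (b0 : h0 ≤ 400) (b1 : h1 ≤ 400) (b2 : t0 ≤ 400) (b3 : t1 ≤ 400)
    (b4 : x0 ≤ 400) (b5 : x1 ≤ 400) :
    ∃ cs, K cs = true ∧ cs.length = cond V 8 4 ∧ ∀ bh bt bx : Bool,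
      P (C1.cv h0 h1 bh) (C1.cv t0 t1 bt) (C1.cv x0 x1 (V && bx)) (cs.getD (ix bh bt (V && bx)) (0, 0)).1 ∧
      (cs.getD (ix bh bt (V && bx)) (0, 0)).2 = C1.cv h0 h1 bh + C1.cv t0 t1 bt + C1.cv x0 x1 (V && bx) := by
  unfold c8 at h
  obtain ⟨T0, h, p0⟩ := hf _ _ _ _ h b0 b2 b4
  obtain ⟨T1, h, p1⟩ := hf _ _ _ _ h b1 b2 b4
  obtain ⟨T2, h, p2⟩ := hf _ _ _ _ h b0 b3 b4
  obtain ⟨T3, h, p3⟩ := hf _ _ _ _ h b1 b3 b4
  simp only [frc_eq] at h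
  cases V with
  | false =>
    rw [cond_false] at h
    refine ⟨_, h, rfl, ?_⟩
    intro bh bt bx
    cases bh <;> cases bt <;>
      first
      | exact ⟨p0, rfl⟩
      | exact ⟨p1, rfl⟩
      | exact ⟨p2, rfl⟩
      | exact ⟨p3, rfl⟩
  | true =>
    rw [cond_true] at h
    obtain ⟨T4, h, p4⟩ := hf _ _ _ _ h b0 b2 b5
    obtain ⟨T5, h, p5⟩ := hf _ _ _ _ h b1 b2 b5
    obtain ⟨T6, h, p6⟩ := hf _ _ _ _ h b0 b3 b5
    obtain ⟨T7, h, p7⟩ := hf _ _ _ _ h b1 b3 b5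
    refine ⟨_, h, rfl, ?_⟩
    intro bh bt bx
    cases bh <;> cases bt <;> cases bx <;>
      first
      | exact ⟨p0, rfl⟩
      | exact ⟨p1, rfl⟩
      | exact ⟨p2, rfl⟩
      | exact ⟨p3, rfl⟩
      | exact ⟨p4, rfl⟩
      | exact ⟨p5, rfl⟩
      | exact ⟨p6, rfl⟩
      | exact ⟨p7, rfl⟩

/-- SOUNDNESS of the corners of the row `i` -/
theorem corT_OK {l : List TF.Fam} (hl : TF.EnvF l) : (corT l).OK := by
  intro d V k h0 h1 t0 t1 x0 x1 K hc hV hk1 hk2 hh0 hh hh1 ht0 ht ht1 hxV hx hx1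
  unfold corT at hc
  split at hc
  · rename_i f ca cy cz
    obtain ⟨F, hF, hc⟩ := TF.famN_sound hl hc
    obtain ⟨Q, hr, hks, hc⟩ := fm2_sound hc
    obtain ⟨hs, hc⟩ := cond_eq_true hc
    have hs : sNr F.rd ≤ 4294967295 := Nat.le_of_ble_eq_true hs
    rw [frc_eq] at hc
    obtain ⟨hb, hc⟩ := cond_eq_true hc
    have hb : cz * (cy * ca) ≤ 1073741824 := Nat.le_of_ble_eq_true hb
    have hb2 : cz * (cy * (ca * 2 ^ 32)) < 2 ^ 64 := by
      have : cz * (cy * (ca * 2 ^ 32)) = cz * (cy * ca) * 2 ^ 32 := by ring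
      rw [this]
      calc cz * (cy * ca) * 2 ^ 32 ≤ 1073741824 * 2 ^ 32 := Nat.mul_le_mul_right _ hb
        _ < 2 ^ 64 := by norm_num
    obtain ⟨cs, hK, h2, h3⟩ := c8_sound (P := fun h t x T => 0 < cz * (cy * (ca * 1)) ∧ 120 ≤ h + t + x ∧
      TI (4 * k) Q (cz * (cy * (ca * 1))) (((h : ℝ) / 400) ::ₘ ((t : ℝ) / 400) ::ₘ ((x : ℝ) / 400) ::ₘ 0) T)
      (fun h t x K' hh q1 q2 q3 => by
        obtain ⟨p1, p2, T, p3, p4⟩ := crn_sound hF hr hks hs hh hb2 q1 q2 q3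
        exact ⟨T, p3, p1, p2, p4⟩) hc (by omega) hh1 (by omega) ht1 (by omega) hx1
    have e : cz * (cy * (ca * 1)) = Nat.mul cz (Nat.mul cy ca) := by rw [Nat.mul_one]; rfl
    refine ⟨_, Q, cs, hK, ?_, h2, ?_⟩
    · rw [← e]
      exact (h3 false false false).1.1
    · intro bh bt bx
      obtain ⟨⟨q1, q2, q3⟩, q4⟩ := h3 bh bt bx
      have ex : C1.cv x0 x1 (V && bx) = C1.cv x0 x1 bx := by
        cases V with
        | true => rfl
        | false =>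
          obtain ⟨y0, y1⟩ := hV rfl
          rw [y0, y1]
          cases bx <;> rfl
      rw [ex] at q2 q3 q4
      have a1 : C1.cv h0 h1 bh ≤ 400 := by
        cases bh
        · show h0 ≤ 400
          omega
        · exact hh1
      have a2 : C1.cv t0 t1 bt ≤ 400 := by
        cases bt
        · show t0 ≤ 400
          omega
        · exact ht1
      have a3 : C1.cv x0 x1 bx ≤ 400 := by
        cases bx
        · show x0 ≤ 400
          omega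
        · exact hx1
      refine ⟨?_, ?_, ?_, c400 a1, c400 a2, c400 a3⟩
      · have e4 : 2 * (2 * k) = 4 * k := by ring
        rw [e4, ← e]
        exact q3
      · rw [q4]
        push_cast
        ring
      · rw [q4]
        exact q2
  · exact absurd hc (by simp)

end B2
end Pool.Agent.Lib.MP_6947cd_al
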