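import Pool.Agent.Lib.MP_6947cd_al.Z.RowF
import Pool.Agent.Lib.MP_6947cd_al.C.LeafN

/-!
Problem MP_6947cd_al (Chollet).  CASE B, middle second entry: the check of a row of a leaf.
-/

set_option autoImplicit false
open Finset

namespace Pool.Agent.Lib.MP_6947cd_al
namespace B2

open Ent Ent.Pk Fr Fr.WT CC B1 PkA

/-! ### forced lists -/

/-- forced evaluation of the elements -/
noncomputable def frL (l : List ℕ) : (List ℕ → Bool) → Bool :=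
  @List.rec ℕ (fun _ => (List ℕ → Bool) → Bool) (fun k => k []) (fun a _ ih k => frc a fun a' => ih fun r => k (a' :: r)) l

lemma frL_eq (l : List ℕ) : ∀ k, frL l k = k l := by
  induction l with
  | nil => intro k; rfl
  | cons a l ih =>
    intro k
    have e : frL (a :: l) k = frc a fun a' => frL l fun r => k (a' :: r) := rfl
    rw [e, frc_eq, ih]

/-- eight values in the order of the corners -/
def l8 (f : Bool → Bool → Bool → ℕ) : List ℕ :=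
  [f false false false, f true false false, f false true false, f true true false,
   f false false true, f true false true, f false true true, f true true true]

lemma l8_get (f : Bool → Bool → Bool → ℕ) (a b c : Bool) : (l8 f).getD (ix a b c) 0 = f a b c := by
  cases a <;> cases b <;> cases c <;> rfl

/-! ### the tables as parameters -/

/-- the check of a row by the tables -/
abbrev RowFn := Bool → C1.Rw → List ℕ → List ℕ → ℕ → ℕ → ℕ → Bool → ℕ → ℕ → ℕ → ℕ → ℕ → ℕ → ℕ → ℕ → ℕ → Bool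

/-- the check of the heavy rows by the tables -/
abbrev StarFn := Bool → C1.Rw → Bool → ℕ → ℕ → ℕ → ℕ → ℕ → ℕ → ℕ → Bool

/-- the corners of the row `i`: data, type, `k` (`m = 4 k`), `h0 h1 t0 t1 x0 x1` -/
abbrev CorFn := List ℕ → Bool → ℕ → ℕ → ℕ → ℕ → ℕ → ℕ → ℕ → (ℕ → ℕ → List (ℕ × ℕ) → Bool) → Bool

/-- soundness of the row check -/
def RowFn.OK (f : RowFn) : Prop := ∀ V r Os Rs A β O bad lb T1 R1 X0 X1 Y0 Y1 Z0 Z1,
  f V r Os Rs A β O bad lb T1 R1 X0 X1 Y0 Y1 Z0 Z1 = true → (V = false → Z0 = 0 ∧ Z1 = 0) → 120 ≤ X0 → X0 < X1 →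
    X1 ≤ 400 → Y0 < Y1 → Y1 ≤ 400 → Z0 ≤ Z1 → Z1 ≤ 400 → (V = true → Z0 < Z1) →
    RwB V r Os Rs A β O bad lb T1 R1 X0 X1 Y0 Y1 Z0 Z1

def StarFn.OK (f : StarFn) : Prop := ∀ V r bad S X0 X1 Y0 Y1 Z0 Z1,
  f V r bad S X0 X1 Y0 Y1 Z0 Z1 = true → (V = false → Z0 = 0 ∧ Z1 = 0) → 120 ≤ X0 → X0 < X1 →
    X1 ≤ 400 → Y0 < Y1 → Y1 ≤ 400 → Z0 ≤ Z1 → Z1 ≤ 400 → (V = true → Z0 < Z1) → StB r bad S X0 X1 Y0 Y1 Z0 Z1

def CorFn.OK (f : CorFn) : Prop := ∀ st V k h0 h1 t0 t1 x0 x1 K,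
  f st V k h0 h1 t0 t1 x0 x1 K = true → (V = false → x0 = 0 ∧ x1 = 0) → 1 ≤ k → k ≤ 100 → 120 ≤ h0 → h0 < h1 →
    h1 ≤ 400 → 120 ≤ t0 → t0 < t1 → t1 ≤ 400 → (V = true → x0 < x1) → x0 ≤ x1 → x1 ≤ 400 →
    ∃ s Q cs, K s Q cs = true ∧ 0 < s ∧ cs.length = cond V 8 4 ∧
      ∀ bh bt bx : Bool, CI (2 * k) Q s (cs.getD (ix bh bt (V && bx)) (0, 0))
        (((C1.cv h0 h1 bh : ℕ) : ℝ) / 400) (((C1.cv t0 t1 bt : ℕ) : ℝ) / 400) (((C1.cv x0 x1 bx : ℕ) : ℝ) / 400)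

/-! ### a row -/

/-- THE CHECK OF A ROW: `c` = status, `sm` = bound of the rests of the row `i`, `s1` = bound of their sum,
`y0 y1` = borders of the third special entry in the box, `r0 r1` = borders of the sum of it and the rests -/
noncomputable def rowC (row : RowFn) (star : StarFn) (V : Bool) (r : C1.Rw) (Os Rs : List ℕ) (A β O c sm s1
    X0 X1 Y0 Y1 Z0 Z1 y0 y1 r0 r1 : ℕ) : Bool :=
  C1.fB (C1.isB c) fun bad => cond (rwK V r bad sm X0 X1 Y0 Y1 Z0 Z1)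
    (frc (Nat.div (Nat.succ (Nat.sub r0 y1)) (nat_lit 2)) fun lb =>
      cond (Nat.beq r1 (nat_lit 0))
        (cond (Nat.ble (nat_lit 1) r.S) (cond (Nat.ble (Nat.add (Nat.add (Nat.add X1 Y1) Z1)
            (Nat.mul (nat_lit 2) r.S)) (nat_lit 6400))
          (cond (star V r bad r.S X0 X1 Y0 Y1 Z0 Z1)
            (frc (Nat.sub r.S (nat_lit 1)) fun T1 => row V r Os Rs A β O bad lb T1 s1 X0 X1 Y0 Y1 Z0 Z1) false) false)
          false)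
        (cond (Nat.ble (Nat.add (Nat.add X1 Y1) r1) (nat_lit 6400))
          (frc (Nat.div (Nat.sub r1 y0) (nat_lit 2)) fun T1 =>
            row V r Os Rs A β O bad lb T1 s1 X0 X1 Y0 Y1 Z0 Z1) false)) false

lemma isB_eq {c : ℕ} (h : C1.isB c = true) : c = 0 := Nat.eq_of_beq_eq_true h

theorem rowC_sound {row : RowFn} {star : StarFn} (hrow : row.OK) (hstar : star.OK) {V : Bool} {r : C1.Rw}
    {Os Rs : List ℕ} {A β O c sm s1 X0 X1 Y0 Y1 Z0 Z1 y0 y1 r0 r1 : ℕ}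
    (hS2 : SpecS2) (hS1 : SpecS1) (hS7 : SpecR7)
    (hc : rowC row star V r Os Rs A β O c sm s1 X0 X1 Y0 Y1 Z0 Z1 y0 y1 r0 r1 = true)
    (lO : Os.length = r.kn.ks.length) (lR : Rs.length = r.kn.ks.length)
    (hX0 : 120 ≤ X0) (hX : X0 < X1) (hX1 : X1 ≤ 400) (hY : Y0 < Y1) (hY1 : Y1 ≤ 400) (hZ : V = true → Z0 < Z1)
    (hZ0 : Z0 ≤ Z1) (hZ1 : Z1 ≤ 400) (hZN : V = false → Z0 = 0 ∧ Z1 = 0)
    {a y z G : ℝ} {M : Multiset (ℝ × ℝ)} {Mi : Multiset ℝ}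
    (ha : (X0 : ℝ) / 400 ≤ a ∧ a ≤ (X1 : ℝ) / 400) (hy : (Y0 : ℝ) / 400 ≤ y ∧ y ≤ (Y1 : ℝ) / 400)
    (hz : (Z0 : ℝ) / 400 ≤ z ∧ z ≤ (Z1 : ℝ) / 400) (hzb : (y0 : ℝ) / 400 ≤ z ∧ z ≤ (y1 : ℝ) / 400)
    (hr : Bt0 r0 r1 (z + (C1.sn M).sum))
    (hv : C1.Val G (a ::ₘ y ::ₘ z ::ₘ C1.sn M)) (hP : C1.Prs a Mi M) (hMi : ∀ x ∈ Mi, 0 ≤ x ∧ x ≤ (sm : ℝ) / 400)
    (hRs : Mi.sum ≤ (s1 : ℝ) / 400) {b : Bool} (hm : Mt c b)
    (hb : b = true → 0 < C1.Df G (a ::ₘ y ::ₘ z ::ₘ C1.sn M))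
    (hd : -((r.d : ℝ) / 10 ^ 7) < C1.Df G (a ::ₘ y ::ₘ z ::ₘ C1.sn M)) :
    C1.RowD (kR r.kn.ks) (C1.phR r.kn.ks Os Rs) (A / 1000) (β / 1000) a y z G M
      ((X0 : ℝ) / 400) ((X1 : ℝ) / 400) ((Y0 : ℝ) / 400) ((Y1 : ℝ) / 400) ((Z0 : ℝ) / 400) ((Z1 : ℝ) / 400)
      (fun ba bb bc => (((r.R.getD (ix ba bb (V && bc)) 0 : ℕ) : ℝ) - O) / 40000000000) ∧
    (∀ w ∈ M, 0 ≤ w.1 ∧ w.2 ≤ top 0 (kR r.kn.ks) ∧ nF 12800 r.kn.ks r.kn.Ps w.2 ≤ w.1) ∧ KnOK r.kn.ks ∧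
    r.kn.Ps.length = r.kn.ks.length := by
  unfold rowC at hc
  rw [C1.fB_eq] at hc
  obtain ⟨h1, hc⟩ := cond_eq_true hc
  rw [frc_eq] at hc
  have hbad : C1.isB c = true → 0 < C1.Df G (a ::ₘ y ::ₘ z ::ₘ C1.sn M) := fun h => hb (hm.1 (isB_eq h))
  have hlb : ∀ n : ℕ, (C1.sn M).sum ≤ (n : ℝ) / 200 → Nat.div (Nat.succ (Nat.sub r0 y1)) 2 ≤ n := by
    intro n hn
    have e1 := hr.1
    have e2 := hzb.2
    have e3 : (r0 : ℝ) ≤ ((2 * n + y1 : ℕ) : ℝ) := by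
      push_cast
      linarith
    have e4 : r0 ≤ 2 * n + y1 := by exact_mod_cast e3
    show (r0 - y1 + 1) / 2 ≤ n
    omega
  cases hq : Nat.beq r1 0 with
  | true =>
    rw [hq, cond_true] at hc
    obtain ⟨h2, hc⟩ := cond_eq_true hc
    obtain ⟨h3, hc⟩ := cond_eq_true hc
    obtain ⟨h4, hc⟩ := cond_eq_true hc
    rw [frc_eq] at hc
    have h2 : 1 ≤ r.S := Nat.le_of_ble_eq_true h2
    have h3 : X1 + Y1 + Z1 + 2 * r.S ≤ 6400 := Nat.le_of_ble_eq_true h3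
    have e : Nat.sub r.S 1 + 1 = r.S := by
      show r.S - 1 + 1 = r.S
      omega
    refine rowB hS2 hS1 hS7 h1 lO lR (hrow _ _ _ _ _ _ _ _ _ _ _ _ _ _ _ _ _ hc hZN hX0 hX hX1 hY hY1 hZ0 hZ1 hZ)
      hX0 hX hX1 hY hY1 hZ hZ1 ha hy hz hv hP hMi hRs hbad hd (Or.inr ⟨?_, ?_⟩) hlb
    · rw [e]
      exact hstar _ _ _ _ _ _ _ _ _ _ h4 hZN hX0 hX hX1 hY hY1 hZ0 hZ1 hZ
    · rw [e]
      exact h3
  | false =>
    rw [hq, cond_false] at hc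
    obtain ⟨h2, hc⟩ := cond_eq_true hc
    rw [frc_eq] at hc
    have h2 : X1 + Y1 + r1 ≤ 6400 := Nat.le_of_ble_eq_true h2
    have h3 : r1 ≠ 0 := fun h => by rw [h] at hq; exact absurd hq (by simp)
    have h4 := hr.2 h3
    refine rowB hS2 hS1 hS7 h1 lO lR (hrow _ _ _ _ _ _ _ _ _ _ _ _ _ _ _ _ _ hc hZN hX0 hX hX1 hY hY1 hZ0 hZ1 hZ)
      hX0 hX hX1 hY hY1 hZ hZ1 ha hy hz hv hP hMi hRs hbad hd (Or.inl ⟨?_, ?_⟩) hlb
    · intro n hn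
      have e1 := hzb.1
      have e3 : ((2 * n + y0 : ℕ) : ℝ) ≤ r1 := by
        push_cast
        linarith
      have e4 : 2 * n + y0 ≤ r1 := by exact_mod_cast e3
      show n ≤ (r1 - y0) / 2
      omega
    · have : (X1 : ℝ) + Y1 + r1 ≤ 6400 := by exact_mod_cast h2
      linarith [ha.2, hy.2]

end B2
end Pool.Agent.Lib.MP_6947cd_al
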