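import Pool.Agent.Lib.MP_6947cd_al.C.RowG
import Pool.Agent.Lib.MP_6947cd_al.Z.LfB

/-!
Problem MP_6947cd_al (Chollet).  CASE B, middle second entry: the check of a row of a leaf from families of tables.
-/

set_option autoImplicit false
open Finset

namespace Pool.Agent.Lib.MP_6947cd_al
namespace B2

open Ent Ent.Pk Fr Fr.WT CC B1 PkA

/-- THE CHECK OF A ROW, case B2: `r.st = [f, sa, sy, sz, ..]`: `f` = number of the family of the patterns, `sa`, `sy`,
`sz` steps of the grid; `Os`, `Rs` values of the function of the rests at the knots, `A`, `β` weights, `O` offset,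
`lb`, `T1` bounds of the sum of the rests (`1 / 200`), `R1` bound of the sum of the rests of the row `i` (`1 / 400`);
type `N` (`V = false`): the third special entry is `0` -/
noncomputable def rowT (l : List TF.Fam) : RowFn := fun V r Os Rs A β O bad lb T1 R1 X0 X1 Y0 Y1 Z0 Z1 =>
  frc (gt r.st (nat_lit 0)) fun f => frc (gt r.st (nat_lit 1)) fun sa => frc (gt r.st (nat_lit 2)) fun sy =>
  frc (gt r.st (nat_lit 3)) fun sz => frc (Nat.mul (nat_lit 32) R1) fun p1 =>
  cond V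
    (TF.famN (fun F => B3.rowK F sa sy sz r.kn.ks r.kn.Ps Os Rs r.Gs A β r.d O T1 p1 lb bad r.R r.a0 r.a1 r.y0 r.y1
      r.z0 r.z1 X0 X1 Y0 Y1 Z0 Z1) l f)
    (cond (Nat.beq r.z0 (nat_lit 0))
      (TF.famN (fun F => B3.rowK4 F sa sy r.kn.ks r.kn.Ps Os Rs r.Gs A β r.d O T1 p1 lb bad r.R r.a0 r.a1 r.y0 r.y1
        X0 X1 Y0 Y1) l f) false)

/-- if the third pair of borders is `0`, its upper value does not matter -/
lemma lamA_z {A0 A1 Y0 Y1 a0 a1 y0 y1 z1 : ℕ} :
    C1.lamA A0 A1 Y0 Y1 0 0 a0 a1 y0 y1 0 z1 = C1.lamA A0 A1 Y0 Y1 0 0 a0 a1 y0 y1 0 0 := by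
  unfold C1.lamA C1.chF
  simp

/-- **SOUNDNESS.** -/
theorem rowT_ok (hS : SpS) {l : List TF.Fam} (hl : TF.EnvF l) : RowFn.OK (rowT l) := by
  intro V r Os Rs A β O bad lb T1 R1 X0 X1 Y0 Y1 Z0 Z1 h hN _ _ _ _ _ _ _ _
  unfold RwB
  unfold rowT at h
  rw [frc_eq, frc_eq, frc_eq, frc_eq, frc_eq] at h
  cases V with
  | true =>
    rw [cond_true] at h
    obtain ⟨F, hF, h⟩ := TF.famN_sound hl h
    exact B3.rowK_sound hS hF h
  | false =>
    rw [cond_false] at h
    obtain ⟨hz, h⟩ := cond_eq_true h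
    have hz : r.z0 = 0 := Nat.eq_of_beq_eq_true hz
    obtain ⟨e0, e1⟩ := hN rfl
    obtain ⟨F, hF, h⟩ := TF.famN_sound hl h
    have key := B3.rowK4_sound hS hF h (r := rsV false r.R O) (by
      intro ba bb bc
      refine le_of_eq ?_
      unfold rsV
      rw [iV_ix, Bool.false_and])
    rw [e0, e1]
    have e : C1.altC bad r X0 X1 Y0 Y1 0 0 = B3.altF bad X0 X1 Y0 Y1 0 0 r.a0 r.a1 r.y0 r.y1 0 0 := by
      unfold C1.altC B3.altF
      rw [hz, lamA_z]
    rw [e]
    exact key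

end B2
end Pool.Agent.Lib.MP_6947cd_al
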