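import Pool.Agent.Lib.MP_6947cd_al.C.ChkS
import Pool.Agent.Lib.MP_6947cd_al.Z.LfB

/-!
Problem MP_6947cd_al (Chollet).  CASE B, middle second entry: the check of the heavy rows of a leaf from families of
tables.
-/

set_option autoImplicit false
open Finset

namespace Pool.Agent.Lib.MP_6947cd_al
namespace B2

open Ent Ent.Pk Fr Fr.WT CC B1 PkA SStar

/-- THE CHECK of the heavy rows, case B2: `r.st = [f, sa, sy, sz, g, k0, a, Q]`: `sa`, `sy`, `sz` steps of the grid,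
`g` = number of the family with the knots `[k', cap]` or `[cap]`, `k0`, `a` = far window, `Q` = last node; `S` in
`1 / 200` -/
noncomputable def starT (l : List TF.Fam) (V : Bool) (r : C1.Rw) (bad : Bool) (S X0 X1 Y0 Y1 Z0 Z1 : ℕ) : Bool :=
  frc (C1.lstC (nat_lit 0) r.kn.ks) fun cap => frc (gt r.st (nat_lit 1)) fun sa => frc (gt r.st (nat_lit 2)) fun sy =>
  frc (gt r.st (nat_lit 3)) fun sz => frc (gt r.st (nat_lit 4)) fun g => frc (gt r.st (nat_lit 5)) fun k0 =>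
  frc (gt r.st (nat_lit 6)) fun a => frc (gt r.st (nat_lit 7)) fun Q => frc (Nat.mul (nat_lit 2) S) fun S2 =>
  cond V
    (TF.famN (fun F => B3.celR F.rd F.T sa sy sz X0 X1 Y0 Y1 Z0 Z1 fun s bd tabs =>
      starS F.rd F.ks cap S2 r.d Q k0 a (!bad) X0 X1 Y0 Y1 Z0 Z1 (us8 X0 X1 Y0 Y1 Z0 Z1) s bd tabs) l g)
    (TF.famN (fun F => B3.celR4 F.rd F.T sa sy X0 X1 Y0 Y1 fun s bd tabs =>
      starS F.rd F.ks cap S2 r.d Q k0 a (!bad) X0 X1 Y0 Y1 (nat_lit 0) (nat_lit 0) (us4 X0 X1 Y0 Y1) s bd tabs) l g)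

/-- **SOUNDNESS.** -/
theorem starT_ok {l : List TF.Fam} (hl : TF.EnvF l) : StarFn.OK (starT l) := by
  intro V r bad S X0 X1 Y0 Y1 Z0 Z1 h hN _ _ _ _ _ _ _ _
  unfold StB
  unfold starT at h
  rw [frc_eq, frc_eq, frc_eq, frc_eq, frc_eq, frc_eq, frc_eq, frc_eq, frc_eq] at h
  cases V with
  | true =>
    rw [cond_true] at h
    obtain ⟨F, hF, h⟩ := TF.famN_sound hl h
    obtain ⟨s, bd, tabs, h, hs, hB, hG⟩ := B3.celR_sound hF.tab hF.k2 h
    exact (starS_sound hs (FW.of8 hG) (SStar.Bx.of hB) (us8_eq _ _ _ _ _ _) h).ok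
  | false =>
    rw [cond_false] at h
    obtain ⟨e0, e1⟩ := hN rfl
    obtain ⟨F, hF, h⟩ := TF.famN_sound hl h
    obtain ⟨s, bd, tabs, h, hs, hB, hG⟩ := B3.celR4_sound hF.tab hF.k2 h
    have hB' : SStar.Bx ((X0 : ℝ) / 400) ((X1 : ℝ) / 400) ((Y0 : ℝ) / 400) ((Y1 : ℝ) / 400) (((0 : ℕ) : ℝ) / 400)
        (((0 : ℕ) : ℝ) / 400) := by
      rw [Nat.cast_zero, zero_div]
      exact SStar.Bx.of hB
    rw [e0, e1]
    exact (starS_sound hs (FW.of4 hG) hB' (us4_eq _ _ _ _) h).ok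

end B2
end Pool.Agent.Lib.MP_6947cd_al
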