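import Pool.Agent.Lib.MP_6947cd_al.Z.DX
import Pool.Agent.Lib.MP_6947cd_al.Z.St

/-!
Problem MP_6947cd_al (Chollet).  CASE B, middle second entry: THE TOP: the root cells, their cover, the
statement `LL.SpecBI What (j0 / 20) (j1 / 20)`.
-/

set_option autoImplicit false
open Finset

namespace Pool.Agent.Lib.MP_6947cd_al
namespace B2

open Ent Fr B1

/-- A ROOT CELL.  `V`: special vertex with `x` in `[x0, x1]`; `m` = bound of the rests of the row `i`
(`V`: `x1 ≤ m`); `ss` = the nodes of the sum of the rests of the row `i`, after the first node `0`.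
Unit `1 / 400`. -/
structure RC where
  V : Bool
  m : ℕ
  h0 : ℕ
  h1 : ℕ
  t0 : ℕ
  t1 : ℕ
  x0 : ℕ
  x1 : ℕ
  ss : List ℕ

/-- the root box with the interval `[a, b]` of the sum -/
def RC.box (c : RC) (a b : ℕ) : St :=
  ⟨c.V, 2, 2, 0, c.m, c.h0, c.h1, c.t0, c.t1, 0, 400, cond c.V c.x0 0, cond c.V c.x1 0,
    0, cond c.V 400 0, 0, cond c.V 400 0, a, b, 0, 0, 0, 0⟩

/-- the root boxes, from the node `a` on -/
def RC.bxs (c : RC) : ℕ → List ℕ → List St
  | _, [] => []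
  | a, b :: l => c.box a b :: RC.bxs c b l

/-- all the root boxes -/
def RC.boxes (c : RC) : List St := c.bxs 0 c.ss

/-- the last node -/
def lastN : ℕ → List ℕ → ℕ
  | a, [] => a
  | _, b :: l => lastN b l

/-- the row `i` is not bad if the sum of the rests is at least the last node -/
def RC.Tail (c : RC) : Prop := ∀ (h t x : ℝ) (M : Multiset ℝ), Bt c.h0 c.h1 h → Bt c.t0 c.t1 t →
  Bt (cond c.V c.x0 0) (cond c.V c.x1 0) x → (∀ a ∈ M, 0 ≤ a ∧ a ≤ (c.m : ℝ) / 400) →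
  (lastN 0 c.ss : ℝ) / 400 ≤ M.sum →
  FM (1 ::ₘ h ::ₘ t ::ₘ x ::ₘ M) ≤ What (h + t + x + M.sum)

/-- the cell contains the square `[i/20, (i+1)/20] × [j/20, (j+1)/20]` of `(h, t)` -/
def RC.sq (c : RC) (i j : ℕ) : Bool :=
  Nat.ble c.h0 (Nat.mul 20 i) && (Nat.ble (Nat.mul 20 (Nat.succ i)) c.h1 &&
    (Nat.ble c.t0 (Nat.mul 20 j) && Nat.ble (Nat.mul 20 (Nat.succ j)) c.t1))

/-- a cell without special vertex, rests at most `X` -/
def RC.okN (c : RC) (i j X : ℕ) : Bool := !c.V && (Nat.ble X c.m && c.sq i j)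

/-- cells with special vertex cover `[X, 120]` -/
def covV (cells : List RC) (i j : ℕ) : ℕ → ℕ → Bool
  | 0, _ => false
  | f + 1, X => Nat.ble 120 X || cells.any fun c => c.V && (Nat.ble c.x0 X && (Nat.blt X c.x1 &&
      (Nat.ble c.x1 c.m && (c.sq i j && (Nat.ble 120 c.x1 || covV cells i j f c.x1)))))

/-- all `j < n`, `j0 ≤ j ≤ i` -/
def covJ (cells : List RC) (xb : ℕ → ℕ) (i j0 : ℕ) : ℕ → Bool
  | 0 => true
  | n + 1 => (Nat.blt n j0 || (Nat.blt i n ||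
      ((cells.any fun c => c.okN i n (xb i)) && (Nat.blt (xb i) 120 && covV cells i n 8 (xb i))))) &&
      covJ cells xb i j0 n

/-- all `i < n` -/
def covI (cells : List RC) (xb : ℕ → ℕ) (j0 j1 : ℕ) : ℕ → Bool
  | 0 => true
  | n + 1 => covJ cells xb n j0 j1 && covI cells xb j0 j1 n

/-- THE COVER CHECK: second entry in `[j0/20, j1/20]`; `xb i` = border (`1/400`) between the types for
`h` in `[i/20, (i+1)/20)` -/
def covB2 (cells : List RC) (xb : ℕ → ℕ) (j0 j1 : ℕ) : Bool :=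
  Nat.ble 6 j0 && (Nat.blt j0 j1 && (Nat.ble j1 20 && covI cells xb j0 j1 20))

/-! ### soundness -/

lemma covJ_sound {cells : List RC} {xb : ℕ → ℕ} {i j0 : ℕ} : ∀ n, covJ cells xb i j0 n = true →
    ∀ j < n, j0 ≤ j → j ≤ i → (∃ c ∈ cells, c.okN i j (xb i) = true) ∧ xb i < 120 ∧
      covV cells i j 8 (xb i) = true := by
  intro n
  induction n with
  | zero => intro _ j hj; exact absurd hj (Nat.not_lt_zero j)
  | succ n ih =>
    intro h j hj h0 h1
    unfold covJ at h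
    rw [Bool.and_eq_true] at h
    rcases Nat.lt_succ_iff_lt_or_eq.mp hj with hj | rfl
    · exact ih h.2 j hj h0 h1
    · have h2 := h.1
      simp only [Bool.or_eq_true, Bool.and_eq_true, Nat.blt_eq, List.any_eq_true] at h2
      rcases h2 with h2 | h2 | ⟨h2, h3, h4⟩
      · omega
      · omega
      · exact ⟨h2, h3, h4⟩

lemma covI_sound {cells : List RC} {xb : ℕ → ℕ} {j0 j1 : ℕ} : ∀ n, covI cells xb j0 j1 n = true →
    ∀ i < n, ∀ j < j1, j0 ≤ j → j ≤ i → (∃ c ∈ cells, c.okN i j (xb i) = true) ∧ xb i < 120 ∧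
      covV cells i j 8 (xb i) = true := by
  intro n
  induction n with
  | zero => intro _ i hi; exact absurd hi (Nat.not_lt_zero i)
  | succ n ih =>
    intro h i hi j hj h0 h1
    unfold covI at h
    rw [Bool.and_eq_true] at h
    rcases Nat.lt_succ_iff_lt_or_eq.mp hi with hi | rfl
    · exact ih h.2 i hi j hj h0 h1
    · exact covJ_sound _ h.1 j hj h0 h1

lemma sq_sound {c : RC} {i j : ℕ} (hs : c.sq i j = true) {h t : ℝ} (h0 : (i : ℝ) / 20 ≤ h)
    (h1 : h ≤ ((i : ℝ) + 1) / 20) (t0 : (j : ℝ) / 20 ≤ t) (t1 : t ≤ ((j : ℝ) + 1) / 20) :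
    Bt c.h0 c.h1 h ∧ Bt c.t0 c.t1 t := by
  unfold RC.sq at hs
  simp only [Bool.and_eq_true, Nat.ble_eq] at hs
  obtain ⟨a1, a2, a3, a4⟩ := hs
  have b1 : (c.h0 : ℝ) ≤ 20 * i := by
    have : c.h0 ≤ 20 * i := a1
    exact_mod_cast this
  have b2 : (20 : ℝ) * (i + 1) ≤ c.h1 := by
    have : 20 * (i + 1) ≤ c.h1 := a2
    exact_mod_cast this
  have b3 : (c.t0 : ℝ) ≤ 20 * j := by
    have : c.t0 ≤ 20 * j := a3
    exact_mod_cast this
  have b4 : (20 : ℝ) * (j + 1) ≤ c.t1 := by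
    have : 20 * (j + 1) ≤ c.t1 := a4
    exact_mod_cast this
  exact ⟨⟨by linarith, by linarith⟩, ⟨by linarith, by linarith⟩⟩

lemma covV_sound {cells : List RC} {i j : ℕ} : ∀ f X, covV cells i j f X = true → X < 120 → ∀ x : ℝ,
    (X : ℝ) / 400 ≤ x → x ≤ 3 / 10 → ∃ c ∈ cells, c.V = true ∧ (c.x0 : ℝ) / 400 ≤ x ∧
      x ≤ (c.x1 : ℝ) / 400 ∧ c.x1 ≤ c.m ∧ c.sq i j = true := by
  intro f
  induction f with
  | zero => intro X h; exact absurd h (by simp [covV])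
  | succ f ih =>
    intro X h hX x x0 x1
    unfold covV at h
    rw [Bool.or_eq_true, List.any_eq_true] at h
    rcases h with h | ⟨c, hc, h⟩
    · have := Nat.le_of_ble_eq_true h
      omega
    · simp only [Bool.and_eq_true, Bool.or_eq_true, Nat.ble_eq, Nat.blt_eq] at h
      obtain ⟨a1, a2, a3, a4, a5, a6⟩ := h
      rcases le_total x ((c.x1 : ℝ) / 400) with hx | hx
      · refine ⟨c, hc, a1, ?_, hx, a4, a5⟩
        have : (c.x0 : ℝ) ≤ X := by exact_mod_cast a2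
        linarith
      · rcases Nat.lt_or_ge c.x1 120 with h5 | h5
        · rcases a6 with a6 | a6
          · omega
          · exact ih c.x1 a6 h5 x hx x1
        · refine ⟨c, hc, a1, ?_, ?_, a4, a5⟩
          · have : (c.x0 : ℝ) ≤ X := by exact_mod_cast a2
            linarith
          · have : (120 : ℝ) ≤ c.x1 := by exact_mod_cast h5
            linarith

/-- the index of the square -/
noncomputable def ixh (n : ℕ) (h : ℝ) : ℕ := min n ⌊20 * h⌋₊

lemma ixh_le (n : ℕ) (h : ℝ) (h0 : 0 ≤ h) : (ixh n h : ℝ) / 20 ≤ h := by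
  have h1 : (⌊20 * h⌋₊ : ℝ) ≤ 20 * h := Nat.floor_le (by linarith)
  have h2 : ((ixh n h : ℕ) : ℝ) ≤ ⌊20 * h⌋₊ := by exact_mod_cast min_le_right _ _
  linarith

lemma le_ixh (n : ℕ) (h : ℝ) (h1 : h ≤ ((n : ℝ) + 1) / 20) : h ≤ ((ixh n h : ℝ) + 1) / 20 := by
  unfold ixh
  rcases le_total n ⌊20 * h⌋₊ with h2 | h2
  · rw [min_eq_left h2]; exact h1
  · rw [min_eq_right h2]
    have := Nat.lt_floor_add_one (20 * h)
    linarith

/-- a box of the list contains the sum, or the sum is beyond the last node -/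
lemma bxs_sound (c : RC) (S : ℝ) : ∀ (l : List ℕ) (a : ℕ), (a : ℝ) / 400 ≤ S →
    (∃ p q : ℕ, c.box p q ∈ c.bxs a l ∧ Bt p q S) ∨ (lastN a l : ℝ) / 400 ≤ S := by
  intro l
  induction l with
  | nil => intro a ha; exact Or.inr ha
  | cons b l ih =>
    intro a ha
    rcases le_total S ((b : ℝ) / 400) with hb | hb
    · exact Or.inl ⟨a, b, List.mem_cons_self, ha, hb⟩
    · rcases ih b hb with ⟨p, q, h1, h2⟩ | h
      · exact Or.inl ⟨p, q, List.mem_cons_of_mem _ h1, h2⟩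
      · exact Or.inr h

/-- no configuration in a root cell -/
lemma RC.dead {c : RC} (hr : ∀ σ ∈ c.boxes, Dead σ) (ht : c.Tail) {bj bk : Bool}
    {T0 T1 m h t g x y z uk uv : ℝ} {Q : Multiset V4} {Gj Gk Gv : ℝ} (hT : 3 / 10 ≤ T0)
    (cf : Cfg bj bk T0 T1 m h t g x y z uk uv Q Gj Gk Gv) (bh : Bt c.h0 c.h1 h) (bt : Bt c.t0 c.t1 t)
    (bx : Bt (cond c.V c.x0 0) (cond c.V c.x1 0) x) (hm : m ≤ (c.m : ℝ) / 400)
    (hn : c.V = false → x = 0 ∧ y = 0 ∧ z = 0 ∧ uv = 0) (hv : c.V = true → m = x) : False := by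
  have hS0 : 0 ≤ (Q.map V4.s).sum := Multiset.sum_nonneg (by
    intro a ha
    obtain ⟨e, he, rfl⟩ := Multiset.mem_map.mp ha
    exact (cf.q e he).1)
  have hA0 : 0 ≤ (Q.map V4.a).sum := Multiset.sum_nonneg (by
    intro a ha
    obtain ⟨e, he, rfl⟩ := Multiset.mem_map.mp ha
    exact (cf.q e he).2.2.1)
  have hB0 : 0 ≤ (Q.map V4.b).sum := Multiset.sum_nonneg (by
    intro a ha
    obtain ⟨e, he, rfl⟩ := Multiset.mem_map.mp ha
    exact (cf.q e he).2.2.2.2.1)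
  rcases bxs_sound c (Q.map V4.s).sum c.ss 0 (by simpa using hS0) with ⟨p, q, h1, h2⟩ | h2
  · have z0 : ((0 : ℕ) : ℝ) / 400 = 0 := by norm_num
    have z1 : ((400 : ℕ) : ℝ) / 400 = 1 := by norm_num
    have by' : Bt 0 (cond c.V 400 0) y := by
      refine ⟨by rw [z0]; exact cf.y01.1, ?_⟩
      cases hV : c.V with
      | true => rw [cond_true, z1]; exact cf.y01.2
      | false => rw [cond_false, z0, (hn hV).2.1]
    have bz' : Bt 0 (cond c.V 400 0) z := by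
      refine ⟨by rw [z0]; exact cf.z01.1, ?_⟩
      cases hV : c.V with
      | true => rw [cond_true, z1]; exact cf.z01.2
      | false => rw [cond_false, z0, (hn hV).2.2.1]
    refine hr _ h1 bj bk T0 T1 m h t g x y z uk uv Q Gj Gk Gv
      ⟨fun e => absurd e (by norm_num [RC.box]), fun e => absurd e (by norm_num [RC.box])⟩
      ⟨fun e => absurd e (by norm_num [RC.box]), fun e => absurd e (by norm_num [RC.box])⟩ hT cf
      ⟨bh, bt, ⟨by show ((0 : ℕ) : ℝ) / 400 ≤ g; rw [z0]; exact cf.g01.1,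
        by show g ≤ ((400 : ℕ) : ℝ) / 400; rw [z1]; exact cf.g01.2⟩, bx, by', bz', h2,
        ⟨?_, fun e => absurd rfl e⟩, ⟨?_, fun e => absurd rfl e⟩, hm,
        fun e => absurd e (by norm_num [RC.box]), fun e => absurd e (by norm_num [RC.box]), hn, hv⟩
    · show ((0 : ℕ) : ℝ) / 400 ≤ _
      rw [z0]
      exact add_nonneg cf.y01.1 hA0
    · show ((0 : ℕ) : ℝ) / 400 ≤ _
      rw [z0]
      exact add_nonneg cf.z01.1 hB0
  · have h3 := ht h t x (Q.map V4.s) bh bt bx (by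
      intro a ha
      obtain ⟨e, he, rfl⟩ := Multiset.mem_map.mp ha
      exact ⟨(cf.q e he).1, (cf.q e he).2.1.trans hm⟩) h2
    have h4 := cf.di
    linarith

/-- **CASE B, MIDDLE SECOND ENTRY**, from the root cells. -/
theorem specB2_of {cells : List RC} {xb : ℕ → ℕ} {j0 j1 : ℕ} (hc : covB2 cells xb j0 j1 = true)
    (hr : ∀ c ∈ cells, ∀ σ ∈ c.boxes, Dead σ) (ht : ∀ c ∈ cells, c.Tail) :
    LL.SpecBI What ((j0 : ℝ) / 20) ((j1 : ℝ) / 20) := by
  unfold covB2 at hc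
  simp only [Bool.and_eq_true, Nat.ble_eq, Nat.blt_eq] at hc
  obtain ⟨k0, k1, k2, hc⟩ := hc
  have hk0 : (6 : ℝ) ≤ j0 := by exact_mod_cast k0
  have hT : (3 : ℝ) / 10 ≤ (j0 : ℝ) / 20 := by linarith
  -- the square
  have sqr : ∀ h t : ℝ, t ≤ h → h ≤ 1 → (j0 : ℝ) / 20 ≤ t → t ≤ (j1 : ℝ) / 20 →
      ∃ i j : ℕ, i = ixh 19 h ∧ (i : ℝ) / 20 ≤ h ∧ h ≤ ((i : ℝ) + 1) / 20 ∧ (j : ℝ) / 20 ≤ t ∧
        t ≤ ((j : ℝ) + 1) / 20 ∧ (∃ c ∈ cells, c.okN i j (xb i) = true) ∧ xb i < 120 ∧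
        covV cells i j 8 (xb i) = true := by
    intro h t th h1 t0 t1
    have ht0 : 0 ≤ t := by linarith
    obtain ⟨j', rfl⟩ : ∃ j', j1 = j' + 1 := ⟨j1 - 1, by omega⟩
    have ht1 : t ≤ ((j' : ℝ) + 1) / 20 := by push_cast at t1; exact t1
    have e1 : ixh (min j' 19) t ≤ ixh 19 h := by
      unfold ixh
      have : ⌊20 * t⌋₊ ≤ ⌊20 * h⌋₊ := Nat.floor_mono (by linarith)
      omega
    have hj0 : j0 ≤ ixh (min j' 19) t := by
      unfold ixh
      have h2 : j0 ≤ ⌊20 * t⌋₊ := Nat.le_floor (by linarith)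
      have h3 : ⌊20 * t⌋₊ ≤ 20 := by
        refine Nat.floor_le_of_le ?_
        push_cast
        linarith
      omega
    refine ⟨ixh 19 h, ixh (min j' 19) t, rfl, ixh_le _ _ (ht0.trans th), le_ixh _ _ (by norm_num; linarith),
      ixh_le _ _ ht0, le_ixh _ _ ?_, ?_⟩
    · rcases le_total j' 19 with h5 | h5
      · rw [min_eq_left h5]; exact ht1
      · rw [min_eq_right h5]
        norm_num
        linarith
    · exact covI_sound 20 hc _ (by unfold ixh; omega) _ (by unfold ixh; omega) hj0 e1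
  refine specDX _ _ (fun h _ => ((xb (ixh 19 h) : ℕ) : ℝ) / 400) hT ?_ ?_
  · intro bj bk m h t g uk Q Gj Gk Gv hm cf
    obtain ⟨i, j, hi, a1, a2, a3, a4, ⟨c, hcm, hok⟩, -, -⟩ := sqr h t cf.th cf.h1 cf.t0 cf.t1
    unfold RC.okN at hok
    simp only [Bool.and_eq_true, Nat.ble_eq, Bool.not_eq_true'] at hok
    obtain ⟨b1, b2, b3⟩ := hok
    obtain ⟨d1, d2⟩ := sq_sound b3 a1 a2 a3 a4
    refine RC.dead (hr c hcm) (ht c hcm) hT cf d1 d2 ?_ ?_ (fun _ => ⟨rfl, rfl, rfl, rfl⟩)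
      (fun e => by rw [b1] at e; exact absurd e (by simp))
    · rw [b1]
      simp [Bt]
    · have : (xb i : ℝ) ≤ c.m := by exact_mod_cast b2
      simp only at hm
      rw [← hi] at hm
      linarith
  · intro bj bk h t g x y z uk uv Q Gj Gk Gv hx cf
    obtain ⟨i, j, hi, a1, a2, a3, a4, -, hX, hV⟩ := sqr h t cf.th cf.h1 cf.t0 cf.t1
    simp only at hx
    rw [← hi] at hx
    obtain ⟨c, hcm, c1, c2, c3, c4, c5⟩ := covV_sound 8 (xb i) hV hX x hx cf.x01.2
    obtain ⟨d1, d2⟩ := sq_sound c5 a1 a2 a3 a4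
    refine RC.dead (hr c hcm) (ht c hcm) hT cf d1 d2 ?_ ?_
      (fun e => by rw [c1] at e; exact absurd e (by simp)) (fun _ => rfl)
    · rw [c1]
      exact ⟨c2, c3⟩
    · have : (c.x1 : ℝ) ≤ c.m := by exact_mod_cast c4
      linarith

end B2
end Pool.Agent.Lib.MP_6947cd_al
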