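import Pool.Agent.Lib.MP_6947cd_al.C.ChkS
import Pool.Agent.Lib.MP_6947cd_al.Z.Top

/-!
Problem MP_6947cd_al (Chollet).  CASE B, middle second entry: the tails of the root cells (large sum of the rests of
the row `i`), from families of tables.
-/

set_option autoImplicit false
open Finset

namespace Pool.Agent.Lib.MP_6947cd_al
namespace B2

open Ent Ent.Pk Fr Fr.WT CC B1 PkA

/-- the check of a heavy row on a box (type `N`: the third special entry is `0`); `S` in `1 / 400` -/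
noncomputable def stBx (V : Bool) (F : TF.Fam) (sa sy sz cap S d Q k0 a : ℕ) (pay : Bool)
    (u0 u1 v0 v1 w0 w1 : ℕ) : Bool :=
  cond V
    (B3.celR F.rd F.T sa sy sz u0 u1 v0 v1 w0 w1 fun s bd tabs =>
      SStar.starS F.rd F.ks cap S d Q k0 a pay u0 u1 v0 v1 w0 w1 (SStar.us8 u0 u1 v0 v1 w0 w1) s bd tabs)
    (B3.celR4 F.rd F.T sa sy u0 u1 v0 v1 fun s bd tabs =>
      SStar.starS F.rd F.ks cap S d Q k0 a pay u0 u1 v0 v1 (nat_lit 0) (nat_lit 0) (SStar.us4 u0 u1 v0 v1) s bd tabs)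

theorem stBx_sound {V : Bool} {F : TF.Fam} (hF : F.OK) {sa sy sz cap S d Q k0 a : ℕ} {pay : Bool}
    {u0 u1 v0 v1 w0 w1 : ℕ} (hV : V = false → w0 = 0 ∧ w1 = 0)
    (h : stBx V F sa sy sz cap S d Q k0 a pay u0 u1 v0 v1 w0 w1 = true) :
    SStar.StarR ((cap : ℝ) / 200) ((S : ℝ) / 400) ((d : ℝ) / 10 ^ 7) pay ((u0 : ℝ) / 400) ((u1 : ℝ) / 400)
      ((v0 : ℝ) / 400) ((v1 : ℝ) / 400) ((w0 : ℝ) / 400) ((w1 : ℝ) / 400) := by
  cases V with
  | true =>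
    unfold stBx at h
    rw [cond_true] at h
    obtain ⟨s, bd, tabs, h, hs, hB, hG⟩ := B3.celR_sound hF.tab hF.k2 h
    exact SStar.starS_sound hs (SStar.FW.of8 hG) (SStar.Bx.of hB) (SStar.us8_eq u0 u1 v0 v1 w0 w1) h
  | false =>
    unfold stBx at h
    rw [cond_false] at h
    obtain ⟨rfl, rfl⟩ := hV rfl
    obtain ⟨s, bd, tabs, h, hs, hB, hG⟩ := B3.celR4_sound hF.tab hF.k2 h
    have z0 : ((0 : ℕ) : ℝ) / 400 = 0 := by norm_num
    have hB' : SStar.Bx ((u0 : ℝ) / 400) ((u1 : ℝ) / 400) ((v0 : ℝ) / 400) ((v1 : ℝ) / 400)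
        (((0 : ℕ) : ℝ) / 400) (((0 : ℕ) : ℝ) / 400) := by
      rw [z0]
      exact SStar.Bx.of hB
    exact SStar.starS_sound hs (SStar.FW.of4 hG) hB' (SStar.us4_eq u0 u1 v0 v1) h

/-! ### the tails of the root cells -/

/-- monotonicity of `StarR` in the bound of the rests, the first sum, the margin and the box -/
lemma starR_mono {κ κ' S S' d d' : ℝ} {pay pay' : Bool} {a0 a1 y0 y1 z0 z1 b0 b1 u0 u1 v0 v1 : ℝ}
    (h : SStar.StarR κ S d pay a0 a1 y0 y1 z0 z1) (hκ : κ' ≤ κ) (hS : S ≤ S') (hd : d' ≤ d)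
    (hp : pay' = true → pay = true) (ha : a0 ≤ b0) (ha' : b1 ≤ a1) (hy : y0 ≤ u0) (hy' : u1 ≤ y1)
    (hz : z0 ≤ v0) (hz' : v1 ≤ z1) : SStar.StarR κ' S' d' pay' b0 b1 u0 u1 v0 v1 := by
  intro a y z M h1 h2 h3 h4 h5 h6 hM hs
  obtain ⟨r1, r2⟩ := h a y z M (ha.trans h1) (h2.trans ha') (hy.trans h3) (h4.trans hy') (hz.trans h5)
    (h6.trans hz') (fun e he => ⟨(hM e he).1, (hM e he).2.trans hκ⟩) (hS.trans hs)
  exact ⟨by linarith, fun e => by have := r2 (hp e); linarith⟩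

/-- **THE TAIL OF A ROOT CELL** from one check of the heavy rows on its box `(h, t, x)`; the bound
`cap / 200` of the rests may be larger than `m / 400`; first sum `S / 400`. -/
theorem RC.tail_ofN {c : RC} {cap S d : ℕ} {pay : Bool} {h0 h1 t0 t1 x0 x1 : ℕ}
    (h : SStar.StarR ((cap : ℝ) / 200) ((S : ℝ) / 400) ((d : ℝ) / 10 ^ 7) pay ((h0 : ℝ) / 400)
      ((h1 : ℝ) / 400) ((t0 : ℝ) / 400) ((t1 : ℝ) / 400) ((x0 : ℝ) / 400) ((x1 : ℝ) / 400))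
    (hm : c.m ≤ 2 * cap) (hS : S ≤ lastN 0 c.ss) (a1 : h0 ≤ c.h0) (a2 : c.h1 ≤ h1) (a3 : t0 ≤ c.t0)
    (a4 : c.t1 ≤ t1) (a5 : x0 ≤ cond c.V c.x0 0) (a6 : cond c.V c.x1 0 ≤ x1) : c.Tail := by
  have le4 : ∀ {x y : ℕ}, x ≤ y → (x : ℝ) / 400 ≤ (y : ℝ) / 400 := by
    intro x y hxy
    exact div_le_div_of_nonneg_right (by exact_mod_cast hxy) (by norm_num)
  have hm' : (c.m : ℝ) ≤ 2 * cap := by exact_mod_cast hm
  have key := starR_mono (pay' := false) (d' := 0) (κ' := (c.m : ℝ) / 400)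
    (S' := (lastN 0 c.ss : ℝ) / 400) (b0 := (c.h0 : ℝ) / 400) (b1 := (c.h1 : ℝ) / 400)
    (u0 := (c.t0 : ℝ) / 400) (u1 := (c.t1 : ℝ) / 400) (v0 := ((cond c.V c.x0 0 : ℕ) : ℝ) / 400)
    (v1 := ((cond c.V c.x1 0 : ℕ) : ℝ) / 400) h (by linarith) (le4 hS) (by positivity) (by simp)
    (le4 a1) (le4 a2) (le4 a3) (le4 a4) (le4 a5) (le4 a6)
  intro h t x M bh bt bx hM hs
  have := (key h t x M bh.1 bh.2 bt.1 bt.2 bx.1 bx.2 hM hs).1
  linarith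

/-- the data of a tail: `cap` (`1 / 200`), first sum (`1 / 200`), steps of the grid, far window, last node, family -/
structure TlR where
  cap : ℕ
  S : ℕ
  sa : ℕ
  sy : ℕ
  sz : ℕ
  k0 : ℕ
  a : ℕ
  Q : ℕ
  g : ℕ

/-- THE CHECK OF THE TAIL of a root cell -/
noncomputable def tailT (l : List TF.Fam) (c : RC) (b : TlR) : Bool :=
  cond (Nat.ble c.m (Nat.mul (nat_lit 2) b.cap)) (cond (Nat.ble (Nat.mul (nat_lit 2) b.S) (lastN (nat_lit 0) c.ss))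
    (frc (Nat.mul (nat_lit 2) b.S) fun S2 => frc (cond c.V c.x0 (nat_lit 0)) fun x0 =>
      frc (cond c.V c.x1 (nat_lit 0)) fun x1 =>
      TF.famN (fun F => stBx c.V F b.sa b.sy b.sz b.cap S2 (nat_lit 0) b.Q b.k0 b.a false c.h0 c.h1 c.t0 c.t1 x0 x1)
        l b.g) false) false

theorem tailT_sound {l : List TF.Fam} (hl : TF.EnvF l) {c : RC} {b : TlR} (h : tailT l c b = true) : c.Tail := by
  unfold tailT at h
  obtain ⟨h1, h⟩ := cond_eq_true h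
  obtain ⟨h2, h⟩ := cond_eq_true h
  rw [frc_eq, frc_eq, frc_eq] at h
  obtain ⟨F, hF, h⟩ := TF.famN_sound hl h
  have h1 : c.m ≤ 2 * b.cap := Nat.le_of_ble_eq_true h1
  have h2 : Nat.mul 2 b.S ≤ lastN 0 c.ss := Nat.le_of_ble_eq_true h2
  exact RC.tail_ofN (stBx_sound hF (by intro hV; rw [hV]; exact ⟨rfl, rfl⟩) h) h1 h2 le_rfl le_rfl le_rfl le_rfl
    le_rfl le_rfl

end B2
end Pool.Agent.Lib.MP_6947cd_al
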