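import Pool.Agent.Lib.MP_6947cd_al.Z.SpBI
import Pool.Agent.Lib.MP_6947cd_al.Z.RowT
import Pool.Agent.Lib.MP_6947cd_al.Z.StarT
import Pool.Agent.Lib.MP_6947cd_al.Z.RowIT
import Pool.Agent.Lib.MP_6947cd_al.Z.TopT
import Pool.Agent.Lib.MP_6947cd_al.Y.S1
import Pool.Agent.Lib.MP_6947cd_al.Y.S4
import Pool.Agent.Lib.MP_6947cd_al.Y.S5
import Pool.Agent.Lib.MP_6947cd_al.Y.S6
import Pool.Agent.Lib.MP_6947cd_al.Y.R4

/-!
Problem MP_6947cd_al (Chollet).  CASE B, middle second entry: THE CHECK OF A TREE of leaves, with the tables as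
environment; the root cells; the statement for the second entry in `[2/5, 17/20]`.
-/

set_option autoImplicit false
open Finset

namespace Pool.Agent.Lib.MP_6947cd_al
namespace B2

open Ent Fr B1 PkA

theorem spSZ : SpS := ⟨B1.specS2, B1.specS3, B1.specS4, B1.specS5, B1.specS6, B1.specR7⟩

/-- the environment: library of pairs, families of tables -/
structure EB (l : List TF.Fam) : Prop where
  lib : CB.LibII
  fam : TF.EnvF l

/-- THE CHECK of a tree -/
noncomputable def chkB (l : List TF.Fam) (refs : List St) (T : Tr Lf2) (σ : St) : Bool :=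
  T.chk (lfC (corT l) (rowT l) (starT l)) refs σ

/-- **SOUNDNESS.** -/
theorem chkB_sound {l : List TF.Fam} (h : EB l) {refs : List St} (hr : ∀ τ ∈ refs, Dead τ) {T : Tr Lf2}
    {σ : St} (hc : chkB l refs T σ = true) : Dead σ :=
  T.sound (fun _ _ h1 => lfC_sound (spB h.lib) (corT_OK h.fam) (rowT_ok spSZ h.fam) (starT_ok h.fam) h1) hr σ hc

/-- without references -/
theorem chkB_sound0 {l : List TF.Fam} (h : EB l) {T : Tr Lf2} {σ : St} (hc : chkB l [] T σ = true) : Dead σ :=
  chkB_sound h (fun _ hτ => absurd hτ List.not_mem_nil) hc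

/-- the boxes of a list of references are dead, one after the other -/
theorem refs_nil : ∀ τ ∈ ([] : List St), Dead τ := fun _ hτ => absurd hτ List.not_mem_nil

theorem refs_cons {τ : St} {l : List St} (h : Dead τ) (hl : ∀ σ ∈ l, Dead σ) : ∀ σ ∈ τ :: l, Dead σ := by
  intro σ hσ
  rcases List.mem_cons.mp hσ with rfl | hσ
  · exact h
  · exact hl σ hσ

/-- A ROOT CELL IS DONE: its boxes are dead, its tail is fine -/
structure RC.Done (c : RC) : Prop where
  dead : ∀ σ ∈ c.boxes, Dead σ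
  tail : c.Tail

/-- a root cell with one interval `[0, s]` of the sum of the rests (or none if `ss = []`) -/
theorem RC.done1 {V : Bool} {m h0 h1 t0 t1 x0 x1 s : ℕ} (hd : Dead (RC.box ⟨V, m, h0, h1, t0, t1, x0, x1, [s]⟩ 0 s))
    (ht : RC.Tail ⟨V, m, h0, h1, t0, t1, x0, x1, [s]⟩) : RC.Done ⟨V, m, h0, h1, t0, t1, x0, x1, [s]⟩ := by
  refine ⟨fun σ hσ => ?_, ht⟩
  have h2 : σ ∈ [RC.box ⟨V, m, h0, h1, t0, t1, x0, x1, [s]⟩ 0 s] := hσ
  rw [List.mem_singleton] at h2
  rw [h2]
  exact hd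

theorem RC.done0 {V : Bool} {m h0 h1 t0 t1 x0 x1 : ℕ} (ht : RC.Tail ⟨V, m, h0, h1, t0, t1, x0, x1, []⟩) :
    RC.Done ⟨V, m, h0, h1, t0, t1, x0, x1, []⟩ :=
  ⟨fun _ hσ => absurd hσ List.not_mem_nil, ht⟩

/-- the tail of a root cell, from the environment -/
theorem RC.tail_chk {l : List TF.Fam} (h : EB l) {c : RC} {b : TlR} (hb : tailT l c b = true) : c.Tail :=
  tailT_sound h.fam hb

/-- the list of the root cells, one after the other -/
theorem done_nil : ∀ c ∈ ([] : List RC), c.Done := fun _ hc => absurd hc List.not_mem_nil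

theorem done_cons {c : RC} {l : List RC} (h : c.Done) (hl : ∀ c ∈ l, RC.Done c) : ∀ d ∈ c :: l, RC.Done d := by
  intro d hd
  rcases List.mem_cons.mp hd with rfl | hd
  · exact h
  · exact hl d hd

theorem done_append {a b : List RC} (ha : ∀ c ∈ a, RC.Done c) (hb : ∀ c ∈ b, RC.Done c) :
    ∀ c ∈ a ++ b, RC.Done c := by
  intro c hc
  rcases List.mem_append.mp hc with hc | hc
  · exact ha c hc
  · exact hb c hc

/-- border (`1 / 400`) between the types: `1/20` for `h < 7/10`, `1/10` for `h ≥ 7/10` -/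
def xbZ (i : ℕ) : ℕ := cond (Nat.blt i 14) 20 40

/-- **CASE B, SECOND ENTRY IN `[2/5, 17/20]`**, from the root cells. -/
theorem specB2_done {cells : List RC} (hc : covB2 cells xbZ 8 17 = true) (h : ∀ c ∈ cells, c.Done) :
    LL.SpecBI What (2 / 5) (17 / 20) := by
  have key := specB2_of hc (fun c hcm => (h c hcm).dead) (fun c hcm => (h c hcm).tail)
  have e : ((8 : ℕ) : ℝ) / 20 = 2 / 5 := by norm_num
  have e' : ((17 : ℕ) : ℝ) / 20 = 17 / 20 := by norm_num
  rw [e, e'] at key
  exact key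

end B2
end Pool.Agent.Lib.MP_6947cd_al
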