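import Pool.Agent.Lib.MP_6947cd_al.Z.PPL
import Pool.Agent.Lib.MP_6947cd_al.C.RowN
import Pool.Agent.Lib.MP_6947cd_al.Z.LeafR

/-!
Problem MP_6947cd_al (Chollet).  CASE B, middle second entry: the functions of the rests of the rows `j` and `k`.
-/

set_option autoImplicit false
open Finset

namespace Pool.Agent.Lib.MP_6947cd_al
namespace B2

open Ent Ent.Pk Fr Fr.WT CC B1 PkA

/-- `c * k` for all the knots -/
noncomputable def sclL (c : ℕ) (ks : List ℕ) : List ℕ :=
  @List.rec ℕ (fun _ => List ℕ) [] (fun k _ ih => Nat.mul c k :: ih) ks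

lemma sclL_eq (c : ℕ) (ks : List ℕ) : sclL c ks = ks.map fun k => c * k := by
  induction ks with
  | nil => rfl
  | cons k ks ih =>
    have e : sclL c (k :: ks) = (c * k) :: sclL c ks := rfl
    rw [e, ih]
    rfl

lemma sclL_len (c : ℕ) (ks : List ℕ) : (sclL c ks).length = ks.length := by rw [sclL_eq, List.length_map]

lemma ipl_lin1 (p : ℝ) (ks : List ℝ) : ∀ a u : ℝ, Inc a ks → a ≤ u → u ≤ top a ks →
    ipl a (p * a) ks (ks.map fun k => p * k) u = p * u := by
  induction ks with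
  | nil =>
    intro a u _ h1 h2
    have h3 : u ≤ a := h2
    have : u = a := le_antisymm h3 h1
    rw [this]
    rfl
  | cons k ks ih =>
    intro a u h h1 h2
    obtain ⟨h3, h4⟩ := h
    rw [List.map_cons, C1.ipl_cons']
    split_ifs with hu
    · have : k - a ≠ 0 := by linarith [sub_pos.mpr h3]
      field_simp
      ring
    · exact ih k u h4 (not_le.mp hu).le h2

/-- the linear function -/
lemma nF_scl {ks : List ℕ} (hk : KnOK ks) (U : ℕ) {u : ℝ} (h0 : 0 ≤ u) (h1 : u ≤ top 0 (kR ks)) :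
    nF 40000000 ks (sclL (200000 * U) ks) u = U * u := by
  unfold nF
  have e : (sclL (200000 * U) ks).map (fun v : ℕ => (v : ℝ) / 40000000) = (kR ks).map fun k => (U : ℝ) * k := by
    rw [sclL_eq]
    unfold kR
    rw [List.map_map, List.map_map]
    apply List.map_congr_left
    intro k _
    simp only [Function.comp]
    push_cast
    ring
  rw [e]
  have := ipl_lin1 (U : ℝ) (kR ks) 0 u hk h0 h1
  rwa [mul_zero] at this

/-- the subtracted part: `M` times the price and `U` times the entry -/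
noncomputable def rsU (M U : ℕ) (ks Ps : List ℕ) : List ℕ :=
  C1.rsL (Nat.mul (nat_lit 3125) M) Ps (sclL (Nat.mul (nat_lit 200000) U) ks)

lemma rsU_len {M U : ℕ} {ks Ps : List ℕ} (h : Ps.length = ks.length) : (rsU M U ks Ps).length = ks.length := by
  unfold rsU
  rw [C1.rsL_len, h]

lemma nF_rsU {M U : ℕ} {ks Ps : List ℕ} (hk : KnOK ks) (hl : Ps.length = ks.length) {u : ℝ} (h0 : 0 ≤ u)
    (h1 : u ≤ top 0 (kR ks)) : nF 40000000 ks (rsU M U ks Ps) u = M * nF 12800 ks Ps u + U * u := by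
  have e1 := nF_scl hk U h0 h1
  have e2 : rsU M U ks Ps = C1.rsL (3125 * M) Ps (sclL (200000 * U) ks) := rfl
  rw [e2, C1.nF_rs hl (by rw [sclL_len]), e1]
  push_cast
  ring

lemma nF_e3 (ks Os : List ℕ) (u : ℝ) : nF 40000000000 ks Os u = nF 40000000 ks Os u / 1000 := by
  have h : ∀ (ks : List ℝ) (Os : List ℕ) (a va : ℝ),
      ipl a (va / 1000) ks (Os.map fun v : ℕ => (v : ℝ) / 40000000000) u
        = ipl a va ks (Os.map fun v : ℕ => (v : ℝ) / 40000000) u / 1000 := by
    intro ks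
    induction ks with
    | nil => intro Os a va; rfl
    | cons k ks ih =>
      intro Os a va
      cases Os with
      | nil => rfl
      | cons o Os =>
        rw [List.map_cons, List.map_cons, C1.ipl_cons', C1.ipl_cons']
        have e : (o : ℝ) / 40000000000 = (o : ℝ) / 40000000 / 1000 := by ring
        rw [e]
        split_ifs
        · ring
        · exact ih Os k _
  have := h (kR ks) Os 0 0
  rw [zero_div] at this
  exact this

/-- THE ROW `j` -/
theorem phi_j {w3 wP wA TJ TX UJ MJ Sl : ℕ} {ks Ps Os : List ℕ} (hk : KnOK ks)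
    (hP : Ps.length = ks.length) {s a u : ℝ} (ha0 : 0 ≤ a) (hat : a ≤ top 0 (kR ks))
    (hps : nF 12800 ks Ps a ≤ s)
    (hpp : (w3 : ℝ) / 1000 * omg a + ((wP : ℝ) + wA) / 1000 * (lo2 s a - omg (min u (max s a)))
      - (wA : ℝ) / 1000 * gtr (3 / 20) (9 / 20) u + ((TJ + TX : ℕ) : ℝ) / 1000 * a
      ≤ nF 40000000000 ks Os a + (Sl : ℝ) / 1000000 * s) :
    (w3 : ℝ) / 1000 * omg a + ((wP : ℝ) / 1000 + (wA : ℝ) / 1000)
      * (lo2 s a - omg (min u (max s a))) - (wA : ℝ) / 1000 * gtr (3 / 20) (9 / 20) u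
      + ((TJ : ℝ) - UJ) / 1000 * a ≤ C1.phR ks Os (rsU MJ (UJ + TX) ks Ps) a
        + ((MJ : ℝ) / 1000 + (Sl : ℝ) / 1000000) * s := by
  have h1 := nF_rsU (M := MJ) (U := UJ + TX) hk hP ha0 hat
  rw [nF_e3] at hpp
  unfold C1.phR phF
  rw [h1]
  have h2 := mul_le_mul_of_nonneg_left hps (Nat.cast_nonneg (α := ℝ) MJ)
  push_cast at hpp ⊢
  linarith

/-! ### the row `k` -/

/-- the values of the row `k` at the nodes `i / 20` -/
def omT (A T i : ℕ) : ℕ :=
  Nat.add (Nat.mul A (Nat.add (Nat.mul (nat_lit 430000) i) (Nat.mul (nat_lit 19500) (Nat.mul i i))))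
    (Nat.mul (nat_lit 2000000) (Nat.mul T i))

def omTC (A T : ℕ) (ks Os : List ℕ) : Bool := ppOK (omT A T) (nat_lit 20) (nat_lit 0) (nat_lit 0) ks Os

lemma omTC_sound {A T : ℕ} {ks Os : List ℕ} (h : omTC A T ks Os = true) : Os.length = ks.length ∧
    ∀ t, 0 ≤ t → t ≤ top 0 (kR ks) → (A : ℝ) * omg t + (T : ℝ) * t ≤ nF 40000000 ks Os t := by
  refine ⟨C1.ppOK_len _ _ _ _ _ _ h, fun t h0 h1 => ?_⟩
  have hcg : CG 20 fun t : ℝ => (A : ℝ) * omg t + (T : ℝ) * t := by
    have := (CG.omg 20).smul (Nat.cast_nonneg (α := ℝ) A)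
    intro i hi x hx0 hx1
    have h2 := this i hi x hx0 hx1
    beta_reduce at h2 ⊢
    linarith
  have := maj (c := 40000000) (by norm_num) hcg (g := omT A T)
    (fun i _ => by
      have e : omT A T i = A * (430000 * i + 19500 * (i * i)) + 2000000 * (T * i) := rfl
      rw [e]
      unfold omg
      push_cast
      apply le_of_eq
      ring) ks Os 0 0 (by norm_num) h t (by simpa using h0) (by simpa using h1)
  simpa [nF] using this

/-- THE ROW `k` -/
theorem phi_k {w3 TK UK MK : ℕ} {ks Ps Os : List ℕ} (hk : KnOK ks) (hP : Ps.length = ks.length)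
    (hc : omTC w3 TK ks Os = true) {s a : ℝ} (ha0 : 0 ≤ a) (hat : a ≤ top 0 (kR ks))
    (hps : nF 12800 ks Ps a ≤ s) :
    (w3 : ℝ) / 1000 * omg a + ((TK : ℝ) - UK) / 1000 * a
      ≤ C1.phR ks Os (rsU MK UK ks Ps) a + (MK : ℝ) / 1000 * s := by
  have h1 := nF_rsU (M := MK) (U := UK) hk hP ha0 hat
  have h3 := (omTC_sound hc).2 a ha0 hat
  unfold C1.phR phF
  rw [h1]
  have h2 := mul_le_mul_of_nonneg_left hps (Nat.cast_nonneg (α := ℝ) MK)
  linarith

end B2
end Pool.Agent.Lib.MP_6947cd_al
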