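import Pool.Agent.Lib.MP_6947cd_al.Z.LeafF

/-!
Problem MP_6947cd_al (Chollet).  CASE B, middle second entry: thresholds of the payers and the weight of the defect.
-/

set_option autoImplicit false
open Finset

namespace Pool.Agent.Lib.MP_6947cd_al
namespace B2

open Ent Ent.Pk Fr Fr.WT CC B1 PkA

/-- the threshold of a payer: `a0` = lower border of the entry, `R` = bound of the other entries, `Dh` = bound of the
defect (unit `1 / (8 * 10 ^ 7)`); result in `1e-7` -/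
def dT (a0 R Dh : ℕ) : ℕ :=
  cdiv (Nat.add (Nat.mul Dh (Nat.mul a0 (Nat.sub (nat_lit 1600) a0))) (Nat.mul (Nat.mul (nat_lit 1600) R)
    (mx Dh (nat_lit 80000)))) (Nat.mul (nat_lit 24) (Nat.mul a0 a0))

/-- the weight of the defect (unit `1e-5`) -/
def g5 (a0 R : ℕ) : ℕ := cdiv (Nat.mul (nat_lit 160000) R) (Nat.mul a0 (Nat.sub (nat_lit 1600) a0))

lemma dT_le {a0 R Dh : ℕ} (h0 : 0 < a0) (h1 : a0 ≤ 400) :
    (Dh : ℝ) / 80000000 * (4 * ((a0 : ℝ) / 400) - ((a0 : ℝ) / 400) ^ 2)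
      + 4 * ((R : ℝ) / 400) * max ((Dh : ℝ) / 80000000) (1 / 1000)
      ≤ 3 * ((a0 : ℝ) / 400) ^ 2 * ((dT a0 R Dh : ℝ) / 10 ^ 7) := by
  have hb : 0 < 24 * (a0 * a0) := by positivity
  have h := cdiv_mul_ge (Dh * (a0 * (1600 - a0)) + 1600 * R * max Dh 80000) (24 * (a0 * a0)) hb
  have e : dT a0 R Dh = cdiv (Dh * (a0 * (1600 - a0)) + 1600 * R * max Dh 80000) (24 * (a0 * a0)) := by
    unfold dT
    rw [C1.mx_eq]
    rfl
  rw [← e] at h
  have h' := (Nat.cast_le (α := ℝ)).mpr h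
  have hm : max ((Dh : ℝ) / 80000000) (1 / 1000) = ((max Dh 80000 : ℕ) : ℝ) / 80000000 := by
    rw [show (1 : ℝ) / 1000 = ((80000 : ℕ) : ℝ) / 80000000 by norm_num, C1.max_div _ _ (by norm_num)]
  rw [hm]
  generalize max Dh 80000 = M at h' ⊢
  generalize dT a0 R Dh = d at h' ⊢
  have hs : ((1600 - a0 : ℕ) : ℝ) = 1600 - (a0 : ℝ) := by
    rw [Nat.cast_sub (by omega)]
    norm_num
  push_cast at h'
  rw [hs] at h'
  have e1 : (Dh : ℝ) / 80000000 * (4 * ((a0 : ℝ) / 400) - ((a0 : ℝ) / 400) ^ 2)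
      + 4 * ((R : ℝ) / 400) * ((M : ℝ) / 80000000)
      = ((Dh : ℝ) * (a0 * (1600 - a0)) + 1600 * R * M) / 12800000000000 := by ring
  have e2 : 3 * ((a0 : ℝ) / 400) ^ 2 * ((d : ℝ) / 10 ^ 7) = 24 * ((a0 : ℝ) * a0) * d / 12800000000000 := by ring
  rw [e1, e2]
  exact div_le_div_of_nonneg_right h' (by norm_num)

lemma g5_ge {a0 R : ℕ} (h0 : 0 < a0) (h1 : a0 ≤ 400) :
    160000 * (R : ℝ) / ((a0 : ℝ) * (1600 - a0)) ≤ (g5 a0 R : ℕ) := by
  have hb : 0 < a0 * (1600 - a0) := Nat.mul_pos h0 (by omega)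
  have h := cdiv_ge (160000 * R) (a0 * (1600 - a0)) hb
  have hs : ((1600 - a0 : ℕ) : ℝ) = 1600 - (a0 : ℝ) := by
    rw [Nat.cast_sub (by omega)]
    norm_num
  push_cast at h
  rw [hs] at h
  exact h

/-- the bounds of the other entries: status `2` or `0` of the partner and `3 / 10 ≤ g` possible -/
noncomputable def oth (c G1 T1 : ℕ) : ℕ :=
  cond (Nat.beq c (nat_lit 1)) (nat_lit 0) (cond (Nat.ble (nat_lit 120) G1) T1 (nat_lit 0))

lemma oth_ok {c G1 T1 : ℕ} {b : Bool} {g : ℝ} (hm : Mt c b) (hg : g ≤ (G1 : ℝ) / 400) (hb : b = true)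
    (h3 : 3 / 10 ≤ g) : T1 ≤ oth c G1 T1 := by
  unfold oth
  have h1 : Nat.beq c 1 = false := by
    rw [← Bool.not_eq_true, Nat.beq_eq]
    intro h
    rw [hm.2 h] at hb
    exact absurd hb (by simp)
  have h2 : Nat.ble 120 G1 = true := by
    apply Nat.ble_eq_true_of_le
    have : (120 : ℝ) ≤ G1 := by linarith
    exact_mod_cast this
  rw [h1, cond_false, h2, cond_true]

/-- THE THRESHOLDS -/
theorem thr_jk (hR : SpR2) {bj bk : Bool} {T0 T1 m' h t g x y z uk uv : ℝ} {Q : Multiset V4} {Gj Gk Gv : ℝ}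
    (c : Cfg bj bk T0 T1 m' h t g x y z uk uv Q Gj Gk Gv) {b : LB} (hb : Box b.lo b.hi (vec h t g x y z))
    (hb1 : ∀ i, b.R i ≤ 400) (h120 : 120 < b.H0) (t120 : 120 < b.T0)
    {s0 s1 : ℕ} (hs : Bt s0 s1 (Q.map V4.s).sum) (toti : b.H1 + b.T1 + b.X1 + s1 ≤ 2960)
    {m : ℝ} {q : ℕ} {sa sb : ℝ} (sg : Seg m q sa sb (Q.map V4.s)) {Dh : ℕ}
    (hD : ∀ bh bt bx br : Bool, FM (1 ::ₘ (((C1.cv b.H0 b.H1 bh : ℕ) : ℝ) / 400)
        ::ₘ (((C1.cv b.T0 b.T1 bt : ℕ) : ℝ) / 400)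
        ::ₘ (((C1.cv b.X0 b.X1 bx : ℕ) : ℝ) / 400) ::ₘ (bif br then sb - q * m else sa - q * m)
        ::ₘ Multiset.replicate q m)
      - Wc ((((C1.cv b.H0 b.H1 bh : ℕ) : ℝ) / 400) + (((C1.cv b.T0 b.T1 bt : ℕ) : ℝ) / 400)
        + (((C1.cv b.X0 b.X1 bx : ℕ) : ℝ) / 400)
        + ((bif br then sb - q * m else sa - q * m) ::ₘ Multiset.replicate q m).sum) ≤ (Dh : ℝ) / 80000000)
    {tb hb' : ℕ} (htb : bk = true → 3 / 10 ≤ g → b.T1 ≤ tb) (hhb : bj = true → 3 / 10 ≤ g → b.H1 ≤ hb') {dj dk : ℕ}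
    (hdj : bj = false → dT b.H0 (tb + (b.X1 + s1)) Dh ≤ dj) (hdk : bk = false → dT b.T0 (hb' + (b.X1 + s1)) Dh ≤ dk) :
    -((dj : ℝ) / 10 ^ 7) < Gj - What (h + g + y + (Q.map V4.a).sum) ∧
    -((dk : ℝ) / 10 ^ 7) < Gk - What (t + g + z + (Q.map V4.b).sum) ∧ ∃ D : ℝ,
      FM (1 ::ₘ h ::ₘ t ::ₘ x ::ₘ Q.map V4.s) - What (h + t + x + (Q.map V4.s).sum) ≤ D ∧ D ≤ (Dh : ℝ) / 80000000 := by
  have b0 : (b.H0 : ℝ) / 400 ≤ h ∧ h ≤ (b.H1 : ℝ) / 400 := hb 0
  have b1 : (b.T0 : ℝ) / 400 ≤ t ∧ t ≤ (b.T1 : ℝ) / 400 := hb 1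
  have b3 : (b.X0 : ℝ) / 400 ≤ x ∧ x ≤ (b.X1 : ℝ) / 400 := hb 3
  have H120 : (120 : ℝ) < b.H0 := by exact_mod_cast h120
  have T120 : (120 : ℝ) < b.T0 := by exact_mod_cast t120
  have H1' : (b.H1 : ℝ) ≤ 400 := by exact_mod_cast hb1 0
  have T1' : (b.T1 : ℝ) ≤ 400 := by exact_mod_cast hb1 1
  have X1' : (b.X1 : ℝ) ≤ 400 := by exact_mod_cast hb1 3
  have toti' : (b.H1 : ℝ) + b.T1 + b.X1 + s1 ≤ 2960 := by exact_mod_cast toti
  have H0' : b.H0 ≤ 400 := by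
    have : (b.H0 : ℝ) ≤ 400 := by linarith
    exact_mod_cast this
  have T0' : b.T0 ≤ 400 := by
    have : (b.T0 : ℝ) ≤ 400 := by linarith
    exact_mod_cast this
  have hs2 := hs.2
  obtain ⟨f1, f2, f3, f4, f5⟩ := defect_le hR sg (h0 := (b.H0 : ℝ) / 400) (h1 := (b.H1 : ℝ) / 400)
    (t0 := (b.T0 : ℝ) / 400) (t1 := (b.T1 : ℝ) / 400) (x0 := (b.X0 : ℝ) / 400) (x1 := (b.X1 : ℝ) / 400)
    (Dh := (Dh : ℝ) / 80000000) (by positivity) (by positivity) (by positivity) (by linarith) (by linarith)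
    (by linarith) b0.1 b0.2 b1.1 b1.2 b3.1 b3.2 (by linarith) (by linarith) (by linarith) (by
      intro bh bt bx br
      have := hD bh bt bx br
      rw [← cv_mul, ← cv_mul, ← cv_mul] at this
      exact this)
  have hS0 : 0 ≤ (Q.map V4.s).sum := Multiset.sum_nonneg fun e he => (sg.e e he).1
  have hx := c.x01.1
  have hdi := c.di
  have hcj := c.cj
  have hck := c.ck
  have hth := c.th
  have hR0 : ∀ (P : Prop) [Decidable P] (v : ℝ), 0 ≤ v → 0 ≤ (if P then v else 0) := by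
    intro P _ v hv
    split_ifs
    · exact hv
    · exact le_rfl
  refine ⟨?_, ?_, _, f4, f5⟩
  · cases bj with
    | true =>
      have h7 : 0 < Gj - What (h + g + y + (Q.map V4.a).sum) := by simpa using hcj.1
      have : (0 : ℝ) ≤ (dj : ℝ) / 10 ^ 7 := by positivity
      linarith
    | false =>
      by_contra hcon
      rw [not_lt] at hcon
      have hd := hdj rfl
      have hd' : (dT b.H0 (tb + (b.X1 + s1)) Dh : ℝ) ≤ dj := by exact_mod_cast hd
      have hdd := dT_le (a0 := b.H0) (R := tb + (b.X1 + s1)) (Dh := Dh) (by omega) H0'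
      have hrr : (if bk = true ∧ 3 / 10 ≤ g then t else 0) + x + (Q.map V4.s).sum
          ≤ ((tb + (b.X1 + s1) : ℕ) : ℝ) / 400 := by
        have : (if bk = true ∧ 3 / 10 ≤ g then t else 0) ≤ (tb : ℝ) / 400 := by
          split_ifs with hq
          · have h1 : (b.T1 : ℝ) ≤ tb := by exact_mod_cast htb hq.1 hq.2
            linarith [b1.2]
          · positivity
        push_cast
        linarith [b3.2]
      exact payer_contra (h0 := (b.H0 : ℝ) / 400) (d := (dj : ℝ) / 10 ^ 7) (by linarith) b0.1 c.h1 hdi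
        (f4.trans f5) (add_nonneg (add_nonneg (hR0 _ _ (by linarith)) hx) hS0) hrr
        (hdd.trans (mul_le_mul_of_nonneg_left (div_le_div_of_nonneg_right hd' (by norm_num)) (by positivity)))
        (by linarith) (c.payj rfl)
  · cases bk with
    | true =>
      have h7 : 0 < Gk - What (t + g + z + (Q.map V4.b).sum) := by simpa using hck.1
      have : (0 : ℝ) ≤ (dk : ℝ) / 10 ^ 7 := by positivity
      linarith
    | false =>
      by_contra hcon
      rw [not_lt] at hcon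
      have hd := hdk rfl
      have hd' : (dT b.T0 (hb' + (b.X1 + s1)) Dh : ℝ) ≤ dk := by exact_mod_cast hd
      have hdd := dT_le (a0 := b.T0) (R := hb' + (b.X1 + s1)) (Dh := Dh) (by omega) T0'
      have hrr : (if bj = true ∧ 3 / 10 ≤ g then h else 0) + x + (Q.map V4.s).sum
          ≤ ((hb' + (b.X1 + s1) : ℕ) : ℝ) / 400 := by
        have : (if bj = true ∧ 3 / 10 ≤ g then h else 0) ≤ (hb' : ℝ) / 400 := by
          split_ifs with hq
          · have h1 : (b.H1 : ℝ) ≤ hb' := by exact_mod_cast hhb hq.1 hq.2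
            linarith [b0.2]
          · positivity
        push_cast
        linarith [b3.2]
      exact payer_contra (h0 := (b.T0 : ℝ) / 400) (d := (dk : ℝ) / 10 ^ 7) (by linarith) b1.1 (hth.trans c.h1) hdi
        (f4.trans f5) (add_nonneg (add_nonneg (hR0 _ _ (by linarith)) hx) hS0) hrr
        (hdd.trans (mul_le_mul_of_nonneg_left (div_le_div_of_nonneg_right hd' (by norm_num)) (by positivity)))
        (by linarith) (c.payk rfl)

end B2
end Pool.Agent.Lib.MP_6947cd_al
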