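import Pool.Agent.Lib.MP_6947cd_al.Z.LfB
import Pool.Agent.Lib.MP_6947cd_al.Z.ThrF
import Pool.Agent.Lib.MP_6947cd_al.Z.PrF

/-!
Problem MP_6947cd_al (Chollet).  CASE B, middle second entry: the leaf: data and check.
-/

set_option autoImplicit false
open Finset

namespace Pool.Agent.Lib.MP_6947cd_al
namespace B2

open Ent Ent.Pk Fr Fr.WT CC B1 PkA

/-- A LEAF.  `kd` = kind (`0` main, `1` the row `i` is not bad, `2` the row `j` is rich, `3` the row `k` is rich),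
`q`: `4 q` = bound of the rests of the row `i`, `st` = tables of the row `i`, `E`: the row `k` is not used,
`Y0 .. Z1` = range of `y`, `z` (type `V`). -/
structure Lf2 where
  kd : ℕ
  q : ℕ
  st : List ℕ
  E : Bool
  Y0 : ℕ
  Y1 : ℕ
  Z0 : ℕ
  Z1 : ℕ
  P : NP
  K : ℕ
  KJ : ℕ
  KK : ℕ
  lI : ℕ
  bJ : ℕ
  bK : ℕ
  MJ : ℕ
  TJ : ℕ
  UJ : ℕ
  MK : ℕ
  TK : ℕ
  UK : ℕ
  ct : ℕ
  om : ℕ
  TX : ℕ
  Sl : ℕ
  Oj : ℕ
  Ok : ℕ
  cells : List (ℕ × List (ℕ × ℕ))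
  rj : C1.Rw
  rk : C1.Rw
  F : FD
  ls : List Lq

/-- forced evaluation of a box -/
def frT (σ : St) (k : St → Bool) : Bool :=
  C1.fB σ.V fun V => frc σ.bj fun bj => frc σ.bk fun bk => frc σ.gm fun gm => frc σ.m fun m => frc σ.h0 fun h0 =>
  frc σ.h1 fun h1 => frc σ.t0 fun t0 => frc σ.t1 fun t1 => frc σ.g0 fun g0 => frc σ.g1 fun g1 => frc σ.x0 fun x0 =>
  frc σ.x1 fun x1 => frc σ.y0 fun y0 => frc σ.y1 fun y1 => frc σ.z0 fun z0 => frc σ.z1 fun z1 => frc σ.s0 fun s0 =>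
  frc σ.s1 fun s1 => frc σ.rj0 fun rj0 => frc σ.rj1 fun rj1 => frc σ.rk0 fun rk0 => frc σ.rk1 fun rk1 =>
  k ⟨V, bj, bk, gm, m, h0, h1, t0, t1, g0, g1, x0, x1, y0, y1, z0, z1, s0, s1, rj0, rj1, rk0, rk1⟩

lemma frT_eq (σ : St) (k : St → Bool) : frT σ k = k σ := by
  unfold frT
  simp only [frc_eq, C1.fB_eq]

/-- conjunction, lazy -/
def an (a b : Bool) : Bool := cond a b false

lemma an_true {a b : Bool} (h : an a b = true) : a = true ∧ b = true := cond_eq_true h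

/-- the range of a coordinate which is `0` in the type `N` -/
def vz (V : Bool) (a : ℕ) : ℕ := cond V a (nat_lit 0)

/-- the borders in the leaf (type `N`: `x = y = z = 0`) -/
def Lf2.lb (L : Lf2) (σ : St) : LB :=
  ⟨σ.h0, σ.h1, σ.t0, σ.t1, σ.g0, σ.g1, vz σ.V σ.x0, vz σ.V σ.x1, vz σ.V L.Y0, vz σ.V L.Y1, vz σ.V L.Z0, vz σ.V L.Z1⟩

/-- BASIC CONDITIONS -/
def basC (q Y0 Y1 Z0 Z1 : ℕ) (σ : St) : Bool :=
  an (Nat.ble (nat_lit 1) q) (an (Nat.ble q (nat_lit 100)) (an (Nat.blt (nat_lit 120) σ.h0)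
  (an (Nat.blt (nat_lit 120) σ.t0) (an (Nat.ble σ.t0 σ.h0) (an (Nat.blt σ.h0 σ.h1) (an (Nat.blt σ.t0 σ.t1)
  (an (Nat.blt σ.g0 σ.g1) (an (Nat.ble σ.h1 (nat_lit 400)) (an (Nat.ble σ.t1 (nat_lit 400))
  (an (Nat.ble σ.g1 (nat_lit 400)) (an (Nat.ble σ.s0 σ.s1)
  (an (Nat.ble (Nat.add (Nat.add (Nat.add σ.h1 σ.t1) (vz σ.V σ.x1)) σ.s1) (nat_lit 2960))
  (an (cond σ.V (an (Nat.blt σ.x0 σ.x1) (an (Nat.ble σ.x1 (nat_lit 400)) (an (Nat.ble Y0 σ.y0) (an (Nat.ble σ.y1 Y1)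
    (an (Nat.blt Y0 Y1) (an (Nat.ble Y1 (nat_lit 400)) (an (Nat.ble Z0 σ.z0) (an (Nat.ble σ.z1 Z1)
    (an (Nat.blt Z0 Z1) (Nat.ble Z1 (nat_lit 400))))))))))) true)
  (cond (Nat.ble σ.m (Nat.mul (nat_lit 4) q)) true (cond (Nat.ble σ.s1 (Nat.mul (nat_lit 4) q)) true
    (an σ.V (Nat.ble σ.x1 (Nat.mul (nat_lit 4) q))))))))))))))))))

/-- the rules of the payments: code, `K`, own weight, `β`, lower border -/
def rulC (c K KJ bJ h0 : ℕ) : Bool :=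
  an (cond (Nat.beq c (nat_lit 1)) true (Nat.beq K (nat_lit 0)))
    (cond (Nat.beq c (nat_lit 0)) (Nat.beq KJ (nat_lit 0))
      (Nat.ble (Nat.mul bJ (Nat.sub (nat_lit 1600) h0)) (Nat.mul (Nat.mul (nat_lit 3) h0) (Nat.add K KJ))))

/-- `U` is used only with an upper bound -/
def uC (U r1 : ℕ) : Bool := cond (Nat.beq U (nat_lit 0)) true (cond (Nat.beq r1 (nat_lit 0)) false true)

/-- the threshold -/
noncomputable def thC (c a0 R Dh d : ℕ) : Bool := cond (C1.isB c) true (Nat.ble (dT a0 R Dh) d)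

/-! ### the last inequality -/

noncomputable def finV (A1 A2 Li rj rk : List ℕ) (z0 z1 c rhs : ℕ) : Bool :=
  allB fun e0 => allB fun e1 => allB fun e2 => frc (Nat.add (gt A1 (ix e0 e1 e2)) c) fun a =>
  allB fun e3 => frc (Nat.add a (gt Li (ix e0 e1 e3))) fun b =>
  allB fun e4 => frc (Nat.add b (Nat.add (Nat.mul (nat_lit 200000) (gt rj (ix e0 e2 e4))) (gt A2 (ix e0 e3 e4)))) fun d =>
  allB fun e5 => Nat.ble (Nat.add d (Nat.add (Nat.mul (nat_lit 200000) (gt rk (ix e1 e2 e5))) (C1.cv z0 z1 e5))) rhs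

noncomputable def finN (A1 Li rj rk : List ℕ) (c rhs : ℕ) : Bool :=
  allB fun e0 => allB fun e1 => allB fun e2 => Nat.ble (Nat.add (Nat.add (Nat.add (gt A1 (ix e0 e1 e2)) c)
    (gt Li (ix e0 e1 false))) (Nat.mul (nat_lit 200000) (Nat.add (gt rj (ix e0 e2 false)) (gt rk (ix e1 e2 false))))) rhs

lemma finV_sound {A1 A2 Li rj rk : List ℕ} {z0 z1 c rhs : ℕ} (h : finV A1 A2 Li rj rk z0 z1 c rhs = true)
    (e0 e1 e2 e3 e4 e5 : Bool) : A1.getD (ix e0 e1 e2) 0 + c + Li.getD (ix e0 e1 e3) 0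
      + (200000 * rj.getD (ix e0 e2 e4) 0 + A2.getD (ix e0 e3 e4) 0) + (200000 * rk.getD (ix e1 e2 e5) 0 + C1.cv z0 z1 e5)
      ≤ rhs := by
  unfold finV at h
  have h1 := allB_sound (allB_sound (allB_sound h e0) e1) e2
  rw [frc_eq] at h1
  have h2 := allB_sound h1 e3
  rw [frc_eq] at h2
  have h3 := allB_sound h2 e4
  rw [frc_eq] at h3
  have h4 := Nat.le_of_ble_eq_true (allB_sound h3 e5)
  rw [gt_eq, gt_eq, gt_eq, gt_eq, gt_eq] at h4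
  refine le_trans (le_of_eq ?_) h4
  show _ = (A1.getD (ix e0 e1 e2) 0 + c + Li.getD (ix e0 e1 e3) 0 + (200000 * rj.getD (ix e0 e2 e4) 0
    + A2.getD (ix e0 e3 e4) 0)) + (200000 * rk.getD (ix e1 e2 e5) 0 + C1.cv z0 z1 e5)
  ring

lemma finN_sound {A1 Li rj rk : List ℕ} {c rhs : ℕ} (h : finN A1 Li rj rk c rhs = true)
    (e0 e1 e2 : Bool) : A1.getD (ix e0 e1 e2) 0 + c + Li.getD (ix e0 e1 false) 0
      + 200000 * (rj.getD (ix e0 e2 false) 0 + rk.getD (ix e1 e2 false) 0) ≤ rhs := by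
  unfold finN at h
  have h1 := Nat.le_of_ble_eq_true (allB_sound (allB_sound (allB_sound h e0) e1) e2)
  rw [gt_eq, gt_eq, gt_eq, gt_eq] at h1
  exact h1

/-- the last inequality; `c0` = `UJ rj1 + UK rk1`, `c1` = `TJ rj0 + TK rk0 + ct (x0 + s0)` -/
noncomputable def finC (V : Bool) (b : LB) (P : NP) (F : FD) (Li rj rk : List ℕ) (l : LC) (lp ln Oj Ok c0 c1 : ℕ) : Bool :=
  frc (C1.cAn P.L) fun ca => frc (C1.cBn P.L) fun cb => frc (C1.tc0 P.um) fun t0 => frc (C1.tc1 P.um) fun t1 =>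
  frc P.cU fun cU => frc P.cV fun cV => frc P.sX fun sX => frc (Nat.add P.wP P.wA) fun wPA =>
  frc (Nat.add (Nat.add P.w3 P.wP) P.wA) fun w =>
  frL (l8 (fnN F.VU)) fun VU =>
  frL (l8 fun a b' c => E1 P.w3 P.wP wPA cU ca cb t0 t1 P.kf P.mf P.X2 sX l (gt VU (ix a b' c))
    (C1.cv b.H0 b.H1 a) (C1.cv b.T0 b.T1 b') (C1.cv b.G0 b.G1 c)) fun A1 =>
  frc (Nat.add (Nat.add (Nat.add (Nat.add (Nat.mul (nat_lit 4) OFF) P.cn) ln) (Nat.mul (nat_lit 200000) (Nat.add Oj Ok)))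
    (Nat.mul (nat_lit 20000000000) c1)) fun rhs =>
  frc (Nat.add (Nat.add P.cp lp) (Nat.mul (nat_lit 20000000000) c0)) fun c =>
  cond V
    (frL (l8 (fnN F.VV)) fun VV =>
    frL (l8 fun a b' c => E2 w P.wP cV P.X3 sX l (gt VV (ix a b' c)) (C1.cv b.X0 b.X1 b') (C1.cv b.Y0 b.Y1 c)) fun A2 =>
    frc (E3 P.w3 l b.Z0) fun z0 => frc (E3 P.w3 l b.Z1) fun z1 => finV A1 A2 Li rj rk z0 z1 c rhs)
    (frc (Nat.add (Nat.add c (E2 w P.wP cV P.X3 sX l (nat_lit 1000000) (nat_lit 0) (nat_lit 0)))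
      (E3 P.w3 l (nat_lit 0))) fun c' => finN A1 Li rj rk c' rhs)

/-- SOUNDNESS of the last inequality -/
theorem finC_sound {V : Bool} {b : LB} {P : NP} {F : FD} {Li rj rk : List ℕ} {l : LC} {lp ln Oj Ok c0 c1 : ℕ}
    (h : finC V b P F Li rj rk l lp ln Oj Ok c0 c1 = true) (hb : V = false → b.X0 = 0 ∧ b.X1 = 0 ∧ b.Y0 = 0 ∧ b.Y1 = 0 ∧
      b.Z0 = 0 ∧ b.Z1 = 0) (e0 e1 e2 e3 e4 e5 : Bool) :
    Li.getD (ix e0 e1 (V && e3)) 0 + 200000 * (rj.getD (ix e0 e2 (V && e4)) 0 + rk.getD (ix e1 e2 (V && e5)) 0)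
      + E1 P.w3 P.wP (P.wP + P.wA) P.cU (C1.cAn P.L) (C1.cBn P.L) (C1.tc0 P.um) (C1.tc1 P.um) P.kf
        P.mf P.X2 P.sX l (fnN F.VU e0 e1 e2) (C1.cv b.H0 b.H1 e0) (C1.cv b.T0 b.T1 e1) (C1.cv b.G0 b.G1 e2)
      + E2 (P.w3 + P.wP + P.wA) P.wP P.cV P.X3 P.sX l (cond V (fnN F.VV e0 e3 e4) 1000000) (C1.cv b.X0 b.X1 e3)
        (C1.cv b.Y0 b.Y1 e4)
      + E3 P.w3 l (C1.cv b.Z0 b.Z1 e5) + P.cp + lp + 20000000000 * c0
      ≤ 4 * OFF + P.cn + ln + 200000 * (Oj + Ok) + 20000000000 * c1 := by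
  unfold finC at h
  simp only [frc_eq, frL_eq, gt_eq, l8_get] at h
  cases V with
  | true =>
    rw [cond_true] at h
    have h1 := finV_sound h e0 e1 e2 e3 e4 e5
    simp only [l8_get] at h1
    simp only [Bool.true_and, cond_true]
    have e : C1.cv (E3 P.w3 l b.Z0) (E3 P.w3 l b.Z1) e5 = E3 P.w3 l (C1.cv b.Z0 b.Z1 e5) := by
      cases e5 <;> rfl
    rw [e] at h1
    simp only [Nat.add_eq, Nat.mul_eq] at h1
    generalize E1 P.w3 P.wP (P.wP + P.wA) P.cU (C1.cAn P.L) (C1.cBn P.L) (C1.tc0 P.um) (C1.tc1 P.um) P.kf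
        P.mf P.X2 P.sX l (fnN F.VU e0 e1 e2) (C1.cv b.H0 b.H1 e0) (C1.cv b.T0 b.T1 e1) (C1.cv b.G0 b.G1 e2) = n1 at *
    generalize E2 (P.w3 + P.wP + P.wA) P.wP P.cV P.X3 P.sX l (fnN F.VV e0 e3 e4) (C1.cv b.X0 b.X1 e3)
        (C1.cv b.Y0 b.Y1 e4) = n2 at *
    generalize E3 P.w3 l (C1.cv b.Z0 b.Z1 e5) = n3 at *
    omega
  | false =>
    rw [cond_false] at h
    obtain ⟨x0, x1, y0, y1, z0, z1⟩ := hb rfl
    have h1 := finN_sound h e0 e1 e2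
    simp only [l8_get] at h1
    simp only [Bool.false_and, cond_false]
    rw [x0, x1, y0, y1, z0, z1]
    have e : ∀ e : Bool, C1.cv 0 0 e = 0 := fun e => by cases e <;> rfl
    rw [e, e, e]
    simp only [Nat.add_eq, Nat.mul_eq] at h1
    generalize E1 P.w3 P.wP (P.wP + P.wA) P.cU (C1.cAn P.L) (C1.cBn P.L) (C1.tc0 P.um) (C1.tc1 P.um) P.kf
        P.mf P.X2 P.sX l (fnN F.VU e0 e1 e2) (C1.cv b.H0 b.H1 e0) (C1.cv b.T0 b.T1 e1) (C1.cv b.G0 b.G1 e2) = n1 at *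
    generalize E2 (P.w3 + P.wP + P.wA) P.wP P.cV P.X3 P.sX l 1000000 0 0 = n2 at *
    generalize E3 P.w3 l 0 = n3 at *
    omega

end B2
end Pool.Agent.Lib.MP_6947cd_al
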