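import Pool.Agent.Lib.MP_6947cd_al.Z.Lf2

/-!
Problem MP_6947cd_al (Chollet).  CASE B, middle second entry: the leaf: basic conditions, the row `i`.
-/

set_option autoImplicit false
open Finset

namespace Pool.Agent.Lib.MP_6947cd_al
namespace B2

open Ent Ent.Pk Fr Fr.WT CC B1 PkA

/-- the basic conditions -/
structure Bas (q Y0 Y1 Z0 Z1 : ℕ) (σ : St) : Prop where
  q1 : 1 ≤ q
  q2 : q ≤ 100
  h0 : 120 < σ.h0
  t0 : 120 < σ.t0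
  th : σ.t0 ≤ σ.h0
  hh : σ.h0 < σ.h1
  tt : σ.t0 < σ.t1
  gg : σ.g0 < σ.g1
  h1 : σ.h1 ≤ 400
  t1 : σ.t1 ≤ 400
  g1 : σ.g1 ≤ 400
  ss : σ.s0 ≤ σ.s1
  tot : σ.h1 + σ.t1 + vz σ.V σ.x1 + σ.s1 ≤ 2960
  v : σ.V = true → σ.x0 < σ.x1 ∧ σ.x1 ≤ 400 ∧ Y0 ≤ σ.y0 ∧ σ.y1 ≤ Y1 ∧ Y0 < Y1 ∧ Y1 ≤ 400 ∧ Z0 ≤ σ.z0 ∧
    σ.z1 ≤ Z1 ∧ Z0 < Z1 ∧ Z1 ≤ 400
  m : σ.m ≤ 4 * q ∨ σ.s1 ≤ 4 * q ∨ (σ.V = true ∧ σ.x1 ≤ 4 * q)

lemma basC_sound {q Y0 Y1 Z0 Z1 : ℕ} {σ : St} (h : basC q Y0 Y1 Z0 Z1 σ = true) : Bas q Y0 Y1 Z0 Z1 σ := by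
  unfold basC at h
  obtain ⟨a1, h⟩ := an_true h
  obtain ⟨a2, h⟩ := an_true h
  obtain ⟨a3, h⟩ := an_true h
  obtain ⟨a4, h⟩ := an_true h
  obtain ⟨a5, h⟩ := an_true h
  obtain ⟨a6, h⟩ := an_true h
  obtain ⟨a7, h⟩ := an_true h
  obtain ⟨a8, h⟩ := an_true h
  obtain ⟨a9, h⟩ := an_true h
  obtain ⟨a10, h⟩ := an_true h
  obtain ⟨a11, h⟩ := an_true h
  obtain ⟨a12, h⟩ := an_true h
  obtain ⟨a13, h⟩ := an_true h
  obtain ⟨a14, h⟩ := an_true h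
  refine ⟨Nat.le_of_ble_eq_true a1, Nat.le_of_ble_eq_true a2, blt_lt a3, blt_lt a4, Nat.le_of_ble_eq_true a5,
    blt_lt a6, blt_lt a7, blt_lt a8, Nat.le_of_ble_eq_true a9, Nat.le_of_ble_eq_true a10, Nat.le_of_ble_eq_true a11,
    Nat.le_of_ble_eq_true a12, Nat.le_of_ble_eq_true a13, ?_, ?_⟩
  · intro hV
    rw [hV, cond_true] at a14
    obtain ⟨b1, a14⟩ := an_true a14
    obtain ⟨b2, a14⟩ := an_true a14
    obtain ⟨b3, a14⟩ := an_true a14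
    obtain ⟨b4, a14⟩ := an_true a14
    obtain ⟨b5, a14⟩ := an_true a14
    obtain ⟨b6, a14⟩ := an_true a14
    obtain ⟨b7, a14⟩ := an_true a14
    obtain ⟨b8, a14⟩ := an_true a14
    obtain ⟨b9, a14⟩ := an_true a14
    exact ⟨blt_lt b1, Nat.le_of_ble_eq_true b2, Nat.le_of_ble_eq_true b3, Nat.le_of_ble_eq_true b4, blt_lt b5,
      Nat.le_of_ble_eq_true b6, Nat.le_of_ble_eq_true b7, Nat.le_of_ble_eq_true b8, blt_lt b9,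
      Nat.le_of_ble_eq_true a14⟩
  · rcases C1.cond_or h with h | h
    · exact Or.inl (Nat.le_of_ble_eq_true h)
    · rcases C1.cond_or h with h | h
      · exact Or.inr (Or.inl (Nat.le_of_ble_eq_true h))
      · obtain ⟨h1, h2⟩ := an_true h
        exact Or.inr (Or.inr ⟨h1, Nat.le_of_ble_eq_true h2⟩)

lemma vz_true (a : ℕ) : vz true a = a := rfl
lemma vz_false (a : ℕ) : vz false a = 0 := rfl

lemma vz_bt {V : Bool} {a b : ℕ} {x : ℝ} (h : V = true → (a : ℝ) / 400 ≤ x ∧ x ≤ (b : ℝ) / 400)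
    (h' : V = false → x = 0) : ((vz V a : ℕ) : ℝ) / 400 ≤ x ∧ x ≤ ((vz V b : ℕ) : ℝ) / 400 := by
  cases V with
  | true => exact h rfl
  | false =>
    rw [h' rfl, vz_false, vz_false]
    norm_num

section

variable {σ : St} {q Y0 Y1 Z0 Z1 : ℕ} {bj bk : Bool} {T0 T1 m h t g x y z uk uv : ℝ} {Q : Multiset V4} {Gj Gk Gv : ℝ}

/-- the rests of the row `i` -/
lemma Bas.rst (B : Bas q Y0 Y1 Z0 Z1 σ) (c : Cfg bj bk T0 T1 m h t g x y z uk uv Q Gj Gk Gv)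
    (i : In σ m h t g x y z uv Q Gv) : ∀ e ∈ Q.map V4.s, 0 ≤ e ∧ e ≤ ((4 * q : ℕ) : ℝ) / 400 := by
  intro e he
  have hs : ∀ e ∈ Q.map V4.s, 0 ≤ e := by
    intro e he
    obtain ⟨e', he', rfl⟩ := Multiset.mem_map.mp he
    exact (c.q e' he').1
  refine ⟨hs e he, ?_⟩
  have h1 : e ≤ m := by
    obtain ⟨e', he', rfl⟩ := Multiset.mem_map.mp he
    exact (c.q e' he').2.1
  have k : ∀ n : ℕ, n ≤ 4 * q → (n : ℝ) / 400 ≤ ((4 * q : ℕ) : ℝ) / 400 := fun n hn =>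
    div_le_div_of_nonneg_right (by exact_mod_cast hn) (by norm_num)
  rcases B.m with h2 | h2 | ⟨h2, h3⟩
  · exact h1.trans (i.im.trans (k _ h2))
  · have h3 : e ≤ (Q.map V4.s).sum := by
      obtain ⟨N, hN⟩ := Multiset.exists_cons_of_mem he
      rw [hN, Multiset.sum_cons]
      have : 0 ≤ N.sum := Multiset.sum_nonneg fun x hx => hs x (by rw [hN]; exact Multiset.mem_cons_of_mem hx)
      linarith
    exact h3.trans (i.is.2.trans (k _ h2))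
  · have h4 := i.v h2
    exact h1.trans (by rw [h4]; exact i.ix.2.trans (k _ h3))

lemma Bas.bx (_ : Bas q Y0 Y1 Z0 Z1 σ) (i : In σ m h t g x y z uv Q Gv) :
    ((vz σ.V σ.x0 : ℕ) : ℝ) / 400 ≤ x ∧ x ≤ ((vz σ.V σ.x1 : ℕ) : ℝ) / 400 :=
  vz_bt (fun _ => i.ix) (fun hV => (i.nv hV).1)

lemma Bas.byb (_ : Bas q Y0 Y1 Z0 Z1 σ) (i : In σ m h t g x y z uv Q Gv) :
    ((vz σ.V σ.y0 : ℕ) : ℝ) / 400 ≤ y ∧ y ≤ ((vz σ.V σ.y1 : ℕ) : ℝ) / 400 :=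
  vz_bt (fun _ => i.iy) (fun hV => (i.nv hV).2.1)

lemma Bas.bzb (_ : Bas q Y0 Y1 Z0 Z1 σ) (i : In σ m h t g x y z uv Q Gv) :
    ((vz σ.V σ.z0 : ℕ) : ℝ) / 400 ≤ z ∧ z ≤ ((vz σ.V σ.z1 : ℕ) : ℝ) / 400 :=
  vz_bt (fun _ => i.iz) (fun hV => (i.nv hV).2.2.1)

lemma le400 {a b : ℕ} {x : ℝ} (h : a ≤ b) (hx : (b : ℝ) / 400 ≤ x) : (a : ℝ) / 400 ≤ x :=
  (div_le_div_of_nonneg_right (by exact_mod_cast h) (by norm_num)).trans hx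

lemma le400' {a b : ℕ} {x : ℝ} (h : a ≤ b) (hx : x ≤ (a : ℝ) / 400) : x ≤ (b : ℝ) / 400 :=
  hx.trans (div_le_div_of_nonneg_right (by exact_mod_cast h) (by norm_num))

lemma Bas.by' (B : Bas q Y0 Y1 Z0 Z1 σ) (i : In σ m h t g x y z uv Q Gv) :
    ((vz σ.V Y0 : ℕ) : ℝ) / 400 ≤ y ∧ y ≤ ((vz σ.V Y1 : ℕ) : ℝ) / 400 :=
  vz_bt (fun hV => ⟨le400 (B.v hV).2.2.1 i.iy.1, le400' (B.v hV).2.2.2.1 i.iy.2⟩) (fun hV => (i.nv hV).2.1)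

lemma Bas.bz' (B : Bas q Y0 Y1 Z0 Z1 σ) (i : In σ m h t g x y z uv Q Gv) :
    ((vz σ.V Z0 : ℕ) : ℝ) / 400 ≤ z ∧ z ≤ ((vz σ.V Z1 : ℕ) : ℝ) / 400 :=
  vz_bt (fun hV => ⟨le400 (B.v hV).2.2.2.2.2.2.1 i.iz.1, le400' (B.v hV).2.2.2.2.2.2.2.1 i.iz.2⟩)
    (fun hV => (i.nv hV).2.2.1)

end

section

variable {L : Lf2} {σ : St} {bj bk : Bool} {T0 T1 m h t g x y z uk uv : ℝ} {Q : Multiset V4} {Gj Gk Gv : ℝ}

lemma Bas.box (B : Bas L.q L.Y0 L.Y1 L.Z0 L.Z1 σ) (i : In σ m h t g x y z uv Q Gv) :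
    Box (L.lb σ).lo (L.lb σ).hi (vec h t g x y z) := by
  intro j
  fin_cases j
  · exact i.ih
  · exact i.it
  · exact i.ig
  · exact B.bx i
  · exact B.by' i
  · exact B.bz' i

lemma vz_le {V : Bool} {a n : ℕ} (h : V = true → a ≤ n) : vz V a ≤ n := by
  cases V with
  | true => exact h rfl
  | false => exact Nat.zero_le _

lemma Bas.R400 (B : Bas L.q L.Y0 L.Y1 L.Z0 L.Z1 σ) : ∀ i, (L.lb σ).R i ≤ 400 := by
  intro j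
  fin_cases j
  · exact B.h1
  · exact B.t1
  · exact B.g1
  · exact vz_le fun hV => (B.v hV).2.1
  · exact vz_le fun hV => (B.v hV).2.2.2.2.2.1
  · exact vz_le fun hV => (B.v hV).2.2.2.2.2.2.2.2.2

/-! ### the row `i` -/

/-- decoding of the index of a corner -/
def d0 (i : ℕ) : Bool := Nat.beq (i % 2) 1
def d1 (i : ℕ) : Bool := Nat.beq (i / 2 % 2) 1
def d2 (i : ℕ) : Bool := Nat.beq (i / 4 % 2) 1

lemma d_ix (a b c : Bool) : d0 (ix a b c) = a ∧ d1 (ix a b c) = b ∧ d2 (ix a b c) = c := by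
  cases a <;> cases b <;> cases c <;> decide

lemma ix_d (V : Bool) (i : ℕ) (h : i < cond V 8 4) : ix (d0 i) (d1 i) (V && d2 i) = i := by
  cases V with
  | true =>
    have h : i < 8 := h
    interval_cases i <;> decide
  | false =>
    have h : i < 4 := h
    interval_cases i <;> decide

lemma ix_lt (V : Bool) (a b c : Bool) : ix a b (V && c) < cond V 8 4 := by
  cases V <;> cases a <;> cases b <;> cases c <;> decide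

/-- THE ROW `i` -/
theorem rowI_lf {cor : CorFn} (hcor : cor.OK) (B : Bas L.q L.Y0 L.Y1 L.Z0 L.Z1 σ) {W : WR}
    {K : List ℕ → ℕ → Bool}
    (hc : cor L.st σ.V L.q σ.h0 σ.h1 σ.t0 σ.t1 (vz σ.V σ.x0) (vz σ.V σ.x1) (fun s Q cs =>
      rowI W s (2 * L.q) Q σ.s0 σ.s1 cs K) = true) :
    ∃ (Ls : List ℕ) (Dh : ℕ), K Ls Dh = true ∧ ∀ M : Multiset ℝ, (∀ e ∈ M, 0 ≤ e ∧ e ≤ ((4 * L.q : ℕ) : ℝ) / 400) →
      (σ.s0 : ℝ) / 400 ≤ M.sum → M.sum ≤ (σ.s1 : ℝ) / 400 →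
      ∃ (m : ℝ) (q : ℕ) (sa sb : ℝ), Seg m q sa sb M ∧ ∀ bh bt bx br : Bool,
        UI ((W.w : ℝ) / 1000) ((W.kap : ℝ) / 1000) ((W.G5 : ℝ) / 100000)
        (((C1.cv (L.lb σ).H0 (L.lb σ).H1 bh : ℕ) : ℝ) / 400) (((C1.cv (L.lb σ).T0 (L.lb σ).T1 bt : ℕ) : ℝ) / 400)
        (((C1.cv (L.lb σ).X0 (L.lb σ).X1 bx : ℕ) : ℝ) / 400)
        ((bif br then sb - q * m else sa - q * m) ::ₘ Multiset.replicate q m)
      + ((W.w3 : ℝ) / 1000 * (43 / 200 * ((bif br then sb - q * m else sa - q * m) + q * m)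
        + 39 / 200 * ((bif br then sb - q * m else sa - q * m) ^ 2 + q * m ^ 2))
      + ((W.Sl : ℝ) / 1000000 + (W.M : ℝ) / 1000) * ((bif br then sb - q * m else sa - q * m) + q * m))
      ≤ ((Ls.getD (ix bh bt (σ.V && bx)) 0 : ℝ) - OFF) / 8000000000000000 ∧
      FM (1 ::ₘ (((C1.cv (L.lb σ).H0 (L.lb σ).H1 bh : ℕ) : ℝ) / 400)
        ::ₘ (((C1.cv (L.lb σ).T0 (L.lb σ).T1 bt : ℕ) : ℝ) / 400)
        ::ₘ (((C1.cv (L.lb σ).X0 (L.lb σ).X1 bx : ℕ) : ℝ) / 400) ::ₘ (bif br then sb - q * m else sa - q * m)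
        ::ₘ Multiset.replicate q m)
      - Wc ((((C1.cv (L.lb σ).H0 (L.lb σ).H1 bh : ℕ) : ℝ) / 400) + (((C1.cv (L.lb σ).T0 (L.lb σ).T1 bt : ℕ) : ℝ) / 400)
        + (((C1.cv (L.lb σ).X0 (L.lb σ).X1 bx : ℕ) : ℝ) / 400)
        + ((bif br then sb - q * m else sa - q * m) ::ₘ Multiset.replicate q m).sum) ≤ (Dh : ℝ) / 80000000 := by
  have hx1 : vz σ.V σ.x0 ≤ vz σ.V σ.x1 := by
    cases hV : σ.V with
    | true => exact (B.v hV).1.le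
    | false => exact le_rfl
  obtain ⟨s, Qn, cs, h1, hs, hlen, hC⟩ := hcor _ _ _ _ _ _ _ _ _ _ hc
    (fun hV => by rw [hV]; exact ⟨rfl, rfl⟩) B.q1 B.q2 B.h0.le B.hh B.h1 B.t0.le B.tt B.t1
    (fun hV => by rw [hV]; exact (B.v hV).1) hx1 (vz_le fun hV => (B.v hV).2.1)
  have hq0 := B.q1
  have hq1 := B.q2
  obtain ⟨Ls, Dh, k1, k2, k3⟩ := rowI_sound h1 hs (by omega) (by omega) B.ss
    (hf := fun i => ((C1.cv σ.h0 σ.h1 (d0 i) : ℕ) : ℝ) / 400) (tf := fun i => ((C1.cv σ.t0 σ.t1 (d1 i) : ℕ) : ℝ) / 400)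
    (xf := fun i => ((C1.cv (vz σ.V σ.x0) (vz σ.V σ.x1) (σ.V && d2 i) : ℕ) : ℝ) / 400) (fun i hi => by
      rw [hlen] at hi
      have h2 := hC (d0 i) (d1 i) (σ.V && d2 i)
      have e1 : (σ.V && (σ.V && d2 i)) = (σ.V && d2 i) := by cases σ.V <;> rfl
      rw [e1, ix_d σ.V i hi] at h2
      exact h2)
  refine ⟨Ls, Dh, k1, fun M hM hM0 hM1 => ?_⟩
  have e4 : 2 * (2 * L.q) = 4 * L.q := by ring
  obtain ⟨q, sa, sb, sg, hU⟩ := k3 M (by rw [e4]; exact hM) hM0 hM1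
  refine ⟨_, q, sa, sb, sg, fun bh bt bx br => ?_⟩
  have h3 := hU (ix bh bt (σ.V && bx)) (by rw [hlen]; exact ix_lt _ _ _ _) br
  obtain ⟨g0, g1, g2⟩ := d_ix bh bt (σ.V && bx)
  have e5 : C1.cv (vz σ.V σ.x0) (vz σ.V σ.x1) (σ.V && (σ.V && bx)) = C1.cv (vz σ.V σ.x0) (vz σ.V σ.x1) bx := by
    cases σ.V <;> cases bx <;> rfl
  rw [g0, g1, g2, e5] at h3
  exact h3

end

end B2
end Pool.Agent.Lib.MP_6947cd_al
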