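import Pool.Agent.Lib.MP_6947cd_al.Z.Lf3

/-!
Problem MP_6947cd_al (Chollet).  CASE B, middle second entry: the check of a leaf and its soundness.
-/

set_option autoImplicit false
open Finset

namespace Pool.Agent.Lib.MP_6947cd_al
namespace B2

open Ent Ent.Pk Fr Fr.WT CC B1 PkA

/-! ### the rows of a configuration -/

section

variable {bj bk : Bool} {T0 T1 m h t g x y z uk uv : ℝ} {Q : Multiset V4} {Gj Gk Gv : ℝ}

lemma sn_j : C1.sn (Q.map fun e => (e.s, e.a)) = Q.map V4.a := by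
  unfold C1.sn
  rw [Multiset.map_map]
  rfl

lemma sn_k : C1.sn (Q.map fun e => (e.s, e.b)) = Q.map V4.b := by
  unfold C1.sn
  rw [Multiset.map_map]
  rfl

lemma Gam3 (a b c : ℝ) (M : Multiset ℝ) : C1.Gam (a ::ₘ b ::ₘ c ::ₘ M)
    = min (gtr (3 / 20) (9 / 20) a + gtr (3 / 20) (9 / 20) b + gtr (3 / 20) (9 / 20) c
      + (M.map (gtr (3 / 20) (9 / 20))).sum - 6 / 125) (1 / 2) := by
  unfold C1.Gam
  rw [Multiset.map_cons, Multiset.map_cons, Multiset.map_cons, Multiset.sum_cons, Multiset.sum_cons,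
    Multiset.sum_cons]
  congr 2
  ring

lemma dfj : C1.Df Gj (h ::ₘ g ::ₘ y ::ₘ C1.sn (Q.map fun e => (e.s, e.a)))
    = Gj - What (h + g + y + (Q.map V4.a).sum) := by
  rw [sn_j, C1.Df3]

lemma dfk : C1.Df Gk (t ::ₘ g ::ₘ z ::ₘ C1.sn (Q.map fun e => (e.s, e.b)))
    = Gk - What (t + g + z + (Q.map V4.b).sum) := by
  rw [sn_k, C1.Df3]

lemma dj_pos (c : Cfg bj bk T0 T1 m h t g x y z uk uv Q Gj Gk Gv) (hb : bj = true) :
    0 < C1.Df Gj (h ::ₘ g ::ₘ y ::ₘ C1.sn (Q.map fun e => (e.s, e.a))) := by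
  have := c.cj
  rw [if_pos hb] at this
  rw [dfj]
  exact this.1

lemma dk_pos (c : Cfg bj bk T0 T1 m h t g x y z uk uv Q Gj Gk Gv) (hb : bk = true) :
    0 < C1.Df Gk (t ::ₘ g ::ₘ z ::ₘ C1.sn (Q.map fun e => (e.s, e.b))) := by
  have := c.ck
  rw [if_pos hb] at this
  rw [dfk]
  exact this.1

lemma val_j (c : Cfg bj bk T0 T1 m h t g x y z uk uv Q Gj Gk Gv) :
    C1.Val Gj (h ::ₘ g ::ₘ y ::ₘ C1.sn (Q.map fun e => (e.s, e.a))) := by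
  refine ⟨?_, fun hd => ?_⟩
  · rw [sn_j, Gam3]
    exact c.gj
  · rw [dfj] at hd
    rw [sn_j]
    have := c.cj
    cases hb : bj with
    | true =>
      rw [if_pos hb] at this
      exact this.2
    | false =>
      rw [if_neg (by simp [hb])] at this
      linarith [this.1]

lemma val_k (c : Cfg bj bk T0 T1 m h t g x y z uk uv Q Gj Gk Gv) :
    C1.Val Gk (t ::ₘ g ::ₘ z ::ₘ C1.sn (Q.map fun e => (e.s, e.b))) := by
  refine ⟨?_, fun hd => ?_⟩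
  · rw [sn_k, Gam3]
    exact c.gk
  · rw [dfk] at hd
    rw [sn_k]
    have := c.ck
    cases hb : bk with
    | true =>
      rw [if_pos hb] at this
      exact this.2
    | false =>
      rw [if_neg (by simp [hb])] at this
      linarith [this.1]

lemma prs_j (c : Cfg bj bk T0 T1 m h t g x y z uk uv Q Gj Gk Gv) :
    C1.Prs h (Q.map V4.s) (Q.map fun e => (e.s, e.a)) := by
  refine ⟨by rw [Multiset.map_map]; rfl, fun w hw => ?_⟩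
  obtain ⟨e, he, rfl⟩ := Multiset.mem_map.mp hw
  obtain ⟨-, -, q3, q4, -, -, -, -, q9, -⟩ := c.q e he
  exact ⟨q3, q4, q9⟩

lemma prs_k (c : Cfg bj bk T0 T1 m h t g x y z uk uv Q Gj Gk Gv) :
    C1.Prs t (Q.map V4.s) (Q.map fun e => (e.s, e.b)) := by
  refine ⟨by rw [Multiset.map_map]; rfl, fun w hw => ?_⟩
  obtain ⟨e, he, rfl⟩ := Multiset.mem_map.mp hw
  obtain ⟨-, -, -, -, q5, q6, -, -, -, q10, -⟩ := c.q e he
  exact ⟨q5, q6, q10⟩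

end

/-! ### the rows of a leaf -/

/-- the row `j` of a main leaf -/
noncomputable def mjC (row : RowFn) (star : StarFn) (L : Lf2) (σ : St) (w : ℕ) : Bool :=
  an (pairOK L.P.w3 L.P.wP L.P.wA (Nat.add L.TJ L.TX) L.Sl (Nat.mul (nat_lit 4) L.q) σ.h0 σ.h1 L.rj.kn.ks L.rj.Op L.cells)
    (an (C1.lenC L.rj.kn.ks L.rj.Op) (frL (rsU L.MJ (Nat.add L.UJ L.TX) L.rj.kn.ks L.rj.kn.Ps) fun Rs =>
      rowC row star σ.V L.rj L.rj.Op Rs w L.bJ L.Oj σ.bj (Nat.mul (nat_lit 4) L.q) σ.s1 σ.h0 σ.h1 σ.g0 σ.g1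
        (vz σ.V L.Y0) (vz σ.V L.Y1) (vz σ.V σ.y0) (vz σ.V σ.y1) σ.rj0 σ.rj1))

/-- the row `k` of a main leaf -/
noncomputable def mkC (row : RowFn) (star : StarFn) (L : Lf2) (σ : St) : Bool :=
  an (omTC L.P.w3 L.TK L.rk.kn.ks L.rk.Op) (frL (rsU L.MK L.UK L.rk.kn.ks L.rk.kn.Ps) fun Rs =>
      rowC row star σ.V L.rk L.rk.Op Rs L.P.w3 L.bK L.Ok σ.bk (Nat.mul (nat_lit 4) L.q) σ.s1 σ.t0 σ.t1 σ.g0 σ.g1
        (vz σ.V L.Z0) (vz σ.V L.Z1) (vz σ.V σ.z0) (vz σ.V σ.z1) σ.rk0 σ.rk1)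

/-- eight zeros -/
def z8 : List ℕ := [nat_lit 0, nat_lit 0, nat_lit 0, nat_lit 0, nat_lit 0, nat_lit 0, nat_lit 0, nat_lit 0]

/-- a row without values -/
def rw0 (r : C1.Rw) : C1.Rw := ⟨r.kn, r.P, r.S1, r.S, r.C, r.d, r.Op, r.Om, z8, r.a0, r.a1, r.y0, r.y1, r.z0, r.z1, r.Gs, r.st⟩

/-- the row `j` is rich for all the patterns -/
noncomputable def rjC (row : RowFn) (star : StarFn) (L : Lf2) (σ : St) : Bool :=
  frL (sclL (nat_lit 0) L.rj.kn.ks) fun z => rowC row star σ.V (rw0 L.rj) z z (nat_lit 0) (nat_lit 0) (nat_lit 1) σ.bj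
    (Nat.mul (nat_lit 4) L.q) σ.s1 σ.h0 σ.h1 σ.g0 σ.g1 (vz σ.V L.Y0) (vz σ.V L.Y1) (vz σ.V σ.y0) (vz σ.V σ.y1)
    σ.rj0 σ.rj1

/-- the row `k` is rich for all the patterns -/
noncomputable def rkC (row : RowFn) (star : StarFn) (L : Lf2) (σ : St) : Bool :=
  frL (sclL (nat_lit 0) L.rk.kn.ks) fun z => rowC row star σ.V (rw0 L.rk) z z (nat_lit 0) (nat_lit 0) (nat_lit 1) σ.bk
    (Nat.mul (nat_lit 4) L.q) σ.s1 σ.t0 σ.t1 σ.g0 σ.g1 (vz σ.V L.Z0) (vz σ.V L.Z1) (vz σ.V σ.z0) (vz σ.V σ.z1)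
    σ.rk0 σ.rk1

/-- the weights of the row `k` vanish -/
def eC (L : Lf2) : Bool :=
  an (Nat.beq L.P.w3 (nat_lit 0)) (an (Nat.beq L.MK (nat_lit 0)) (an (Nat.beq L.TK (nat_lit 0))
  (an (Nat.beq L.UK (nat_lit 0)) (an (Nat.beq L.bK (nat_lit 0)) (an (Nat.beq L.KK (nat_lit 0))
  (Nat.beq L.K (nat_lit 0)))))))

lemma beq0 {n : ℕ} (h : Nat.beq n (nat_lit 0) = true) : n = 0 := Nat.eq_of_beq_eq_true h

lemma eC_sound {L : Lf2} (h : eC L = true) : L.P.w3 = 0 ∧ L.MK = 0 ∧ L.TK = 0 ∧ L.UK = 0 ∧ L.bK = 0 ∧ L.KK = 0 ∧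
    L.K = 0 := by
  unfold eC at h
  obtain ⟨a1, h⟩ := an_true h
  obtain ⟨a2, h⟩ := an_true h
  obtain ⟨a3, h⟩ := an_true h
  obtain ⟨a4, h⟩ := an_true h
  obtain ⟨a5, h⟩ := an_true h
  obtain ⟨a6, h⟩ := an_true h
  exact ⟨beq0 a1, beq0 a2, beq0 a3, beq0 a4, beq0 a5, beq0 a6, beq0 h⟩

/-- A MAIN LEAF; `w` = sum of the weights of the inequalities -/
noncomputable def mainC (row : RowFn) (star : StarFn) (L : Lf2) (σ : St) (Rj Rk w : ℕ) (Ls : List ℕ) (Dh : ℕ) : Bool :=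
  an (thC σ.bj σ.h0 Rj Dh L.rj.d) (an (cond L.E (eC L) (thC σ.bk σ.t0 Rk Dh L.rk.d))
  (an (rulC σ.bj L.K L.KJ L.bJ σ.h0) (an (rulC σ.bk L.K L.KK L.bK σ.t0) (an (uC L.UJ σ.rj1) (an (uC L.UK σ.rk1)
  (an (Nat.ble (nat_lit 1) w) (an (cond σ.V (chkFV (L.lb σ) L.P L.F σ.gm) (chkFN (L.lb σ) L.P L.F σ.gm))
  (an (exA L.ls fun es => mkLC L.om L.ct L.TJ L.UJ L.TK L.UK es fun l lp ln =>
    finC σ.V (L.lb σ) L.P L.F Ls L.rj.R (cond L.E [] L.rk.R) l lp ln L.Oj (cond L.E (nat_lit 0) L.Ok)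
      (Nat.add (Nat.mul L.UJ σ.rj1) (Nat.mul L.UK σ.rk1))
      (Nat.add (Nat.add (Nat.mul L.TJ σ.rj0) (Nat.mul L.TK σ.rk0)) (Nat.mul L.ct (Nat.add (vz σ.V σ.x0) σ.s0))))
  (an (mjC row star L σ w) (cond L.E true (mkC row star L σ)))))))))))

/-- THE CHECK OF A LEAF -/
noncomputable def lfC (cor : CorFn) (row : RowFn) (star : StarFn) (L : Lf2) (σ : St) : Bool := frT σ fun σ =>
  an (basC L.q L.Y0 L.Y1 L.Z0 L.Z1 σ)
  (frc (Nat.add (vz σ.V σ.x1) σ.s1) fun R0 => frc (Nat.add (oth σ.bk σ.g1 σ.t1) R0) fun Rj =>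
  frc (Nat.add (oth σ.bj σ.g1 σ.h1) R0) fun Rk =>
  frc (Nat.add (g5 σ.t0 (Nat.add (Nat.mul L.K R0) (Nat.mul L.KK Rk))) (g5 σ.h0 (Nat.mul L.KJ Rj))) fun G5 =>
  frc (Nat.add (Nat.add L.P.w3 L.P.wP) L.P.wA) fun w => frc (Nat.add (Nat.add (Nat.add L.K L.KJ) L.KK) L.lI) fun kap =>
  frc (Nat.add (Nat.add L.MJ L.MK) L.ct) fun M => frc (Nat.mul (nat_lit 2) L.q) fun mh =>
  cor L.st σ.V L.q σ.h0 σ.h1 σ.t0 σ.t1 (vz σ.V σ.x0) (vz σ.V σ.x1) fun s Q cs =>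
  rowI ⟨w, kap, L.P.w3, G5, L.Sl, M⟩ s mh Q σ.s0 σ.s1 cs fun Ls Dh =>
    cond (Nat.beq L.kd (nat_lit 0)) (mainC row star L σ Rj Rk w Ls Dh)
    (cond (Nat.beq L.kd (nat_lit 1)) (Nat.beq Dh (nat_lit 0))
    (cond (Nat.beq L.kd (nat_lit 2)) (an (thC σ.bj σ.h0 Rj Dh L.rj.d) (rjC row star L σ))
    (an (thC σ.bk σ.t0 Rk Dh L.rk.d) (rkC row star L σ)))))

end B2
end Pool.Agent.Lib.MP_6947cd_al
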