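import Pool.Agent.Lib.MP_6947cd_al.Z.Lf4

/-!
Problem MP_6947cd_al (Chollet).  CASE B, middle second entry: soundness of the check of a leaf, rows.
-/

set_option autoImplicit false
open Finset

namespace Pool.Agent.Lib.MP_6947cd_al
namespace B2

open Ent Ent.Pk Fr Fr.WT CC B1 PkA

/-- what is used from the other parts -/
structure SpB : Prop where
  r : SpR2
  s1 : SpecS1
  s2 : SpecS2
  r7 : SpecR7
  lib : CB.LibII

lemma phR_self (ks zs : List ℕ) (u : ℝ) : C1.phR ks zs zs u = 0 := by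
  unfold C1.phR phF
  rw [sub_self, zero_div]

/-- a row which is rich for all the patterns -/
lemma rich_false {V : Bool} {ks : List ℝ} {φ : ℝ → ℝ} {a y z G : ℝ} {M : Multiset (ℝ × ℝ)} {a0 a1 y0 y1 z0 z1 : ℝ}
    (k : C1.RowD ks φ (((0 : ℕ) : ℝ) / 1000) (((0 : ℕ) : ℝ) / 1000) a y z G M a0 a1 y0 y1 z0 z1
      (fun ba bb bc => (((z8.getD (ix ba bb (V && bc)) 0 : ℕ) : ℝ) - ((1 : ℕ) : ℝ)) / 40000000000))
    (hφ : ∀ u, φ u = 0) : False := by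
  obtain ⟨-, -, -, ns, fs, N, -, -, cf, -, uj⟩ := k
  have h := uj false false false
  unfold UJ at h
  have e : (N.map φ).sum = 0 := by
    rw [show N.map φ = N.map fun _ => (0 : ℝ) from Multiset.map_congr rfl fun u _ => hφ u, Multiset.map_const',
      Multiset.sum_replicate, smul_zero]
  have e0 : z8.getD (ix false false (V && false)) 0 = 0 := by
    rw [Bool.and_false]
    rfl
  rw [e, e0] at h
  simp only [Nat.cast_zero, zero_div, add_zero, zero_mul, Nat.cast_one] at h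
  norm_num at h

section

variable {L : Lf2} {σ : St} {bj bk : Bool} {T0 T1 m h t g x y z uk uv : ℝ} {Q : Multiset V4} {Gj Gk Gv : ℝ}

lemma vzlt {V : Bool} {a b : ℕ} (h : V = true → a < b) : V = true → vz V a < vz V b := by
  intro hV
  rw [hV]
  exact h hV

lemma vzle' {V : Bool} {a b : ℕ} (h : V = true → a < b) : vz V a ≤ vz V b := by
  cases V with
  | true => exact (h rfl).le
  | false => exact le_rfl

lemma vz0 {V : Bool} (a b : ℕ) (hV : V = false) : vz V a = 0 ∧ vz V b = 0 := by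
  rw [hV]
  exact ⟨rfl, rfl⟩

/-- THE ROW `j` of a main leaf -/
theorem mjC_sound (S : SpB) {row : RowFn} {star : StarFn} (hrow : row.OK) (hstar : star.OK)
    (B : Bas L.q L.Y0 L.Y1 L.Z0 L.Z1 σ) (c : Cfg bj bk T0 T1 m h t g x y z uk uv Q Gj Gk Gv)
    (i : In σ m h t g x y z uv Q Gv) (mj : Mt σ.bj bj) {w : ℕ} (hc : mjC row star L σ w = true)
    (hd : -((L.rj.d : ℝ) / 10 ^ 7) < Gj - What (h + g + y + (Q.map V4.a).sum)) :
    ∃ (ksj : List ℝ) (φj : ℝ → ℝ), C1.RowD ksj φj ((w : ℝ) / 1000) ((L.bJ : ℝ) / 1000) h g y Gj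
      (Q.map fun e => (e.s, e.a)) ((σ.h0 : ℝ) / 400) ((σ.h1 : ℝ) / 400) ((σ.g0 : ℝ) / 400) ((σ.g1 : ℝ) / 400)
      (((vz σ.V L.Y0 : ℕ) : ℝ) / 400) (((vz σ.V L.Y1 : ℕ) : ℝ) / 400)
      (fun ba bb bc => (((L.rj.R.getD (ix ba bb (σ.V && bc)) 0 : ℕ) : ℝ) - L.Oj) / 40000000000) ∧
    ∀ e ∈ Q, (L.P.w3 : ℝ) / 1000 * omg e.a + ((L.P.wP : ℝ) / 1000 + (L.P.wA : ℝ) / 1000)
      * (lo2 e.s e.a - omg (min e.u (max e.s e.a))) - (L.P.wA : ℝ) / 1000 * gtr (3 / 20) (9 / 20) e.u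
      + ((L.TJ : ℝ) - L.UJ) / 1000 * e.a ≤ φj e.a + ((L.MJ : ℝ) / 1000 + (L.Sl : ℝ) / 1000000) * e.s := by
  unfold mjC at hc
  obtain ⟨h1, hc⟩ := an_true hc
  obtain ⟨h2, hc⟩ := an_true hc
  rw [frL_eq] at hc
  have lO := C1.lenC_sound _ _ h2
  have hr : Bt0 σ.rj0 σ.rj1 (y + (C1.sn (Q.map fun e => (e.s, e.a))).sum) := by
    rw [sn_j]
    exact i.irj
  have hst := B.rst c i
  have e4 : Nat.mul 4 L.q = 4 * L.q := rfl
  -- length of the prices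
  have lPs : L.rj.kn.Ps.length = L.rj.kn.ks.length := by
    unfold rowC at hc
    rw [C1.fB_eq] at hc
    obtain ⟨h3, -⟩ := cond_eq_true hc
    unfold rwK at h3
    obtain ⟨h4, -⟩ := cond_eq_true h3
    exact C1.knC_len h4
  obtain ⟨r1, r2, r3, r4⟩ := rowC_sound hrow hstar S.s2 S.s1 S.r7 hc lO (rsU_len lPs) B.h0.le B.hh B.h1 B.gg B.g1
    (vzlt fun hV => (B.v hV).2.2.2.2.1) (vzle' fun hV => (B.v hV).2.2.2.2.1) (vz_le fun hV => (B.v hV).2.2.2.2.2.1)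
    (vz0 _ _) i.ih i.ig (B.by' i) (B.byb i) hr (val_j c) (prs_j c) hst i.is.2 mj (dj_pos c)
    (by rw [dfj]; exact hd)
  refine ⟨_, _, r1, fun e he => ?_⟩
  obtain ⟨q1, q2, q3, q4, q5, q6, q7, q8, -, -, -, cc, q12⟩ := c.q e he
  obtain ⟨w1, w2, w3⟩ := r2 (e.s, e.a) (Multiset.mem_map.mpr ⟨e, he, rfl⟩)
  have hs := (hst e.s (Multiset.mem_map_of_mem _ he)).2
  have hpp := pair_price S.lib h1 i.ih.1 i.ih.2 q1 (q2.trans (by linarith [c.m0.2])) (by rw [e4]; exact hs) q3 q4 w2 q12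
  exact phi_j (TX := L.TX) r3 r4 q3 w2 w3 hpp

/-- THE ROW `k` of a main leaf -/
theorem mkC_sound (S : SpB) {row : RowFn} {star : StarFn} (hrow : row.OK) (hstar : star.OK)
    (B : Bas L.q L.Y0 L.Y1 L.Z0 L.Z1 σ) (c : Cfg bj bk T0 T1 m h t g x y z uk uv Q Gj Gk Gv)
    (i : In σ m h t g x y z uv Q Gv) (mk : Mt σ.bk bk) (hc : cond L.E true (mkC row star L σ) = true)
    (hE : L.E = true → eC L = true)
    (hd : L.E = false → -((L.rk.d : ℝ) / 10 ^ 7) < Gk - What (t + g + z + (Q.map V4.b).sum)) :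
    ∃ (ksk : List ℝ) (φk : ℝ → ℝ), C1.RowD ksk φk ((L.P.w3 : ℝ) / 1000) ((L.bK : ℝ) / 1000) t g z Gk
      (Q.map fun e => (e.s, e.b)) ((σ.t0 : ℝ) / 400) ((σ.t1 : ℝ) / 400) ((σ.g0 : ℝ) / 400) ((σ.g1 : ℝ) / 400)
      (((vz σ.V L.Z0 : ℕ) : ℝ) / 400) (((vz σ.V L.Z1 : ℕ) : ℝ) / 400)
      (fun ba bb bc => ((((cond L.E [] L.rk.R).getD (ix ba bb (σ.V && bc)) 0 : ℕ) : ℝ)
        - ((cond L.E 0 L.Ok : ℕ) : ℝ)) / 40000000000) ∧
    ∀ e ∈ Q, (L.P.w3 : ℝ) / 1000 * omg e.b + ((L.TK : ℝ) - L.UK) / 1000 * e.b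
      ≤ φk e.b + (L.MK : ℝ) / 1000 * e.s := by
  have hst := B.rst c i
  cases hE' : L.E with
  | true =>
    obtain ⟨a1, a2, a3, a4, a5, a6, a7⟩ := eC_sound (hE hE')
    have k := C1.row_none (G := Gk) S.s2 (prs_k c) (by linarith [c.t0, i.it.1, show (0 : ℝ) ≤ (σ.t0 : ℝ) / 400 by positivity])
      (c.th.trans c.h1) c.g01.1 c.g01.2 c.z01.1 c.z01.2 ((σ.t0 : ℝ) / 400) ((σ.t1 : ℝ) / 400) ((σ.g0 : ℝ) / 400)
      ((σ.g1 : ℝ) / 400) (((vz σ.V L.Z0 : ℕ) : ℝ) / 400) (((vz σ.V L.Z1 : ℕ) : ℝ) / 400)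
    refine ⟨[1], fun _ => 0, ?_, fun e he => ?_⟩
    · have e1 : (fun ba bb bc : Bool => ((((cond true [] L.rk.R).getD (ix ba bb (σ.V && bc)) 0 : ℕ) : ℝ)
          - ((cond true 0 L.Ok : ℕ) : ℝ)) / 40000000000) = fun _ _ _ => 0 := by
        funext ba bb bc
        simp
      rw [e1, a1, a5, Nat.cast_zero, zero_div]
      exact k
    · rw [a1, a2, a3, a4]
      simp
  | false =>
    rw [hE', cond_false] at hc
    unfold mkC at hc
    obtain ⟨h1, hc⟩ := an_true hc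
    rw [frL_eq] at hc
    have lO := (omTC_sound h1).1
    have hr : Bt0 σ.rk0 σ.rk1 (z + (C1.sn (Q.map fun e => (e.s, e.b))).sum) := by
      rw [sn_k]
      exact i.irk
    have lPs : L.rk.kn.Ps.length = L.rk.kn.ks.length := by
      unfold rowC at hc
      rw [C1.fB_eq] at hc
      obtain ⟨h3, -⟩ := cond_eq_true hc
      unfold rwK at h3
      obtain ⟨h4, -⟩ := cond_eq_true h3
      exact C1.knC_len h4
    obtain ⟨r1, r2, r3, r4⟩ := rowC_sound hrow hstar S.s2 S.s1 S.r7 hc lO (rsU_len lPs) B.t0.le B.tt B.t1 B.gg B.g1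
      (vzlt fun hV => (B.v hV).2.2.2.2.2.2.2.2.1) (vzle' fun hV => (B.v hV).2.2.2.2.2.2.2.2.1)
      (vz_le fun hV => (B.v hV).2.2.2.2.2.2.2.2.2)
      (vz0 _ _) i.it i.ig (B.bz' i) (B.bzb i) hr (val_k c) (prs_k c) hst i.is.2 mk (dk_pos c)
      (by rw [dfk]; exact hd hE')
    refine ⟨_, _, r1, fun e he => ?_⟩
    obtain ⟨q1, q2, q3, q4, q5, q6, q7, q8, -, -, -, cc, q12⟩ := c.q e he
    obtain ⟨w1, w2, w3⟩ := r2 (e.s, e.b) (Multiset.mem_map.mpr ⟨e, he, rfl⟩)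
    exact phi_k r3 r4 h1 q5 w2 w3

/-- THE ROW `j` is rich -/
theorem rjC_sound (S : SpB) {row : RowFn} {star : StarFn} (hrow : row.OK) (hstar : star.OK)
    (B : Bas L.q L.Y0 L.Y1 L.Z0 L.Z1 σ) (c : Cfg bj bk T0 T1 m h t g x y z uk uv Q Gj Gk Gv)
    (i : In σ m h t g x y z uv Q Gv) (mj : Mt σ.bj bj) (hc : rjC row star L σ = true)
    (hd : -((L.rj.d : ℝ) / 10 ^ 7) < Gj - What (h + g + y + (Q.map V4.a).sum)) : False := by
  unfold rjC at hc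
  rw [frL_eq] at hc
  have hr : Bt0 σ.rj0 σ.rj1 (y + (C1.sn (Q.map fun e => (e.s, e.a))).sum) := by
    rw [sn_j]
    exact i.irj
  obtain ⟨r1, -⟩ := rowC_sound (r := rw0 L.rj) hrow hstar S.s2 S.s1 S.r7 hc (sclL_len _ _) (sclL_len _ _) B.h0.le
    B.hh B.h1 B.gg B.g1
    (vzlt fun hV => (B.v hV).2.2.2.2.1) (vzle' fun hV => (B.v hV).2.2.2.2.1) (vz_le fun hV => (B.v hV).2.2.2.2.2.1)
    (vz0 _ _) i.ih i.ig (B.by' i) (B.byb i) hr (val_j c) (prs_j c) (B.rst c i) i.is.2 mj (dj_pos c)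
    (by rw [dfj]; exact hd)
  exact rich_false r1 (phR_self _ _)

/-- THE ROW `k` is rich -/
theorem rkC_sound (S : SpB) {row : RowFn} {star : StarFn} (hrow : row.OK) (hstar : star.OK)
    (B : Bas L.q L.Y0 L.Y1 L.Z0 L.Z1 σ) (c : Cfg bj bk T0 T1 m h t g x y z uk uv Q Gj Gk Gv)
    (i : In σ m h t g x y z uv Q Gv) (mk : Mt σ.bk bk) (hc : rkC row star L σ = true)
    (hd : -((L.rk.d : ℝ) / 10 ^ 7) < Gk - What (t + g + z + (Q.map V4.b).sum)) : False := by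
  unfold rkC at hc
  rw [frL_eq] at hc
  have hr : Bt0 σ.rk0 σ.rk1 (z + (C1.sn (Q.map fun e => (e.s, e.b))).sum) := by
    rw [sn_k]
    exact i.irk
  obtain ⟨r1, -⟩ := rowC_sound (r := rw0 L.rk) hrow hstar S.s2 S.s1 S.r7 hc (sclL_len _ _) (sclL_len _ _) B.t0.le
    B.tt B.t1 B.gg B.g1
    (vzlt fun hV => (B.v hV).2.2.2.2.2.2.2.2.1) (vzle' fun hV => (B.v hV).2.2.2.2.2.2.2.2.1)
    (vz_le fun hV => (B.v hV).2.2.2.2.2.2.2.2.2)
    (vz0 _ _) i.it i.ig (B.bz' i) (B.bzb i) hr (val_k c) (prs_k c) (B.rst c i) i.is.2 mk (dk_pos c)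
    (by rw [dfk]; exact hd)
  exact rich_false r1 (phR_self _ _)

end

end B2
end Pool.Agent.Lib.MP_6947cd_al
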