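import Pool.Agent.Lib.MP_6947cd_al.Z.Lf5

/-!
Problem MP_6947cd_al (Chollet).  CASE B, middle second entry: soundness of the check of a leaf.
-/

set_option autoImplicit false
open Finset

namespace Pool.Agent.Lib.MP_6947cd_al
namespace B2

open Ent Ent.Pk Fr Fr.WT CC B1 PkA

/-- the weights for the actual statuses -/
def Lf2.lw (L : Lf2) (bj bk : Bool) (G5 : ℕ) : LW where
  K := L.K
  KJ := bif bj then 0 else L.KJ
  KK := bif bk then 0 else L.KK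
  lI := L.lI + ((bif bj then L.KJ else 0) + (bif bk then L.KK else 0))
  bJ := L.bJ
  bK := L.bK
  MJ := L.MJ
  TJ := L.TJ
  UJ := L.UJ
  MK := L.MK
  TK := L.TK
  UK := L.UK
  ct := L.ct
  Sl := L.Sl
  G5 := G5

lemma lw_kap (L : Lf2) (bj bk : Bool) (G5 : ℕ) : (L.lw bj bk G5).K + (L.lw bj bk G5).KJ + (L.lw bj bk G5).KK
    + (L.lw bj bk G5).lI = L.K + L.KJ + L.KK + L.lI := by
  unfold Lf2.lw
  cases bj <;> cases bk <;> simp only [cond_true, cond_false] <;> omega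

/-- rules of the payments -/
lemma rulC_sound {c K KJ bJ h0 : ℕ} (h : rulC c K KJ bJ h0 = true) {b : Bool} (hm : Mt c b) :
    (b = true → K = 0) ∧ (b = false → bJ * (1600 - h0) ≤ 3 * h0 * (K + KJ)) := by
  unfold rulC at h
  obtain ⟨h1, h2⟩ := an_true h
  constructor
  · intro hb
    rcases C1.cond_or h1 with h3 | h3
    · have := hm.2 (Nat.eq_of_beq_eq_true h3)
      rw [hb] at this
      exact absurd this (by simp)
    · exact beq0 h3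
  · intro hb
    cases hc : Nat.beq c (nat_lit 0) with
    | true =>
      have := hm.1 (Nat.eq_of_beq_eq_true hc)
      rw [hb] at this
      exact absurd this (by simp)
    | false =>
      rw [hc, cond_false] at h2
      exact Nat.le_of_ble_eq_true h2

lemma uC_sound {U r1 : ℕ} (h : uC U r1 = true) : U = 0 ∨ r1 ≠ 0 := by
  unfold uC at h
  rcases C1.cond_or h with h1 | h1
  · exact Or.inl (beq0 h1)
  · right
    intro h0
    rw [h0] at h1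
    exact absurd h1 (by simp)

lemma thC_sound {c a0 R Dh d : ℕ} (h : thC c a0 R Dh d = true) {b : Bool} (hm : Mt c b) (hb : b = false) :
    dT a0 R Dh ≤ d := by
  unfold thC at h
  rcases C1.cond_or h with h1 | h1
  · have := hm.1 (isB_eq h1)
    rw [hb] at this
    exact absurd this (by simp)
  · exact Nat.le_of_ble_eq_true h1

/-- the form of the result of the row `i` -/
def HI (L : Lf2) (σ : St) (W : WR) (Ls : List ℕ) (Dh : ℕ) (m : ℝ) (q : ℕ) (sa sb : ℝ) : Prop :=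
  ∀ bh bt bx br : Bool,
        UI ((W.w : ℝ) / 1000) ((W.kap : ℝ) / 1000) ((W.G5 : ℝ) / 100000)
        (((C1.cv (L.lb σ).H0 (L.lb σ).H1 bh : ℕ) : ℝ) / 400) (((C1.cv (L.lb σ).T0 (L.lb σ).T1 bt : ℕ) : ℝ) / 400)
        (((C1.cv (L.lb σ).X0 (L.lb σ).X1 bx : ℕ) : ℝ) / 400)
        ((bif br then sb - q * m else sa - q * m) ::ₘ Multiset.replicate q m)
      + ((W.w3 : ℝ) / 1000 * (43 / 200 * ((bif br then sb - q * m else sa - q * m) + q * m)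
        + 39 / 200 * ((bif br then sb - q * m else sa - q * m) ^ 2 + q * m ^ 2))
      + ((W.Sl : ℝ) / 1000000 + (W.M : ℝ) / 1000) * ((bif br then sb - q * m else sa - q * m) + q * m))
      ≤ ((Ls.getD (ix bh bt (σ.V && bx)) 0 : ℝ) - OFF) / 8000000000000000 ∧
      FM (1 ::ₘ (((C1.cv (L.lb σ).H0 (L.lb σ).H1 bh : ℕ) : ℝ) / 400)
        ::ₘ (((C1.cv (L.lb σ).T0 (L.lb σ).T1 bt : ℕ) : ℝ) / 400)
        ::ₘ (((C1.cv (L.lb σ).X0 (L.lb σ).X1 bx : ℕ) : ℝ) / 400) ::ₘ (bif br then sb - q * m else sa - q * m)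
        ::ₘ Multiset.replicate q m)
      - Wc ((((C1.cv (L.lb σ).H0 (L.lb σ).H1 bh : ℕ) : ℝ) / 400) + (((C1.cv (L.lb σ).T0 (L.lb σ).T1 bt : ℕ) : ℝ) / 400)
        + (((C1.cv (L.lb σ).X0 (L.lb σ).X1 bx : ℕ) : ℝ) / 400)
        + ((bif br then sb - q * m else sa - q * m) ::ₘ Multiset.replicate q m).sum) ≤ (Dh : ℝ) / 80000000

section

variable {L : Lf2} {σ : St} {bj bk : Bool} {T0 T1 m h t g x y z uk uv : ℝ} {Q : Multiset V4} {Gj Gk Gv : ℝ}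

/-- thresholds -/
theorem thr_lf (S : SpB) (B : Bas L.q L.Y0 L.Y1 L.Z0 L.Z1 σ) (c : Cfg bj bk T0 T1 m h t g x y z uk uv Q Gj Gk Gv)
    (i : In σ m h t g x y z uv Q Gv) (mj : Mt σ.bj bj) (mk : Mt σ.bk bk) {W : WR} {Ls : List ℕ} {Dh : ℕ} {mr : ℝ}
    {q : ℕ} {sa sb : ℝ} (sg : Seg mr q sa sb (Q.map V4.s)) (hI : HI L σ W Ls Dh mr q sa sb) {Rj Rk : ℕ}
    (eRj : Rj = oth σ.bk σ.g1 σ.t1 + (vz σ.V σ.x1 + σ.s1)) (eRk : Rk = oth σ.bj σ.g1 σ.h1 + (vz σ.V σ.x1 + σ.s1)) :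
    (thC σ.bj σ.h0 Rj Dh L.rj.d = true → -((L.rj.d : ℝ) / 10 ^ 7) < Gj - What (h + g + y + (Q.map V4.a).sum)) ∧
    (thC σ.bk σ.t0 Rk Dh L.rk.d = true → -((L.rk.d : ℝ) / 10 ^ 7) < Gk - What (t + g + z + (Q.map V4.b).sum)) ∧
    (Dh = 0 → False) := by
  have hD := fun bh bt bx br => (hI bh bt bx br).2
  have htb : bk = true → 3 / 10 ≤ g → (L.lb σ).T1 ≤ oth σ.bk σ.g1 σ.t1 := fun hb h3 => oth_ok mk i.ig.2 hb h3
  have hhb : bj = true → 3 / 10 ≤ g → (L.lb σ).H1 ≤ oth σ.bj σ.g1 σ.h1 := fun hb h3 => oth_ok mj i.ig.2 hb h3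
  have key := fun (dj dk : ℕ) (hj : bj = false → dT σ.h0 Rj Dh ≤ dj) (hk : bk = false → dT σ.t0 Rk Dh ≤ dk) =>
    thr_jk S.r c (B.box i) B.R400 B.h0 B.t0 i.is B.tot sg hD htb hhb (dj := dj) (dk := dk)
      (by rw [eRj] at hj; exact hj) (by rw [eRk] at hk; exact hk)
  refine ⟨fun hc => ?_, fun hc => ?_, fun h0 => ?_⟩
  · exact (key L.rj.d (dT σ.t0 Rk Dh) (thC_sound hc mj) fun _ => le_rfl).1
  · exact (key (dT σ.h0 Rj Dh) L.rk.d (fun _ => le_rfl) (thC_sound hc mk)).2.1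
  · obtain ⟨D, h1, h2⟩ := (key (dT σ.h0 Rj Dh) (dT σ.t0 Rk Dh) (fun _ => le_rfl) fun _ => le_rfl).2.2
    rw [h0, Nat.cast_zero, zero_div] at h2
    have := c.di
    linarith

/-- THE MAIN LEAF -/
theorem mainC_sound (S : SpB) {row : RowFn} {star : StarFn} (hrow : row.OK) (hstar : star.OK)
    (B : Bas L.q L.Y0 L.Y1 L.Z0 L.Z1 σ) (c : Cfg bj bk T0 T1 m h t g x y z uk uv Q Gj Gk Gv)
    (i : In σ m h t g x y z uv Q Gv) (hT : 3 / 10 ≤ T0) (mj : Mt σ.bj bj) (mk : Mt σ.bk bk) {Ls : List ℕ} {Dh : ℕ}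
    {mr : ℝ} {q : ℕ} {sa sb : ℝ} {Rj Rk w G5 : ℕ}
    (eRj : Rj = oth σ.bk σ.g1 σ.t1 + (vz σ.V σ.x1 + σ.s1)) (eRk : Rk = oth σ.bj σ.g1 σ.h1 + (vz σ.V σ.x1 + σ.s1))
    (ew : w = L.P.w3 + L.P.wP + L.P.wA)
    (eG : G5 = g5 σ.t0 (L.K * (vz σ.V σ.x1 + σ.s1) + L.KK * Rk) + g5 σ.h0 (L.KJ * Rj))
    (sg : Seg mr q sa sb (Q.map V4.s))
    (hI : HI L σ ⟨w, L.K + L.KJ + L.KK + L.lI, L.P.w3, G5, L.Sl, L.MJ + L.MK + L.ct⟩ Ls Dh mr q sa sb)
    (hc : mainC row star L σ Rj Rk w Ls Dh = true) : False := by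
  unfold mainC at hc
  obtain ⟨a1, hc⟩ := an_true hc
  obtain ⟨a2, hc⟩ := an_true hc
  obtain ⟨a3, hc⟩ := an_true hc
  obtain ⟨a4, hc⟩ := an_true hc
  obtain ⟨a5, hc⟩ := an_true hc
  obtain ⟨a6, hc⟩ := an_true hc
  obtain ⟨a7, hc⟩ := an_true hc
  obtain ⟨a8, hc⟩ := an_true hc
  obtain ⟨a9, hc⟩ := an_true hc
  obtain ⟨a10, a11⟩ := an_true hc
  obtain ⟨t1, t2, -⟩ := thr_lf S B c i mj mk sg hI eRj eRk
  obtain ⟨ksj, φj, r1, f1⟩ := mjC_sound S hrow hstar B c i mj a10 (t1 a1)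
  obtain ⟨ksk, φk, r2, f2⟩ := mkC_sound S hrow hstar B c i mk a11
    (fun hE => by rw [hE, cond_true] at a2; exact a2)
    (fun hE => by rw [hE, cond_false] at a2; exact t2 a2)
  -- the function
  have gm1 := i.gm1
  have gm2 := i.gm2
  obtain ⟨ck, hgk⟩ := c.geok
  obtain ⟨cv', hgv⟩ := c.geov
  obtain ⟨U, Uv, fok⟩ : ∃ (U Uv : (Fin 6 → ℝ) → ℝ), FOK (L.lb σ) L.P h t g x y uk uv Gv U Uv (fnN L.F.VU)
      (fun e0 e3 e4 => cond σ.V (fnN L.F.VV e0 e3 e4) 1000000) := by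
    cases hV : σ.V with
    | true =>
      rw [hV, cond_true] at a8
      exact ⟨_, _, chkFV_sound a8 (B.box i) hgk hgv gm1 gm2⟩
    | false =>
      rw [hV, cond_false] at a8
      obtain ⟨n1, n2, n3, n4⟩ := i.nv hV
      exact ⟨_, _, chkFN_sound a8 (B.box i) hgk (by rw [n4]) (by rw [n2]) gm1 gm2⟩
  -- the linear part
  obtain ⟨l, lp, ln, hfin, hcut⟩ := mkLC_sound a9 hT c
  have hpos : 0 < L.P.w3 + L.P.wP + L.P.wA := by
    have h1 : 1 ≤ w := Nat.le_of_ble_eq_true a7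
    omega
  have ewR : (w : ℝ) / 1000 = (L.P.w3 : ℝ) / 1000 + ((L.P.wP : ℝ) / 1000 + (L.P.wA : ℝ) / 1000) := by
    rw [ew]
    push_cast
    ring
  rw [ewR] at r1
  obtain ⟨u1, u2⟩ := rulC_sound a3 mj
  obtain ⟨v1, v2⟩ := rulC_sound a4 mk
  have eW : (L.lw bj bk G5).wr L.P = ⟨w, L.K + L.KJ + L.KK + L.lI, L.P.w3, G5, L.Sl, L.MJ + L.MK + L.ct⟩ := by
    unfold LW.wr
    rw [lw_kap, ew]
    rfl
  have hlb : σ.V = false → (L.lb σ).X0 = 0 ∧ (L.lb σ).X1 = 0 ∧ (L.lb σ).Y0 = 0 ∧ (L.lb σ).Y1 = 0 ∧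
      (L.lb σ).Z0 = 0 ∧ (L.lb σ).Z1 = 0 := by
    intro hV
    unfold Lf2.lb
    rw [hV]
    exact ⟨rfl, rfl, rfl, rfl, rfl, rfl⟩
  refine leafF S.r c (L.lb σ) (B.box i) B.R400 B.h0 B.t0 B.th L.P (L.lw bj bk G5) hpos
    (rj := fun a b c => L.rj.R.getD (ix a b (σ.V && c)) 0)
    (rk := fun a b c => (cond L.E [] L.rk.R).getD (ix a b (σ.V && c)) 0) (Oj := L.Oj) (Ok := cond L.E 0 L.Ok)
    r1 r2 f1 f2 i.irj i.irk (uC_sound a5) (uC_sound a6) (x0 := vz σ.V σ.x0) (B.bx i).1 i.is B.tot sg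
    (Li := fun a b c => Ls.getD (ix a b (σ.V && c)) 0) (Dh := Dh) (by rw [eW]; exact hI) ?_ ?_ ?_ ?_
    (tb := oth σ.bk σ.g1 σ.t1) (hb' := oth σ.bj σ.g1 σ.h1)
    (fun hb h3 => oth_ok mk i.ig.2 hb h3) (fun hb h3 => oth_ok mj i.ig.2 hb h3) ?_ fok hcut ?_
  · intro hb
    refine ⟨u1 hb, ?_⟩
    rw [hb]
    rfl
  · intro hb
    refine ⟨v1 hb, ?_⟩
    rw [hb]
    rfl
  · intro hb
    have := u2 hb
    rw [hb]
    exact this
  · intro hb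
    have := v2 hb
    rw [hb]
    exact this
  · -- the weight of the defect
    have H0 : σ.h0 ≤ 400 := B.hh.le.trans B.h1
    have T0 : σ.t0 ≤ 400 := B.tt.le.trans B.t1
    have p1 := g5_ge (R := L.K * (vz σ.V σ.x1 + σ.s1) + L.KK * Rk) (lt_trans (by norm_num) B.t0) T0
    have p2 := g5_ge (R := L.KJ * Rj) (lt_trans (by norm_num) B.h0) H0
    have p3 : (G5 : ℝ) = (g5 σ.t0 (L.K * (vz σ.V σ.x1 + σ.s1) + L.KK * Rk) : ℕ) + (g5 σ.h0 (L.KJ * Rj) : ℕ) := by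
      rw [eG]
      push_cast
      rfl
    have HH : (0 : ℝ) < (σ.h0 : ℝ) * (1600 - σ.h0) := by
      have h1 : (0 : ℝ) < σ.h0 := by exact_mod_cast lt_trans (by norm_num) B.h0
      have h2 : (σ.h0 : ℝ) ≤ 400 := by exact_mod_cast H0
      exact mul_pos h1 (by linarith)
    have TT : (0 : ℝ) < (σ.t0 : ℝ) * (1600 - σ.t0) := by
      have h1 : (0 : ℝ) < σ.t0 := by exact_mod_cast lt_trans (by norm_num) B.t0
      have h2 : (σ.t0 : ℝ) ≤ 400 := by exact_mod_cast T0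
      exact mul_pos h1 (by linarith)
    show 160000 * ((L.K : ℝ) * (((vz σ.V σ.x1 : ℕ) : ℝ) + σ.s1) + ((bif bk then 0 else L.KK : ℕ) : ℝ)
      * (((oth σ.bj σ.g1 σ.h1 : ℕ) : ℝ) + ((vz σ.V σ.x1 : ℕ) : ℝ) + σ.s1)) / ((σ.t0 : ℝ) * (1600 - σ.t0))
      + 160000 * (((bif bj then 0 else L.KJ : ℕ) : ℝ) * (((oth σ.bk σ.g1 σ.t1 : ℕ) : ℝ) + ((vz σ.V σ.x1 : ℕ) : ℝ)
        + σ.s1)) / ((σ.h0 : ℝ) * (1600 - σ.h0)) ≤ (G5 : ℝ)
    rw [p3]
    have kk : ((bif bk then 0 else L.KK : ℕ) : ℝ) ≤ L.KK := by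
      cases bk
      · exact le_rfl
      · simp
    have kj : ((bif bj then 0 else L.KJ : ℕ) : ℝ) ≤ L.KJ := by
      cases bj
      · exact le_rfl
      · simp
    refine add_le_add (le_trans (div_le_div_of_nonneg_right ?_ TT.le) p1) (le_trans (div_le_div_of_nonneg_right ?_ HH.le) p2)
    · rw [eRk]
      push_cast
      have n0 : (0 : ℝ) ≤ ((oth σ.bj σ.g1 σ.h1 : ℕ) : ℝ) + ((vz σ.V σ.x1 : ℕ) : ℝ) + σ.s1 := by positivity
      have := mul_le_mul_of_nonneg_right kk n0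
      linarith
    · rw [eRj]
      push_cast
      have n0 : (0 : ℝ) ≤ ((oth σ.bk σ.g1 σ.t1 : ℕ) : ℝ) + ((vz σ.V σ.x1 : ℕ) : ℝ) + σ.s1 := by positivity
      have := mul_le_mul_of_nonneg_right kj n0
      linarith
  · intro e0 e1 e2 e3 e4 e5
    exact finC_sound hfin hlb e0 e1 e2 e3 e4 e5

/-- THE CHECK OF A LEAF, soundness -/
theorem lfC_sound (S : SpB) {cor : CorFn} {row : RowFn} {star : StarFn} (hcor : cor.OK) (hrow : row.OK)
    (hstar : star.OK) {L : Lf2} {σ : St} (hc : lfC cor row star L σ = true) : Dead σ := by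
  unfold lfC at hc
  rw [frT_eq] at hc
  obtain ⟨hB, hc⟩ := an_true hc
  have B := basC_sound hB
  simp only [frc_eq] at hc
  obtain ⟨Ls, Dh, hk, hM⟩ := rowI_lf hcor B hc
  intro bj bk T0 T1 m h t g x y z uk uv Q Gj Gk Gv mj mk hT c i
  obtain ⟨mr, q, sa, sb, sg, hI⟩ := hM (Q.map V4.s) (B.rst c i) i.is.1 i.is.2
  have key := thr_lf (Rj := oth σ.bk σ.g1 σ.t1 + (vz σ.V σ.x1 + σ.s1))
    (Rk := oth σ.bj σ.g1 σ.h1 + (vz σ.V σ.x1 + σ.s1)) S B c i mj mk sg hI rfl rfl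
  obtain ⟨t1, t2, t3⟩ := key
  cases k0 : Nat.beq L.kd (nat_lit 0) with
  | true =>
    rw [k0, cond_true] at hk
    exact mainC_sound S hrow hstar B c i hT mj mk rfl rfl rfl rfl sg hI hk
  | false =>
    rw [k0, cond_false] at hk
    cases k1 : Nat.beq L.kd (nat_lit 1) with
    | true =>
      rw [k1, cond_true] at hk
      exact t3 (beq0 hk)
    | false =>
      rw [k1, cond_false] at hk
      cases k2 : Nat.beq L.kd (nat_lit 2) with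
      | true =>
        rw [k2, cond_true] at hk
        obtain ⟨b1, b2⟩ := an_true hk
        exact rjC_sound S hrow hstar B c i mj b2 (t1 b1)
      | false =>
        rw [k2, cond_false] at hk
        obtain ⟨b1, b2⟩ := an_true hk
        exact rkC_sound S hrow hstar B c i mk b2 (t2 b1)

end

end B2
end Pool.Agent.Lib.MP_6947cd_al
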