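import Pool.Agent.Lib.MP_6947cd_al.Z.LeafF

/-!
Problem MP_6947cd_al (Chollet).  CASE B, middle second entry: the linear part of a leaf (lines of the triples, order).
-/

set_option autoImplicit false
open Finset

namespace Pool.Agent.Lib.MP_6947cd_al
namespace B2

open Ent Ent.Pk Fr Fr.WT CC B1 PkA

/-- a line: code of the triple, `p q r`, weight -/
structure Lq where
  n : ℕ
  p : ℕ
  q : ℕ
  r : ℕ
  w : ℕ

/-- an expanded line: `0 ≤ lp - ln + wc C - wa A - wb B` (unit `1 / 400`) -/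
structure EL where
  a : ℕ
  b : ℕ
  c : ℕ
  wa : ℕ
  wb : ℕ
  wc : ℕ
  lp : ℕ
  ln : ℕ

/-- expansion of a line -/
def Lq.ex (l : Lq) (k : EL → Bool) : Bool :=
  frc (trc l.n).1 fun a => frc (trc l.n).2.1 fun b => frc (trc l.n).2.2 fun c =>
  frc (Nat.mul (nat_lit 4) (Nat.mul l.w (Nat.mul l.p l.r))) fun wa =>
  frc (Nat.mul (nat_lit 4) (Nat.mul l.w (Nat.mul l.q l.r))) fun wb =>
  frc (Nat.mul (nat_lit 4) (Nat.mul l.w (Nat.mul l.p l.q))) fun wc =>
  frc (Nat.mul (Nat.mul (nat_lit 400) l.w) (Nat.add (Nat.add (Nat.add (Nat.mul l.p l.p) (Nat.mul l.q l.q)) (Nat.mul l.r l.r))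
    (Nat.add (Nat.mul (nat_lit 2) (Nat.mul l.p l.r)) (Nat.mul (nat_lit 2) (Nat.mul l.q l.r))))) fun lp =>
  frc (Nat.mul (nat_lit 800) (Nat.mul l.w (Nat.mul l.p l.q))) fun ln => k ⟨a, b, c, wa, wb, wc, lp, ln⟩

/-- the value of an expanded line at a point -/
noncomputable def EL.V (l : EL) (v : ℕ → ℝ) : ℝ :=
  (l.lp : ℝ) - l.ln + l.wc * (400 * v l.c) - l.wa * (400 * v l.a) - l.wb * (400 * v l.b)

structure EL.OK (l : EL) (v : ℕ → ℝ) : Prop where
  a : l.a < 6
  b : l.b < 6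
  c : l.c < 6
  v : 0 ≤ l.V v

lemma trc_lt6 (n : ℕ) : (trc n).1 < 6 ∧ (trc n).2.1 < 6 ∧ (trc n).2.2 < 6 := by
  unfold trc
  split <;> decide

lemma Lq.ex_sound {l : Lq} {k : EL → Bool} (hk : l.ex k = true) {bj bk : Bool} {T0 T1 m h t g x y z uk uv : ℝ}
    {Q : Multiset V4} {Gj Gk Gv : ℝ} (hT : 3 / 10 ≤ T0) (c : Cfg bj bk T0 T1 m h t g x y z uk uv Q Gj Gk Gv) :
    ∃ e : EL, k e = true ∧ e.OK (cv h t g x y z Q) := by
  unfold Lq.ex at hk
  simp only [frc_eq] at hk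
  refine ⟨_, hk, (trc_lt6 l.n).1, (trc_lt6 l.n).2.1, (trc_lt6 l.n).2.2, ?_⟩
  have h1 := line_code hT c l.n l.p l.q l.r
  have h2 := mul_le_mul_of_nonneg_left h1 (Nat.cast_nonneg (α := ℝ) l.w)
  unfold EL.V
  simp only [Nat.mul_eq, Nat.add_eq]
  push_cast
  generalize cv h t g x y z Q (trc l.n).1 = X at h2 ⊢
  generalize cv h t g x y z Q (trc l.n).2.1 = Y at h2 ⊢
  generalize cv h t g x y z Q (trc l.n).2.2 = Z at h2 ⊢
  nlinarith [h2]

/-- expansion of all the lines -/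
noncomputable def exA (ls : List Lq) : (List EL → Bool) → Bool :=
  @List.rec Lq (fun _ => (List EL → Bool) → Bool) (fun k => k []) (fun l _ ih k => l.ex fun e => ih fun es => k (e :: es)) ls

lemma exA_sound {ls : List Lq} {bj bk : Bool} {T0 T1 m h t g x y z uk uv : ℝ}
    {Q : Multiset V4} {Gj Gk Gv : ℝ} (hT : 3 / 10 ≤ T0) (c : Cfg bj bk T0 T1 m h t g x y z uk uv Q Gj Gk Gv) :
    ∀ {k : List EL → Bool}, exA ls k = true → ∃ es : List EL, k es = true ∧ ∀ e ∈ es, e.OK (cv h t g x y z Q) := by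
  induction ls with
  | nil => intro k hk; exact ⟨[], hk, fun e he => absurd he (by simp)⟩
  | cons l ls ih =>
    intro k hk
    have e : exA (l :: ls) k = l.ex fun e => exA ls fun es => k (e :: es) := rfl
    rw [e] at hk
    obtain ⟨e1, h1, h2⟩ := Lq.ex_sound hk hT c
    obtain ⟨es, h3, h4⟩ := ih h1
    refine ⟨e1 :: es, h3, fun e' he' => ?_⟩
    rcases List.mem_cons.mp he' with rfl | he'
    · exact h2
    · exact h4 e' he'

/-- positive and negative part of the coefficient of the coordinate `c` -/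
noncomputable def lpos (es : List EL) (c : ℕ) : ℕ :=
  @List.rec EL (fun _ => ℕ) (nat_lit 0) (fun e _ ih => Nat.add (cond (Nat.beq c e.c) e.wc (nat_lit 0)) ih) es
noncomputable def lneg (es : List EL) (c : ℕ) : ℕ :=
  @List.rec EL (fun _ => ℕ) (nat_lit 0) (fun e _ ih => Nat.add (cond (Nat.beq c e.a) e.wa (nat_lit 0))
    (Nat.add (cond (Nat.beq c e.b) e.wb (nat_lit 0)) ih)) es
noncomputable def slp (es : List EL) : ℕ := @List.rec EL (fun _ => ℕ) (nat_lit 0) (fun e _ ih => Nat.add e.lp ih) es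
noncomputable def sln (es : List EL) : ℕ := @List.rec EL (fun _ => ℕ) (nat_lit 0) (fun e _ ih => Nat.add e.ln ih) es

lemma cnd (c d w : ℕ) : ((cond (Nat.beq c d) w 0 : ℕ) : ℝ) = if c = d then (w : ℝ) else 0 := by
  by_cases hc : c = d
  · rw [if_pos hc, show Nat.beq c d = true from Nat.beq_eq.mpr hc, cond_true]
  · rw [if_neg hc, show Nat.beq c d = false by rw [← Bool.not_eq_true, Nat.beq_eq]; exact hc, cond_false,
      Nat.cast_zero]

lemma lpos_cons (e : EL) (es : List EL) (c : ℕ) : ((lpos (e :: es) c : ℕ) : ℝ)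
    = (if c = e.c then (e.wc : ℝ) else 0) + lpos es c := by
  have h : lpos (e :: es) c = cond (Nat.beq c e.c) e.wc 0 + lpos es c := rfl
  rw [h, Nat.cast_add, cnd]

lemma lneg_cons (e : EL) (es : List EL) (c : ℕ) : ((lneg (e :: es) c : ℕ) : ℝ)
    = (if c = e.a then (e.wa : ℝ) else 0) + ((if c = e.b then (e.wb : ℝ) else 0) + lneg es c) := by
  have h : lneg (e :: es) c = cond (Nat.beq c e.a) e.wa 0 + (cond (Nat.beq c e.b) e.wb 0 + lneg es c) := rfl
  rw [h, Nat.cast_add, Nat.cast_add, cnd, cnd]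

lemma six {c : ℕ} (hc : c < 6) (w : ℝ) (v : ℕ → ℝ) : (if 0 = c then w else 0) * (400 * v 0)
    + (if 1 = c then w else 0) * (400 * v 1) + (if 2 = c then w else 0) * (400 * v 2)
    + (if 3 = c then w else 0) * (400 * v 3) + (if 4 = c then w else 0) * (400 * v 4)
    + (if 5 = c then w else 0) * (400 * v 5) = w * (400 * v c) := by
  interval_cases c <;> simp

/-- the sum of the lines is nonnegative -/
lemma sum_lines {v : ℕ → ℝ} (es : List EL) : (∀ e ∈ es, e.OK v) →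
    0 ≤ ((slp es : ℝ) - sln es) + ((lpos es 0 : ℝ) - lneg es 0) * (400 * v 0)
      + ((lpos es 1 : ℝ) - lneg es 1) * (400 * v 1) + ((lpos es 2 : ℝ) - lneg es 2) * (400 * v 2)
      + ((lpos es 3 : ℝ) - lneg es 3) * (400 * v 3) + ((lpos es 4 : ℝ) - lneg es 4) * (400 * v 4)
      + ((lpos es 5 : ℝ) - lneg es 5) * (400 * v 5) := by
  induction es with
  | nil =>
    intro _
    have h : ∀ c, lpos [] c = 0 := fun _ => rfl
    have h' : ∀ c, lneg [] c = 0 := fun _ => rfl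
    rw [h, h, h, h, h, h, h', h', h', h', h', h', show slp [] = 0 from rfl, show sln [] = 0 from rfl]
    simp
  | cons e es ih =>
    intro hes
    have h1 := ih fun e' he' => hes e' (List.mem_cons_of_mem _ he')
    obtain ⟨ha, hb, hc, hv⟩ := hes e (List.mem_cons_self ..)
    have s1 := six ha (e.wa : ℝ) v
    have s2 := six hb (e.wb : ℝ) v
    have s3 := six hc (e.wc : ℝ) v
    have e1 : slp (e :: es) = e.lp + slp es := rfl
    have e2 : sln (e :: es) = e.ln + sln es := rfl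
    rw [e1, e2, Nat.cast_add, Nat.cast_add]
    simp only [lpos_cons, lneg_cons]
    unfold EL.V at hv
    linarith

/-- the coefficients of a leaf -/
noncomputable def mkLC (om ct TJ UJ TK UK : ℕ) (es : List EL) (k : LC → ℕ → ℕ → Bool) : Bool :=
  frc (Nat.add om (lpos es (nat_lit 0))) fun hp => frc (lneg es (nat_lit 0)) fun hn =>
  frc (lpos es (nat_lit 1)) fun tp => frc (Nat.add om (lneg es (nat_lit 1))) fun tn =>
  frc (lpos es (nat_lit 2)) fun gp => frc (lneg es (nat_lit 2)) fun gn =>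
  frc (Nat.add (Nat.mul (nat_lit 20000000000) ct) (lpos es (nat_lit 3))) fun xp => frc (lneg es (nat_lit 3)) fun xn =>
  frc (Nat.add (Nat.mul (nat_lit 20000000000) TJ) (lpos es (nat_lit 4))) fun yp =>
  frc (Nat.add (Nat.mul (nat_lit 20000000000) UJ) (lneg es (nat_lit 4))) fun yn =>
  frc (Nat.add (Nat.mul (nat_lit 20000000000) TK) (lpos es (nat_lit 5))) fun zp =>
  frc (Nat.add (Nat.mul (nat_lit 20000000000) UK) (lneg es (nat_lit 5))) fun zn =>
  frc (slp es) fun lp => frc (sln es) fun ln => k ⟨hp, hn, tp, tn, gp, gn, xp, xn, yp, yn, zp, zn⟩ lp ln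

/-- THE LINEAR PART, soundness -/
theorem mkLC_sound {om ct TJ UJ TK UK : ℕ} {ls : List Lq} {k : LC → ℕ → ℕ → Bool}
    (hk : exA ls (fun es => mkLC om ct TJ UJ TK UK es k) = true) {bj bk : Bool} {T0 T1 m h t g x y z uk uv : ℝ}
    {Q : Multiset V4} {Gj Gk Gv : ℝ} (hT : 3 / 10 ≤ T0) (c : Cfg bj bk T0 T1 m h t g x y z uk uv Q Gj Gk Gv) :
    ∃ l lp ln, k l lp ln = true ∧ ((TJ : ℝ) - UJ) / 1000 * y + ((TK : ℝ) - UK) / 1000 * z + (ct : ℝ) / 1000 * x
      ≤ cutF l lp ln (vec h t g x y z) := by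
  obtain ⟨es, h1, h2⟩ := exA_sound hT c hk
  unfold mkLC at h1
  simp only [frc_eq] at h1
  refine ⟨_, _, _, h1, ?_⟩
  have h3 := sum_lines es h2
  have h4 := mul_nonneg (Nat.cast_nonneg (α := ℝ) om) (sub_nonneg.mpr c.th)
  have v0 : cv h t g x y z Q 0 = h := rfl
  have v1 : cv h t g x y z Q 1 = t := rfl
  have v2 : cv h t g x y z Q 2 = g := rfl
  have v3 : cv h t g x y z Q 3 = x := rfl
  have v4 : cv h t g x y z Q 4 = y := rfl
  have v5 : cv h t g x y z Q 5 = z := rfl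
  rw [v0, v1, v2, v3, v4, v5] at h3
  unfold cutF
  have w0 : vec h t g x y z 0 = h := rfl
  have w1 : vec h t g x y z 1 = t := rfl
  have w2 : vec h t g x y z 2 = g := rfl
  have w3 : vec h t g x y z 3 = x := rfl
  have w4 : vec h t g x y z 4 = y := rfl
  have w5 : vec h t g x y z 5 = z := rfl
  rw [w0, w1, w2, w3, w4, w5, le_div_iff₀ (by norm_num)]
  simp only [Nat.mul_eq, Nat.add_eq]
  push_cast
  linarith

end B2
end Pool.Agent.Lib.MP_6947cd_al
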