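import Pool.Agent.Lib.MP_6947cd_al.Z.Side2
import Pool.Agent.Lib.MP_6947cd_al.L.CellD

/-!
Problem MP_6947cd_al (Chollet).  Majorants on a grid of step `1 / 20`: functions which are convex on the pieces of the
grid lie below a piecewise linear function, check at the nodes of the grid.
-/

set_option autoImplicit false
open Finset

namespace Pool.Agent.Lib.MP_6947cd_al
namespace B2

open Ent Ent.Pk Fr Fr.WT PkA B1

/-- convex (chord form) on the pieces of the grid -/
def CG (n : ℕ) (f : ℝ → ℝ) : Prop := ∀ i < n, ∀ x, (i : ℝ) / 20 ≤ x → x ≤ ((i : ℝ) + 1) / 20 →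
  f x ≤ (1 - (20 * x - i)) * f ((i : ℝ) / 20) + (20 * x - i) * f (((i : ℝ) + 1) / 20)

/-- affine on the pieces of the grid -/
def AG (n : ℕ) (f : ℝ → ℝ) : Prop := ∀ i < n, ∀ x, (i : ℝ) / 20 ≤ x → x ≤ ((i : ℝ) + 1) / 20 →
  f x = (1 - (20 * x - i)) * f ((i : ℝ) / 20) + (20 * x - i) * f (((i : ℝ) + 1) / 20)

lemma AG.cg {n : ℕ} {f : ℝ → ℝ} (h : AG n f) : CG n f := fun i hi x h0 h1 => (h i hi x h0 h1).le

lemma CG.add {n : ℕ} {f g : ℝ → ℝ} (hf : CG n f) (hg : CG n g) : CG n fun x => f x + g x := by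
  intro i hi x h0 h1
  have a := hf i hi x h0 h1
  have b := hg i hi x h0 h1
  beta_reduce
  linarith

lemma CG.smul {n : ℕ} {f : ℝ → ℝ} {c : ℝ} (hc : 0 ≤ c) (hf : CG n f) : CG n fun x => c * f x := by
  intro i hi x h0 h1
  have a := mul_le_mul_of_nonneg_left (hf i hi x h0 h1) hc
  beta_reduce
  linarith

lemma AG.add {n : ℕ} {f g : ℝ → ℝ} (hf : AG n f) (hg : AG n g) : AG n fun x => f x + g x := by
  intro i hi x h0 h1
  have a := hf i hi x h0 h1
  have b := hg i hi x h0 h1
  beta_reduce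
  linarith

lemma AG.smul {n : ℕ} {f : ℝ → ℝ} (c : ℝ) (hf : AG n f) : AG n fun x => c * f x := by
  intro i hi x h0 h1
  beta_reduce
  rw [hf i hi x h0 h1]
  ring

lemma AG.zero (n : ℕ) : AG n fun _ => 0 := by
  intro i hi x h0 h1
  ring

lemma AG.id (n : ℕ) : AG n fun x => x := by
  intro i hi x h0 h1
  ring

lemma CG.omg (n : ℕ) : CG n omg := by
  intro i hi x h0 h1
  have a : 0 ≤ 20 * x - i := by linarith
  have b : 20 * x - i ≤ 1 := by linarith
  unfold Fr.omg
  nlinarith [mul_nonneg a (sub_nonneg.mpr b)]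

lemma AG.of {n : ℕ} {f : ℝ → ℝ} (h : ∀ i < n, ∃ α β : ℝ, ∀ x, (i : ℝ) / 20 ≤ x → x ≤ ((i : ℝ) + 1) / 20 →
    f x = α * x + β) : AG n f := by
  intro i hi x h0 h1
  obtain ⟨α, β, h⟩ := h i hi
  rw [h x h0 h1, h _ le_rfl (by linarith), h _ (by linarith) le_rfl]
  ring

/-- knots on the grid -/
lemma AG.of_aff {f : ℝ → ℝ} : ∀ (ks : List ℝ) (A : ℕ), Inc ((A : ℝ) / 20) ks →
    (∀ k ∈ ks, ∃ K : ℕ, k = (K : ℝ) / 20) → Aff f ((A : ℝ) / 20) ks → ∀ i : ℕ, A ≤ i →
    ((i : ℝ) + 1) / 20 ≤ top ((A : ℝ) / 20) ks →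
    ∃ α β : ℝ, ∀ x, (i : ℝ) / 20 ≤ x → x ≤ ((i : ℝ) + 1) / 20 → f x = α * x + β := by
  intro ks
  induction ks with
  | nil =>
    intro A _ _ _ i hi h
    exfalso
    have : (A : ℝ) ≤ i := by exact_mod_cast hi
    simp only [top] at h
    linarith
  | cons k ks ih =>
    intro A hinc hk haff i hi h
    obtain ⟨K, rfl⟩ := hk k List.mem_cons_self
    rcases lt_or_ge i K with hK | hK
    · obtain ⟨α, β, h2⟩ := haff.1
      refine ⟨α, β, fun x hx hx' => h2 x ?_ ?_⟩
      · have : (A : ℝ) ≤ i := by exact_mod_cast hi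
        linarith
      · have : (i : ℝ) + 1 ≤ K := by exact_mod_cast hK
        linarith
    · exact ih K hinc.2 (fun k hk' => hk k (List.mem_cons_of_mem _ hk')) haff.2 i hK h

/-! ### the check -/

/-- one piece: the nodes `A + d`, `A + d - 1`, .., `A` -/
def segL (g : ℕ → ℕ) (A K vA vK : ℕ) : ℕ → Bool
  | 0 => Nat.ble (Nat.mul (Nat.sub K A) (g A)) (Nat.mul (Nat.sub K A) vA)
  | d + 1 => Nat.ble (Nat.mul (Nat.sub K A) (g (Nat.add A (d + 1))))
      (Nat.add (Nat.mul (Nat.sub K (Nat.add A (d + 1))) vA) (Nat.mul (d + 1) vK)) && segL g A K vA vK d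

lemma segL_sound (g : ℕ → ℕ) (A K vA vK : ℕ) : ∀ d, segL g A K vA vK d = true → ∀ e ≤ d,
    (K - A) * g (A + e) ≤ (K - (A + e)) * vA + e * vK := by
  intro d
  induction d with
  | zero =>
    intro h e he
    have : e = 0 := by omega
    subst this
    have := Nat.le_of_ble_eq_true h
    simpa using this
  | succ d ih =>
    intro h e he
    unfold segL at h
    rw [Bool.and_eq_true] at h
    rcases Nat.lt_or_ge e (d + 1) with h1 | h1
    · exact ih h.2 e (by omega)
    · have : e = d + 1 := by omega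
      subst this
      exact Nat.le_of_ble_eq_true h.1

/-- all the pieces; `A`, `vA` = the left end -/
def ppOK (g : ℕ → ℕ) (n : ℕ) : ℕ → ℕ → List ℕ → List ℕ → Bool
  | A, vA, [], [] => Nat.ble (g A) vA
  | A, vA, k :: ks, v :: vs => (Nat.beq k (Nat.mul 10 (Nat.div k 10)) && (Nat.blt A (Nat.div k 10) &&
      (Nat.ble (Nat.div k 10) n && segL g A (Nat.div k 10) vA v (Nat.sub (Nat.div k 10) A)))) &&
      ppOK g n (Nat.div k 10) v ks vs
  | _, _, _, _ => false

/-- THE MAJORANT -/
theorem maj {c : ℝ} (hc : 0 < c) {f : ℝ → ℝ} {n : ℕ} (hf : CG n f) {g : ℕ → ℕ}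
    (hg : ∀ i ≤ n, f ((i : ℝ) / 20) ≤ (g i : ℝ) / c) : ∀ (ks vs : List ℕ) (A vA : ℕ),
    A ≤ n → ppOK g n A vA ks vs = true → ∀ t, (A : ℝ) / 20 ≤ t → t ≤ top ((A : ℝ) / 20) (kR ks) →
    f t ≤ ipl ((A : ℝ) / 20) ((vA : ℝ) / c) (kR ks) (vs.map fun v : ℕ => (v : ℝ) / c) t := by
  intro ks
  induction ks with
  | nil =>
    intro vs A vA hA h t h0 h1
    cases vs with
    | cons v vs => simp [ppOK] at h
    | nil =>
      have ht : t = (A : ℝ) / 20 := le_antisymm h1 h0
      have h2 : (g A : ℝ) ≤ vA := by exact_mod_cast Nat.le_of_ble_eq_true h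
      rw [ht]
      exact (hg A hA).trans (div_le_div_of_nonneg_right h2 hc.le)
  | cons k ks ih =>
    intro vs A vA hA h t h0 h1
    cases vs with
    | nil => simp [ppOK] at h
    | cons v vs =>
      unfold ppOK at h
      rw [Bool.and_eq_true, Bool.and_eq_true, Bool.and_eq_true, Bool.and_eq_true, Nat.beq_eq, Nat.blt_eq,
        Nat.ble_eq] at h
      obtain ⟨⟨hk, hAK, hKn, hs⟩, hr⟩ := h
      obtain ⟨K, hK⟩ : ∃ K, K = k / 10 := ⟨_, rfl⟩
      have hk : k = 10 * K := by rw [hK]; exact hk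
      have hAK : A < K := by rw [hK]; exact hAK
      have hKn : K ≤ n := by rw [hK]; exact hKn
      have hs : segL g A K vA v (K - A) = true := by rw [hK]; exact hs
      have hr : ppOK g n K v ks vs = true := by rw [hK]; exact hr
      have hkR : kR (k :: ks) = ((K : ℝ) / 20) :: kR ks := by
        unfold kR
        rw [List.map_cons, hk]
        push_cast
        congr 1
        ring
      rw [hkR] at h1 ⊢
      rw [List.map_cons]
      have e : ipl ((A : ℝ) / 20) ((vA : ℝ) / c) ((K : ℝ) / 20 :: kR ks)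
          ((v : ℝ) / c :: vs.map fun v : ℕ => (v : ℝ) / c) t
          = if t ≤ (K : ℝ) / 20 then (vA : ℝ) / c + ((v : ℝ) / c - (vA : ℝ) / c) / ((K : ℝ) / 20 - (A : ℝ) / 20)
            * (t - (A : ℝ) / 20) else ipl ((K : ℝ) / 20) ((v : ℝ) / c) (kR ks)
              (vs.map fun v : ℕ => (v : ℝ) / c) t := rfl
      rw [e]
      have hAKr : (A : ℝ) < K := by exact_mod_cast hAK
      split_ifs with htK
      · -- the piece
        have hd : (0 : ℝ) < (K : ℝ) - A := by linarith
        -- the value at a node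
        have node : ∀ i : ℕ, A ≤ i → i ≤ K → f ((i : ℝ) / 20)
            ≤ (((K : ℝ) - i) * vA + ((i : ℝ) - A) * v) / (c * ((K : ℝ) - A)) := by
          intro i h2 h3
          have h4 := segL_sound g A K vA v (K - A) hs (i - A) (by omega)
          rw [show A + (i - A) = i by omega] at h4
          have h5 : ((K : ℝ) - A) * g i ≤ ((K : ℝ) - i) * vA + ((i : ℝ) - A) * v := by
            have h6 : (((K - A) * g i : ℕ) : ℝ) ≤ (((K - i) * vA + (i - A) * v : ℕ) : ℝ) := by exact_mod_cast h4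
            push_cast [Nat.cast_sub hAK.le, Nat.cast_sub h3, Nat.cast_sub h2] at h6
            exact h6
          refine (hg i (h3.trans hKn)).trans ?_
          rw [div_le_div_iff₀ hc (by positivity)]
          calc (g i : ℝ) * (c * ((K : ℝ) - A)) = (((K : ℝ) - A) * g i) * c := by ring
            _ ≤ _ := mul_le_mul_of_nonneg_right h5 hc.le
        -- the grid interval
        obtain ⟨i, hi⟩ : ∃ i : ℕ, i = ⌊20 * t⌋₊ := ⟨_, rfl⟩
        have ht0 : 0 ≤ 20 * t := by
          have : (0 : ℝ) ≤ (A : ℝ) / 20 := by positivity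
          linarith
        have hi1 : (i : ℝ) ≤ 20 * t := by rw [hi]; exact Nat.floor_le ht0
        have hi2 : 20 * t < (i : ℝ) + 1 := by rw [hi]; exact Nat.lt_floor_add_one _
        have hAi : A ≤ i := by
          rw [hi]
          exact Nat.le_floor (by linarith)
        have target : (vA : ℝ) / c + ((v : ℝ) / c - (vA : ℝ) / c) / ((K : ℝ) / 20 - (A : ℝ) / 20)
            * (t - (A : ℝ) / 20) = (((K : ℝ) - 20 * t) * vA + (20 * t - A) * v) / (c * ((K : ℝ) - A)) := by
          have : (K : ℝ) - A ≠ 0 := hd.ne'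
          have h7 : (K : ℝ) / 20 - (A : ℝ) / 20 = ((K : ℝ) - A) / 20 := by ring
          rw [h7]
          field_simp
          ring
        rw [target]
        rcases Nat.lt_or_ge i K with hiK | hiK
        · have h8 := hf i (by omega) t (by linarith) (by linarith)
          have n0 := node i hAi hiK.le
          have n1 := node (i + 1) (by omega) hiK
          have a : 0 ≤ 20 * t - i := by linarith
          have b : 0 ≤ 1 - (20 * t - i) := by linarith
          have m0 := mul_le_mul_of_nonneg_left n0 b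
          have m1 := mul_le_mul_of_nonneg_left n1 a
          push_cast at m1
          refine h8.trans ((add_le_add m0 m1).trans (le_of_eq ?_))
          field_simp
          ring
        · have h9 : t = (K : ℝ) / 20 := by
            have : (K : ℝ) ≤ i := by exact_mod_cast hiK
            linarith
          have n0 := node K hAK.le le_rfl
          rw [← h9] at n0
          refine n0.trans (le_of_eq ?_)
          rw [h9]
          ring
      · exact ih vs K v hKn hr t (not_le.mp htK).le h1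

end B2
end Pool.Agent.Lib.MP_6947cd_al
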