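import Pool.Agent.Lib.MP_6947cd_al.Z.PP
import Pool.Agent.Lib.MP_6947cd_al.Z.LibD
import Pool.Agent.Lib.MP_6947cd_al.L.Pair2

/-!
Problem MP_6947cd_al (Chollet).  The price of a pair of rests, by the library of pair functions.
Unit of the values `1 / (4 * 10 ^ 10)`.
-/

set_option autoImplicit false
open Finset

namespace Pool.Agent.Lib.MP_6947cd_al
namespace B2

open Ent Ent.Pk Fr Fr.WT PkA B1

/-- the class of a box -/
def clD : CA.Cl := ⟨1, 1000, 0, 0, 0, [], []⟩

/-- resolved classes with weights -/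
def resC (x : CA.Box) : List (ℕ × ℕ) → List (ℕ × CA.Cl)
  | [] => []
  | (c, y) :: l => (y, x.cls.getD c clD) :: resC x l

/-- sums over the classes -/
def smC (F : CA.Cl → ℕ) : List (ℕ × CA.Cl) → ℕ
  | [] => 0
  | (y, c) :: l => Nat.add (Nat.mul y (F c)) (smC F l)

/-- positive and negative parts of the value at the node `i` -/
def bp (i : ℕ) (c : CA.Cl) : ℕ := (((0 : ℤ) :: c.b).getD i 0).toNat
def bn (i : ℕ) (c : CA.Cl) : ℕ := (-(((0 : ℤ) :: c.b).getD i 0)).toNat

/-- the value at the node `i` -/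
def gP (w3 TJ : ℕ) (ys : List (ℕ × CA.Cl)) (i : ℕ) : ℕ :=
  Nat.sub (Nat.add (Nat.add (Nat.mul w3 (Nat.add (Nat.mul (nat_lit 430000) i) (Nat.mul (nat_lit 19500) (Nat.mul i i))))
    (Nat.mul (nat_lit 2000000) (Nat.mul TJ i))) (Nat.mul (nat_lit 400) (smC (bp i) ys)))
    (Nat.mul (nat_lit 400) (smC (bn i) ys))

/-- one cell of the library -/
def cellOK (w3 wP wA TJ Sl m : ℕ) (ks Os : List ℕ) (x : CA.Box) (l : List (ℕ × ℕ)) : Bool :=
  (Nat.ble m (Nat.mul 2 x.so) && (Nat.beq (smC (fun _ => 1) (resC x l)) (Nat.add wP wA) &&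
    (Nat.ble (smC (fun c => bif Nat.beq c.ty 1 then 1 else 0) (resC x l)) wA &&
    (Nat.ble (smC (fun c => c.a) (resC x l)) Sl && l.all (fun p => Nat.blt p.1 x.cls.length))))) &&
    ppOK (gP w3 TJ (resC x l)) 20 0 0 ks Os

/-- cover of the range of `h` (`1 / 400`) by the cells -/
def covOK (w3 wP wA TJ Sl m : ℕ) (ks Os : List ℕ) (h1 : ℕ) : ℕ → List (ℕ × List (ℕ × ℕ)) → Bool
  | _, [] => false
  | lo, (k, l) :: rest => match CB.LIB[k]? with
    | none => false
    | some x => (Nat.ble (Nat.mul 2 x.H0) lo && cellOK w3 wP wA TJ Sl m ks Os x l) &&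
      (Nat.ble h1 (Nat.mul 2 x.H1) || covOK w3 wP wA TJ Sl m ks Os h1 (Nat.mul 2 x.H1) rest)

/-- THE CHECK of the pair price -/
def pairOK (w3 wP wA TJ Sl m h0 h1 : ℕ) (ks Os : List ℕ) (cells : List (ℕ × List (ℕ × ℕ))) : Bool :=
  cond (Nat.beq (Nat.add wP wA) 0) (ppOK (gP w3 TJ []) 20 0 0 ks Os)
    (covOK w3 wP wA TJ Sl m ks Os h1 h0 cells)

/-! ### soundness -/

lemma toNat_sub (b : ℤ) : ((b.toNat : ℕ) : ℝ) - ((-b).toNat : ℕ) = b := by
  rcases le_total 0 b with h | h
  · have h1 : (-b).toNat = 0 := Int.toNat_of_nonpos (by omega)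
    have h2 : ((b.toNat : ℕ) : ℤ) = b := Int.toNat_of_nonneg h
    rw [h1]
    push_cast
    rw [sub_zero]
    exact_mod_cast congrArg (fun z : ℤ => (z : ℝ)) h2
  · have h1 : b.toNat = 0 := Int.toNat_of_nonpos h
    have h2 : (((-b).toNat : ℕ) : ℤ) = -b := Int.toNat_of_nonneg (by omega)
    rw [h1]
    push_cast
    have h3 : (((-b).toNat : ℕ) : ℝ) = -(b : ℝ) := by exact_mod_cast congrArg (fun z : ℤ => (z : ℝ)) h2
    rw [h3]
    ring

/-- the real sum over the classes -/
noncomputable def smR (F : CA.Cl → ℝ) : List (ℕ × CA.Cl) → ℝ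
  | [] => 0
  | (y, c) :: l => (y : ℝ) * F c + smR F l

lemma smC_cast (F : CA.Cl → ℕ) (l : List (ℕ × CA.Cl)) : (smC F l : ℝ) = smR (fun c => (F c : ℝ)) l := by
  induction l with
  | nil => simp [smC, smR]
  | cons p l ih =>
    obtain ⟨y, c⟩ := p
    have e : smC F ((y, c) :: l) = y * F c + smC F l := rfl
    rw [e]
    push_cast
    rw [ih]
    rfl

lemma smR_sub (F G : CA.Cl → ℝ) (l : List (ℕ × CA.Cl)) : smR F l - smR G l = smR (fun c => F c - G c) l := by
  induction l with
  | nil => simp [smR]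
  | cons p l ih =>
    obtain ⟨y, c⟩ := p
    unfold smR
    rw [← ih]
    ring

lemma smR_mul (a : ℝ) (F : CA.Cl → ℝ) (l : List (ℕ × CA.Cl)) : a * smR F l = smR (fun c => a * F c) l := by
  induction l with
  | nil => simp [smR]
  | cons p l ih =>
    obtain ⟨y, c⟩ := p
    unfold smR
    rw [← ih]
    ring

lemma smR_add (F G : CA.Cl → ℝ) (l : List (ℕ × CA.Cl)) : smR F l + smR G l = smR (fun c => F c + G c) l := by
  induction l with
  | nil => simp [smR]
  | cons p l ih =>
    obtain ⟨y, c⟩ := p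
    unfold smR
    rw [← ih]
    ring

lemma smR_le (F G : CA.Cl → ℝ) (l : List (ℕ × CA.Cl)) (h : ∀ p ∈ l, F p.2 ≤ G p.2) : smR F l ≤ smR G l := by
  induction l with
  | nil => simp [smR]
  | cons p l ih =>
    obtain ⟨y, c⟩ := p
    unfold smR
    have h1 := h (y, c) List.mem_cons_self
    exact add_le_add (mul_le_mul_of_nonneg_left h1 (Nat.cast_nonneg _))
      (ih fun p hp => h p (List.mem_cons_of_mem _ hp))

lemma smR_congr (F G : CA.Cl → ℝ) (l : List (ℕ × CA.Cl)) (h : ∀ p ∈ l, F p.2 = G p.2) : smR F l = smR G l :=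
  le_antisymm (smR_le F G l fun p hp => (h p hp).le) (smR_le G F l fun p hp => (h p hp).ge)

lemma resC_mem (x : CA.Box) (l : List (ℕ × ℕ)) (h : ∀ p ∈ l, p.1 < x.cls.length) :
    ∀ q ∈ resC x l, q.2 ∈ x.cls := by
  induction l with
  | nil => intro q hq; exact absurd hq (by simp [resC])
  | cons p l ih =>
    obtain ⟨c, y⟩ := p
    intro q hq
    unfold resC at hq
    rcases List.mem_cons.mp hq with rfl | hq
    · have h1 : c < x.cls.length := h (c, y) List.mem_cons_self
      show x.cls.getD c clD ∈ x.cls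
      rw [List.getD_eq_getElem _ _ h1]
      exact List.getElem_mem h1
    · exact ih (fun p hp => h p (List.mem_cons_of_mem _ hp)) q hq

/-- the piecewise linear function of a class -/
noncomputable def plc (c : CA.Cl) (t : ℝ) : ℝ := CA.pl 0 0 (CA.kR CB.K20) (CA.vR c.b) t

lemma kR20 : CA.kR CB.K20 = (List.range 20).map fun i : ℕ => ((i : ℝ) + 1) / 20 := by
  unfold CA.kR CB.K20
  rw [show List.range 20 = [0, 1, 2, 3, 4, 5, 6, 7, 8, 9, 10, 11, 12, 13, 14, 15, 16, 17, 18, 19] by rfl]
  simp only [List.map_cons, List.map_nil]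
  norm_num

lemma inc20 : Inc 0 (CA.kR CB.K20) := by
  unfold CA.kR CB.K20
  simp only [List.map_cons, List.map_nil, Inc]
  norm_num

lemma plc_AG (c : CA.Cl) (hc : c.b.length = 20) : AG 20 (plc c) := by
  have hl : (CA.kR CB.K20).length = (CA.vR c.b).length := by
    unfold CA.kR CA.vR
    rw [List.length_map, List.length_map, hc]
    rfl
  have h1 := CA.aff_pl (CA.kR CB.K20) 0 0 (CA.vR c.b) inc20 hl
  refine AG.of fun i hi => ?_
  have z : ((0 : ℕ) : ℝ) / 20 = 0 := by norm_num
  have h1' : Aff (plc c) (((0 : ℕ) : ℝ) / 20) (CA.kR CB.K20) := by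
    rw [z]
    exact h1
  have h2 := AG.of_aff (f := plc c) (CA.kR CB.K20) 0 (by simpa using inc20) (by
    intro k hk
    rw [kR20] at hk
    obtain ⟨j, _, rfl⟩ := List.mem_map.mp hk
    exact ⟨j + 1, by push_cast; ring⟩) h1' i (Nat.zero_le _) (by
      have : top (((0 : ℕ) : ℝ) / 20) (CA.kR CB.K20) = 1 := by
        unfold CA.kR CB.K20
        simp only [List.map_cons, List.map_nil, top]
        norm_num
      rw [this]
      have : (i : ℝ) + 1 ≤ 20 := by exact_mod_cast hi
      linarith)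
  exact h2

lemma plc_node (c : CA.Cl) (hc : c.b.length = 20) (i : ℕ) (hi : i ≤ 20) :
    plc c ((i : ℝ) / 20) = ((bp i c : ℝ) - bn i c) / 100000 := by
  have hl : (CA.kR CB.K20).length = (CA.vR c.b).length := by
    unfold CA.kR CA.vR
    rw [List.length_map, List.length_map, hc]
    rfl
  have hlen : (CA.kR CB.K20).length = 20 := by unfold CA.kR; rfl
  have h1 := CA.pl_node (CA.kR CB.K20) 0 0 (CA.vR c.b) inc20 hl i (by rw [hlen]; exact hi)
  have h2 : ((0 : ℝ) :: CA.kR CB.K20).getD i 0 = (i : ℝ) / 20 := by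
    rw [kR20]
    cases i with
    | zero => simp
    | succ i =>
      rw [List.getD_cons_succ, List.getD_eq_getElem _ _ (by simpa using hi)]
      simp
  have h3 : ((0 : ℝ) :: CA.vR c.b).getD i 0 = ((((0 : ℤ) :: c.b).getD i 0 : ℤ) : ℝ) / 100000 := by
    cases i with
    | zero => simp
    | succ i =>
      rw [List.getD_cons_succ, List.getD_cons_succ]
      have h4 : i < c.b.length := by omega
      rw [List.getD_eq_getElem _ _ h4, List.getD_eq_getElem _ _ (by unfold CA.vR; simpa using h4)]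
      unfold CA.vR
      rw [List.getElem_map]
  rw [h2, h3] at h1
  unfold plc
  rw [h1]
  unfold bp bn
  rw [toNat_sub]

lemma smR_AG (l : List (ℕ × CA.Cl)) (hl : ∀ p ∈ l, p.2.b.length = 20) :
    AG 20 fun t => smR (fun c => plc c t) l := by
  induction l with
  | nil => exact AG.zero 20
  | cons p l ih =>
    obtain ⟨y, c⟩ := p
    have h1 := (plc_AG c (hl (y, c) List.mem_cons_self)).smul (y : ℝ)
    exact h1.add (ih fun p hp => hl p (List.mem_cons_of_mem _ hp))

/-- the function of the pairs below the piecewise linear function -/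
theorem gP_maj {w3 TJ : ℕ} {ys : List (ℕ × CA.Cl)} (hy : ∀ p ∈ ys, p.2.b.length = 20) {ks Os : List ℕ}
    (h : ppOK (gP w3 TJ ys) 20 0 0 ks Os = true) {t : ℝ} (h0 : 0 ≤ t) (h1 : t ≤ top 0 (kR ks)) :
    (w3 : ℝ) / 1000 * omg t + smR (fun c => plc c t) ys / 1000 + (TJ : ℝ) / 1000 * t
      ≤ nF 40000000000 ks Os t := by
  have hcg : CG 20 fun t => (w3 : ℝ) / 1000 * omg t + (1 / 1000 * smR (fun c => plc c t) ys
      + (TJ : ℝ) / 1000 * t) :=
    ((CG.omg 20).smul (by positivity)).add
      (((smR_AG ys hy).smul (1 / 1000)).add ((AG.id 20).smul ((TJ : ℝ) / 1000))).cg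
  have key := maj (c := 40000000000) (by norm_num) hcg (g := gP w3 TJ ys) (fun i hi => ?_) ks Os 0 0
    (Nat.zero_le _) h t (by simpa using h0) (by simpa using h1)
  · unfold nF
    have e : (((0 : ℕ) : ℝ) / 20) = 0 := by norm_num
    have e2 : (((0 : ℕ) : ℝ) / 40000000000) = 0 := by norm_num
    rw [e, e2] at key
    refine le_trans (le_of_eq ?_) key
    ring
  · beta_reduce
    have e1 : gP w3 TJ ys i = (w3 * (430000 * i + 19500 * (i * i)) + 2000000 * (TJ * i) + 400 * smC (bp i) ys)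
      - 400 * smC (bn i) ys := rfl
    rw [e1, le_div_iff₀ (by norm_num)]
    have h2 : ((w3 * (430000 * i + 19500 * (i * i)) + 2000000 * (TJ * i) + 400 * smC (bp i) ys : ℕ) : ℝ)
        - ((400 * smC (bn i) ys : ℕ) : ℝ) ≤ (((w3 * (430000 * i + 19500 * (i * i)) + 2000000 * (TJ * i)
          + 400 * smC (bp i) ys) - 400 * smC (bn i) ys : ℕ) : ℝ) := by
      rcases le_total (400 * smC (bn i) ys)
        (w3 * (430000 * i + 19500 * (i * i)) + 2000000 * (TJ * i) + 400 * smC (bp i) ys) with h | h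
      · exact (Nat.cast_sub h).ge
      · rw [Nat.sub_eq_zero_of_le h]
        have : ((w3 * (430000 * i + 19500 * (i * i)) + 2000000 * (TJ * i) + 400 * smC (bp i) ys : ℕ) : ℝ)
          ≤ ((400 * smC (bn i) ys : ℕ) : ℝ) := by exact_mod_cast h
        push_cast at this ⊢
        linarith
    refine le_trans (le_of_eq ?_) h2
    push_cast
    rw [smC_cast, smC_cast]
    have e3 : smR (fun c => plc c ((i : ℝ) / 20)) ys
        = 1 / 100000 * (smR (fun c => (bp i c : ℝ)) ys - smR (fun c => (bn i c : ℝ)) ys) := by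
      rw [smR_sub, smR_mul]
      refine smR_congr _ _ _ fun p hp => ?_
      rw [plc_node p.2 (hy p hp) i hi]
      ring
    rw [e3]
    unfold omg
    ring

/-- THE PRICE OF A PAIR -/
theorem pair_price (hLib : CB.LibII) {w3 wP wA TJ Sl m h0 h1 : ℕ} {ks Os : List ℕ}
    {cells : List (ℕ × List (ℕ × ℕ))} (hc : pairOK w3 wP wA TJ Sl m h0 h1 ks Os cells = true) {h : ℝ}
    (hh0 : (h0 : ℝ) / 400 ≤ h) (hh1 : h ≤ (h1 : ℝ) / 400) {s a e u : ℝ} (hs0 : 0 ≤ s) (hs1 : s ≤ 1)
    (hsm : s ≤ (m : ℝ) / 400) (ha0 : 0 ≤ a) (ha1 : a ≤ 1) (hat : a ≤ top 0 (kR ks)) (g : PQ.Geo h s a e u) :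
    (w3 : ℝ) / 1000 * omg a + ((wP : ℝ) + wA) / 1000 * (lo2 s a - omg (min u (max s a)))
      - (wA : ℝ) / 1000 * gtr (3 / 20) (9 / 20) u + (TJ : ℝ) / 1000 * a
      ≤ nF 40000000000 ks Os a + (Sl : ℝ) / 1000000 * s := by
  unfold pairOK at hc
  cases hb : Nat.beq (Nat.add wP wA) 0 with
  | true =>
    rw [hb, cond_true] at hc
    have h2 : wP + wA = 0 := Nat.eq_of_beq_eq_true hb
    have h3 : wP = 0 := by omega
    have h4 : wA = 0 := by omega
    have h5 := gP_maj (ys := []) (by simp) hc ha0 hat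
    simp only [smR, zero_div, add_zero] at h5
    rw [h3, h4]
    have h6 : 0 ≤ (Sl : ℝ) / 1000000 * s := by positivity
    push_cast
    linarith
  | false =>
    rw [hb, cond_false] at hc
    -- the cell which contains `h`
    have cell : ∀ (cells : List (ℕ × List (ℕ × ℕ))) (lo : ℕ), (lo : ℝ) / 400 ≤ h →
        covOK w3 wP wA TJ Sl m ks Os h1 lo cells = true → ∃ x l, x ∈ CB.LIB ∧ (x.H0 : ℝ) / 200 ≤ h ∧
          h ≤ (x.H1 : ℝ) / 200 ∧ cellOK w3 wP wA TJ Sl m ks Os x l = true := by
      intro cells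
      induction cells with
      | nil => intro lo _ h; exact absurd h (by simp [covOK])
      | cons p cells ih =>
        obtain ⟨k, l⟩ := p
        intro lo hlo h2
        unfold covOK at h2
        cases hk : CB.LIB[k]? with
        | none => rw [hk] at h2; exact absurd h2 (by simp)
        | some x =>
          rw [hk] at h2
          simp only [Bool.and_eq_true, Bool.or_eq_true, Nat.ble_eq] at h2
          obtain ⟨⟨a1, a2⟩, a3⟩ := h2
          have hx := List.mem_of_getElem? hk
          have b1 : (x.H0 : ℝ) / 200 ≤ h := by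
            have : ((Nat.mul 2 x.H0 : ℕ) : ℝ) ≤ lo := by exact_mod_cast a1
            have e : ((Nat.mul 2 x.H0 : ℕ) : ℝ) = 2 * x.H0 := by
              show ((2 * x.H0 : ℕ) : ℝ) = _
              push_cast; ring
            rw [e] at this
            linarith
          have e' : ((Nat.mul 2 x.H1 : ℕ) : ℝ) = 2 * x.H1 := by
            show ((2 * x.H1 : ℕ) : ℝ) = _
            push_cast; ring
          rcases le_total h ((x.H1 : ℝ) / 200) with b2 | b2
          · exact ⟨x, l, hx, b1, b2, a2⟩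
          · rcases a3 with a3 | a3
            · have : (h1 : ℝ) ≤ ((Nat.mul 2 x.H1 : ℕ) : ℝ) := by exact_mod_cast a3
              rw [e'] at this
              exact ⟨x, l, hx, b1, hh1.trans (by linarith), a2⟩
            · exact ih _ (by rw [e']; linarith) a3
    obtain ⟨x, l, hx, x0, x1, hcell⟩ := cell cells h0 hh0 hc
    unfold cellOK at hcell
    simp only [Bool.and_eq_true, Nat.ble_eq, Nat.beq_eq, List.all_eq_true] at hcell
    obtain ⟨⟨c1, c2, c3, c4, c5⟩, c6⟩ := hcell
    have hmem := resC_mem x l (fun p hp => by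
      have := c5 p hp
      rw [Nat.blt_eq] at this
      exact this)
    obtain ⟨ys, hys⟩ : ∃ ys, ys = resC x l := ⟨_, rfl⟩
    rw [← hys] at c2 c3 c4 c6 hmem
    -- the format
    have hf := List.all_eq_true.mp CB.lib_format x hx
    unfold CB.boxF at hf
    simp only [Bool.and_eq_true, beq_iff_eq, List.all_eq_true] at hf
    obtain ⟨f1, f2⟩ := hf
    have hcl : ∀ c ∈ x.cls, c.w = 1000 ∧ (c.ty = 1 ∨ c.ty = 3) ∧ c.b.length = 20 := by
      intro c hc
      have := f2 c hc
      unfold CB.clF at this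
      simp only [Bool.and_eq_true, Bool.or_eq_true, Nat.beq_eq] at this
      exact this
    -- every class
    have hs' : s ≤ (x.so : ℝ) / 200 := by
      have : (m : ℝ) ≤ ((Nat.mul 2 x.so : ℕ) : ℝ) := by exact_mod_cast c1
      have e : ((Nat.mul 2 x.so : ℕ) : ℝ) = 2 * x.so := by
        show ((2 * x.so : ℕ) : ℝ) = _
        push_cast; ring
      rw [e] at this
      linarith
    have ht' : a ≤ ((x.k.getLastD 0 : ℕ) : ℝ) / 1000 := by
      rw [f1]
      have : CB.K20.getLastD 0 = 1000 := rfl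
      rw [this]
      norm_num
      exact ha1
    have each : ∀ c ∈ x.cls, omg s + omg a - omg (min u (max s a))
        - (if c.ty = 1 then gtr (3 / 20) (9 / 20) u else 0) ≤ (c.a : ℝ) / 1000 * s + plc c a := by
      intro c hc
      have := CB.lib_use (hLib x hx) hc (hcl c hc).1 x0 x1 g hs' ht'
      rw [f1] at this
      exact this
    have s1 := smR_le (fun c => omg s + omg a - omg (min u (max s a))
        - (if c.ty = 1 then gtr (3 / 20) (9 / 20) u else 0)) (fun c => (c.a : ℝ) / 1000 * s + plc c a) ys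
        (fun p hp => each p.2 (hmem p hp))
    have s2 := gP_maj (fun p hp => (hcl p.2 (hmem p hp)).2.2) c6 ha0 hat
    -- the sums
    have t1 : smR (fun _ => (1 : ℝ)) ys = (wP : ℝ) + wA := by
      have : smC (fun _ => 1) ys = wP + wA := c2
      have h7 : ((smC (fun _ => 1) ys : ℕ) : ℝ) = ((wP + wA : ℕ) : ℝ) := by rw [this]
      rw [smC_cast] at h7
      push_cast at h7
      exact h7
    have t2 : smR (fun c => if c.ty = 1 then (1 : ℝ) else 0) ys ≤ wA := by
      have h7 : ((smC (fun c => bif Nat.beq c.ty 1 then 1 else 0) ys : ℕ) : ℝ) ≤ wA := by exact_mod_cast c3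
      rw [smC_cast] at h7
      refine le_trans (le_of_eq (smR_congr _ _ _ fun p _ => ?_)) h7
      by_cases h8 : p.2.ty = 1
      · rw [if_pos h8, h8]
        simp
      · rw [if_neg h8]
        have : Nat.beq p.2.ty 1 = false := by
          cases h9 : Nat.beq p.2.ty 1 with
          | false => rfl
          | true => exact absurd (Nat.eq_of_beq_eq_true h9) h8
        rw [this]
        simp
    have t3 : smR (fun c => (c.a : ℝ)) ys ≤ Sl := by
      have h7 : ((smC (fun c => c.a) ys : ℕ) : ℝ) ≤ Sl := by exact_mod_cast c4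
      rw [smC_cast] at h7
      exact h7
    have u1 : smR (fun c => omg s + omg a - omg (min u (max s a))
        - (if c.ty = 1 then gtr (3 / 20) (9 / 20) u else 0)) ys
        = (omg s + omg a - omg (min u (max s a))) * smR (fun _ => (1 : ℝ)) ys
          - gtr (3 / 20) (9 / 20) u * smR (fun c => if c.ty = 1 then (1 : ℝ) else 0) ys := by
      rw [smR_mul, smR_mul, smR_sub]
      refine smR_congr _ _ _ fun p _ => ?_
      by_cases h8 : p.2.ty = 1
      · simp only [if_pos h8]; ring
      · simp only [if_neg h8]; ring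
    have u2 : smR (fun c => (c.a : ℝ) / 1000 * s + plc c a) ys
        = s / 1000 * smR (fun c => (c.a : ℝ)) ys + smR (fun c => plc c a) ys := by
      rw [smR_mul, smR_add]
      refine smR_congr _ _ _ fun p _ => ?_
      ring
    rw [u1, u2, t1] at s1
    have g0 : 0 ≤ gtr (3 / 20) (9 / 20) u := by
      have hu := g.u0
      have h : 0 ≤ min u (9 / 20) := le_min hu (by norm_num)
      unfold gtr
      positivity
    have v1 := mul_le_mul_of_nonneg_left t2 g0
    have v2 := mul_le_mul_of_nonneg_left t3 (show 0 ≤ s / 1000 by positivity)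
    have v3 := lo2_le_omg hs0 hs1 ha0
    have v4 := mul_le_mul_of_nonneg_left v3 (show 0 ≤ (wP : ℝ) + wA by positivity)
    have e5 : nF 40000000000 ks Os a + (Sl : ℝ) / 1000000 * s
      ≥ (w3 : ℝ) / 1000 * omg a + smR (fun c => plc c a) ys / 1000 + (TJ : ℝ) / 1000 * a
        + (Sl : ℝ) / 1000000 * s := by linarith
    refine le_trans ?_ e5
    linarith

end B2
end Pool.Agent.Lib.MP_6947cd_al
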