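import Pool.Agent.Lib.MP_6947cd_al.Y.Cells

/-!
Problem MP_6947cd_al (Chollet).  PACKED CHECK of a row, second form: general functions on both sides, and for payers
the two alternatives (constant `1/2`; linear in the rests).
-/

set_option autoImplicit false
open Finset

namespace Pool.Agent.Lib.MP_6947cd_al
namespace PkA

open Ent Ent.Pk Fr Fr.WT B1

/-! ### the masks -/

/-- covering of a set of cells by the tests -/
noncomputable def cov (offs : List (ℕ × ℕ)) (Ps : List ℕ) : ℕ → Bool :=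
  @List.rec ℕ (fun _ => ℕ → Bool) (fun D => Nat.beq D (nat_lit 0))
    (fun P _ ih D => ands P offs D fun A => frc (Nat.xor D A) fun D' =>
      cond (Nat.beq D' (nat_lit 0)) true (ih D')) Ps

lemma cov_sound (offs : List (ℕ × ℕ)) (Ps : List ℕ) : ∀ D, cov offs Ps D = true → ∀ i,
    D.testBit (64 * i + 63) = true → ∃ P ∈ Ps, ∀ o ∈ offs, P.testBit (64 * (i + o.2) + 63) = true := by
  induction Ps with
  | nil =>
    intro D h i hi
    have h0 : D = 0 := Nat.eq_of_beq_eq_true h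
    rw [h0, Nat.zero_testBit] at hi
    exact absurd hi (by simp)
  | cons P Ps ih =>
    intro D h i hi
    have e : cov offs (P :: Ps) D = ands P offs D fun A => frc (Nat.xor D A) fun D' =>
      cond (Nat.beq D' (nat_lit 0)) true (cov offs Ps D') := rfl
    rw [e] at h
    obtain ⟨A, h1, h2⟩ := ands_sound _ _ _ _ h
    rw [frc_eq] at h1
    have eX : Nat.xor D A = D ^^^ A := rfl
    rw [eX] at h1
    cases hA : A.testBit (64 * i + 63) with
    | true => exact ⟨P, List.mem_cons_self, (h2 i hA).2⟩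
    | false =>
      have h3 : (D ^^^ A).testBit (64 * i + 63) = true := by
        rw [Nat.testBit_xor, hi, hA]
        rfl
      cases hb : Nat.beq (D ^^^ A) (nat_lit 0) with
      | true =>
        have h0 : D ^^^ A = 0 := Nat.eq_of_beq_eq_true hb
        rw [h0, Nat.zero_testBit] at h3
        exact absurd h3 (by simp)
      | false =>
        rw [hb, cond_false] at h1
        obtain ⟨Q, q1, q2⟩ := ih _ h1 i h3
        exact ⟨Q, List.mem_cons_of_mem _ q1, q2⟩

/-- the check of a mask: rests with sum at most `T1`, price at most `p1`, sum at least `lb` -/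
noncomputable def mskD (HH ONE R0 X0 T1 p1 lb : ℕ) (Ps : List ℕ) (m : List (ℕ × ℕ) × ℕ × ℕ × ℕ) : Bool :=
  cond (Nat.ble m.2.1 T1) (cond (Nat.ble m.2.2.1 p1)
    (frc (Nat.land (Nat.land (Nat.land
        (Nat.sub (Nat.add HH (Nat.mul (Nat.sub T1 m.2.1) ONE)) R0)
        (Nat.sub (Nat.add HH (Nat.mul (Nat.sub p1 m.2.2.1) ONE)) X0))
        (Nat.sub (Nat.add HH R0) (Nat.mul (Nat.sub lb m.2.2.2) ONE))) HH) fun D =>
      cond (Nat.beq D (nat_lit 0)) true (cov m.1 Ps D)) true) true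

theorem mskD_sound (N : ℕ) (r x : ℕ → ℕ) (T1 p1 lb : ℕ) (Ps : List ℕ) (m : List (ℕ × ℕ) × ℕ × ℕ × ℕ)
    (hr : ∀ i < N, r i < 2 ^ 62) (hx : ∀ i < N, x i < 2 ^ 62) (hT : T1 < 2 ^ 62) (hp : p1 < 2 ^ 62)
    (hlb : lb < 2 ^ 62)
    (h : mskD (pk (fun _ => 2 ^ 63) N) (pk (fun _ => 1) N) (pk r N) (pk x N) T1 p1 lb Ps m = true)
    (i : ℕ) (hi : i < N) (h1 : r i + m.2.1 ≤ T1) (h2 : x i + m.2.2.1 ≤ p1)
    (h3 : lb ≤ r i + m.2.2.2) : ∃ P ∈ Ps, ∀ o ∈ m.1, P.testBit (64 * (i + o.2) + 63) = true := by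
  unfold mskD at h
  rw [Nat.ble_eq_true_of_le (show m.2.1 ≤ T1 by omega), cond_true,
    Nat.ble_eq_true_of_le (show m.2.2.1 ≤ p1 by omega), cond_true, frc_eq] at h
  have hc : ∀ c, Nat.mul c (pk (fun _ => 1) N) = pk (fun _ => c) N := by
    intro c
    show c * pk (fun _ => 1) N = _
    rw [pk_mul]
    simp
  simp only [hc] at h
  have b1 := (cmp_bit N (fun _ => Nat.sub T1 m.2.1) r
    (fun i _ => by
      have : Nat.sub T1 m.2.1 ≤ T1 := Nat.sub_le _ _
      show Nat.sub T1 m.2.1 < 2 ^ 63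
      omega) (fun i hi => by have := hr i hi; omega) i hi).mpr
    (show r i ≤ T1 - m.2.1 by omega)
  have b2 := (cmp_bit N (fun _ => Nat.sub p1 m.2.2.1) x
    (fun i _ => by
      have : Nat.sub p1 m.2.2.1 ≤ p1 := Nat.sub_le _ _
      show Nat.sub p1 m.2.2.1 < 2 ^ 63
      omega) (fun i hi => by have := hx i hi; omega) i hi).mpr
    (show x i ≤ p1 - m.2.2.1 by omega)
  have b3 := (cmp_bit N r (fun _ => Nat.sub lb m.2.2.2)
    (fun i hi => by have := hr i hi; omega) (fun i _ => by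
      have : Nat.sub lb m.2.2.2 ≤ lb := Nat.sub_le _ _
      show Nat.sub lb m.2.2.2 ≤ 2 ^ 63
      omega) i hi).mpr (show lb - m.2.2.2 ≤ r i by omega)
  have b5 := hh_bit hi
  have eA : ∀ a b : ℕ, Nat.land a b = a &&& b := fun _ _ => rfl
  have eS : ∀ a b : ℕ, Nat.sub a b = a - b := fun _ _ => rfl
  have eP : ∀ a b : ℕ, Nat.add a b = a + b := fun _ _ => rfl
  simp only [eA, eS, eP] at h b1 b2 b3
  obtain ⟨D, hD⟩ : ∃ D, D = (pk (fun _ => 2 ^ 63) N + pk (fun _ => T1 - m.2.1) N - pk r N) &&&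
      (pk (fun _ => 2 ^ 63) N + pk (fun _ => p1 - m.2.2.1) N - pk x N) &&&
      (pk (fun _ => 2 ^ 63) N + pk r N - pk (fun _ => lb - m.2.2.2) N) &&& pk (fun _ => 2 ^ 63) N := ⟨_, rfl⟩
  rw [← hD] at h
  have hbit : D.testBit (64 * i + 63) = true := by
    rw [hD]
    simp only [Nat.testBit_and]
    rw [b1, b2, b3, b5]
    rfl
  cases hb : Nat.beq D (nat_lit 0) with
  | true =>
    have h0 : D = 0 := Nat.eq_of_beq_eq_true hb
    rw [h0, Nat.zero_testBit] at hbit
    exact absurd hbit (by simp)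
  | false =>
    rw [hb, cond_false] at h
    exact cov_sound _ _ _ h i hbit

/-! ### the corners, payers -/

/-- one corner: valid bits -/
def valB (HH ONE T' : ℕ) : ℕ := Nat.sub (Nat.add HH T') ONE

/-- one corner of a payer -/
def pay4 (HH ONE a4 h4 aG Gam d dh LL RR T' W' lam P1 P2 Q1 Q2 : ℕ) (k : ℕ → ℕ → ℕ → ℕ → Bool) : Bool :=
  frc (valB HH ONE T') fun V =>
  frc (Nat.land V (Nat.sub RR (Nat.add (Nat.mul a4 T') LL))) fun F =>
  frc (Nat.land P1 (Nat.land F (Nat.sub RR (Nat.add (Nat.mul h4 ONE) LL)))) fun P1' =>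
  frc (Nat.land P2 (Nat.land F (Nat.sub RR (Nat.add (Nat.add (Nat.mul (Nat.mul a4 lam) ONE) aG) LL)))) fun P2' =>
  frc (Nat.add HH W') fun HW =>
  frc (Nat.land V (Nat.sub HW (Nat.add T' (Nat.mul d ONE)))) fun R =>
  frc (Nat.land Q1 (Nat.land R (Nat.sub HW (Nat.mul dh ONE)))) fun Q1' =>
  frc (Nat.land Q2 (Nat.land R (Nat.sub HW (Nat.add Gam (Nat.mul (Nat.add lam d) ONE))))) fun Q2' =>
    k P1' P2' Q1' Q2'

/-- four tables with one `y`-node: offset `e`, constants `L`, `Ra` -/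
noncomputable def crn4 (HH ONE a4 b4 h4 muX Om aG Gam d dh bR bL e L Ra : ℕ) (tabs : List (ℕ × ℕ)) :
    List ℕ → List ℕ → ℕ → ℕ → ℕ → ℕ → (List ℕ → List ℕ → ℕ → ℕ → ℕ → ℕ → Bool) → Bool :=
  @List.rec (ℕ × ℕ) (fun _ => List ℕ → List ℕ → ℕ → ℕ → ℕ → ℕ → (List ℕ → List ℕ → ℕ → ℕ → ℕ → ℕ → Bool) → Bool)
    (fun rs ls P1 P2 Q1 Q2 k => k rs ls P1 P2 Q1 Q2)
    (fun TW _ ih rs ls P1 P2 Q1 Q2 k => @Prod.rec ℕ ℕ (fun _ => Bool) (fun T W =>
      @List.rec ℕ (fun _ => Bool) false (fun r rs' _ => @List.rec ℕ (fun _ => Bool) false (fun lam ls' _ =>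
        cond (Nat.ble (Nat.add (Nat.add r Ra) bR) (nat_lit 9223372036854775807))
        (cond (Nat.ble (Nat.add bL L) (nat_lit 9223372036854775808))
        (cond (Nat.ble lam (nat_lit 4294967295))
        (frc (Nat.shiftRight T (Nat.mul (nat_lit 64) e)) fun T' =>
          frc (Nat.shiftRight W (Nat.mul (nat_lit 64) e)) fun W' =>
          frc (Nat.add Om (Nat.mul L ONE)) fun LL =>
          frc (Nat.add HH (Nat.add (Nat.add (Nat.mul (Nat.add r Ra) ONE) (Nat.mul b4 W')) muX)) fun RR =>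
          pay4 HH ONE a4 h4 aG Gam d dh LL RR T' W' lam P1 P2 Q1 Q2 fun P1' P2' Q1' Q2' =>
            ih rs' ls' P1' P2' Q1' Q2' k) false) false) false) ls) rs) TW) tabs

/-- the facts at an index (first alternative: constant `vh`; `al = 0`) or (second alternative, `al = 1`: `lam + gam`) -/
def Line4 (N a4 b4 vh e L Ra : ℕ) (mx om gam : ℕ → ℕ) (al : Bool) (tabs : List (ℕ × ℕ)) (rs ls : List ℕ) (j : ℕ) :
    Prop :=
  j < N ∧ ∀ q < tabs.length, 1 ≤ dg (tabs.getD q (0, 0)).1 (j + e) ∧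
    a4 * dg (tabs.getD q (0, 0)).1 (j + e) + om j + L
      ≤ rs.getD q 0 + Ra + b4 * dg (tabs.getD q (0, 0)).2 (j + e) + mx j ∧
    a4 * (bif al then ls.getD q 0 + gam j else vh) + om j + L
      ≤ rs.getD q 0 + Ra + b4 * dg (tabs.getD q (0, 0)).2 (j + e) + mx j

/-- richness -/
def Rich4 (N d vh e : ℕ) (gam : ℕ → ℕ) (al : Bool) (tabs : List (ℕ × ℕ)) (ls : List ℕ) (j : ℕ) : Prop :=
  j < N ∧ ∀ q < tabs.length, 1 ≤ dg (tabs.getD q (0, 0)).1 (j + e) ∧
    dg (tabs.getD q (0, 0)).1 (j + e) + d ≤ dg (tabs.getD q (0, 0)).2 (j + e) ∧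
    (bif al then ls.getD q 0 + gam j else vh) + d ≤ dg (tabs.getD q (0, 0)).2 (j + e)

/-- one corner of a payer: the bits -/
theorem pay4_sound (N a4 vh d L lam bG : ℕ) (om mr gam t w : ℕ → ℕ)
    (h1 : ∀ i < N, mr i < 2 ^ 63) (h2 : ∀ i < N, a4 * 2 ^ 32 + om i + L ≤ 2 ^ 63)
    (h3 : ∀ i < N, a4 * bG + om i + L ≤ 2 ^ 63) (h4 : lam + 2 ^ 32 ≤ bG) (h5 : ∀ i < N, gam i ≤ 2 ^ 32)
    (h6 : vh ≤ 2 ^ 32) (hd : d < 2 ^ 61) (hbG : bG < 2 ^ 61) (ht : ∀ i < N, t i < 2 ^ 32)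
    (hw : ∀ i < N, w i < 2 ^ 32) (P1 P2 Q1 Q2 : ℕ) (k : ℕ → ℕ → ℕ → ℕ → Bool)
    (h : pay4 (pk (fun _ => 2 ^ 63) N) (pk (fun _ => 1) N) a4 (a4 * vh) (pk (fun i => a4 * gam i) N) (pk gam N) d
      (d + vh) (pk (fun i => om i + L) N) (pk (fun i => 2 ^ 63 + mr i) N) (pk t N) (pk w N) lam P1 P2 Q1 Q2 k
      = true) :
    ∃ P1' P2' Q1' Q2', k P1' P2' Q1' Q2' = true ∧
      (∀ i, P1'.testBit (64 * i + 63) = true → P1.testBit (64 * i + 63) = true ∧ i < N ∧ 1 ≤ t i ∧
        a4 * t i + (om i + L) ≤ mr i ∧ a4 * vh + (om i + L) ≤ mr i) ∧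
      (∀ i, P2'.testBit (64 * i + 63) = true → P2.testBit (64 * i + 63) = true ∧ i < N ∧ 1 ≤ t i ∧
        a4 * t i + (om i + L) ≤ mr i ∧ a4 * (lam + gam i) + (om i + L) ≤ mr i) ∧
      (∀ i, Q1'.testBit (64 * i + 63) = true → Q1.testBit (64 * i + 63) = true ∧ i < N ∧ 1 ≤ t i ∧
        t i + d ≤ w i ∧ vh + d ≤ w i) ∧
      (∀ i, Q2'.testBit (64 * i + 63) = true → Q2.testBit (64 * i + 63) = true ∧ i < N ∧ 1 ≤ t i ∧
        t i + d ≤ w i ∧ lam + gam i + d ≤ w i) := by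
  unfold pay4 valB at h
  simp only [frc_eq] at h
  have hc : ∀ c, Nat.mul c (pk (fun _ => 1) N) = pk (fun _ => c) N := by
    intro c
    show c * pk (fun _ => 1) N = _
    rw [pk_mul]
    simp
  have hadd : ∀ f g : ℕ → ℕ, Nat.add (pk f N) (pk g N) = pk (fun i => f i + g i) N := fun f g => pk_add f g N
  have hmul : ∀ (a : ℕ) (f : ℕ → ℕ), Nat.mul a (pk f N) = pk (fun i => a * f i) N := fun a f => pk_mul a f N
  -- the valid bits
  have hV : ∀ i, (Nat.sub (Nat.add (pk (fun _ => 2 ^ 63) N) (pk t N)) (pk (fun _ => 1) N)).testBit (64 * i + 63)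
      = true → i < N ∧ 1 ≤ t i := fun i hi => valid_bit N t (fun i hi => by have := ht i hi; omega) i hi
  obtain ⟨V, hVe⟩ : ∃ V, V = Nat.sub (Nat.add (pk (fun _ => 2 ^ 63) N) (pk t N)) (pk (fun _ => 1) N) := ⟨_, rfl⟩
  rw [← hVe] at h hV
  -- comparisons with RR
  have hRR : ∀ f : ℕ → ℕ, (∀ i < N, f i ≤ 2 ^ 63) → ∀ i, i < N →
      (Nat.sub (pk (fun i => 2 ^ 63 + mr i) N) (pk f N)).testBit (64 * i + 63) = true → f i ≤ mr i := by
    intro f hf i hi hb
    refine (cmp_bit N mr f h1 hf i hi).mp ?_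
    rw [pk_add]
    exact hb
  have hWW : ∀ f : ℕ → ℕ, (∀ i < N, f i ≤ 2 ^ 63) → ∀ i, i < N →
      (Nat.sub (pk (fun i => 2 ^ 63 + w i) N) (pk f N)).testBit (64 * i + 63) = true → f i ≤ w i := by
    intro f hf i hi hb
    refine (cmp_bit N w f (fun i hi => by have := hw i hi; omega) hf i hi).mp ?_
    rw [pk_add]
    exact hb
  simp only [hc, hadd, hmul] at h
  refine ⟨_, _, _, _, h, ?_, ?_, ?_, ?_⟩
  · intro i hi
    obtain ⟨g1, g2⟩ := land_bit hi
    obtain ⟨g3, g4⟩ := land_bit g2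
    obtain ⟨g5, g6⟩ := land_bit g3
    obtain ⟨g7, g8⟩ := hV i g5
    refine ⟨g1, g7, g8, hRR _ (fun i hi => ?_) i g7 g6, hRR _ (fun i hi => ?_) i g7 g4⟩
    · have := h2 i hi
      have h7 : a4 * t i ≤ a4 * 2 ^ 32 := Nat.mul_le_mul_left a4 (ht i hi).le
      omega
    · have := h2 i hi
      have h7 : a4 * vh ≤ a4 * 2 ^ 32 := Nat.mul_le_mul_left a4 h6
      omega
  · intro i hi
    obtain ⟨g1, g2⟩ := land_bit hi
    obtain ⟨g3, g4⟩ := land_bit g2
    obtain ⟨g5, g6⟩ := land_bit g3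
    obtain ⟨g7, g8⟩ := hV i g5
    have g9 := hRR _ (fun i hi => ?_) i g7 g4
    · refine ⟨g1, g7, g8, hRR _ (fun i hi => ?_) i g7 g6, ?_⟩
      · have := h2 i hi
        have h7 : a4 * t i ≤ a4 * 2 ^ 32 := Nat.mul_le_mul_left a4 (ht i hi).le
        omega
      · rw [Nat.mul_add]
        exact g9
    · have := h3 i hi
      have h7 : a4 * (lam + gam i) ≤ a4 * bG := Nat.mul_le_mul_left a4 (by have := h5 i hi; omega)
      rw [Nat.mul_add] at h7
      show a4 * lam + a4 * gam i + (om i + L) ≤ 2 ^ 63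
      omega
  · intro i hi
    obtain ⟨g1, g2⟩ := land_bit hi
    obtain ⟨g3, g4⟩ := land_bit g2
    obtain ⟨g5, g6⟩ := land_bit g3
    obtain ⟨g7, g8⟩ := hV i g5
    refine ⟨g1, g7, g8, hWW _ (fun i hi => ?_) i g7 g6, ?_⟩
    · have := ht i hi
      omega
    · have := hWW _ (fun i hi => ?_) i g7 g4
      · omega
      · omega
  · intro i hi
    obtain ⟨g1, g2⟩ := land_bit hi
    obtain ⟨g3, g4⟩ := land_bit g2
    obtain ⟨g5, g6⟩ := land_bit g3
    obtain ⟨g7, g8⟩ := hV i g5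
    refine ⟨g1, g7, g8, hWW _ (fun i hi => ?_) i g7 g6, ?_⟩
    · have := ht i hi
      omega
    · have g9 := hWW (fun i => gam i + Nat.add lam d) (fun i hi => ?_) i g7 g4
      · have g10 : gam i + (lam + d) ≤ w i := g9
        omega
      · have := h5 i hi
        show gam i + (lam + d) ≤ 2 ^ 63
        omega

theorem crn4_sound (N a4 b4 vh d bR bL e L Ra : ℕ) (mx om gam : ℕ → ℕ)
    (hR : ∀ i < N, b4 * 2 ^ 32 + mx i ≤ bR) (hL : ∀ i < N, a4 * 2 ^ 33 + om i ≤ bL) (hg : ∀ i < N, gam i ≤ 2 ^ 32)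
    (hv : vh ≤ 2 ^ 32) (hd : d < 2 ^ 61) (tabs : List (ℕ × ℕ)) : SmT N tabs → ∀ rs ls P1 P2 Q1 Q2 k,
    crn4 (pk (fun _ => 2 ^ 63) N) (pk (fun _ => 1) N) a4 b4 (a4 * vh) (pk mx N) (pk om N)
      (pk (fun i => a4 * gam i) N) (pk gam N) d (d + vh) bR bL e L Ra tabs rs ls P1 P2 Q1 Q2 k = true →
    ∃ P1' P2' Q1' Q2', k (rs.drop tabs.length) (ls.drop tabs.length) P1' P2' Q1' Q2' = true ∧
      (∀ i, P1'.testBit (64 * i + 63) = true → P1.testBit (64 * i + 63) = true ∧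
        (tabs ≠ [] → Line4 N a4 b4 vh e L Ra mx om gam false tabs rs ls i)) ∧
      (∀ i, P2'.testBit (64 * i + 63) = true → P2.testBit (64 * i + 63) = true ∧
        (tabs ≠ [] → Line4 N a4 b4 vh e L Ra mx om gam true tabs rs ls i)) ∧
      (∀ i, Q1'.testBit (64 * i + 63) = true → Q1.testBit (64 * i + 63) = true ∧
        (tabs ≠ [] → Rich4 N d vh e gam false tabs ls i)) ∧
      (∀ i, Q2'.testBit (64 * i + 63) = true → Q2.testBit (64 * i + 63) = true ∧
        (tabs ≠ [] → Rich4 N d vh e gam true tabs ls i)) := by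
  induction tabs with
  | nil =>
    intro _ rs ls P1 P2 Q1 Q2 k h
    exact ⟨P1, P2, Q1, Q2, h, fun _ h => ⟨h, fun h => absurd rfl h⟩, fun _ h => ⟨h, fun h => absurd rfl h⟩,
      fun _ h => ⟨h, fun h => absurd rfl h⟩, fun _ h => ⟨h, fun h => absurd rfl h⟩⟩
  | cons TW tabs ih =>
    obtain ⟨T, W⟩ := TW
    intro hs rs ls P1 P2 Q1 Q2 k h
    cases rs with
    | nil => exact absurd h (by simp [crn4])
    | cons r rs =>
      cases ls with
      | nil => exact absurd h (by simp [crn4])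
      | cons lam ls =>
        have e1 : crn4 (pk (fun _ => 2 ^ 63) N) (pk (fun _ => 1) N) a4 b4 (a4 * vh) (pk mx N) (pk om N)
            (pk (fun i => a4 * gam i) N) (pk gam N) d (d + vh) bR bL e L Ra
            ((T, W) :: tabs) (r :: rs) (lam :: ls) P1 P2 Q1 Q2 k
          = cond (Nat.ble (Nat.add (Nat.add r Ra) bR) (nat_lit 9223372036854775807))
          (cond (Nat.ble (Nat.add bL L) (nat_lit 9223372036854775808))
          (cond (Nat.ble lam (nat_lit 4294967295))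
          (frc (Nat.shiftRight T (Nat.mul (nat_lit 64) e)) fun T' =>
            frc (Nat.shiftRight W (Nat.mul (nat_lit 64) e)) fun W' =>
            frc (Nat.add (pk om N) (Nat.mul L (pk (fun _ => 1) N))) fun LL =>
            frc (Nat.add (pk (fun _ => 2 ^ 63) N) (Nat.add (Nat.add (Nat.mul (Nat.add r Ra) (pk (fun _ => 1) N))
              (Nat.mul b4 W')) (pk mx N))) fun RR =>
            pay4 (pk (fun _ => 2 ^ 63) N) (pk (fun _ => 1) N) a4 (a4 * vh) (pk (fun i => a4 * gam i) N) (pk gam N)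
              d (d + vh) LL RR T' W' lam P1 P2 Q1 Q2 fun P1' P2' Q1' Q2' =>
              crn4 (pk (fun _ => 2 ^ 63) N) (pk (fun _ => 1) N) a4 b4 (a4 * vh) (pk mx N) (pk om N)
                (pk (fun i => a4 * gam i) N) (pk gam N) d (d + vh) bR bL e L Ra tabs rs ls P1' P2' Q1' Q2' k)
            false) false) false := rfl
        rw [e1] at h
        obtain ⟨h1, h⟩ := cond_eq_true h
        obtain ⟨h2, h⟩ := cond_eq_true h
        obtain ⟨h3, h⟩ := cond_eq_true h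
        simp only [frc_eq] at h
        have h1 : r + Ra + bR ≤ 9223372036854775807 := Nat.le_of_ble_eq_true h1
        have h2 : bL + L ≤ 9223372036854775808 := Nat.le_of_ble_eq_true h2
        have h3 : lam ≤ 4294967295 := Nat.le_of_ble_eq_true h3
        obtain ⟨s1, s2, s3, s4⟩ := hs 0 (by simp)
        simp only [List.getD_cons_zero] at s1 s2 s3 s4
        rw [shr_pk s1, shr_pk s2] at h
        have hT := fun i => dg_small s1 s3 (i + e)
        have hW := fun i => dg_small s2 s4 (i + e)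
        have eL : Nat.add (pk om N) (Nat.mul L (pk (fun _ => 1) N)) = pk (fun i => om i + L) N := by
          show pk om N + L * pk (fun _ => 1) N = _
          rw [pk_mul, pk_add]
          refine pk_congr _ _ _ fun i _ => ?_
          ring
        have eR : Nat.add (pk (fun _ => 2 ^ 63) N) (Nat.add (Nat.add (Nat.mul (Nat.add r Ra) (pk (fun _ => 1) N))
              (Nat.mul b4 (pk (fun i => dg W (i + e)) N))) (pk mx N))
            = pk (fun i => 2 ^ 63 + (r + Ra + b4 * dg W (i + e) + mx i)) N := by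
          show pk (fun _ => 2 ^ 63) N + ((r + Ra) * pk (fun _ => 1) N + b4 * pk (fun i => dg W (i + e)) N
            + pk mx N) = _
          rw [pk_mul, pk_mul, pk_add, pk_add, pk_add]
          refine pk_congr _ _ _ fun i _ => ?_
          ring
        rw [eL, eR] at h
        obtain ⟨P1', P2', Q1', Q2', hk, g1, g2, g3, g4⟩ := pay4_sound N a4 vh d L lam (2 ^ 33) om
          (fun i => r + Ra + b4 * dg W (i + e) + mx i) gam (fun i => dg T (i + e)) (fun i => dg W (i + e))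
          (fun i hi => by
            have h4 := hR i hi
            have h5 : b4 * dg W (i + e) ≤ b4 * 2 ^ 32 := Nat.mul_le_mul_left b4 (hW i).le
            show r + Ra + b4 * dg W (i + e) + mx i < 2 ^ 63
            omega)
          (fun i hi => by
            have h4 := hL i hi
            have h5 : a4 * 2 ^ 32 ≤ a4 * 2 ^ 33 := Nat.mul_le_mul_left a4 (by norm_num)
            have h6 : (2 : ℕ) ^ 63 = 9223372036854775808 := by norm_num
            show a4 * 2 ^ 32 + om i + L ≤ 2 ^ 63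
            rw [h6]
            exact le_trans (by linarith) h2)
          (fun i hi => by
            have h4 := hL i hi
            have h6 : (2 : ℕ) ^ 63 = 9223372036854775808 := by norm_num
            show a4 * 2 ^ 33 + om i + L ≤ 2 ^ 63
            rw [h6]
            exact le_trans (by linarith) h2) (by omega) hg hv hd (by norm_num) (fun i _ => hT i) (fun i _ => hW i) P1 P2 Q1 Q2 _ h
        obtain ⟨P1'', P2'', Q1'', Q2'', hk', f1, f2, f3, f4⟩ := ih (fun q hq => by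
          have := hs (q + 1) (by simp; omega)
          simpa using this) rs ls _ _ _ _ k hk
        refine ⟨P1'', P2'', Q1'', Q2'', hk', ?_, ?_, ?_, ?_⟩
        · intro i hi
          obtain ⟨a1, a2⟩ := f1 i hi
          obtain ⟨b1, b2, b3, b4', b5⟩ := g1 i a1
          refine ⟨b1, fun _ => ⟨b2, fun q hq => ?_⟩⟩
          cases q with
          | zero =>
            refine ⟨b3, ?_, ?_⟩
            · simp only [List.getD_cons_zero]; omega
            · simp only [List.getD_cons_zero, cond_false]; omega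
          | succ q =>
            have hq' : q < tabs.length := by simpa using hq
            have hne : tabs ≠ [] := by
              rintro rfl
              exact absurd hq' (by simp)
            have := (a2 hne).2 q hq'
            simpa using this
        · intro i hi
          obtain ⟨a1, a2⟩ := f2 i hi
          obtain ⟨b1, b2, b3, b4', b5⟩ := g2 i a1
          refine ⟨b1, fun _ => ⟨b2, fun q hq => ?_⟩⟩
          cases q with
          | zero =>
            refine ⟨b3, ?_, ?_⟩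
            · simp only [List.getD_cons_zero]; omega
            · simp only [List.getD_cons_zero, cond_true]; omega
          | succ q =>
            have hq' : q < tabs.length := by simpa using hq
            have hne : tabs ≠ [] := by
              rintro rfl
              exact absurd hq' (by simp)
            have := (a2 hne).2 q hq'
            simpa using this
        · intro i hi
          obtain ⟨a1, a2⟩ := f3 i hi
          obtain ⟨b1, b2, b3, b4', b5⟩ := g3 i a1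
          refine ⟨b1, fun _ => ⟨b2, fun q hq => ?_⟩⟩
          cases q with
          | zero =>
            refine ⟨b3, ?_, ?_⟩
            · simp only [List.getD_cons_zero]; omega
            · simp only [List.getD_cons_zero, cond_false]; omega
          | succ q =>
            have hq' : q < tabs.length := by simpa using hq
            have hne : tabs ≠ [] := by
              rintro rfl
              exact absurd hq' (by simp)
            have := (a2 hne).2 q hq'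
            simpa using this
        · intro i hi
          obtain ⟨a1, a2⟩ := f4 i hi
          obtain ⟨b1, b2, b3, b4', b5⟩ := g4 i a1
          refine ⟨b1, fun _ => ⟨b2, fun q hq => ?_⟩⟩
          cases q with
          | zero =>
            refine ⟨b3, ?_, ?_⟩
            · simp only [List.getD_cons_zero]; omega
            · simp only [List.getD_cons_zero, cond_true]; omega
          | succ q =>
            have hq' : q < tabs.length := by simpa using hq
            have hne : tabs ≠ [] := by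
              rintro rfl
              exact absurd hq' (by simp)
            have := (a2 hne).2 q hq'
            simpa using this

/-- THE CHECK OF A ROW, payers: eight corners of the box `(b, g, y)`, all the cells. -/
noncomputable def sideP (ms : List (List (ℕ × ℕ) × ℕ × ℕ × ℕ)) (HH ONE a4 b4 vh muX Om X0 R0 Gam bX bO bG d T1 p1 lb
    e0 L0 A0 e1 L1 A1 : ℕ) (tabs : List (ℕ × ℕ)) (rs ls : List ℕ) : Bool :=
  cond (Nat.ble (Nat.add (Nat.add (Nat.add T1 p1) lb) d) (nat_lit 1152921504606846976))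
  (cond (Nat.ble bG (nat_lit 4294967296)) (cond (Nat.ble vh (nat_lit 4294967296))
  (frc (Nat.add (Nat.mul b4 (nat_lit 4294967296)) bX) fun bR =>
    frc (Nat.add (Nat.mul a4 (nat_lit 8589934592)) bO) fun bL =>
    frc (Nat.mul a4 Gam) fun aG => frc (Nat.mul a4 vh) fun h4 => frc (Nat.add d vh) fun dh =>
    crn4 HH ONE a4 b4 h4 muX Om aG Gam d dh bR bL e0 L0 A0 tabs rs ls HH HH HH HH fun rs' ls' P1 P2 Q1 Q2 =>
    crn4 HH ONE a4 b4 h4 muX Om aG Gam d dh bR bL e1 L1 A1 tabs rs' ls' P1 P2 Q1 Q2 fun _ _ P1' P2' Q1' Q2' =>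
      allM (mskD HH ONE R0 X0 T1 p1 lb [P1', P2', Q1', Q2']) ms) false) false) false

/-- SOUNDNESS of the check of a row, payers. -/
theorem sideP_sound (rd ks Ps Oms Rms Gms Ns : List ℕ) (hcnt : CntOK rd Ns) (hk : ks.length = rd.length)
    (hP : Ps.length = rd.length) (a4 b4 vh d T1 p1 lb e0 L0 A0 e1 L1 A1 : ℕ) (tabs : List (ℕ × ℕ))
    (rs ls : List ℕ) (hne : tabs ≠ []) (hs : SmT (prd rd) tabs) (hX : Pk.dotN rd Ps < 2 ^ 62)
    (hR : Pk.dotN rd ks < 2 ^ 62)
    (h : sideP (mm rd ks Ps 0 0) (pk (fun _ => 2 ^ 63) (prd rd)) (pk (fun _ => 1) (prd rd)) a4 b4 vh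
      (linC Rms Ns) (linC Oms Ns) (linC Ps Ns) (linC ks Ns) (linC Gms Ns) (Pk.dotN rd Rms) (Pk.dotN rd Oms)
      (Pk.dotN rd Gms) d T1 p1 lb e0 L0 A0 e1 L1 A1 tabs rs ls = true)
    (ns : List ℕ) (fs : List Bool) (hns : CA.OkD rd ns) (hfs : fs.length = rd.length)
    (h1 : Pk.dotN ns ks + lowN 0 ks fs ≤ T1) (h2 : Pk.dotN ns Ps + lowN 0 Ps fs ≤ p1)
    (h3 : lb ≤ Pk.dotN ns ks + uppN ks fs) :
    ∃ al : Bool,
    (∀ o ∈ coff rd fs, Line4 (prd rd) a4 b4 vh e0 L0 A0 (fun i => Pk.dotN (CA.dig rd i) Rms)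
        (fun i => Pk.dotN (CA.dig rd i) Oms) (fun i => Pk.dotN (CA.dig rd i) Gms) al tabs rs ls
        (CA.idx rd ns + o.2) ∧
      Line4 (prd rd) a4 b4 vh e1 L1 A1 (fun i => Pk.dotN (CA.dig rd i) Rms)
        (fun i => Pk.dotN (CA.dig rd i) Oms) (fun i => Pk.dotN (CA.dig rd i) Gms) al tabs
        (rs.drop tabs.length) (ls.drop tabs.length) (CA.idx rd ns + o.2)) ∨
    (∀ o ∈ coff rd fs, Rich4 (prd rd) d vh e0 (fun i => Pk.dotN (CA.dig rd i) Gms) al tabs ls
        (CA.idx rd ns + o.2) ∧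
      Rich4 (prd rd) d vh e1 (fun i => Pk.dotN (CA.dig rd i) Gms) al tabs (ls.drop tabs.length)
        (CA.idx rd ns + o.2)) := by
  unfold sideP at h
  obtain ⟨hb, h⟩ := cond_eq_true h
  obtain ⟨hb2, h⟩ := cond_eq_true h
  obtain ⟨hb3, h⟩ := cond_eq_true h
  have hb : T1 + p1 + lb + d ≤ 1152921504606846976 := Nat.le_of_ble_eq_true hb
  have hb2 : Pk.dotN rd Gms ≤ 4294967296 := Nat.le_of_ble_eq_true hb2
  have hb3 : vh ≤ 4294967296 := Nat.le_of_ble_eq_true hb3
  simp only [frc_eq] at h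
  rw [lin_eq rd Ns Oms hcnt, lin_eq rd Ns Rms hcnt, lin_eq rd Ns Ps hcnt, lin_eq rd Ns ks hcnt, lin_eq rd Ns Gms hcnt,
    show Nat.mul a4 (pk (fun i => Pk.dotN (CA.dig rd i) Gms) (prd rd))
      = pk (fun i => a4 * Pk.dotN (CA.dig rd i) Gms) (prd rd) from pk_mul _ _ _] at h
  have bR : ∀ i < prd rd, b4 * 2 ^ 32 + Pk.dotN (CA.dig rd i) Rms
      ≤ Nat.add (Nat.mul b4 4294967296) (Pk.dotN rd Rms) := by
    intro i hi
    show _ ≤ b4 * 4294967296 + Pk.dotN rd Rms
    have := dot_le_rd rd Rms i hi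
    norm_num
    exact this
  have bL : ∀ i < prd rd, a4 * 2 ^ 33 + Pk.dotN (CA.dig rd i) Oms
      ≤ Nat.add (Nat.mul a4 8589934592) (Pk.dotN rd Oms) := by
    intro i hi
    show _ ≤ a4 * 8589934592 + Pk.dotN rd Oms
    have := dot_le_rd rd Oms i hi
    norm_num
    exact this
  have bG : ∀ i < prd rd, Pk.dotN (CA.dig rd i) Gms ≤ 2 ^ 32 := fun i hi => by
    have := dot_le_rd rd Gms i hi
    omega
  obtain ⟨P1, P2, Q1, Q2, h, g1, g2, g3, g4⟩ := crn4_sound (prd rd) a4 b4 vh d _ _ e0 L0 A0 _ _ _ bR bL bG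
    (by omega) (by omega) tabs hs _ _ _ _ _ _ _ h
  obtain ⟨P1', P2', Q1', Q2', h, k1, k2, k3, k4⟩ := crn4_sound (prd rd) a4 b4 vh d _ _ e1 L1 A1 _ _ _ bR bL bG
    (by omega) (by omega) tabs hs _ _ _ _ _ _ _ h
  have hm := allM_sound _ _ h _ (mm_mem rd ks Ps fs 0 0 hk hP hfs)
  have hi := idx_lt rd ns hns
  have hd := CA.dig_idx rd ns hns
  obtain ⟨P, hP1, hP2⟩ := mskD_sound (prd rd) _ _ T1 p1 lb _ _
    (fun i hi => lt_of_le_of_lt (dot_le_rd rd ks i hi) hR) (fun i hi => lt_of_le_of_lt (dot_le_rd rd Ps i hi) hX)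
    (by omega) (by omega) (by omega) hm (CA.idx rd ns) hi (by rw [hd]; exact h1) (by rw [hd]; exact h2)
    (by rw [hd]; exact h3)
  simp only [List.mem_cons, List.not_mem_nil, or_false] at hP1
  rcases hP1 with rfl | rfl | rfl | rfl
  · exact ⟨false, Or.inl fun o ho => ⟨(g1 _ (k1 _ (hP2 o ho)).1).2 hne, (k1 _ (hP2 o ho)).2 hne⟩⟩
  · exact ⟨true, Or.inl fun o ho => ⟨(g2 _ (k2 _ (hP2 o ho)).1).2 hne, (k2 _ (hP2 o ho)).2 hne⟩⟩
  · exact ⟨false, Or.inr fun o ho => ⟨(g3 _ (k3 _ (hP2 o ho)).1).2 hne, (k3 _ (hP2 o ho)).2 hne⟩⟩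
  · exact ⟨true, Or.inr fun o ho => ⟨(g4 _ (k4 _ (hP2 o ho)).1).2 hne, (k4 _ (hP2 o ho)).2 hne⟩⟩

/-- THE CHECK OF A ROW, bad vertices. -/
noncomputable def sideB (ms : List (List (ℕ × ℕ) × ℕ × ℕ × ℕ)) (HH ONE a4 b4 muX Om X0 R0 bX bO d T1 p1 lb
    e0 L0 A0 e1 L1 A1 : ℕ) (tabs : List (ℕ × ℕ)) (rs : List ℕ) : Bool :=
  cond (Nat.ble (Nat.add (Nat.add (Nat.add T1 p1) lb) d) (nat_lit 1152921504606846976))
  (frc (Nat.add (Nat.mul b4 (nat_lit 4294967296)) bX) fun bR =>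
    frc (Nat.add (Nat.mul a4 (nat_lit 4294967296)) bO) fun bL =>
    crn1 HH ONE a4 b4 muX Om d bR bL e0 L0 A0 tabs rs HH HH fun rs' P Q =>
    crn1 HH ONE a4 b4 muX Om d bR bL e1 L1 A1 tabs rs' P Q fun _ P' Q' =>
      allM (mskD HH ONE R0 X0 T1 p1 lb [P', Q']) ms) false

/-- SOUNDNESS of the check of a row, bad vertices. -/
theorem sideB_sound (rd ks Ps Oms Rms Ns : List ℕ) (hcnt : CntOK rd Ns) (hk : ks.length = rd.length)
    (hP : Ps.length = rd.length) (a4 b4 d T1 p1 lb e0 L0 A0 e1 L1 A1 : ℕ) (tabs : List (ℕ × ℕ))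
    (rs : List ℕ) (hne : tabs ≠ []) (hs : SmT (prd rd) tabs) (hX : Pk.dotN rd Ps < 2 ^ 62)
    (hR : Pk.dotN rd ks < 2 ^ 62)
    (h : sideB (mm rd ks Ps 0 0) (pk (fun _ => 2 ^ 63) (prd rd)) (pk (fun _ => 1) (prd rd)) a4 b4
      (linC Rms Ns) (linC Oms Ns) (linC Ps Ns) (linC ks Ns) (Pk.dotN rd Rms) (Pk.dotN rd Oms) d T1 p1 lb
      e0 L0 A0 e1 L1 A1 tabs rs = true)
    (ns : List ℕ) (fs : List Bool) (hns : CA.OkD rd ns) (hfs : fs.length = rd.length)
    (h1 : Pk.dotN ns ks + lowN 0 ks fs ≤ T1) (h2 : Pk.dotN ns Ps + lowN 0 Ps fs ≤ p1)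
    (h3 : lb ≤ Pk.dotN ns ks + uppN ks fs) :
    (∀ o ∈ coff rd fs, LineAt (prd rd) a4 b4 e0 L0 A0 (fun i => Pk.dotN (CA.dig rd i) Rms)
        (fun i => Pk.dotN (CA.dig rd i) Oms) tabs rs (CA.idx rd ns + o.2) ∧
      LineAt (prd rd) a4 b4 e1 L1 A1 (fun i => Pk.dotN (CA.dig rd i) Rms)
        (fun i => Pk.dotN (CA.dig rd i) Oms) tabs (rs.drop tabs.length) (CA.idx rd ns + o.2)) ∨
    (∀ o ∈ coff rd fs, RichAt (prd rd) d e0 tabs (CA.idx rd ns + o.2) ∧
      RichAt (prd rd) d e1 tabs (CA.idx rd ns + o.2)) := by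
  unfold sideB at h
  obtain ⟨hb, h⟩ := cond_eq_true h
  have hb : T1 + p1 + lb + d ≤ 1152921504606846976 := Nat.le_of_ble_eq_true hb
  simp only [frc_eq] at h
  rw [lin_eq rd Ns Oms hcnt, lin_eq rd Ns Rms hcnt, lin_eq rd Ns Ps hcnt, lin_eq rd Ns ks hcnt] at h
  have bR : ∀ i < prd rd, b4 * 2 ^ 32 + Pk.dotN (CA.dig rd i) Rms
      ≤ Nat.add (Nat.mul b4 4294967296) (Pk.dotN rd Rms) := by
    intro i hi
    show _ ≤ b4 * 4294967296 + Pk.dotN rd Rms
    have := dot_le_rd rd Rms i hi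
    norm_num
    exact this
  have bL : ∀ i < prd rd, a4 * 2 ^ 32 + Pk.dotN (CA.dig rd i) Oms
      ≤ Nat.add (Nat.mul a4 4294967296) (Pk.dotN rd Oms) := by
    intro i hi
    show _ ≤ a4 * 4294967296 + Pk.dotN rd Oms
    have := dot_le_rd rd Oms i hi
    norm_num
    exact this
  obtain ⟨P, Q, h, -, -, g3, g4⟩ := crn1_sound (prd rd) a4 b4 d _ _ e0 L0 A0 _ _ bR bL (by omega) tabs hs _ _ _ _ h
  obtain ⟨P', Q', h, k1, k2, k3, k4⟩ := crn1_sound (prd rd) a4 b4 d _ _ e1 L1 A1 _ _ bR bL (by omega) tabs hs _ _ _ _ h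
  have hm := allM_sound _ _ h _ (mm_mem rd ks Ps fs 0 0 hk hP hfs)
  have hi := idx_lt rd ns hns
  have hd := CA.dig_idx rd ns hns
  obtain ⟨X, hX1, hX2⟩ := mskD_sound (prd rd) _ _ T1 p1 lb _ _
    (fun i hi => lt_of_le_of_lt (dot_le_rd rd ks i hi) hR) (fun i hi => lt_of_le_of_lt (dot_le_rd rd Ps i hi) hX)
    (by omega) (by omega) (by omega) hm (CA.idx rd ns) hi (by rw [hd]; exact h1) (by rw [hd]; exact h2)
    (by rw [hd]; exact h3)
  simp only [List.mem_cons, List.not_mem_nil, or_false] at hX1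
  rcases hX1 with rfl | rfl
  · exact Or.inl fun o ho => ⟨g3 _ (k1 _ (hX2 o ho)) hne, k3 _ (hX2 o ho) hne⟩
  · exact Or.inr fun o ho => ⟨g4 _ (k2 _ (hX2 o ho)) hne, k4 _ (hX2 o ho) hne⟩

end PkA
end Pool.Agent.Lib.MP_6947cd_al
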