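import Pool.Agent.Lib.MP_6947cd_al.Z.CC
import Pool.Agent.Lib.MP_6947cd_al.Y.SpecR
import Pool.Agent.Lib.MP_6947cd_al.L.WConc2

/-!
Problem MP_6947cd_al (Chollet).  CASE B, middle second entry: coordinatewise convexity of the total function.

Coordinates: `0 = h`, `1 = t`, `2 = g`, `3 = x`, `4 = y`, `5 = z`.
-/

set_option autoImplicit false
open Finset

namespace Pool.Agent.Lib.MP_6947cd_al
namespace CC

open Ent Fr Fr.WT

variable {ι : Type} [DecidableEq ι] {lo hi : ι → ℝ}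

lemma map_update (v : ι → ℝ) (l : ι) (u : ℝ) (L : List ι) (hL : L.Nodup) :
    ((L.map (Function.update v l u) : List ℝ) : Multiset ℝ)
      = if l ∈ L then u ::ₘ (((L.erase l).map v : List ℝ) : Multiset ℝ) else ((L.map v : List ℝ) : Multiset ℝ) := by
  induction L with
  | nil => simp
  | cons a L ih =>
    rw [List.nodup_cons] at hL
    obtain ⟨h1, h2⟩ := hL
    rw [List.map_cons, ← Multiset.cons_coe, ih h2]
    by_cases ha : a = l
    · subst ha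
      rw [if_neg h1, if_pos List.mem_cons_self, Function.update_self, List.erase_cons_head]
    · rw [Function.update_of_ne ha]
      by_cases hl : l ∈ L
      · rw [if_pos hl, if_pos (List.mem_cons_of_mem _ hl), List.erase_cons_tail (by simpa using ha),
          List.map_cons, ← Multiset.cons_coe, Multiset.cons_swap]
      · rw [if_neg hl, if_neg (by
          intro h
          rcases List.mem_cons.mp h with h | h
          · exact ha h.symm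
          · exact hl h), List.map_cons, ← Multiset.cons_coe]

/-- THE ROW FUNCTION is convex in every coordinate. -/
theorem cc_FM (h0 : ∀ i, 0 ≤ lo i) (h1 : ∀ i, hi i ≤ 1) (L : List ι) (hL : L.Nodup) (N : Multiset ℝ)
    (hN : ∀ e ∈ N, 0 ≤ e ∧ e ≤ 1) :
    Cc lo hi fun v => FM (1 ::ₘ (((L.map v : List ℝ) : Multiset ℝ) + N)) := by
  intro v hv l
  have hv01 : ∀ i, 0 ≤ v i ∧ v i ≤ 1 := fun i => ⟨(h0 i).trans (hv i).1, (hv i).2.trans (h1 i)⟩
  by_cases hl : l ∈ L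
  · have e : (fun u => FM (1 ::ₘ (((L.map (Function.update v l u) : List ℝ) : Multiset ℝ) + N)))
        = fun u => FM (u ::ₘ (1 ::ₘ ((((L.erase l).map v : List ℝ) : Multiset ℝ) + N))) := by
      funext u
      rw [map_update v l u L hL, if_pos hl, Multiset.cons_add, Multiset.cons_swap]
    rw [e]
    refine (FM_convexOn _ (Multiset.mem_cons_self _ _) ?_).subset
      (Set.Icc_subset_Icc (h0 l) (h1 l)) (convex_Icc _ _)
    intro z hz
    rcases Multiset.mem_cons.mp hz with rfl | hz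
    · exact ⟨zero_le_one, le_rfl⟩
    · rcases Multiset.mem_add.mp hz with hz | hz
      · rw [Multiset.mem_coe, List.mem_map] at hz
        obtain ⟨i, _, rfl⟩ := hz
        exact hv01 i
      · exact hN z hz
  · have e : (fun u => FM (1 ::ₘ (((L.map (Function.update v l u) : List ℝ) : Multiset ℝ) + N)))
        = fun _ => FM (1 ::ₘ (((L.map v : List ℝ) : Multiset ℝ) + N)) := by
      funext u
      rw [map_update v l u L hL, if_neg hl]
    rw [e]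
    exact convexOn_const _ (convex_Icc _ _)

/-- `-ψ` of a multi-affine function, `ψ` concave -/
lemma cc_neg_of {ψ : ℝ → ℝ} (hψ : ConcaveOn ℝ Set.univ ψ) {f : (ι → ℝ) → ℝ} (hf : Ma f) :
    Cc lo hi fun v => -ψ (f v) :=
  hf.comp_convex (φ := fun u => -ψ u) (S := Set.univ) hψ.neg fun _ _ => Set.mem_univ _

/-- `-Wc` of a multi-affine function -/
lemma cc_negWc {f : (ι → ℝ) → ℝ} (hf : Ma f) : Cc lo hi fun v => -Wc (f v) :=
  cc_neg_of (ψ := Wc) Wc_concave hf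

/-- `-Wd` of a multi-affine function -/
lemma cc_negWd {f : (ι → ℝ) → ℝ} (hf : Ma f) : Cc lo hi fun v => -WD.Wd (f v) :=
  cc_neg_of (ψ := WD.Wd) WD.Wd_concave hf

/-- a convex function of one coordinate -/
lemma cc_coord (j : ι) {s : ℝ → ℝ} (hs : ConvexOn ℝ (Set.Icc (lo j) (hi j)) s) : Cc lo hi fun v => s (v j) :=
  (Ma.coord j).comp_convex hs fun v hv => ⟨(hv j).1, (hv j).2⟩

lemma Ma.listsum (L : List ι) : Ma fun v : ι → ℝ => (L.map v).sum := by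
  induction L with
  | nil => exact Ma.const 0
  | cons a L ih =>
    have := (Ma.coord a).add ih
    refine fun v i => ?_
    obtain ⟨p, q, h⟩ := this v i
    exact ⟨p, q, fun u => by rw [← h]; simp⟩

end CC

namespace B2

open Ent Fr Fr.WT CC

/-- the row `i` -/
noncomputable def UI (α κ Γ : ℝ) (h t x : ℝ) (N : Multiset ℝ) : ℝ :=
  α * FM (1 ::ₘ h ::ₘ t ::ₘ x ::ₘ N) + κ * (FM (1 ::ₘ h ::ₘ t ::ₘ x ::ₘ N) - Wc (h + t + x + N.sum))
    + Γ * max (FM (1 ::ₘ h ::ₘ t ::ₘ x ::ₘ N) - Wc (h + t + x + N.sum)) (1 / 1000)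

/-- the affine alternative of the row functional -/
structure Af where
  p : ℝ
  pb : ℝ
  pg : ℝ
  py : ℝ

/-- its value -/
def Af.val (c : Af) (b g y : ℝ) : ℝ := c.p + c.pb * b + c.pg * g + c.py * y

/-- the rows `j` and `k` -/
noncomputable def UJ (A β : ℝ) (c : Af) (φ : ℝ → ℝ) (b g y : ℝ) (M : Multiset ℝ) : ℝ :=
  (A + β) * max (FM (1 ::ₘ b ::ₘ g ::ₘ y ::ₘ M)) (c.val b g y) - β * WD.Wd (b + g + y + M.sum)
    + (M.map φ).sum

section

variable {lo hi : Fin 6 → ℝ}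

lemma cc3 (h0 : ∀ i, 0 ≤ lo i) (h1 : ∀ i, hi i ≤ 1) (a b c : Fin 6) (hab : a ≠ b) (hac : a ≠ c)
    (hbc : b ≠ c) (N : Multiset ℝ) (hN : ∀ e ∈ N, 0 ≤ e ∧ e ≤ 1) :
    Cc lo hi fun v => FM (1 ::ₘ v a ::ₘ v b ::ₘ v c ::ₘ N) := by
  have := cc_FM h0 h1 [a, b, c] (by simp [hab, hac, hbc]) N hN
  refine this.congr fun v _ => ?_
  simp only [List.map_cons, List.map_nil]
  rw [← Multiset.cons_coe, ← Multiset.cons_coe, ← Multiset.cons_coe, Multiset.coe_nil,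
    Multiset.cons_add, Multiset.cons_add, Multiset.cons_add, zero_add]

lemma ma3 (a b c : Fin 6) (k : ℝ) : Ma fun v : Fin 6 → ℝ => v a + v b + v c + k :=
  (((Ma.coord a).add (Ma.coord b)).add (Ma.coord c)).add (Ma.const k)

lemma cc_UI (h0 : ∀ i, 0 ≤ lo i) (h1 : ∀ i, hi i ≤ 1) {α κ Γ : ℝ} (hα : 0 ≤ α) (hκ : 0 ≤ κ)
    (hΓ : 0 ≤ Γ) (N : Multiset ℝ) (hN : ∀ e ∈ N, 0 ≤ e ∧ e ≤ 1) :
    Cc lo hi fun v => UI α κ Γ (v 0) (v 1) (v 3) N := by
  have hF : Cc lo hi fun v : Fin 6 → ℝ => FM (1 ::ₘ v 0 ::ₘ v 1 ::ₘ v 3 ::ₘ N) :=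
    cc3 h0 h1 0 1 3 (by decide) (by decide) (by decide) N hN
  have hD : Cc lo hi fun v : Fin 6 → ℝ => FM (1 ::ₘ v 0 ::ₘ v 1 ::ₘ v 3 ::ₘ N)
      - Wc (v 0 + v 1 + v 3 + N.sum) := by
    have := hF.add (cc_negWc (lo := lo) (hi := hi) (ma3 0 1 3 N.sum))
    exact this.congr fun v _ => by ring
  exact ((hF.smul hα).add (hD.smul hκ)).add ((hD.max_const _).smul hΓ)

lemma cc_UJ (h0 : ∀ i, 0 ≤ lo i) (h1 : ∀ i, hi i ≤ 1) {A β : ℝ} (hA : 0 ≤ A) (hβ : 0 ≤ β) (c : Af)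
    (φ : ℝ → ℝ) (a b d : Fin 6) (hab : a ≠ b) (had : a ≠ d) (hbd : b ≠ d) (M : Multiset ℝ)
    (hM : ∀ e ∈ M, 0 ≤ e ∧ e ≤ 1) : Cc lo hi fun v => UJ A β c φ (v a) (v b) (v d) M := by
  have hF := cc3 h0 h1 a b d hab had hbd M hM
  have hc : Ma fun v : Fin 6 → ℝ => c.val (v a) (v b) (v d) := by
    have := (((Ma.const c.p).add ((Ma.coord a).smul c.pb)).add ((Ma.coord b).smul c.pg)).add
      ((Ma.coord d).smul c.py)
    exact this
  have h2 := (hF.max (hc.cc (lo := lo) (hi := hi))).smul (add_nonneg hA hβ)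
  have h3 := (cc_negWd (lo := lo) (hi := hi) (ma3 a b d M.sum)).smul hβ
  refine ((h2.add h3).add (Cc.const (M.map φ).sum)).congr fun v _ => ?_
  unfold UJ
  ring

/-- THE CORNERS BOUND THE TOTAL FUNCTION. -/
theorem total_le (h0 : ∀ i, 0 ≤ lo i) (h1 : ∀ i, hi i ≤ 1) {α κ Γ Aj βj Ak βk : ℝ} (hα : 0 ≤ α)
    (hκ : 0 ≤ κ) (hΓ : 0 ≤ Γ) (hAj : 0 ≤ Aj) (hβj : 0 ≤ βj) (hAk : 0 ≤ Ak) (hβk : 0 ≤ βk) (cj ck : Af)
    (φj φk : ℝ → ℝ) (S : (Fin 6 → ℝ) → ℝ) (hS : Cc lo hi S) (N Mj Mk : Multiset ℝ)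
    (hN : ∀ e ∈ N, 0 ≤ e ∧ e ≤ 1) (hMj : ∀ e ∈ Mj, 0 ≤ e ∧ e ≤ 1) (hMk : ∀ e ∈ Mk, 0 ≤ e ∧ e ≤ 1) (C : ℝ)
    (hc : ∀ c : Fin 6 → Bool, UI α κ Γ (corner lo hi c 0) (corner lo hi c 1) (corner lo hi c 3) N
      + UJ Aj βj cj φj (corner lo hi c 0) (corner lo hi c 2) (corner lo hi c 4) Mj
      + UJ Ak βk ck φk (corner lo hi c 1) (corner lo hi c 2) (corner lo hi c 5) Mk
      + S (corner lo hi c) ≤ C) {v : Fin 6 → ℝ} (hv : Box lo hi v) :
    UI α κ Γ (v 0) (v 1) (v 3) N + UJ Aj βj cj φj (v 0) (v 2) (v 4) Mj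
      + UJ Ak βk ck φk (v 1) (v 2) (v 5) Mk + S v ≤ C := by
  have a1 := cc_UI h0 h1 hα hκ hΓ N hN
  have a2 := cc_UJ h0 h1 hAj hβj cj φj 0 2 4 (by decide) (by decide) (by decide) Mj hMj
  have a3 := cc_UJ h0 h1 hAk hβk ck φk 1 2 5 (by decide) (by decide) (by decide) Mk hMk
  exact (((a1.add a2).add a3).add hS).le_of_corners hc hv

end

end B2
end Pool.Agent.Lib.MP_6947cd_al
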