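import Pool.Agent.Lib.MP_6947cd_al.Z.FnF
import Pool.Agent.Lib.MP_6947cd_al.C.LeafD

/-!
Problem MP_6947cd_al (Chollet).  CASE B, middle second entry: the rows `j` and `k` of a leaf, real form.
-/

set_option autoImplicit false
open Finset

namespace Pool.Agent.Lib.MP_6947cd_al
namespace B2

open Ent Ent.Pk Fr Fr.WT CC B1 PkA

/-- A ROW after the bounds of its sum (natural numbers, unit `1 / 200`) -/
theorem row_coreN {ks Ps : List ℕ} {lb T1 p1 d : ℕ} {A β : ℝ} {c : Bool → Af} {γ : Bool → ℝ → ℝ} {φ : ℝ → ℝ}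
    {a0 a1 y0 y1 z0 z1 : ℝ} {r : ℕ → ℝ} {bad : Bool}
    (hS2 : SpecS2) (hS1 : SpecS1) (hS7 : SpecR7)
    (hkn : KnOK ks) (hl : Ps.length = ks.length) (hMo : Mo 0 (Ps.map fun v : ℕ => (v : ℝ) / 12800))
    (la : 3 / 10 ≤ a0) (ua : a1 ≤ 1) (ly : 0 ≤ y0) (uy : y1 ≤ 1) (lz : 0 ≤ z0) (uz : z1 ≤ 1)
    (hR : C1.RowOK ks Ps lb T1 p1 d A β c γ φ a0 a1 y0 y1 z0 z1 r)
    (hA : C1.AltOK ks bad c γ a0 a1 y0 y1 z0 z1)
    {a y z G R : ℝ} {M : Multiset (ℝ × ℝ)} {Mi : Multiset ℝ}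
    (ha0 : a0 ≤ a) (ha1 : a ≤ a1) (hy0 : y0 ≤ y) (hy1 : y ≤ y1) (hz0 : z0 ≤ z) (hz1 : z ≤ z1)
    (tot : a + y + z + (C1.sn M).sum ≤ 16)
    (hv : C1.Val G (a ::ₘ y ::ₘ z ::ₘ C1.sn M)) (hP : C1.Prs a Mi M)
    (hk : ∀ w ∈ M, w.2 ≤ top 0 (kR ks) ∧ nF 12800 ks Ps w.2 ≤ w.1)
    (hRs : Mi.sum ≤ R) (hp1 : 12800 * R ≤ p1)
    (hbad : bad = true → 0 < C1.Df G (a ::ₘ y ::ₘ z ::ₘ C1.sn M))
    (hd : -((d : ℝ) / 10 ^ 7) < C1.Df G (a ::ₘ y ::ₘ z ::ₘ C1.sn M))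
    (hsum : ∀ n : ℕ, (n : ℝ) / 200 ≤ (C1.sn M).sum → n ≤ T1)
    (hlb : ∀ n : ℕ, (C1.sn M).sum ≤ (n : ℝ) / 200 → lb ≤ n) :
    ∃ ns fs N, C1.Rd (kR ks) (1 ::ₘ a ::ₘ y ::ₘ z ::ₘ 0) (C1.sn M) ns fs N ∧
      (∀ e ∈ N, 0 ≤ e ∧ e ≤ 1) ∧ ∃ cf : Af, G ≤ max (FM (1 ::ₘ a ::ₘ y ::ₘ z ::ₘ N)) (cf.val a y z) ∧
        ∀ ba bb bc : Bool, UJ A β cf φ (C1.edg a0 a1 ba) (C1.edg y0 y1 bb) (C1.edg z0 z1 bc) N ≤ r (ix ba bb bc) := by
  have hM : ∀ e ∈ C1.sn M, 0 ≤ e ∧ e ≤ top 0 (kR ks) := by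
    intro e he
    obtain ⟨w, hw, rfl⟩ := Multiset.mem_map.mp he
    exact ⟨(hP.2 w hw).1, (hk w hw).1⟩
  obtain ⟨ns, fs, N, rd, q3, val, -⟩ := C1.row_pre hS2 hkn (by linarith) ua ly uy lz uz hA ha0 ha1 hy0 hy1 hz0 hz1 hv hM hbad
  obtain ⟨q1, q2, -, q4, q5⟩ := hS2 (kR ks) 0 ns fs N le_rfl hkn rd.red
  rw [C1.Df3] at hd
  refine ⟨ns, fs, N, rd, ?_⟩
  have hN : ∀ e ∈ N, 0 ≤ e ∧ e ≤ 1 := fun e he => ⟨(q3 e he).1, (q3 e he).2.trans (S6M.inc_top _ _ hkn)⟩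
  refine ⟨hN, ?_⟩
  -- the filters
  have e3 : (kR ks) = ks.map fun v : ℕ => (v : ℝ) / 200 := rfl
  have f1 : Pk.dotN ns ks + lowN 0 ks fs ≤ T1 := by
    have e1 := lowS_nat 200 ks 0 fs
    have e2 := dotR_nat ns ks 200
    rw [← e3] at e1 e2
    rw [Nat.cast_zero, zero_div] at e1
    rw [e1, e2, ← rd.s] at q1
    refine hsum _ ?_
    rw [Nat.cast_add, add_div]
    linarith
  have f3 : lb ≤ Pk.dotN ns ks + uppN ks fs := by
    have e1 := uppS_nat 200 ks fs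
    have e2 := dotR_nat ns ks 200
    rw [← e3] at e1 e2
    rw [e1, e2, ← rd.s] at q2
    refine hlb _ ?_
    rw [Nat.cast_add, add_div]
    linarith
  obtain ⟨n1, n2, n3⟩ := nF_facts hS7 12800 ks Ps hkn hl
  have f2 : Pk.dotN ns Ps + lowN 0 Ps fs ≤ p1 := by
    have e0 := hS1 (kR ks) (Ps.map fun v : ℕ => (v : ℝ) / 12800) 0 0 (nF 12800 ks Ps) ns fs N hkn
      (by simp [kR, hl]) n1 n2 (by
        intro n hn
        have h4 : (kR ks).getD n 0 = (kR ks)[n] := List.getD_eq_getElem _ _ hn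
        have hn2 : n < (Ps.map fun v : ℕ => (v : ℝ) / 12800).length := by
          rw [List.length_map, hl]
          rwa [kR_length] at hn
        rw [h4, List.getD_eq_getElem _ _ hn2]
        have h5 := congrArg (fun l : List ℝ => l[n]?) n3
        simp only [List.getElem?_map] at h5
        rw [List.getElem?_eq_getElem hn] at h5
        have h6 : (Ps.map fun v : ℕ => (v : ℝ) / 12800)[n]? = some (Ps.map fun v : ℕ => (v : ℝ) / 12800)[n] :=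
          List.getElem?_eq_getElem hn2
        rw [List.getElem?_map] at h6
        rw [h6] at h5
        simpa using h5) hMo rd.red
    have e1 := lowS_nat 12800 Ps 0 fs
    have e2 := dotR_nat ns Ps 12800
    rw [Nat.cast_zero, zero_div] at e1
    rw [e1, e2] at e0
    have e3 := rd.f (nF 12800 ks Ps) n1 n2
    have e4 : ((C1.sn M).map (nF 12800 ks Ps)).sum ≤ Mi.sum := by
      rw [C1.sum_snd, ← C1.sum_fst hP]
      exact Multiset.sum_map_le_sum_map _ _ fun w hw => (hk w hw).2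
    have e5 : ((Pk.dotN ns Ps : ℝ) + lowN 0 Ps fs) / 12800 ≤ R := by
      rw [add_div]
      linarith [e0.1]
    have e6 : (((Pk.dotN ns Ps + lowN 0 Ps fs : ℕ)) : ℝ) ≤ p1 := by
      push_cast
      rw [div_le_iff₀ (by norm_num)] at e5
      linarith
    exact_mod_cast e6
  obtain ⟨al, hal⟩ := hR ns fs N rd.red f1 f2 f3
  rcases hal with hl | hr
  · refine ⟨(c al).at (γ al) N, ?_, ?_⟩
    · rw [Af.at_val]
      exact val al
    · intro ba bb bc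
      rw [← VJ_eq]
      exact hl ba bb bc
  · exfalso
    have h1 := hr a y z ha0 ha1 hy0 hy1 hz0 hz1
    have h2 := val al
    have h3 : WD.Wd (a + y + z + N.sum) ≤ What (a + y + z + N.sum) := by
      have h0 : 0 ≤ N.sum := Multiset.sum_nonneg fun e he => (hN e he).1
      have h4 := rd.s
      exact C1.Wd_le_What' _ (by linarith) (by linarith)
    rw [← rd.s] at h1 h3
    linarith

/-! ### the alternatives of a row -/

lemma chF_zero (x : ℝ) : C1.chF (((0 : ℕ) : ℝ) / 400) (((0 : ℕ) : ℝ) / 400) (((0 : ℕ) : ℝ) / 10 ^ 7) (((0 : ℕ) : ℝ) / 10 ^ 7) x = 0 := by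
  unfold C1.chF
  simp

lemma gr_zero : C1.gr 0 = 0 := by
  rw [C1.gr_small (by norm_num)]
  norm_num

/-- the alternatives of a payer if the third special entry is `0` -/
theorem altOK_N {ks Gs : List ℕ} {bad : Bool} {A0 A1 Y0 Y1 a0 a1 y0 y1 : ℕ} (hS7 : SpecR7)
    (hkn : KnOK ks) (hA : A0 < A1) (hY : Y0 < Y1) (h : C1.gsC ks Gs = true)
    (c0 : C1.chG A0 A1 a0 a1 = true) (c1 : C1.chG Y0 Y1 y0 y1 = true) :
    C1.AltOK ks bad (altA 5000000 (C1.lamA A0 A1 Y0 Y1 0 0 a0 a1 y0 y1 0 0)) (altG ks Gs) ((A0 : ℝ) / 400)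
      ((A1 : ℝ) / 400) ((Y0 : ℝ) / 400) ((Y1 : ℝ) / 400) (((0 : ℕ) : ℝ) / 400) (((0 : ℕ) : ℝ) / 400) := by
  obtain ⟨hl, hg⟩ := C1.gsC_sound h
  obtain ⟨n1, n2, -⟩ := nF_facts hS7 10000000 ks Gs hkn hl
  refine ⟨?_, ?_, ?_⟩
  · intro al
    cases al with
    | false => exact aff_zero _ _
    | true => exact n1
  · intro al
    cases al with
    | false => rfl
    | true => exact n2
  · intro _ al a y z M ha0 ha1 hy0 hy1 hz0 hz1 hM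
    cases al with
    | false =>
      refine (C1.Gam_half _).trans (le_of_eq ?_)
      have e1 : altA 5000000 (C1.lamA A0 A1 Y0 Y1 0 0 a0 a1 y0 y1 0 0) false = cAf ((5000000 : ℕ) / 10 ^ 7) := rfl
      have e2 : altG ks Gs false = fun _ => (0 : ℝ) := rfl
      rw [e1, e2, cAf_val, Multiset.map_const', Multiset.sum_replicate, smul_zero, add_zero]
      norm_num
    | true =>
      have e1 : altA 5000000 (C1.lamA A0 A1 Y0 Y1 0 0 a0 a1 y0 y1 0 0) true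
        = C1.lamA A0 A1 Y0 Y1 0 0 a0 a1 y0 y1 0 0 := rfl
      have e2 : altG ks Gs true = nF 10000000 ks Gs := rfl
      have hz : z = 0 := by
        have e : ((0 : ℕ) : ℝ) / 400 = 0 := by norm_num
        rw [e] at hz0 hz1
        exact le_antisymm hz1 hz0
      rw [e1, e2, C1.lamA_val, chF_zero]
      have g0 := C1.chG_sound c0 hA ha0 ha1
      have g1 := C1.chG_sound c1 hY hy0 hy1
      have g3 : (M.map C1.gr).sum ≤ (M.map (nF 10000000 ks Gs)).sum :=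
        Multiset.sum_map_le_sum_map _ _ fun e he => hg e (hM e he).1 (hM e he).2
      have g4 : C1.Gam (a ::ₘ y ::ₘ z ::ₘ M) ≤ C1.gr a + (C1.gr y + (C1.gr z + (M.map C1.gr).sum)) - 6 / 125 := by
        unfold C1.Gam
        refine (min_le_left _ _).trans (le_of_eq ?_)
        rw [Multiset.map_cons, Multiset.map_cons, Multiset.map_cons, Multiset.sum_cons, Multiset.sum_cons,
          Multiset.sum_cons]
        rfl
      have g5 : C1.gr z = 0 := by rw [hz]; exact gr_zero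
      linarith

/-! ### the rows -/

/-- index of a corner; type `N`: the third special entry is `0` -/
def iV (V : Bool) (i : ℕ) : ℕ := cond V i (Nat.mod i (nat_lit 4))

lemma iV_ix (V : Bool) (a b c : Bool) : iV V (ix a b c) = ix a b (V && c) := by
  cases V <;> cases a <;> cases b <;> cases c <;> rfl

/-- the result of a row at a corner (`O` = offset) -/
noncomputable def rsV (V : Bool) (R : List ℕ) (O : ℕ) (i : ℕ) : ℝ := (((R.getD (iV V i) 0 : ℕ) : ℝ) - O) / 40000000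

/-- THE RESULT OF THE TABLE CHECK OF A ROW.  `r.kn` = knots and prices, `Os`, `Rs` = values of the function of the
rests at the knots (unit `1 / (4 * 10 ^ 7)`), weight `A`, multiplier `β`, `T1`, `lb` = bounds of the sum of the rests
(`1 / 200`), `R1` = bound of the sum of the rests of the row `i` (`1 / 400`), `r.d` = threshold, `r.R`, `O` = results;
borders `X`, `Y`, `Z` of the special entries (`1 / 400`), type `N`: `Z0 = Z1 = 0`. -/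
def RwB (V : Bool) (r : C1.Rw) (Os Rs : List ℕ) (A β O : ℕ) (bad : Bool) (lb T1 R1 X0 X1 Y0 Y1 Z0 Z1 : ℕ) : Prop :=
  C1.RowOK r.kn.ks r.kn.Ps lb T1 (32 * R1) r.d A β (C1.altC bad r X0 X1 Y0 Y1 Z0 Z1) (C1.altD bad r)
    (phF r.kn.ks Os Rs) ((X0 : ℝ) / 400) ((X1 : ℝ) / 400) ((Y0 : ℝ) / 400) ((Y1 : ℝ) / 400) ((Z0 : ℝ) / 400)
    ((Z1 : ℝ) / 400) (rsV V r.R O)

/-- THE RESULT OF THE CHECK of the heavy rows: sum of the rests at least `S` (`1 / 200`) -/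
def StB (r : C1.Rw) (bad : Bool) (S X0 X1 Y0 Y1 Z0 Z1 : ℕ) : Prop :=
  C1.StarOK (C1.lstC 0 r.kn.ks) S r.d (!bad) ((X0 : ℝ) / 400) ((X1 : ℝ) / 400) ((Y0 : ℝ) / 400)
    ((Y1 : ℝ) / 400) ((Z0 : ℝ) / 400) ((Z1 : ℝ) / 400)

/-- the integer part of the check of a row: prices, cap, monotonicity, alternatives -/
noncomputable def rwK (V : Bool) (r : C1.Rw) (bad : Bool) (sm X0 X1 Y0 Y1 Z0 Z1 : ℕ) : Bool :=
  cond (C1.knC X0 sm r.kn.ks r.kn.Ps r.kn.ts r.kn.cp) (cond (C1.moC r.kn.Ps (nat_lit 0))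
    (cond bad true (cond (C1.gsC r.kn.ks r.Gs) (cond (C1.chG X0 X1 r.a0 r.a1) (cond (C1.chG Y0 Y1 r.y0 r.y1)
      (cond V (C1.chG Z0 Z1 r.z0 r.z1) (cond (Nat.beq Z0 (nat_lit 0)) (cond (Nat.beq Z1 (nat_lit 0))
        (cond (Nat.beq r.z0 (nat_lit 0)) (Nat.beq r.z1 (nat_lit 0)) false) false) false)) false) false) false)) false) false

lemma rwK_sound (hS7 : SpecR7) {V : Bool} {r : C1.Rw} {bad : Bool} {sm X0 X1 Y0 Y1 Z0 Z1 : ℕ}
    (h : rwK V r bad sm X0 X1 Y0 Y1 Z0 Z1 = true) (hX : X0 < X1) (hY : Y0 < Y1) (hZ : V = true → Z0 < Z1) :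
    C1.knC X0 sm r.kn.ks r.kn.Ps r.kn.ts r.kn.cp = true ∧ C1.moC r.kn.Ps 0 = true ∧
    C1.AltOK r.kn.ks bad (C1.altC bad r X0 X1 Y0 Y1 Z0 Z1) (C1.altD bad r) ((X0 : ℝ) / 400) ((X1 : ℝ) / 400)
      ((Y0 : ℝ) / 400) ((Y1 : ℝ) / 400) ((Z0 : ℝ) / 400) ((Z1 : ℝ) / 400) := by
  unfold rwK at h
  obtain ⟨h1, h⟩ := cond_eq_true h
  obtain ⟨h2, h⟩ := cond_eq_true h
  refine ⟨h1, h2, ?_⟩
  cases bad with
  | true => exact C1.altOK_bad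
  | false =>
    rw [cond_false] at h
    obtain ⟨h4, h⟩ := cond_eq_true h
    obtain ⟨h5, h⟩ := cond_eq_true h
    obtain ⟨h6, h⟩ := cond_eq_true h
    cases V with
    | true => exact C1.altOK_of hS7 (C1.knC_knOK h1) hX hY (hZ rfl) h4 h5 h6 h
    | false =>
      rw [cond_false] at h
      obtain ⟨g1, h⟩ := cond_eq_true h
      obtain ⟨g2, h⟩ := cond_eq_true h
      obtain ⟨g3, g4⟩ := cond_eq_true h
      have g1 : Z0 = 0 := Nat.eq_of_beq_eq_true g1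
      have g2 : Z1 = 0 := Nat.eq_of_beq_eq_true g2
      have g3 : r.z0 = 0 := Nat.eq_of_beq_eq_true g3
      have g4 : r.z1 = 0 := Nat.eq_of_beq_eq_true g4
      have := altOK_N (bad := false) hS7 (C1.knC_knOK h1) hX hY h4 h5 h6
      unfold C1.altC C1.altD
      rw [cond_false, cond_false, g1, g2, g3, g4]
      exact this

/-- A USED ROW, from the integer data -/
theorem rowB {V : Bool} {r : C1.Rw} {Os Rs : List ℕ} {A β O : ℕ} {bad : Bool} {lb T1 R1 sm X0 X1 Y0 Y1 Z0 Z1 : ℕ}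
    (hS2 : SpecS2) (hS1 : SpecS1) (hS7 : SpecR7)
    (hc : rwK V r bad sm X0 X1 Y0 Y1 Z0 Z1 = true) (lO : Os.length = r.kn.ks.length)
    (lR : Rs.length = r.kn.ks.length) (ok : RwB V r Os Rs A β O bad lb T1 R1 X0 X1 Y0 Y1 Z0 Z1)
    (hX0 : 120 ≤ X0) (hX : X0 < X1) (hX1 : X1 ≤ 400) (hY : Y0 < Y1) (hY1 : Y1 ≤ 400) (hZ : V = true → Z0 < Z1)
    (hZ1 : Z1 ≤ 400)
    {a y z G : ℝ} {M : Multiset (ℝ × ℝ)} {Mi : Multiset ℝ}
    (ha : (X0 : ℝ) / 400 ≤ a ∧ a ≤ (X1 : ℝ) / 400) (hy : (Y0 : ℝ) / 400 ≤ y ∧ y ≤ (Y1 : ℝ) / 400)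
    (hz : (Z0 : ℝ) / 400 ≤ z ∧ z ≤ (Z1 : ℝ) / 400)
    (hv : C1.Val G (a ::ₘ y ::ₘ z ::ₘ C1.sn M)) (hP : C1.Prs a Mi M) (hMi : ∀ x ∈ Mi, 0 ≤ x ∧ x ≤ (sm : ℝ) / 400)
    (hRs : Mi.sum ≤ (R1 : ℝ) / 400)
    (hbad : bad = true → 0 < C1.Df G (a ::ₘ y ::ₘ z ::ₘ C1.sn M))
    (hd : -((r.d : ℝ) / 10 ^ 7) < C1.Df G (a ::ₘ y ::ₘ z ::ₘ C1.sn M))
    (hst : ((∀ n : ℕ, (n : ℝ) / 200 ≤ (C1.sn M).sum → n ≤ T1) ∧ a + y + z + (C1.sn M).sum ≤ 16) ∨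
      (StB r bad (T1 + 1) X0 X1 Y0 Y1 Z0 Z1 ∧ X1 + Y1 + Z1 + 2 * (T1 + 1) ≤ 6400))
    (hlb : ∀ n : ℕ, (C1.sn M).sum ≤ (n : ℝ) / 200 → lb ≤ n) :
    C1.RowD (kR r.kn.ks) (C1.phR r.kn.ks Os Rs) (A / 1000) (β / 1000) a y z G M
      ((X0 : ℝ) / 400) ((X1 : ℝ) / 400) ((Y0 : ℝ) / 400) ((Y1 : ℝ) / 400) ((Z0 : ℝ) / 400) ((Z1 : ℝ) / 400)
      (fun ba bb bc => (((r.R.getD (ix ba bb (V && bc)) 0 : ℕ) : ℝ) - O) / 40000000000) ∧
    (∀ w ∈ M, 0 ≤ w.1 ∧ w.2 ≤ top 0 (kR r.kn.ks) ∧ nF 12800 r.kn.ks r.kn.Ps w.2 ≤ w.1) ∧ KnOK r.kn.ks ∧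
    r.kn.Ps.length = r.kn.ks.length := by
  obtain ⟨kn, mo, hA⟩ := rwK_sound hS7 hc hX hY hZ
  have hkn := C1.knC_knOK kn
  have cst : ∀ n : ℕ, n ≤ 400 → (n : ℝ) / 400 ≤ 1 := fun n hn => by
    have : (n : ℝ) ≤ 400 := by exact_mod_cast hn
    linarith
  have hX1' := cst X1 hX1
  have hk : ∀ w ∈ M, 0 ≤ w.1 ∧ w.2 ≤ top 0 (kR r.kn.ks) ∧ nF 12800 r.kn.ks r.kn.Ps w.2 ≤ w.1 := by
    intro w hw
    obtain ⟨h1, h2, h3⟩ := hP.2 w hw
    have h4 : w.1 ∈ Mi := by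
      rw [← hP.1]
      exact Multiset.mem_map_of_mem _ hw
    exact ⟨(hMi _ h4).1, C1.knC_sound kn ha.1 (ha.2.trans hX1') (hMi _ h4).1 (hMi _ h4).2 h1 h2 h3⟩
  have hM : ∀ e ∈ C1.sn M, 0 ≤ e ∧ e ≤ top 0 (kR r.kn.ks) := by
    intro e he
    obtain ⟨w, hw, rfl⟩ := Multiset.mem_map.mp he
    exact ⟨(hP.2 w hw).1, (hk w hw).2.1⟩
  obtain ⟨p1, p2⟩ := phF_facts hS7 r.kn.ks Os Rs hkn lO lR
  have la : (3 : ℝ) / 10 ≤ (X0 : ℝ) / 400 := by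
    have : (120 : ℝ) ≤ X0 := by exact_mod_cast hX0
    linarith
  obtain ⟨hsum, htot⟩ : (∀ n : ℕ, (n : ℝ) / 200 ≤ (C1.sn M).sum → n ≤ T1) ∧ a + y + z + (C1.sn M).sum ≤ 16 := by
    rcases hst with h | ⟨h1, h2⟩
    · exact h
    · have q := C1.row_star (C1.top_kR0 r.kn.ks).le h1 ha.1 ha.2 hy.1 hy.2 hz.1 hz.2 hv hM hbad hd
      constructor
      · intro n hn
        have h3 : (n : ℝ) < ((T1 + 1 : ℕ) : ℝ) := by linarith
        have h4 : n < T1 + 1 := by exact_mod_cast h3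
        omega
      · have : (X1 : ℝ) + Y1 + Z1 + 2 * ((T1 + 1 : ℕ) : ℝ) ≤ 6400 := by exact_mod_cast h2
        have e1 := ha.2
        have e2 := hy.2
        have e3 := hz.2
        linarith
  obtain ⟨ns, fs, N, rd, hN, cf, q2, q3⟩ := row_coreN (R := (R1 : ℝ) / 400) hS2 hS1 hS7 hkn (C1.knC_len kn)
    (by simpa using C1.moC_sound r.kn.Ps 0 mo) la hX1'
    (by positivity) (cst Y1 hY1) (by positivity) (cst Z1 hZ1) ok hA ha.1 ha.2 hy.1 hy.2 hz.1 hz.2 htot hv hP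
    (fun w hw => (hk w hw).2) hRs (by push_cast; linarith) hbad hd hsum hlb
  refine ⟨⟨C1.aff_div _ _ p1, ?_, fun _ => htot, ns, fs, N, rd, hN, cf, q2, ?_⟩, hk, hkn, C1.knC_len kn⟩
  · show phF r.kn.ks Os Rs 0 / 1000 = 0
    rw [p2, zero_div]
  · intro ba bb bc
    have := q3 ba bb bc
    have e : B2.UJ ((A : ℝ) / 1000) ((β : ℝ) / 1000) cf (C1.phR r.kn.ks Os Rs) (C1.edg ((X0 : ℝ) / 400) ((X1 : ℝ) / 400) ba)
      (C1.edg ((Y0 : ℝ) / 400) ((Y1 : ℝ) / 400) bb) (C1.edg ((Z0 : ℝ) / 400) ((Z1 : ℝ) / 400) bc) N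
      = B2.UJ A β cf (phF r.kn.ks Os Rs) (C1.edg ((X0 : ℝ) / 400) ((X1 : ℝ) / 400) ba)
      (C1.edg ((Y0 : ℝ) / 400) ((Y1 : ℝ) / 400) bb) (C1.edg ((Z0 : ℝ) / 400) ((Z1 : ℝ) / 400) bc) N / 1000 :=
      C1.UJ_div _ _ _ _ _ _ _ _
    rw [e]
    unfold rsV at this
    rw [iV_ix] at this
    linarith

end B2
end Pool.Agent.Lib.MP_6947cd_al
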