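import Pool.Agent.Lib.MP_6947cd_al.C.Tb
import Pool.Agent.Lib.MP_6947cd_al.C.Num
import Pool.Agent.Lib.MP_6947cd_al.Z.LeafR

/-!
Problem MP_6947cd_al (Chollet).  CASE B, middle second entry: the check of the row `i`.
Tables with the half steps `m / 2`: digit `I` = the rests `m` (`I / 2` times) and `m / 2` (`I % 2` times).
Borders in units of `1 / 400`; values in units of `1 / (8 * 10 ^ 7)` and `1 / (8 * 10 ^ 15)`.
-/

set_option autoImplicit false
open Finset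

namespace Pool.Agent.Lib.MP_6947cd_al
namespace B2

open Ent Ent.Pk Fr Fr.WT CC B1 PkA

/-- the table of the row `i` at a corner `S` of the special entries -/
def TI (m Q s : ℕ) (S : Multiset ℝ) (T : ℕ) : Prop :=
  ∀ I < 2 * Q, FM (1 ::ₘ (S + (Multiset.replicate (I % 2) ((m : ℝ) / 800)
    + Multiset.replicate (I / 2) ((m : ℝ) / 400)))) ≤ (dg T I : ℝ) / (s * 10 ^ 7)

lemma TI.of_tb {k Q s bd : ℕ} {S : Multiset ℝ} {T W : ℕ} (h : Tb [2, Q] [k, 2 * k] s bd S T W) :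
    TI (4 * k) Q s S T := by
  intro I hI
  have hp : I < prd [2, Q] := by
    show I < 2 * (Q * 1)
    omega
  have := h.hF I hp
  refine le_trans (le_of_eq ?_) this
  congr 3
  have hIQ : I / 2 % Q = I / 2 := Nat.mod_eq_of_lt (by omega)
  have e : Ent.mk (CA.dig [2, Q] I) (kR [k, 2 * k]) = Multiset.replicate (I % 2) ((k : ℝ) / 200)
      + (Multiset.replicate (I / 2 % Q) (((2 * k : ℕ) : ℝ) / 200) + 0) := rfl
  rw [e, hIQ, add_zero]
  congr 2
  · push_cast; ring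
  · push_cast; ring

/-- division, rounded up -/
def cdiv (a b : ℕ) : ℕ := Nat.div (Nat.add a (Nat.sub b (nat_lit 1))) b

lemma cdiv_mul_ge (a b : ℕ) (hb : 0 < b) : a ≤ b * cdiv a b := by
  have e : cdiv a b = (a + (b - 1)) / b := rfl
  rw [e]
  have h1 := Nat.div_add_mod (a + (b - 1)) b
  have h2 := Nat.mod_lt (a + (b - 1)) hb
  omega

lemma cdiv_ge (a b : ℕ) (hb : 0 < b) : (a : ℝ) / b ≤ cdiv a b := by
  have h : (a : ℝ) ≤ b * cdiv a b := by exact_mod_cast cdiv_mul_ge a b hb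
  rw [div_le_iff₀ (by exact_mod_cast hb)]
  linarith

/-- upper bound of the value at `S`, times `8 * 10 ^ 7` -/
noncomputable def f8 (T s mh S : ℕ) : ℕ :=
  frc (Nat.div S mh) fun I => frc (Nat.sub S (Nat.mul I mh)) fun l =>
    cond (Nat.beq l (nat_lit 0)) (cdiv (Nat.mul (nat_lit 8) (dg T I)) s)
      (cdiv (Nat.mul (nat_lit 8) (Nat.add (Nat.mul (Nat.sub mh l) (dg T I)) (Nat.mul l (dg T (Nat.succ I)))))
        (Nat.mul s mh))

/-- convexity in the free rest -/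
lemma FM_rchord {S : Multiset ℝ} (h1 : (1 : ℝ) ∈ S) (hS : ∀ z ∈ S, 0 ≤ z ∧ z ≤ 1) {u0 u1 u w0 w1 F0 F1 : ℝ}
    (hu0 : 0 ≤ u0 ∧ u0 ≤ 1) (hu1 : 0 ≤ u1 ∧ u1 ≤ 1) (hw0 : 0 ≤ w0) (hw1 : 0 ≤ w1) (hw : w0 + w1 = 1)
    (hu : u = w0 * u0 + w1 * u1) (f0 : FM (u0 ::ₘ S) ≤ F0) (f1 : FM (u1 ::ₘ S) ≤ F1) :
    FM (u ::ₘ S) ≤ w0 * F0 + w1 * F1 := by
  have h := (FM_convexOn S h1 hS).2 (show u0 ∈ Set.Icc (0 : ℝ) 1 from hu0) (show u1 ∈ Set.Icc (0 : ℝ) 1 from hu1)
    hw0 hw1 hw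
  simp only [smul_eq_mul] at h
  rw [← hu] at h
  exact h.trans (add_le_add (mul_le_mul_of_nonneg_left f0 hw0) (mul_le_mul_of_nonneg_left f1 hw1))

theorem f8_le {mh Q s : ℕ} {S : Multiset ℝ} {T : ℕ} (h : TI (2 * mh) Q s S T) (hs : 0 < s) (hmh : 0 < mh)
    (hm1 : 2 * mh ≤ 400) (hS : ∀ z ∈ S, 0 ≤ z ∧ z ≤ 1) (Sn q : ℕ) (h0 : q * (2 * mh) ≤ Sn)
    (h1 : Sn ≤ (q + 1) * (2 * mh)) (hQ : Sn / mh + 2 ≤ 2 * Q) :
    FM (1 ::ₘ (S + (((Sn : ℝ) / 400 - q * (((2 * mh : ℕ) : ℝ) / 400)) ::ₘ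
      Multiset.replicate q (((2 * mh : ℕ) : ℝ) / 400)))) ≤ (f8 T s mh Sn : ℝ) / 80000000 := by
  obtain ⟨I, hI⟩ : ∃ I, I = Sn / mh := ⟨_, rfl⟩
  obtain ⟨l, hl⟩ : ∃ l, l = Sn - I * mh := ⟨_, rfl⟩
  have hSn : Sn = I * mh + l ∧ l < mh := by
    have a := Nat.div_add_mod Sn mh
    have b := Nat.mod_lt Sn hmh
    rw [← hI, Nat.mul_comm] at a
    omega
  obtain ⟨hSn, hlm⟩ := hSn
  have hIq : I = 2 * q ∨ I = 2 * q + 1 ∨ (I = 2 * q + 2 ∧ l = 0) := by
    have a1 : 2 * q ≤ I := by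
      rw [hI, Nat.le_div_iff_mul_le hmh]
      calc 2 * q * mh = q * (2 * mh) := by ring
        _ ≤ Sn := h0
    have a2 : I ≤ 2 * q + 2 := by
      have : I * mh ≤ (2 * q + 2) * mh := by
        calc I * mh ≤ Sn := by omega
          _ ≤ (q + 1) * (2 * mh) := h1
          _ = (2 * q + 2) * mh := by ring
      exact Nat.le_of_mul_le_mul_right this hmh
    rcases Nat.lt_or_ge I (2 * q + 2) with a3 | a3
    · omega
    · have a4 : I = 2 * q + 2 := by omega
      refine Or.inr (Or.inr ⟨a4, ?_⟩)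
      have : (q + 1) * (2 * mh) = I * mh := by rw [a4]; ring
      omega
  have e8 : f8 T s mh Sn = cond (Nat.beq l 0) (cdiv (8 * dg T I) s)
      (cdiv (8 * ((mh - l) * dg T I + l * dg T (I + 1))) (s * mh)) := by
    unfold f8
    rw [frc_eq, frc_eq, hl, hI]
    rfl
  rw [← hI] at hQ
  have hsR : (0 : ℝ) < s := by exact_mod_cast hs
  have hmR : (0 : ℝ) < mh := by exact_mod_cast hmh
  have hm1R : 2 * (mh : ℝ) ≤ 400 := by exact_mod_cast hm1
  have hSR : (Sn : ℝ) = I * mh + l := by exact_mod_cast hSn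
  -- the entries
  have hR : ∀ k : ℕ, ∀ z ∈ 1 ::ₘ (S + Multiset.replicate k (((2 * mh : ℕ) : ℝ) / 400)), 0 ≤ z ∧ z ≤ 1 := by
    intro k z hz
    rcases Multiset.mem_cons.mp hz with rfl | hz
    · exact ⟨zero_le_one, le_rfl⟩
    · rcases Multiset.mem_add.mp hz with hz | hz
      · exact hS z hz
      · rw [Multiset.eq_of_mem_replicate hz]
        push_cast
        exact ⟨by positivity, by linarith⟩
  have sw : ∀ (r : ℝ) (k : ℕ), (1 : ℝ) ::ₘ (S + (r ::ₘ Multiset.replicate k (((2 * mh : ℕ) : ℝ) / 400)))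
      = r ::ₘ (1 ::ₘ (S + Multiset.replicate k (((2 * mh : ℕ) : ℝ) / 400))) := by
    intro r k
    rw [Multiset.add_cons, Multiset.cons_swap]
  -- the digits
  have dE : ∀ k, k < Q → FM (1 ::ₘ (S + Multiset.replicate k (((2 * mh : ℕ) : ℝ) / 400)))
      ≤ (dg T (2 * k) : ℝ) / (s * 10 ^ 7) := by
    intro k hk
    have := h (2 * k) (by omega)
    rw [show 2 * k % 2 = 0 by omega, show 2 * k / 2 = k by omega, Multiset.replicate_zero, zero_add] at this
    exact this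
  have dO : ∀ k, k < Q → FM (1 ::ₘ (S + ((((2 * mh : ℕ) : ℝ) / 800) ::ₘ
      Multiset.replicate k (((2 * mh : ℕ) : ℝ) / 400)))) ≤ (dg T (2 * k + 1) : ℝ) / (s * 10 ^ 7) := by
    intro k hk
    have := h (2 * k + 1) (by omega)
    rw [show (2 * k + 1) % 2 = 1 by omega, show (2 * k + 1) / 2 = k by omega, Multiset.replicate_one,
      Multiset.singleton_add] at this
    exact this
  have cR : ∀ a b : ℕ, 0 < b → ∀ X : ℝ, X ≤ (a : ℝ) / b → X ≤ (cdiv a b : ℝ) := fun a b hb X hX =>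
    hX.trans (cdiv_ge a b hb)
  cases hl0 : Nat.beq l 0 with
  | true =>
    have hl0' : l = 0 := Nat.eq_of_beq_eq_true hl0
    rw [e8, hl0, cond_true, le_div_iff₀ (by norm_num)]
    refine cR _ _ hs _ ?_
    rw [le_div_iff₀ hsR]
    have goal : FM (1 ::ₘ (S + (((Sn : ℝ) / 400 - q * (((2 * mh : ℕ) : ℝ) / 400)) ::ₘ
      Multiset.replicate q (((2 * mh : ℕ) : ℝ) / 400)))) ≤ (dg T I : ℝ) / (s * 10 ^ 7) := by
      have hl0R : (l : ℝ) = 0 := by exact_mod_cast hl0'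
      rcases hIq with hq | hq | ⟨hq, -⟩
      · have e : (Sn : ℝ) / 400 - q * (((2 * mh : ℕ) : ℝ) / 400) = 0 := by
          rw [hSR, hl0R, hq]
          push_cast
          ring
        rw [e, sw, FM_zero_cons, hq]
        exact dE q (by omega)
      · have e : (Sn : ℝ) / 400 - q * (((2 * mh : ℕ) : ℝ) / 400) = ((2 * mh : ℕ) : ℝ) / 800 := by
          rw [hSR, hl0R, hq]
          push_cast
          ring
        rw [e, hq]
        exact dO q (by omega)
      · have e : (Sn : ℝ) / 400 - q * (((2 * mh : ℕ) : ℝ) / 400) = ((2 * mh : ℕ) : ℝ) / 400 := by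
          rw [hSR, hl0R, hq]
          push_cast
          ring
        rw [e, hq, ← Multiset.replicate_succ, show 2 * q + 2 = 2 * (q + 1) by ring]
        exact dE (q + 1) (by omega)
    rw [le_div_iff₀ (by positivity)] at goal
    revert goal
    generalize FM (1 ::ₘ (S + (((Sn : ℝ) / 400 - q * (((2 * mh : ℕ) : ℝ) / 400)) ::ₘ
      Multiset.replicate q (((2 * mh : ℕ) : ℝ) / 400)))) = X
    intro goal
    push_cast
    linarith
  | false =>
    have hl0' : l ≠ 0 := by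
      intro h
      rw [h] at hl0
      exact absurd hl0 (by decide)
    rw [e8, hl0, cond_false, le_div_iff₀ (by norm_num)]
    refine cR _ _ (Nat.mul_pos hs hmh) _ ?_
    rw [show ((s * mh : ℕ) : ℝ) = (s : ℝ) * mh by push_cast; ring, le_div_iff₀ (by positivity)]
    have hlR : (l : ℝ) ≤ mh := by exact_mod_cast hlm.le
    have w0 : 0 ≤ ((mh : ℝ) - l) / mh := div_nonneg (by linarith) hmR.le
    have w1 : 0 ≤ (l : ℝ) / mh := by positivity
    have ww : ((mh : ℝ) - l) / mh + (l : ℝ) / mh = 1 := by field_simp; ring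
    have goal : FM (1 ::ₘ (S + (((Sn : ℝ) / 400 - q * (((2 * mh : ℕ) : ℝ) / 400)) ::ₘ
      Multiset.replicate q (((2 * mh : ℕ) : ℝ) / 400)))) ≤ ((mh : ℝ) - l) / mh * ((dg T I : ℝ) / (s * 10 ^ 7))
        + (l : ℝ) / mh * ((dg T (I + 1) : ℝ) / (s * 10 ^ 7)) := by
      rcases hIq with hq | hq | ⟨hq, hq'⟩
      · rw [sw]
        refine FM_rchord (u0 := 0) (u1 := ((2 * mh : ℕ) : ℝ) / 800) (Multiset.mem_cons_self _ _) (hR q)
          ⟨le_rfl, zero_le_one⟩ ⟨by positivity, by push_cast; linarith⟩ w0 w1 ww ?_ ?_ ?_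
        · rw [hSR, hq]
          push_cast
          field_simp
          ring
        · rw [FM_zero_cons, hq]
          exact dE q (by omega)
        · rw [← sw, hq]
          exact dO q (by omega)
      · rw [sw]
        refine FM_rchord (u0 := ((2 * mh : ℕ) : ℝ) / 800) (u1 := ((2 * mh : ℕ) : ℝ) / 400)
          (Multiset.mem_cons_self _ _) (hR q)
          ⟨by positivity, by push_cast; linarith⟩ ⟨by positivity, by push_cast; linarith⟩ w0 w1 ww ?_ ?_ ?_
        · rw [hSR, hq]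
          push_cast
          field_simp
          ring
        · rw [← sw, hq]
          exact dO q (by omega)
        · rw [← sw, hq, ← Multiset.replicate_succ, show 2 * q + 1 + 1 = 2 * (q + 1) by ring]
          exact dE (q + 1) (by omega)
      · exact absurd hq' hl0'
    have e : ((mh : ℝ) - l) / mh * ((dg T I : ℝ) / (s * 10 ^ 7)) + (l : ℝ) / mh * ((dg T (I + 1) : ℝ) / (s * 10 ^ 7))
        = (((mh : ℝ) - l) * dg T I + l * dg T (I + 1)) / (s * mh * 10 ^ 7) := by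
      field_simp
    rw [e, le_div_iff₀ (by positivity)] at goal
    revert goal
    generalize FM (1 ::ₘ (S + (((Sn : ℝ) / 400 - q * (((2 * mh : ℕ) : ℝ) / 400)) ::ₘ
      Multiset.replicate q (((2 * mh : ℕ) : ℝ) / 400)))) = X
    intro goal
    push_cast [Nat.cast_sub hlm.le]
    linarith

end B2
end Pool.Agent.Lib.MP_6947cd_al
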