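import Pool.Agent.Lib.MP_6947cd_al.Z.SF
import Pool.Agent.Lib.MP_6947cd_al.C.Cut

/-!
Problem MP_6947cd_al (Chollet).  CASE B, middle second entry: arithmetic of the function of the main entries.
Unit `1 / (8 * 10 ^ 15)`; borders in units of `1 / 400`; merged entries in units of `10 ^ -6`, plus `10 ^ 6`.
-/

set_option autoImplicit false
open Finset

namespace Pool.Agent.Lib.MP_6947cd_al
namespace B2

open Ent Ent.Pk Fr Fr.WT CC B1 PkA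

/-- the numbers of a leaf -/
structure NP where
  w3 : ℕ
  wP : ℕ
  wA : ℕ
  L : ℕ
  um : ℕ
  zv : ℕ
  vm : ℕ
  zg : ℕ
  G0 : ℕ
  G1 : ℕ
  K0 : ℕ
  K1 : ℕ
  X1 : ℕ
  X2 : ℕ
  X3 : ℕ
  V7 : ℕ
  kf : Bool
  mf : Bool

/-- the parameters -/
noncomputable def NP.sf (P : NP) : SF where
  a3 := (P.w3 : ℝ) / 1000
  aP := (P.wP : ℝ) / 1000
  aA := (P.wA : ℝ) / 1000
  k := ⟨P.L, false, P.kf, P.mf, (P.um : ℝ) / 400⟩
  zv := (P.zv : ℝ) / 1000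
  vm := (P.vm : ℝ) / 400
  zg := (P.zg : ℝ) / 1000
  g0 := -((P.G0 : ℝ) / 10000000)
  g1 := (P.G1 : ℝ) / 1000
  k0 := -((P.K0 : ℝ) / 10000000)
  k1 := (P.K1 : ℝ) / 1000
  ψ := (P.V7 : ℝ) / 10 ^ 7
  αk := (P.X2 : ℝ) / ((P.X1 + P.X2 + P.X3 : ℕ) : ℝ)
  αl := (P.X3 : ℝ) / ((P.X1 + P.X2 + P.X3 : ℕ) : ℝ)

/-- linear terms: coefficients of `h t g x y z`, positive and negative parts -/
structure LC where
  hp : ℕ
  hn : ℕ
  tp : ℕ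
  tn : ℕ
  gp : ℕ
  gn : ℕ
  xp : ℕ
  xn : ℕ
  yp : ℕ
  yn : ℕ
  zp : ℕ
  zn : ℕ

def OFF : ℕ := 1000000000000000000

/-- the part of `(h, t, g)` -/
noncomputable def E1 (w3 wP wPA cU a b c0 c1 : ℕ) (kf mf : Bool) (X2 sX : ℕ) (l : LC) (V H T G : ℕ) : ℕ :=
  Nat.sub (Nat.add (Nat.add (Nat.add (Nat.mul wPA (C1.X12 a b c0 c1 false kf mf V T G)) (C1.clg wP X2 sX V)) OFF)
      (Nat.add (Nat.mul l.hp H) (Nat.add (Nat.mul l.tp T) (Nat.mul l.gp G))))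
    (Nat.add (Nat.mul (nat_lit 16) (Nat.add (Nat.mul w3 (C1.lgOff (Nat.add H (Nat.add T G)) (nat_lit 200)))
      (Nat.mul wPA (C1.lgOff (Nat.add (nat_lit 400) H) (nat_lit 400)))))
      (Nat.add (Nat.mul cU V) (Nat.add (Nat.mul l.hn H) (Nat.add (Nat.mul l.tn T) (Nat.mul l.gn G)))))

/-- the part of `(h, x, y)` -/
noncomputable def E2 (w wP cV X3 sX : ℕ) (l : LC) (V X Y : ℕ) : ℕ :=
  Nat.sub (Nat.add (Nat.add (Nat.add (Nat.mul (Nat.mul (nat_lit 25000) w) (Nat.add (C1.o32 X) (C1.o32 Y)))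
      (C1.clg wP X3 sX V)) OFF)
      (Nat.add (Nat.mul l.xp X) (Nat.mul l.yp Y)))
    (Nat.add (Nat.mul cV V) (Nat.add (Nat.mul l.xn X) (Nat.mul l.yn Y)))

/-- the part of `z` -/
def E3 (w3 : ℕ) (l : LC) (Z : ℕ) : ℕ :=
  Nat.sub (Nat.add (Nat.add (Nat.mul (Nat.mul (nat_lit 25000) w3) (C1.o32 Z)) OFF) (Nat.mul l.zp Z))
    (Nat.mul l.zn Z)

/-- the constants -/
def NP.cU (P : NP) : ℕ := 8000 * (P.wA * P.K1)
def NP.cV (P : NP) : ℕ := 8000 * (P.zg * P.G1) + P.zv * C1.tc1 P.vm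
def NP.cp (P : NP) : ℕ := 160000000000000 * (P.w3 + P.wP + P.wA)
  + 8000000000 * (P.wA * P.K1 + P.zg * P.G1)
  + 800000 * (P.wA * (480000 + P.K0) + P.zg * P.G0) + P.zv * C1.tc0 P.vm
def NP.cn (P : NP) : ℕ := 800000 * (P.wP * P.V7)
def NP.sX (P : NP) : ℕ := P.X1 + P.X2 + P.X3

lemma sub_ge (a b : ℕ) : (a : ℝ) - b ≤ ((a - b : ℕ) : ℝ) := by
  rcases le_total b a with h | h
  · rw [Nat.cast_sub h]
  · rw [Nat.sub_eq_zero_of_le h]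
    have : (a : ℝ) ≤ b := by exact_mod_cast h
    push_cast
    linarith

/-- the ceil-log term, any `s` -/
lemma clg_le' {w X s V : ℕ} (hs : w * X ≠ 0 → 0 < s) (hV : w * X ≠ 0 → 1000123 ≤ V) :
    8000000000000 * ((w : ℝ) * ((X : ℝ) / s) * -Real.log (((V : ℝ) - 1000000) / 1000000)) ≤ (C1.clg w X s V : ℕ) := by
  by_cases h0 : w * X = 0
  · have h1 : (w : ℝ) * X = 0 := by exact_mod_cast h0
    have h2 : (w : ℝ) * ((X : ℝ) / s) = 0 := by rw [← mul_div_assoc, h1, zero_div]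
    rw [h2]
    simp
  · exact C1.clg_le (hs h0) hV

/-- THE NUMERICAL BOUND -/
theorem NP.S_le (P : NP) (l : LC) {U Uv cut : (Fin 6 → ℝ) → ℝ} {v : Fin 6 → ℝ} {H T G X Y Z V Vv : ℕ}
    (hH : v 0 = (H : ℝ) / 400) (hT : v 1 = (T : ℝ) / 400) (hG : v 2 = (G : ℝ) / 400) (hX : v 3 = (X : ℝ) / 400)
    (hY : v 4 = (Y : ℝ) / 400) (hZ : v 5 = (Z : ℝ) / 400) (hU : U v = ((V : ℝ) - 1000000) / 1000000)
    (hUv : Uv v = ((Vv : ℝ) - 1000000) / 1000000) (hTG : 0 < H + T + G)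
    (hV : P.wP * P.X2 ≠ 0 → 1000123 ≤ V) (hVv : P.wP * P.X3 ≠ 0 → 1000123 ≤ Vv) {lp ln : ℕ}
    (hcut : cut v = ((lp : ℝ) - ln + ((l.hp : ℝ) - l.hn) * H + ((l.tp : ℝ) - l.tn) * T + ((l.gp : ℝ) - l.gn) * G
      + ((l.xp : ℝ) - l.xn) * X + ((l.yp : ℝ) - l.yn) * Y + ((l.zp : ℝ) - l.zn) * Z) / 8000000000000000) :
    P.sf.S U Uv cut v ≤ ((E1 P.w3 P.wP (P.wP + P.wA) P.cU (C1.cAn P.L) (C1.cBn P.L) (C1.tc0 P.um) (C1.tc1 P.um) P.kf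
      P.mf P.X2 P.sX l V H T G : ℝ) + E2 (P.w3 + P.wP + P.wA) P.wP P.cV P.X3 P.sX l Vv X Y + E3 P.w3 l Z + P.cp + lp
      - (3 * OFF + P.cn + ln : ℕ)) / 8000000000000000 := by
  -- the parts
  obtain ⟨X12, hX12⟩ : ∃ X12, X12 = C1.X12 (C1.cAn P.L) (C1.cBn P.L) (C1.tc0 P.um) (C1.tc1 P.um) false P.kf P.mf
      V T G := ⟨_, rfl⟩
  obtain ⟨l1, hl1⟩ : ∃ l1, l1 = C1.lgOff (H + (T + G)) 200 := ⟨_, rfl⟩
  obtain ⟨l2, hl2⟩ : ∃ l2, l2 = C1.lgOff (400 + H) 400 := ⟨_, rfl⟩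
  obtain ⟨q1, hq1⟩ : ∃ q1, q1 = C1.clg P.wP P.X2 P.sX V := ⟨_, rfl⟩
  obtain ⟨q2, hq2⟩ : ∃ q2, q2 = C1.clg P.wP P.X3 P.sX Vv := ⟨_, rfl⟩
  have e1 : E1 P.w3 P.wP (P.wP + P.wA) P.cU (C1.cAn P.L) (C1.cBn P.L) (C1.tc0 P.um) (C1.tc1 P.um) P.kf
      P.mf P.X2 P.sX l V H T G = ((P.wP + P.wA) * X12 + q1 + OFF + (l.hp * H + (l.tp * T + l.gp * G)))
        - (16 * (P.w3 * l1 + (P.wP + P.wA) * l2) + (P.cU * V + (l.hn * H + (l.tn * T + l.gn * G)))) := by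
    rw [hX12, hl1, hl2, hq1]; rfl
  have e2 : E2 (P.w3 + P.wP + P.wA) P.wP P.cV P.X3 P.sX l Vv X Y = (25000 * (P.w3 + P.wP + P.wA)
      * (C1.o32 X + C1.o32 Y) + q2 + OFF + (l.xp * X + l.yp * Y)) - (P.cV * Vv + (l.xn * X + l.yn * Y)) := by
    rw [hq2]; rfl
  have e3 : E3 P.w3 l Z = (25000 * P.w3 * C1.o32 Z + OFF + l.zp * Z) - l.zn * Z := rfl
  have g1 := sub_ge ((P.wP + P.wA) * X12 + q1 + OFF + (l.hp * H + (l.tp * T + l.gp * G)))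
    (16 * (P.w3 * l1 + (P.wP + P.wA) * l2) + (P.cU * V + (l.hn * H + (l.tn * T + l.gn * G))))
  have g2 := sub_ge (25000 * (P.w3 + P.wP + P.wA) * (C1.o32 X + C1.o32 Y) + q2 + OFF + (l.xp * X + l.yp * Y))
    (P.cV * Vv + (l.xn * X + l.yn * Y))
  have g3 := sub_ge (25000 * P.w3 * C1.o32 Z + OFF + l.zp * Z) (l.zn * Z)
  rw [← e1] at g1
  rw [← e2] at g2
  rw [← e3] at g3
  -- the logarithms of the merged entries
  have hpos : ∀ X : ℕ, X ≤ P.sX → P.wP * X ≠ 0 → 0 < P.sX := by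
    intro X hX h
    rcases Nat.eq_zero_or_pos X with h1 | h1
    · rw [h1, Nat.mul_zero] at h
      exact absurd rfl h
    · omega
  have d1 := clg_le' (w := P.wP) (X := P.X2) (s := P.sX) (V := V) (hpos P.X2 (by unfold NP.sX; omega)) hV
  have d2 := clg_le' (w := P.wP) (X := P.X3) (s := P.sX) (V := Vv) (hpos P.X3 (by unfold NP.sX; omega)) hVv
  rw [← hq1] at d1
  rw [← hq2] at d2
  -- the logarithms
  have b1 := C1.lgOff_le (H + (T + G)) 200 (by omega) (by norm_num) (by omega)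
  have b2 := C1.lgOff_le (400 + H) 400 (by omega) (by norm_num) (by omega)
  rw [← hl1] at b1
  rw [← hl2] at b2
  have a1 : Real.log (2 * (v 0 + v 1 + v 2)) = Real.log (((H + (T + G) : ℕ) : ℝ) / (200 : ℕ)) := by
    rw [hH, hT, hG]
    congr 1
    push_cast
    ring
  have a2 : Real.log (1 + v 0) = Real.log (((400 + H : ℕ) : ℝ) / (400 : ℕ)) := by
    rw [hH]
    congr 1
    push_cast
    ring
  rw [← a1] at b1
  rw [← a2] at b2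
  have b3 := C1.X12_le P.sf.k P.um rfl V T G
  rw [← hT, ← hG] at b3
  have e4 : C1.X12 (C1.cAn P.sf.k.L) (C1.cBn P.sf.k.L) (C1.tc0 P.um) (C1.tc1 P.um) P.sf.k.gb P.sf.k.kf P.sf.k.mf
      V T G = X12 := by rw [hX12]; rfl
  rw [e4] at b3
  have ox := C1.o32_eq X
  have oy := C1.o32_eq Y
  have oz := C1.o32_eq Z
  rw [← hX] at ox
  rw [← hY] at oy
  rw [← hZ] at oz
  -- the tangent
  have e5 : C1.tau ((P.vm : ℝ) / 400) (((Vv : ℝ) - 1000000) / 1000000)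
      = ((C1.tc1 P.vm : ℝ) * Vv - C1.tc0 P.vm) / 8000000000000 := by
    have f0 : C1.tc0 P.vm = C1.tc1 P.vm * 1000000 + 9750000 * (P.vm * P.vm) := rfl
    have f1 : C1.tc1 P.vm = 8 * (215000 + 975 * P.vm) := rfl
    rw [f0, f1]
    unfold C1.tau omg
    push_cast
    ring
  have w3 : (0 : ℝ) ≤ P.w3 := Nat.cast_nonneg _
  have wPA : (0 : ℝ) ≤ (P.wP : ℝ) + P.wA := by positivity
  have c1 := mul_le_mul_of_nonneg_left b1 w3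
  have c2 := mul_le_mul_of_nonneg_left b2 wPA
  have c3 := mul_le_mul_of_nonneg_left b3 wPA
  obtain ⟨Lg1, hLg1⟩ : ∃ Lg1, Lg1 = Real.log (2 * (v 0 + v 1 + v 2)) := ⟨_, rfl⟩
  obtain ⟨Lg2, hLg2⟩ : ∃ Lg2, Lg2 = Real.log (1 + v 0) := ⟨_, rfl⟩
  obtain ⟨XX, hXX⟩ : ∃ XX, XX = P.sf.k.X (((V : ℝ) - 1000000) / 1000000) (v 1) (v 2) := ⟨_, rfl⟩
  obtain ⟨Lu, hLu⟩ : ∃ Lu, Lu = Real.log (((V : ℝ) - 1000000) / 1000000) := ⟨_, rfl⟩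
  obtain ⟨Lv, hLv⟩ : ∃ Lv, Lv = Real.log (((Vv : ℝ) - 1000000) / 1000000) := ⟨_, rfl⟩
  obtain ⟨αk, hαk⟩ : ∃ αk : ℝ, αk = (P.X2 : ℝ) / ((P.X1 + P.X2 + P.X3 : ℕ) : ℝ) := ⟨_, rfl⟩
  obtain ⟨αl, hαl⟩ : ∃ αl : ℝ, αl = (P.X3 : ℝ) / ((P.X1 + P.X2 + P.X3 : ℕ) : ℝ) := ⟨_, rfl⟩
  rw [← hLg1] at c1
  rw [← hLg2] at c2
  rw [← hXX] at c3
  rw [← hLu, show ((P.X2 : ℝ) / (P.sX : ℝ)) = αk by rw [hαk]; rfl] at d1
  rw [← hLv, show ((P.X3 : ℝ) / (P.sX : ℝ)) = αl by rw [hαl]; rfl] at d2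
  unfold SF.S
  rw [← hLg1, ← hLg2, hU, hUv, ← hXX, ← hLu, ← hLv, ox, oy, oz, hcut]
  unfold NP.sf
  simp only
  rw [← hαk, ← hαl, e5, le_div_iff₀ (by norm_num)]
  push_cast at g1 g2 g3
  have ecU : (P.cU : ℝ) = 8000 * (P.wA * P.K1) := by unfold NP.cU; push_cast; ring
  have ecV : (P.cV : ℝ) = 8000 * (P.zg * P.G1) + P.zv * C1.tc1 P.vm := by
    unfold NP.cV; push_cast; ring
  have ecp : (P.cp : ℝ) = 160000000000000 * ((P.w3 : ℝ) + P.wP + P.wA)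
      + 8000000000 * ((P.wA : ℝ) * P.K1 + P.zg * P.G1)
      + 800000 * ((P.wA : ℝ) * (480000 + P.K0) + P.zg * P.G0) + P.zv * C1.tc0 P.vm := by
    unfold NP.cp; push_cast; ring
  have ecn : (P.cn : ℝ) = 800000 * (P.wP * P.V7) := by unfold NP.cn; push_cast; ring
  rw [ecU] at g1
  rw [ecV] at g2
  push_cast
  rw [ecp, ecn]
  linarith [g1, g2, g3, c1, c2, c3, d1, d2]

end B2
end Pool.Agent.Lib.MP_6947cd_al
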