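import Pool.Agent.Lib.MP_6947cd_al.Z.RowI
import Pool.Agent.Lib.MP_6947cd_al.Z.SFN

/-!
Problem MP_6947cd_al (Chollet).  CASE B, middle second entry: the check of the row `i`, second part (nodes, corners).
-/

set_option autoImplicit false
open Finset

namespace Pool.Agent.Lib.MP_6947cd_al
namespace B2

open Ent Ent.Pk Fr Fr.WT CC B1 PkA

/-- the weights of the row `i`: `w` = weight of the value, `kap` = weight of the defect, `w3` (unit `1/1000`),
`G5` (unit `1e-5`), slope `Sl` (unit `1e-6`) and `M` (unit `1/1000`) -/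
structure WR where
  w : ℕ
  kap : ℕ
  w3 : ℕ
  G5 : ℕ
  Sl : ℕ
  M : ℕ

/-- the part of a node which does not depend on the corner -/
noncomputable def cS (W : WR) (m S : ℕ) : ℕ :=
  frc (Nat.div S m) fun q => frc (Nat.sub S (Nat.mul q m)) fun r =>
    Nat.add (Nat.add (Nat.mul (Nat.mul (nat_lit 25000) W.w3) (Nat.add (Nat.mul (nat_lit 172000) S)
      (Nat.mul (nat_lit 390) (Nat.add (Nat.mul r r) (Nat.mul q (Nat.mul m m))))))
      (Nat.mul S (Nat.add (Nat.mul (nat_lit 20000000) W.Sl) (Nat.mul (nat_lit 20000000000) W.M)))) OFF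

/-- the value at a node -/
def vI (wk ka g3 F W8 c : ℕ) : ℕ :=
  Nat.sub (Nat.add (Nat.add (Nat.mul wk F) (Nat.mul g3 (mx (Nat.sub F W8) (nat_lit 80000)))) c) (Nat.mul ka W8)

/-- ONE NODE, one corner -/
theorem nodeI (W : WR) {h t x r mr : ℝ} {q S F W8 m : ℕ}
    (hm0 : 0 < m) (hF : FM (1 ::ₘ h ::ₘ t ::ₘ x ::ₘ r ::ₘ Multiset.replicate q mr) ≤ (F : ℝ) / 80000000)
    (hW : (W8 : ℝ) / 80000000 ≤ Wc (h + t + x + (r ::ₘ Multiset.replicate q mr).sum))
    (hmr : mr = (m : ℝ) / 400) (hr : r = (S : ℝ) / 400 - q * mr) (h0 : q * m ≤ S) (h1 : S ≤ (q + 1) * m) :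
    UI ((W.w : ℝ) / 1000) ((W.kap : ℝ) / 1000) ((W.G5 : ℝ) / 100000) h t x (r ::ₘ Multiset.replicate q mr)
      + ((W.w3 : ℝ) / 1000 * (43 / 200 * (r + q * mr) + 39 / 200 * (r ^ 2 + q * mr ^ 2))
        + ((W.Sl : ℝ) / 1000000 + (W.M : ℝ) / 1000) * (r + q * mr))
      ≤ ((vI (100000 * (W.w + W.kap)) (100000 * W.kap) (1000 * W.G5) F W8 (cS W m S) : ℝ) - OFF) / 8000000000000000
    ∧ FM (1 ::ₘ h ::ₘ t ::ₘ x ::ₘ r ::ₘ Multiset.replicate q mr)
      - Wc (h + t + x + (r ::ₘ Multiset.replicate q mr).sum) ≤ ((F - W8 : ℕ) : ℝ) / 80000000 := by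
  obtain ⟨q', hq'⟩ : ∃ q', q' = S / m := ⟨_, rfl⟩
  obtain ⟨r', hr'⟩ : ∃ r', r' = S - q' * m := ⟨_, rfl⟩
  have hSn : S = q' * m + r' ∧ r' < m := by
    have a := Nat.div_add_mod S m
    have b := Nat.mod_lt S hm0
    rw [← hq', Nat.mul_comm] at a
    omega
  obtain ⟨hSn, hrm⟩ := hSn
  have hqq : (q' = q) ∨ (q' = q + 1 ∧ r' = 0) := by
    have a1 : q ≤ q' := by
      rw [hq', Nat.le_div_iff_mul_le hm0]
      exact h0
    have a2 : q' ≤ q + 1 := by
      have : q' * m ≤ (q + 1) * m := by omega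
      exact Nat.le_of_mul_le_mul_right this hm0
    rcases Nat.lt_or_ge q' (q + 1) with a3 | a3
    · omega
    · have a4 : q' = q + 1 := by omega
      rw [a4] at hSn
      exact Or.inr ⟨a4, by omega⟩
  have ec : cS W m S = 25000 * W.w3 * (172000 * S + 390 * (r' * r' + q' * (m * m)))
      + S * (20000000 * W.Sl + 20000000000 * W.M) + OFF := by
    unfold cS
    rw [frc_eq, frc_eq, hr', hq']
    rfl
  have hom : (172000 * (S : ℝ) + 390 * ((r' : ℝ) * r' + q' * (m * m))) / 320000000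
      = 43 / 200 * (r + q * mr) + 39 / 200 * (r ^ 2 + q * mr ^ 2) := by
    have hSR : (S : ℝ) = q' * m + r' := by exact_mod_cast hSn
    rw [hr, hmr, hSR]
    rcases hqq with h | ⟨h, h'⟩
    · rw [h]; ring
    · rw [h, h']
      push_cast
      ring
  have hsum : r + q * mr = (S : ℝ) / 400 := by rw [hr]; ring
  obtain ⟨F', hF'⟩ : ∃ F', F' = FM (1 ::ₘ h ::ₘ t ::ₘ x ::ₘ r ::ₘ Multiset.replicate q mr) := ⟨_, rfl⟩
  obtain ⟨Wv, hWv⟩ : ∃ Wv, Wv = Wc (h + t + x + (r ::ₘ Multiset.replicate q mr).sum) := ⟨_, rfl⟩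
  have hd : F' - Wv ≤ ((F - W8 : ℕ) : ℝ) / 80000000 := by
    have := sub_ge F W8
    rw [← hF'] at hF
    rw [← hWv] at hW
    rw [le_div_iff₀ (by norm_num)]
    rw [le_div_iff₀ (by norm_num)] at hF
    rw [div_le_iff₀ (by norm_num)] at hW
    linarith
  unfold UI
  rw [← hF', ← hWv]
  rw [← hF'] at hF
  rw [← hWv] at hW
  refine ⟨?_, hd⟩
  have hM : max (F' - Wv) (1 / 1000) ≤ ((max (F - W8) 80000 : ℕ) : ℝ) / 80000000 := by
    refine max_le (hd.trans ?_) ?_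
    · exact div_le_div_of_nonneg_right (by exact_mod_cast le_max_left (F - W8) 80000) (by norm_num)
    · rw [le_div_iff₀ (by norm_num)]
      have h80 : 80000 ≤ max (F - W8) 80000 := le_max_right _ _
      have : ((80000 : ℕ) : ℝ) ≤ ((max (F - W8) 80000 : ℕ) : ℝ) := Nat.cast_le.mpr h80
      rw [Nat.cast_ofNat] at this
      linarith
  have ev : vI (100000 * (W.w + W.kap)) (100000 * W.kap) (1000 * W.G5) F W8 (cS W m S)
      = (100000 * (W.w + W.kap) * F + 1000 * W.G5 * max (F - W8) 80000 + cS W m S) - 100000 * W.kap * W8 := by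
    unfold vI
    rw [C1.mx_eq]
    rfl
  have g := sub_ge (100000 * (W.w + W.kap) * F + 1000 * W.G5 * max (F - W8) 80000 + cS W m S)
    (100000 * W.kap * W8)
  rw [← ev, ec] at g
  rw [ec]
  obtain ⟨MM, hMM⟩ : ∃ MM : ℕ, MM = max (F - W8) 80000 := ⟨_, rfl⟩
  rw [← hMM] at hM g
  rw [hsum]
  rw [hsum] at hom
  rw [← hom]
  obtain ⟨X, hX⟩ : ∃ X, X = max (F' - Wv) (1 / 1000) := ⟨_, rfl⟩
  rw [← hX] at hM ⊢
  rw [le_div_iff₀ (by norm_num)] at hF hM ⊢
  rw [div_le_iff₀ (by norm_num)] at hW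
  rw [ec] at ev
  obtain ⟨VV, hVV⟩ : ∃ VV : ℕ, VV = vI (100000 * (W.w + W.kap)) (100000 * W.kap) (1000 * W.G5) F W8
    (25000 * W.w3 * (172000 * S + 390 * (r' * r' + q' * (m * m)))
      + S * (20000000 * W.Sl + 20000000000 * W.M) + OFF) := ⟨_, rfl⟩
  rw [← hVV] at g ⊢
  push_cast at g
  have w0 : (0 : ℝ) ≤ (W.w : ℝ) + W.kap := add_nonneg (Nat.cast_nonneg _) (Nat.cast_nonneg _)
  have k0 : (0 : ℝ) ≤ W.kap := Nat.cast_nonneg _
  have g0 : (0 : ℝ) ≤ W.G5 := Nat.cast_nonneg _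
  have u1 := mul_le_mul_of_nonneg_left hF w0
  have u2 := mul_le_mul_of_nonneg_left hW k0
  have u3 := mul_le_mul_of_nonneg_left hM g0
  linarith [u1, u2, u3, g]

/-! ### the nodes -/

/-- the nodes above `c` (a multiple of `m`), up to `s1` -/
def ndL (s1 m : ℕ) : ℕ → ℕ → List ℕ
  | 0, _ => [s1]
  | n + 1, c => cond (Nat.ble s1 c) [s1] (c :: ndL s1 m n (Nat.add c m))

/-- `s0`, the multiples of `m` strictly between `s0` and `s1`, `s1` -/
def nds (s0 s1 m : ℕ) : List ℕ := s0 :: ndL s1 m (Nat.div s1 m) (Nat.mul (Nat.succ (Nat.div s0 m)) m)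

lemma ndL_find {s1 m : ℕ} {x : ℝ} (hx : x ≤ (s1 : ℝ) / 400) : ∀ (n j : ℕ), s1 ≤ (j + 1 + n) * m → ∀ a : ℕ,
    j * m ≤ a → (a : ℝ) / 400 ≤ x → ∃ a' q : ℕ, ∃ b ∈ ndL s1 m n ((j + 1) * m), (a' = a ∨ a' ∈ ndL s1 m n ((j + 1) * m)) ∧
      q * m ≤ a' ∧ b ≤ (q + 1) * m ∧ (a' : ℝ) / 400 ≤ x ∧ x ≤ (b : ℝ) / 400 := by
  intro n
  induction n with
  | zero =>
    intro j h1 a h2 h3
    exact ⟨a, j, s1, by simp [ndL], Or.inl rfl, h2, by simpa using h1, h3, hx⟩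
  | succ n ih =>
    intro j h1 a h2 h3
    have e : ndL s1 m (n + 1) ((j + 1) * m) = cond (Nat.ble s1 ((j + 1) * m)) [s1]
        ((j + 1) * m :: ndL s1 m n ((j + 1) * m + m)) := rfl
    cases hb : Nat.ble s1 ((j + 1) * m) with
    | true =>
      rw [e, hb, cond_true]
      exact ⟨a, j, s1, by simp, Or.inl rfl, h2, Nat.le_of_ble_eq_true hb, h3, hx⟩
    | false =>
      rw [e, hb, cond_false]
      rcases le_total x (((((j + 1) * m : ℕ)) : ℝ) / 400) with h4 | h4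
      · exact ⟨a, j, (j + 1) * m, by simp, Or.inl rfl, h2, le_rfl, h3, h4⟩
      · have e2 : (j + 1) * m + m = (j + 1 + 1) * m := by ring
        rw [e2]
        obtain ⟨a', q, b, b1, b2, b3, b4, b5, b6⟩ := ih (j + 1) (by
          refine h1.trans (le_of_eq ?_)
          ring) ((j + 1) * m) le_rfl h4
        refine ⟨a', q, b, List.mem_cons_of_mem _ b1, Or.inr ?_, b3, b4, b5, b6⟩
        rcases b2 with b2 | b2
        · rw [b2]; exact List.mem_cons_self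
        · exact List.mem_cons_of_mem _ b2

/-- every point lies between two nodes -/
lemma nds_find {s0 s1 m : ℕ} (hm : 0 < m) {x : ℝ} (h0 : (s0 : ℝ) / 400 ≤ x) (h1 : x ≤ (s1 : ℝ) / 400) :
    ∃ a ∈ nds s0 s1 m, ∃ b ∈ nds s0 s1 m, ∃ q : ℕ, q * m ≤ a ∧ b ≤ (q + 1) * m ∧ (a : ℝ) / 400 ≤ x
      ∧ x ≤ (b : ℝ) / 400 := by
  obtain ⟨a, q, b, b1, b2, b3, b4, b5, b6⟩ := ndL_find (m := m) h1 (s1 / m) (s0 / m) (by
    have h := Nat.lt_div_mul_add (a := s1) hm
    have e : (s0 / m + 1 + s1 / m) * m = s0 / m * m + (s1 / m * m + m) := by ring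
    omega) s0 (Nat.div_mul_le_self s0 m) h0
  have e : nds s0 s1 m = s0 :: ndL s1 m (s1 / m) ((s0 / m + 1) * m) := rfl
  rw [e]
  refine ⟨a, ?_, b, List.mem_cons_of_mem _ b1, q, b3, b4, b5, b6⟩
  rcases b2 with b2 | b2
  · rw [b2]; exact List.mem_cons_self
  · exact List.mem_cons_of_mem _ b2

lemma ndL_le {s1 m : ℕ} : ∀ (n c : ℕ), ∀ a ∈ ndL s1 m n c, a ≤ s1 := by
  intro n
  induction n with
  | zero => intro c a ha; simp [ndL] at ha; omega
  | succ n ih =>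
    intro c a ha
    have e : ndL s1 m (n + 1) c = cond (Nat.ble s1 c) [s1] (c :: ndL s1 m n (c + m)) := rfl
    rw [e] at ha
    cases hb : Nat.ble s1 c with
    | true => rw [hb, cond_true] at ha; simp at ha; omega
    | false =>
      rw [hb, cond_false] at ha
      have h1 : ¬ s1 ≤ c := fun h => by rw [Nat.ble_eq_true_of_le h] at hb; exact absurd hb (by simp)
      rcases List.mem_cons.mp ha with h | h
      · omega
      · exact ih _ a h

lemma nds_le {s0 s1 m : ℕ} (h : s0 ≤ s1) : ∀ a ∈ nds s0 s1 m, a ≤ s1 := by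
  intro a ha
  rcases List.mem_cons.mp ha with h1 | h1
  · omega
  · exact ndL_le _ _ a h1

/-- the nodes with the parts which do not depend on the corner -/
noncomputable def mkN (f : ℕ → ℕ) (l : List ℕ) : (List (ℕ × ℕ) → Bool) → Bool :=
  @List.rec ℕ (fun _ => (List (ℕ × ℕ) → Bool) → Bool) (fun k => k [])
    (fun S _ ih k => frc S fun S' => frc (f S') fun c => ih fun r => k ((S', c) :: r)) l

lemma mkN_eq (f : ℕ → ℕ) (l : List ℕ) : ∀ k, mkN f l k = k (l.map fun S => (S, f S)) := by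
  induction l with
  | nil => intro k; rfl
  | cons S l ih =>
    intro k
    have e : mkN f (S :: l) k = frc S fun S' => frc (f S') fun c => mkN f l fun r => k ((S', c) :: r) := rfl
    rw [e, frc_eq, frc_eq, ih]
    rfl

/-- one corner, all the nodes -/
noncomputable def foldI (wk ka g3 T s mh HTX : ℕ) (k : ℕ → ℕ → Bool) (l : List (ℕ × ℕ)) : ℕ → ℕ → Bool :=
  @List.rec (ℕ × ℕ) (fun _ => ℕ → ℕ → Bool) (fun L D => k L D)
    (fun p _ ih L D => frc (f8 T s mh p.1) fun F => frc (C1.w8 (Nat.add HTX p.1)) fun W8 =>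
      frc (mx L (vI wk ka g3 F W8 p.2)) fun L' => frc (mx D (Nat.sub F W8)) fun D' => ih L' D') l

lemma foldI_sound (wk ka g3 T s mh HTX : ℕ) (k : ℕ → ℕ → Bool) (l : List (ℕ × ℕ)) : ∀ L D,
    foldI wk ka g3 T s mh HTX k l L D = true → ∃ L' D', k L' D' = true ∧ L ≤ L' ∧ D ≤ D' ∧ ∀ p ∈ l,
      vI wk ka g3 (f8 T s mh p.1) (C1.w8 (HTX + p.1)) p.2 ≤ L' ∧ f8 T s mh p.1 - C1.w8 (HTX + p.1) ≤ D' := by
  induction l with
  | nil => intro L D h; exact ⟨L, D, h, le_rfl, le_rfl, fun p hp => absurd hp (by simp)⟩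
  | cons p l ih =>
    intro L D h
    have e : foldI wk ka g3 T s mh HTX k (p :: l) L D = frc (f8 T s mh p.1) fun F =>
      frc (C1.w8 (Nat.add HTX p.1)) fun W8 => frc (mx L (vI wk ka g3 F W8 p.2)) fun L' =>
      frc (mx D (Nat.sub F W8)) fun D' => foldI wk ka g3 T s mh HTX k l L' D' := rfl
    rw [e, frc_eq, frc_eq, frc_eq, frc_eq, C1.mx_eq, C1.mx_eq] at h
    obtain ⟨L', D', h1, h2, h3, h4⟩ := ih _ _ h
    refine ⟨L', D', h1, (le_max_left _ _).trans h2, (le_max_left _ _).trans h3, fun p' hp' => ?_⟩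
    rcases List.mem_cons.mp hp' with rfl | hp'
    · exact ⟨(le_max_right _ _).trans h2, (le_max_right _ _).trans h3⟩
    · exact h4 p' hp'

/-- all the corners -/
noncomputable def crI (wk ka g3 s mh : ℕ) (nd cs : List (ℕ × ℕ)) : (List ℕ → ℕ → Bool) → ℕ → Bool :=
  @List.rec (ℕ × ℕ) (fun _ => (List ℕ → ℕ → Bool) → ℕ → Bool) (fun k D => k [] D)
    (fun c _ ih k D => foldI wk ka g3 c.1 s mh c.2 (fun L D' => ih (fun Ls D'' => k (L :: Ls) D'') D') nd
      (nat_lit 0) D) cs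

lemma crI_sound (wk ka g3 s mh : ℕ) (nd cs : List (ℕ × ℕ)) : ∀ (k : List ℕ → ℕ → Bool) (D : ℕ),
    crI wk ka g3 s mh nd cs k D = true → ∃ Ls D', k Ls D' = true ∧ D ≤ D' ∧ Ls.length = cs.length ∧
      ∀ i < cs.length, ∀ p ∈ nd,
      vI wk ka g3 (f8 (cs.getD i (0, 0)).1 s mh p.1) (C1.w8 ((cs.getD i (0, 0)).2 + p.1)) p.2 ≤ Ls.getD i 0 ∧
      f8 (cs.getD i (0, 0)).1 s mh p.1 - C1.w8 ((cs.getD i (0, 0)).2 + p.1) ≤ D' := by
  induction cs with
  | nil => intro k D h; exact ⟨[], D, h, le_rfl, rfl, fun i hi => absurd hi (by simp)⟩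
  | cons c cs ih =>
    intro k D h
    have e : crI wk ka g3 s mh nd (c :: cs) k D = foldI wk ka g3 c.1 s mh c.2
      (fun L D' => crI wk ka g3 s mh nd cs (fun Ls D'' => k (L :: Ls) D'') D') nd 0 D := rfl
    rw [e] at h
    obtain ⟨L, D1, h1, -, h3, h4⟩ := foldI_sound _ _ _ _ _ _ _ _ _ _ _ h
    obtain ⟨Ls, D2, g1, g2, g3', g4⟩ := ih _ _ h1
    refine ⟨L :: Ls, D2, g1, h3.trans g2, by simp [g3'], fun i hi p hp => ?_⟩
    cases i with
    | zero =>
      obtain ⟨a, b⟩ := h4 p hp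
      exact ⟨a, b.trans g2⟩
    | succ i => exact g4 i (by simpa using hi) p hp

end B2
end Pool.Agent.Lib.MP_6947cd_al
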