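import Pool.Agent.Lib.MP_6947cd_al.Z.SQ
import Pool.Agent.Lib.MP_6947cd_al.C.Mg
import Pool.Agent.Lib.MP_6947cd_al.C.Num
import Pool.Agent.Lib.MP_6947cd_al.Z.UCell

/-!
Problem MP_6947cd_al (Chollet).  CASE B, middle second entry: the function of the main entries (with the levels of
case C and an arbitrary multi-affine part).
-/

set_option autoImplicit false
open Finset

namespace Pool.Agent.Lib.MP_6947cd_al
namespace B2

open Ent Fr Fr.WT CC B1

/-- the parameters of the function -/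
structure SF where
  a3 : ℝ
  aP : ℝ
  aA : ℝ
  /-- the pair `(t, g)` -/
  k : C1.MP
  /-- special vertex: the tangent of `omg` and the line below `gtr` -/
  zv : ℝ
  vm : ℝ
  zg : ℝ
  g0 : ℝ
  g1 : ℝ
  /-- the line below `gtr` at `k` -/
  k0 : ℝ
  k1 : ℝ
  /-- the lower bound of the merged row -/
  ψ : ℝ
  αk : ℝ
  αl : ℝ

/-- the two parts of the function -/
noncomputable def SF.S (P : SF) (U Uv cut : (Fin 6 → ℝ) → ℝ) (v : Fin 6 → ℝ) : ℝ :=
  P.a3 * (omg (v 3) + omg (v 4) + omg (v 5) - 2 * Real.log (2 * (v 0 + v 1 + v 2)))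
    + (P.aP + P.aA) * (P.k.X (U v) (v 1) (v 2) + (omg (v 3) + omg (v 4)) - 2 * Real.log (1 + v 0))
    - P.aP * (P.ψ + P.αk * Real.log (U v) + P.αl * Real.log (Uv v)) + P.aA * (6 / 125 - P.k0 - P.k1 * U v)
    - P.zv * C1.tau P.vm (Uv v) - P.zg * (P.g0 + P.g1 * Uv v) + cut v

lemma cc_nlogF {ι : Type} [DecidableEq ι] {lo hi : ι → ℝ} {f : (ι → ℝ) → ℝ} (hf : Ma f) {α : ℝ} (hα : 0 ≤ α)
    (h : α ≠ 0 → ∀ v, Box lo hi v → 0 < f v) : Cc lo hi fun v => α * -Real.log (f v) := by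
  by_cases h0 : α = 0
  · rw [h0]
    exact (Cc.const 0).congr fun v _ => by ring
  · exact (hf.neg_log fun v hv => h h0 v hv).smul hα

/-- the function is convex in every coordinate -/
theorem SF.cc (P : SF) (h3 : 0 ≤ P.a3) (hP : 0 ≤ P.aP) (hA : 0 ≤ P.aA) (hgb : P.k.gb = false)
    {lo hi : Fin 6 → ℝ} {U Uv cut : (Fin 6 → ℝ) → ℝ} (hU : Ma U) (hUv : Ma Uv) (hcut : Ma cut) (h0 : 0 < lo 0)
    (h10 : 0 ≤ lo 1) (h2 : 0 ≤ lo 2) (hαk : 0 ≤ P.αk) (hαl : 0 ≤ P.αl)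
    (hUp : P.aP * P.αk ≠ 0 → ∀ v, Box lo hi v → 0 < U v)
    (hVp : P.aP * P.αl ≠ 0 → ∀ v, Box lo hi v → 0 < Uv v) : Cc lo hi (P.S U Uv cut) := by
  have ho : ∀ j : Fin 6, Cc lo hi fun v => omg (v j) := fun j => cc_coord j (omg_convex _ (convex_Icc _ _))
  have hq : ∀ j : Fin 6, Cc lo hi fun v => C1.qL (C1.cA P.k.L) (C1.cB P.k.L) (v j) := fun j =>
    cc_coord j (C1.qL_convex (C1.cB_nonneg _) _ (convex_Icc _ _))
  have hk : ∀ j : Fin 6, Cc lo hi fun v => C1.kL P.k.kf (v j) := fun j =>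
    cc_coord j (C1.kL_convex _ _ (convex_Icc _ _))
  have l1 : Cc lo hi fun v : Fin 6 → ℝ => -Real.log (2 * (v 0 + v 1 + v 2)) := by
    have hma : Ma fun v : Fin 6 → ℝ => 2 * (v 0 + v 1 + v 2) :=
      (((Ma.coord 0).add (Ma.coord 1)).add (Ma.coord 2)).smul 2
    refine hma.neg_log fun v hv => ?_
    have b0 := (hv 0).1
    have b1 := (hv 1).1
    have b2 := (hv 2).1
    linarith
  have l2 : Cc lo hi fun v : Fin 6 → ℝ => -Real.log (1 + v 0) := by
    have hma : Ma fun v : Fin 6 → ℝ => 1 + v 0 := (Ma.const 1).add (Ma.coord 0)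
    refine hma.neg_log fun v hv => ?_
    have b0 := (hv 0).1
    linarith
  have htau : ∀ m : ℝ, ∀ V : (Fin 6 → ℝ) → ℝ, Ma V → Ma fun v => -C1.tau m (V v) := by
    intro m V hV
    have := ((hV.smul (-(43 / 200 + 39 / 100 * m))).add
      (Ma.const (-(omg m - (43 / 200 + 39 / 100 * m) * m))))
    refine fun v i => ?_
    obtain ⟨p, q, h⟩ := this v i
    refine ⟨p, q, fun u => ?_⟩
    rw [← h u]
    unfold C1.tau
    ring
  have hX : Cc lo hi fun v : Fin 6 → ℝ => P.k.X (U v) (v 1) (v 2) := by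
    have hLO : Cc lo hi fun v : Fin 6 → ℝ => C1.LOc (C1.cA P.k.L) (C1.cB P.k.L) P.k.gb P.k.kf (v 1) (v 2) := by
      rw [hgb]
      exact (((hq 1).add (ho 2)).max ((hq 2).add (ho 1))).max (((hk 1).add (ho 2)).max ((hk 2).add (ho 1)))
    have hLM : Cc lo hi fun v : Fin 6 → ℝ =>
        C1.LMc (C1.cA P.k.L) (C1.cB P.k.L) P.k.gb P.k.kf P.k.mf (v 1) (v 2) := by
      rw [hgb]
      unfold C1.LMc
      cases P.k.mf with
      | true => exact (hq 1).max (hk 1)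
      | false => exact (hq 2).max (hk 2)
    refine ((hLO.add (htau P.k.um U hU).cc).max hLM).congr fun v _ => ?_
    unfold C1.MP.X
    rw [sub_eq_add_neg]
  have s3 := ((((ho 3).add (ho 4)).add (ho 5)).add (l1.smul (show (0 : ℝ) ≤ 2 by norm_num))).smul h3
  have s1 := ((hX.add ((ho 3).add (ho 4))).add
    (l2.smul (show (0 : ℝ) ≤ 2 by norm_num))).smul (add_nonneg hP hA)
  have sU : Ma fun v : Fin 6 → ℝ => (-P.aA * P.k1) * U v
      + (-(P.aP * P.ψ) + P.aA * (6 / 125 - P.k0)) :=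
    (hU.smul _).add (Ma.const _)
  have sV : Ma fun v : Fin 6 → ℝ => (-P.zg * P.g1) * Uv v + P.zv * -C1.tau P.vm (Uv v)
      + -(P.zg * P.g0) :=
    ((hUv.smul _).add ((htau P.vm Uv hUv).smul P.zv)).add (Ma.const _)
  have g1 := cc_nlogF (lo := lo) (hi := hi) hU (mul_nonneg hP hαk) hUp
  have g2 := cc_nlogF (lo := lo) (hi := hi) hUv (mul_nonneg hP hαl) hVp
  refine ((((((s3.add s1).add hcut.cc).add sU.cc).add sV.cc).add g1).add g2).congr fun v _ => ?_
  unfold SF.S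
  ring_nf

/-- THE BOUND OF THE FUNCTION -/
theorem SF.bound (P : SF) {bj bk : Bool} {T0 T1 m' h t g x y z uk uv : ℝ} {Q : Multiset V4} {Gj Gk Gv : ℝ}
    (c : Cfg bj bk T0 T1 m' h t g x y z uk uv Q Gj Gk Gv) (hP : 0 ≤ P.aP) (hA : 0 ≤ P.aA)
    (hL : P.k.L ≤ 10) (hgb : P.k.gb = false) (hum : 0 ≤ P.k.um) (hvm : 0 ≤ P.vm) (hzv : 0 ≤ P.zv)
    (hzv1 : P.zv ≤ P.aP + P.aA) (hzg : 0 ≤ P.zg) (hzg1 : P.zg ≤ P.aA)
    (hlv : P.aP + P.aA ≠ 0 → P.k.L ≤ 3 ∨ (P.k.L : ℝ) / 10 ≤ max t g) {U Uv : ℝ}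
    (hU : P.aP + P.aA ≠ 0 → U ≤ uk) (hUv : P.aP + P.aA ≠ 0 → Uv ≤ uv ∧ Uv ≤ y)
    (hpl : P.aP ≠ 0 → P.ψ + P.αk * Real.log U + P.αl * Real.log Uv ≤ Gv)
    (had : P.aA ≠ 0 → Gv < 1 / 2 ∧ P.k0 + P.k1 * U ≤ gtr (3 / 20) (9 / 20) uk)
    (hgl : P.zg ≠ 0 → P.g0 + P.g1 * Uv ≤ gtr (3 / 20) (9 / 20) uv) (ht : 0 ≤ t) :
    P.a3 * (omg x + omg y + omg z - 2 * Real.log (2 * (h + t + g)))
      + (P.aP + P.aA) * ((lo2 t g - omg (min uk (max t g))) + (lo2 x y - omg (min uv (max x y))) - Gv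
        - 2 * Real.log (1 + h)) + P.aA * (Q.map fun e => gtr (3 / 20) (9 / 20) e.u).sum
    ≤ P.a3 * (omg x + omg y + omg z - 2 * Real.log (2 * (h + t + g)))
      + (P.aP + P.aA) * (P.k.X U t g + (omg x + omg y)
        - 2 * Real.log (1 + h))
      - P.aP * (P.ψ + P.αk * Real.log U + P.αl * Real.log Uv) + P.aA * (6 / 125 - P.k0 - P.k1 * U)
      - P.zv * C1.tau P.vm Uv - P.zg * (P.g0 + P.g1 * Uv) := by
  have hs := add_nonneg hP hA
  rcases hs.eq_or_lt with h10 | h10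
  · have e1 : P.aP = 0 := by linarith
    have e2 : P.aA = 0 := by linarith
    have e3 : P.zv = 0 := by linarith
    have e4 : P.zg = 0 := by linarith
    rw [e1, e2, e3, e4]
    simp
  have hne : P.aP + P.aA ≠ 0 := h10.ne'
  have u1 := hU hne
  obtain ⟨v1, v2⟩ := hUv hne
  have hlv := hlv hne
  have hg0 := c.g01.1
  have hx0 := c.x01.1
  have hx1 : x ≤ 1 := by have := c.x01.2; linarith
  have hy0 := c.y01.1
  have huv0 : 0 ≤ uv := by
    obtain ⟨_, q⟩ := c.geov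
    exact q.u0
  have huk0 : 0 ≤ uk := by
    obtain ⟨_, q⟩ := c.geok
    exact q.u0
  have k1 : lo2 t g - omg (min uk (max t g)) ≤ P.k.X U t g := by
    have e1 := P.k.bound False hL hum (U := U) ht hg0 hlv (by rw [hgb]; exact fun h => absurd h (by simp))
    have e2 : lo2 t g ≤ C1.lm2 False t g := by
      unfold lo2 C1.lm2
      rw [if_neg (fun h => h)]
      linarith [C1.lv_le_lf (max t g) (min t g)]
    have e3 : omg (min (max U 0) (max t g)) ≤ omg (min uk (max t g)) := by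
      have a1 : min (max U 0) (max t g) ≤ min uk (max t g) := min_le_min (max_le u1 huk0) le_rfl
      have a2 : 0 ≤ min (max U 0) (max t g) := le_min (le_max_right _ _) (ht.trans (le_max_left _ _))
      unfold omg
      nlinarith
    linarith
  have hw0 : 0 ≤ omg (min uv (max x y)) := by
    have : 0 ≤ min uv (max x y) := le_min huv0 (hx0.trans (le_max_left _ _))
    unfold omg
    positivity
  have k2 : P.zv * C1.tau P.vm Uv ≤ (P.aP + P.aA) * omg (min uv (max x y)) := by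
    have e2 : Uv ≤ min uv (max x y) := le_min v1 (v2.trans (le_max_right _ _))
    have e3 := (C1.tau_mono hvm e2).trans (C1.tau_le P.vm _)
    exact (mul_le_mul_of_nonneg_left e3 hzv).trans (mul_le_mul_of_nonneg_right hzv1 hw0)
  have k3 := lo2_le_omg hx0 hx1 hy0
  have k4 : P.aP * (P.ψ + P.αk * Real.log U + P.αl * Real.log Uv) ≤ P.aP * Gv := by
    by_cases h : P.aP = 0
    · rw [h, zero_mul, zero_mul]
    · exact mul_le_mul_of_nonneg_left (hpl h) hP
  obtain ⟨X, hX⟩ : ∃ X, X = (Q.map fun e => gtr (3 / 20) (9 / 20) e.u).sum := ⟨_, rfl⟩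
  have k5 : P.aA * (P.k0 + P.k1 * U) + P.zg * (P.g0 + P.g1 * Uv) + P.aA * (X - 6 / 125) ≤ P.aA * Gv := by
    by_cases h : P.aA = 0
    · have : P.zg = 0 := by linarith
      rw [h, this]
      simp
    · obtain ⟨w1, w2⟩ := had h
      have w3 := c.gv2
      rw [← hX] at w3
      rcases min_cases (gtr (3 / 20) (9 / 20) uk + gtr (3 / 20) (9 / 20) uv + X - 6 / 125) (1 / 2) with
        ⟨w4, -⟩ | ⟨w4, -⟩
      · rw [w4] at w3
        have w5 := mul_le_mul_of_nonneg_left w3 hA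
        have w6 := mul_le_mul_of_nonneg_left w2 hA
        have w7 : P.zg * (P.g0 + P.g1 * Uv) ≤ P.aA * gtr (3 / 20) (9 / 20) uv := by
          by_cases h' : P.zg = 0
          · rw [h', zero_mul]
            exact mul_nonneg hA (gtr_nonneg huv0)
          · exact (mul_le_mul_of_nonneg_left (hgl h') hzg).trans
              (mul_le_mul_of_nonneg_right hzg1 (gtr_nonneg huv0))
        linarith
      · rw [w4] at w3
        linarith
  rw [← hX]
  have k6 := mul_le_mul_of_nonneg_left k1 hs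
  have k7 := mul_le_mul_of_nonneg_left k3 hs
  linarith

end B2
end Pool.Agent.Lib.MP_6947cd_al
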