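import Pool.Agent.Lib.MP_6947cd_al.Z.SFun

/-!
Problem MP_6947cd_al (Chollet).  CASE B, middle second entry: the function of the main entries, with the additive
lower bound of the merged row.
-/

set_option autoImplicit false
open Finset

namespace Pool.Agent.Lib.MP_6947cd_al
namespace B2

open Ent Fr Fr.WT CC B1

lemma gtr_nonneg {u : ℝ} (hu : 0 ≤ u) : 0 ≤ gtr (3 / 20) (9 / 20) u := by
  have h : 0 ≤ min u (9 / 20) := le_min hu (by norm_num)
  unfold gtr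
  positivity

lemma gtr_mono' {u v : ℝ} (hu : 0 ≤ u) (h : u ≤ v) : gtr (3 / 20) (9 / 20) u ≤ gtr (3 / 20) (9 / 20) v := by
  have h0 : 0 ≤ min u (9 / 20) := le_min hu (by norm_num)
  have h1 : min u (9 / 20) ≤ min v (9 / 20) := min_le_min h le_rfl
  unfold gtr
  nlinarith

/-- a line below `gtr` -/
lemma line_gtr {k0 k1 U u Um : ℝ} (h1 : 0 ≤ k1) (h2 : (k1 - 43 / 200) ^ 2 ≤ 3 / 5 * (-k0)) (h3 : U ≤ Um)
    (h4 : k0 + k1 * Um ≤ 1017 / 8000) (h5 : U ≤ u) (h6 : 0 ≤ u) : k0 + k1 * U ≤ gtr (3 / 20) (9 / 20) u := by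
  have hk0 : k0 ≤ 0 := by nlinarith [sq_nonneg (k1 - 43 / 200)]
  rcases le_total U 0 with h | h
  · have := gtr_nonneg h6
    nlinarith [mul_nonneg h1 (neg_nonneg.mpr h)]
  · refine le_trans ?_ (gtr_mono' h h5)
    unfold gtr
    rcases le_total U (9 / 20) with h7 | h7
    · rw [min_eq_left h7]
      nlinarith [sq_nonneg (3 / 10 * U + (43 / 200 - k1))]
    · rw [min_eq_right h7]
      nlinarith [mul_le_mul_of_nonneg_left h3 h1]

/-- the parameters of the function -/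
structure SQ where
  a3 : ℝ
  aP : ℝ
  aA : ℝ
  /-- two-entry loss -/
  A0 : ℝ
  B0 : ℝ
  /-- majorant of `gtr` -/
  kf : Bool
  /-- `false`: the smaller entry is bounded by `g`, `true`: by `t` -/
  mf : Bool
  um : ℝ
  /-- special vertex: the tangent of `omg` and the line below `gtr` -/
  zv : ℝ
  vm : ℝ
  zg : ℝ
  g0 : ℝ
  g1 : ℝ
  /-- the line below `gtr` at `k` -/
  k0 : ℝ
  k1 : ℝ
  pA : ℝ
  pB : ℝ
  pC : ℝ
  /-- linear terms -/
  c0 : ℝ
  lx : ℝ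
  ly : ℝ
  lz : ℝ
  lg : ℝ
  lh : ℝ
  lt : ℝ

/-- the old parameters of the losses -/
noncomputable def SQ.P (P : SQ) : SP := ⟨0, 0, P.A0, P.B0, P.kf, P.mf, 0, 0, 0, 0, 0, 0, 0, 0, 0, 0⟩

/-- THE FUNCTION of the main entries -/
noncomputable def SQ.S (P : SQ) (U Uv : (Fin 6 → ℝ) → ℝ) (v : Fin 6 → ℝ) : ℝ :=
  P.a3 * (omg (v 3) + omg (v 4) + omg (v 5) - 2 * Real.log (2 * (v 0 + v 1 + v 2)))
    + (P.aP + P.aA) * (max (P.P.LO (v 1) (v 2) - tau P.um (U v)) (P.P.LM (v 1) (v 2))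
      + (omg (v 3) + omg (v 4)) - 2 * Real.log (1 + v 0))
    - P.aP * (P.pA + P.pB * U v + P.pC * Uv v) + P.aA * (6 / 125 - P.k0 - P.k1 * U v)
    - P.zv * tau P.vm (Uv v) - P.zg * (P.g0 + P.g1 * Uv v)
    + (P.c0 + P.lx * v 3 + P.ly * v 4 + P.lz * v 5 + P.lg * v 2 + P.lh * v 0 + P.lt * v 1)

/-- the function is convex in every coordinate -/
theorem SQ.cc (P : SQ) (h3 : 0 ≤ P.a3) (hP : 0 ≤ P.aP) (hA : 0 ≤ P.aA) (hB : 0 ≤ P.B0) {lo hi : Fin 6 → ℝ}
    {U Uv : (Fin 6 → ℝ) → ℝ} (hU : Ma U) (hUv : Ma Uv) (h0 : 0 < lo 0) (h10 : 0 ≤ lo 1) (h2 : 0 ≤ lo 2) :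
    Cc lo hi (P.S U Uv) := by
  have ho : ∀ j : Fin 6, Cc lo hi fun v => omg (v j) := fun j => cc_coord j (omg_convex _ (convex_Icc _ _))
  have hq : ∀ j : Fin 6, Cc lo hi fun v => qL P.A0 P.B0 (v j) := fun j =>
    cc_coord j (qL_convex hB _ (convex_Icc _ _))
  have hk : ∀ j : Fin 6, Cc lo hi fun v => kL P.kf (v j) := fun j => cc_coord j (kL_convex _ _ (convex_Icc _ _))
  have l1 : Cc lo hi fun v : Fin 6 → ℝ => -Real.log (2 * (v 0 + v 1 + v 2)) := by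
    have hma : Ma fun v : Fin 6 → ℝ => 2 * (v 0 + v 1 + v 2) :=
      (((Ma.coord 0).add (Ma.coord 1)).add (Ma.coord 2)).smul 2
    refine hma.neg_log fun v hv => ?_
    have b0 := (hv 0).1
    have b1 := (hv 1).1
    have b2 := (hv 2).1
    linarith
  have l2 : Cc lo hi fun v : Fin 6 → ℝ => -Real.log (1 + v 0) := by
    have hma : Ma fun v : Fin 6 → ℝ => 1 + v 0 := (Ma.const 1).add (Ma.coord 0)
    refine hma.neg_log fun v hv => ?_
    have b0 := (hv 0).1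
    linarith
  have htau : ∀ m : ℝ, ∀ V : (Fin 6 → ℝ) → ℝ, Ma V → Ma fun v => -tau m (V v) := by
    intro m V hV
    have := ((hV.smul (-(43 / 200 + 39 / 100 * m))).add
      (Ma.const (-(omg m - (43 / 200 + 39 / 100 * m) * m))))
    refine fun v i => ?_
    obtain ⟨p, q, h⟩ := this v i
    refine ⟨p, q, fun u => ?_⟩
    rw [← h u]
    unfold tau
    ring
  have hLO : Cc lo hi fun v : Fin 6 → ℝ => P.P.LO (v 1) (v 2) :=
    (((hq 1).add (ho 2)).max ((hq 2).add (ho 1))).max (((hk 1).add (ho 2)).max ((hk 2).add (ho 1)))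
  have hLM : Cc lo hi fun v : Fin 6 → ℝ => P.P.LM (v 1) (v 2) := by
    have e : (fun v : Fin 6 → ℝ => P.P.LM (v 1) (v 2)) = fun v => bif P.mf then
      max (qL P.A0 P.B0 (v 1)) (kL P.kf (v 1)) else max (qL P.A0 P.B0 (v 2)) (kL P.kf (v 2)) := rfl
    rw [e]
    cases P.mf with
    | false => exact (hq 2).max (hk 2)
    | true => exact (hq 1).max (hk 1)
  have hcc : Cc lo hi fun v : Fin 6 → ℝ => max (P.P.LO (v 1) (v 2) + -tau P.um (U v)) (P.P.LM (v 1) (v 2)) :=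
    (hLO.add (htau P.um U hU).cc).max hLM
  have s3 := ((((ho 3).add (ho 4)).add (ho 5)).add (l1.smul (show (0 : ℝ) ≤ 2 by norm_num))).smul h3
  have s1 := ((hcc.add ((ho 3).add (ho 4))).add
    (l2.smul (show (0 : ℝ) ≤ 2 by norm_num))).smul (add_nonneg hP hA)
  have s0 : Ma fun v : Fin 6 → ℝ => P.c0 + P.lx * v 3 + P.ly * v 4 + P.lz * v 5 + P.lg * v 2 + P.lh * v 0
      + P.lt * v 1 :=
    ((((((Ma.const P.c0).add ((Ma.coord 3).smul P.lx)).add ((Ma.coord 4).smul P.ly)).add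
      ((Ma.coord 5).smul P.lz)).add ((Ma.coord 2).smul P.lg)).add ((Ma.coord 0).smul P.lh)).add
      ((Ma.coord 1).smul P.lt)
  have sU : Ma fun v : Fin 6 → ℝ => (-(P.aP * P.pB) - P.aA * P.k1) * U v
      + (-(P.aP * P.pA) + P.aA * (6 / 125 - P.k0)) :=
    (hU.smul _).add (Ma.const _)
  have sV : Ma fun v : Fin 6 → ℝ => (-(P.aP * P.pC) - P.zg * P.g1) * Uv v + P.zv * -tau P.vm (Uv v)
      + -(P.zg * P.g0) :=
    ((hUv.smul _).add ((htau P.vm Uv hUv).smul P.zv)).add (Ma.const _)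
  refine ((((s3.add s1).add s0.cc).add sU.cc).add sV.cc).congr fun v _ => ?_
  unfold SQ.S
  ring_nf

/-- THE BOUND OF THE FUNCTION -/
theorem SQ.bound (P : SQ) {bj bk : Bool} {T0 T1 m' h t g x y z uk uv : ℝ} {Q : Multiset V4} {Gj Gk Gv : ℝ}
    (c : Cfg bj bk T0 T1 m' h t g x y z uk uv Q Gj Gk Gv) (hP : 0 ≤ P.aP) (hA : 0 ≤ P.aA) (hA0 : 0 ≤ P.A0)
    (hB : 0 ≤ P.B0) (hum : 0 ≤ P.um) (hvm : 0 ≤ P.vm) (hzv : 0 ≤ P.zv) (hzv1 : P.zv ≤ P.aP + P.aA)
    (hzg : 0 ≤ P.zg) (hzg1 : P.zg ≤ P.aA)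
    (hlv : P.aP + P.aA ≠ 0 → lv (max t g) (min t g) ≤ l1 P.A0 P.B0 (min t g)) {U Uv : ℝ}
    (hU : P.aP + P.aA ≠ 0 → U ≤ uk) (hUv : P.aP + P.aA ≠ 0 → Uv ≤ uv ∧ Uv ≤ y)
    (hpl : P.aP ≠ 0 → P.pA + P.pB * U + P.pC * Uv ≤ Gv)
    (had : P.aA ≠ 0 → Gv < 1 / 2 ∧ P.k0 + P.k1 * U ≤ gtr (3 / 20) (9 / 20) uk)
    (hgl : P.zg ≠ 0 → P.g0 + P.g1 * Uv ≤ gtr (3 / 20) (9 / 20) uv) (ht : 0 ≤ t) :
    P.a3 * (omg x + omg y + omg z - 2 * Real.log (2 * (h + t + g)))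
      + (P.aP + P.aA) * ((lo2 t g - omg (min uk (max t g))) + (lo2 x y - omg (min uv (max x y))) - Gv
        - 2 * Real.log (1 + h)) + P.aA * (Q.map fun e => gtr (3 / 20) (9 / 20) e.u).sum
    ≤ P.a3 * (omg x + omg y + omg z - 2 * Real.log (2 * (h + t + g)))
      + (P.aP + P.aA) * (max (P.P.LO t g - tau P.um U) (P.P.LM t g) + (omg x + omg y)
        - 2 * Real.log (1 + h))
      - P.aP * (P.pA + P.pB * U + P.pC * Uv) + P.aA * (6 / 125 - P.k0 - P.k1 * U)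
      - P.zv * tau P.vm Uv - P.zg * (P.g0 + P.g1 * Uv) := by
  have hs := add_nonneg hP hA
  rcases hs.eq_or_lt with h10 | h10
  · have e1 : P.aP = 0 := by linarith
    have e2 : P.aA = 0 := by linarith
    have e3 : P.zv = 0 := by linarith
    have e4 : P.zg = 0 := by linarith
    rw [e1, e2, e3, e4]
    simp
  have hne : P.aP + P.aA ≠ 0 := h10.ne'
  have u1 := hU hne
  obtain ⟨v1, v2⟩ := hUv hne
  have hlv := hlv hne
  have hg0 := c.g01.1
  have hx0 := c.x01.1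
  have hx1 : x ≤ 1 := by have := c.x01.2; linarith
  have hy0 := c.y01.1
  have k1 : lo2 t g - omg (min uk (max t g)) ≤ max (P.P.LO t g - tau P.um U) (P.P.LM t g) := by
    rcases le_total uk (max t g) with h | h
    · rw [min_eq_left h]
      refine le_trans ?_ (le_max_left _ _)
      have e1 := P.P.LO_ge ht hg0 hlv
      have e2 := (tau_mono hum u1).trans (tau_le P.um uk)
      linarith
    · rw [min_eq_right h]
      exact (P.P.LM_ge hA0 hB ht hg0 hlv).trans (le_max_right _ _)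
  have huv0 : 0 ≤ uv := by
    obtain ⟨_, q⟩ := c.geov
    exact q.u0
  have huk0 : 0 ≤ uk := by
    obtain ⟨_, q⟩ := c.geok
    exact q.u0
  have hw0 : 0 ≤ omg (min uv (max x y)) := by
    have : 0 ≤ min uv (max x y) := le_min huv0 (hx0.trans (le_max_left _ _))
    unfold omg
    positivity
  have k2 : P.zv * tau P.vm Uv ≤ (P.aP + P.aA) * omg (min uv (max x y)) := by
    have e2 : Uv ≤ min uv (max x y) := le_min v1 (v2.trans (le_max_right _ _))
    have e3 := (tau_mono hvm e2).trans (tau_le P.vm _)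
    exact (mul_le_mul_of_nonneg_left e3 hzv).trans (mul_le_mul_of_nonneg_right hzv1 hw0)
  have k3 := lo2_le_omg hx0 hx1 hy0
  have k4 : P.aP * (P.pA + P.pB * U + P.pC * Uv) ≤ P.aP * Gv := by
    by_cases h : P.aP = 0
    · rw [h, zero_mul, zero_mul]
    · exact mul_le_mul_of_nonneg_left (hpl h) hP
  obtain ⟨X, hX⟩ : ∃ X, X = (Q.map fun e => gtr (3 / 20) (9 / 20) e.u).sum := ⟨_, rfl⟩
  have k5 : P.aA * (P.k0 + P.k1 * U) + P.zg * (P.g0 + P.g1 * Uv) + P.aA * (X - 6 / 125) ≤ P.aA * Gv := by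
    by_cases h : P.aA = 0
    · have : P.zg = 0 := by linarith
      rw [h, this]
      simp
    · obtain ⟨w1, w2⟩ := had h
      have w3 := c.gv2
      rw [← hX] at w3
      rcases min_cases (gtr (3 / 20) (9 / 20) uk + gtr (3 / 20) (9 / 20) uv + X - 6 / 125) (1 / 2) with
        ⟨w4, -⟩ | ⟨w4, -⟩
      · rw [w4] at w3
        have w5 := mul_le_mul_of_nonneg_left w3 hA
        have w6 := mul_le_mul_of_nonneg_left w2 hA
        have w7 : P.zg * (P.g0 + P.g1 * Uv) ≤ P.aA * gtr (3 / 20) (9 / 20) uv := by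
          by_cases h' : P.zg = 0
          · rw [h', zero_mul]
            exact mul_nonneg hA (gtr_nonneg huv0)
          · exact (mul_le_mul_of_nonneg_left (hgl h') hzg).trans
              (mul_le_mul_of_nonneg_right hzg1 (gtr_nonneg huv0))
        linarith
      · rw [w4] at w3
        linarith
  rw [← hX]
  have k6 := mul_le_mul_of_nonneg_left k1 hs
  have k7 := mul_le_mul_of_nonneg_left k3 hs
  linarith

end B2
end Pool.Agent.Lib.MP_6947cd_al
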