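import Pool.Agent.Lib.MP_6947cd_al.Z.Lf6
import Pool.Agent.Lib.MP_6947cd_al.Y.R1
import Pool.Agent.Lib.MP_6947cd_al.Y.R4
import Pool.Agent.Lib.MP_6947cd_al.Y.S1

/-!
Problem MP_6947cd_al (Chollet).  CASE B, middle second entry: the general statements which are used.
-/

set_option autoImplicit false

namespace Pool.Agent.Lib.MP_6947cd_al
namespace B2

open B1

theorem spB (h : CB.LibII) : SpB := ⟨⟨specR2, specR4, specR5⟩, specS1, specS2, specR7, h⟩

end B2
end Pool.Agent.Lib.MP_6947cd_al
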